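import Pool.Agent.G3.C.Ode

/-!
# G3 C GenA: solutions of regular relations are analytic in `s`

`JetFam w I D`: `w j s z` is the `j`-th derivative in `s` of `w 0 s z`, continuous in both variables and holomorphic in `z`.
`gen_step`: if the jets satisfy `Q (s, z, w_0, …, w_k) = 0` and the derivative of `Q` in the last variable is not `0` at one point, then `w 0` extends, near this point, to
complex `s`: differentiate the relation once and apply `ode_real` for each `z`.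
-/

set_option autoImplicit false

open Topology Filter Metric

namespace Pool.Agent.G3.C

/-- a family of functions of `s ∈ I` with the parameter `z ∈ D`: `w j` is the `j`-th derivative in `s` -/
structure JetFam (w : ℕ → ℝ → ℂ → ℂ) (I : Set ℝ) (D : Set ℂ) : Prop where
  der : ∀ j, ∀ s ∈ I, ∀ z ∈ D, HasDerivAt (fun t => w j t z) (w (j + 1) s z) s
  cont : ∀ j, ContinuousOn (fun q : ℝ × ℂ => w j q.1 q.2) (I ×ˢ D)
  hol : ∀ j, ∀ s ∈ I, DifferentiableOn ℂ (w j s) D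

/-- the point `(s, z, w_0, …, w_k)` -/
noncomputable def Jt (k : ℕ) (w : ℕ → ℝ → ℂ → ℂ) (s : ℝ) (z : ℂ) : ℂ × ℂ × (Fin (k + 1) → ℂ) := ((s : ℂ), z, fun j => w j s z)

/-- the derivative in the last variable -/
noncomputable def dk {k : ℕ} (Q : ℂ × ℂ × (Fin (k + 1) → ℂ) → ℂ) (q : ℂ × ℂ × (Fin (k + 1) → ℂ)) : ℂ :=
  fderiv ℂ Q q (0, 0, Pi.single (Fin.last k) 1)

theorem dk_analytic {k : ℕ} {Q : ℂ × ℂ × (Fin (k + 1) → ℂ) → ℂ} {q : ℂ × ℂ × (Fin (k + 1) → ℂ)} (hQ : AnalyticAt ℂ Q q) : AnalyticAt ℂ (dk Q) q := by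
  have h1 : AnalyticAt ℂ (fderiv ℂ Q) q := hQ.fderiv
  exact (ContinuousLinearMap.apply ℂ ℂ ((0, 0, Pi.single (Fin.last k) 1) : ℂ × ℂ × (Fin (k + 1) → ℂ))).analyticAt _ |>.comp h1

/-- the conclusion: near `(s₁, z₁)` the function `w` extends to complex `s` -/
def Ext (w : ℝ → ℂ → ℂ) (I : Set ℝ) (D : Set ℂ) (s₁ : ℝ) (z₁ : ℂ) : Prop :=
  ∃ (ε : ℝ) (W : ℂ → ℂ → ℂ) (C : ℝ), 0 < ε ∧ ball z₁ ε ⊆ D ∧ (∀ s : ℝ, |s - s₁| < ε → s ∈ I) ∧
    (∀ z ∈ ball z₁ ε, DifferentiableOn ℂ (fun s => W s z) (ball (s₁ : ℂ) ε)) ∧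
    (∀ z ∈ ball z₁ ε, ∀ s : ℝ, |s - s₁| < ε → W s z = w s z) ∧ ∀ s ∈ ball (s₁ : ℂ) ε, ∀ z ∈ ball z₁ ε, ‖W s z‖ ≤ C

theorem split_vec {k : ℕ} (v : Fin (k + 1) → ℂ) :
    ((1, 0, v) : ℂ × ℂ × (Fin (k + 1) → ℂ)) = (1, 0, 0) + ∑ j : Fin k, v j.castSucc • ((0, 0, Pi.single j.castSucc 1) : ℂ × ℂ × (Fin (k + 1) → ℂ)) +
      v (Fin.last k) • ((0, 0, Pi.single (Fin.last k) 1) : ℂ × ℂ × (Fin (k + 1) → ℂ)) := by
  have h : (v : Fin (k + 1) → ℂ) = ∑ j : Fin (k + 1), v j • (Pi.single j 1 : Fin (k + 1) → ℂ) := by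
    ext i
    simp [Finset.sum_apply, Pi.single_apply]
  have h2 : ((0, 0, v) : ℂ × ℂ × (Fin (k + 1) → ℂ)) = ∑ j : Fin (k + 1), v j • ((0, 0, Pi.single j 1) : ℂ × ℂ × (Fin (k + 1) → ℂ)) := by
    rw [Prod.ext_iff, Prod.ext_iff]
    refine ⟨by simp [Prod.fst_sum], by simp [Prod.fst_sum, Prod.snd_sum], ?_⟩
    simp only [Prod.snd_sum, Prod.smul_snd]
    exact h
  rw [Fin.sum_univ_castSucc] at h2
  rw [add_assoc, ← h2]
  simp

theorem gen_step {k : ℕ} {O : Set (ℂ × ℂ × (Fin (k + 1) → ℂ))} (hO : IsOpen O) {Q : ℂ × ℂ × (Fin (k + 1) → ℂ) → ℂ} (hQ : AnalyticOnNhd ℂ Q O)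
    {w : ℕ → ℝ → ℂ → ℂ} {I : Set ℝ} {D : Set ℂ} (hI : IsOpen I) (hD : IsOpen D) (hw : JetFam w I D) (hmem : ∀ s ∈ I, ∀ z ∈ D, Jt k w s z ∈ O)
    (hrel : ∀ s ∈ I, ∀ z ∈ D, Q (Jt k w s z) = 0) {s₁ : ℝ} {z₁ : ℂ} (hs₁ : s₁ ∈ I) (hz₁ : z₁ ∈ D) (hne : dk Q (Jt k w s₁ z₁) ≠ 0) :
    Ext (w 0) I D s₁ z₁ := by
  set q₁ := Jt k w s₁ z₁ with hq₁
  -- the right hand side of the equation
  set G : ℂ × ℂ × (Fin (k + 1) → ℂ) → ℂ := fun q =>
    -(fderiv ℂ Q q (1, 0, 0) + ∑ j : Fin k, q.2.2 j.succ * fderiv ℂ Q q (0, 0, Pi.single j.castSucc 1)) / dk Q q with hG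
  set VV : ℂ × ℂ × (Fin (k + 1) → ℂ) → Fin (k + 1) → ℂ := fun q => Fin.snoc (α := fun _ => ℂ) (fun j : Fin k => q.2.2 j.succ) (G q) with hVV
  have hap : ∀ v : ℂ × ℂ × (Fin (k + 1) → ℂ), ∀ q ∈ O, AnalyticAt ℂ (fun q => fderiv ℂ Q q v) q := by
    intro v q hq
    exact (ContinuousLinearMap.apply ℂ ℂ v).analyticAt _ |>.comp (hQ q hq).fderiv
  have hco : ∀ (j : Fin (k + 1)) (q : ℂ × ℂ × (Fin (k + 1) → ℂ)), AnalyticAt ℂ (fun q : ℂ × ℂ × (Fin (k + 1) → ℂ) => q.2.2 j) q := by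
    intro j q
    exact ((ContinuousLinearMap.proj (R := ℂ) (φ := fun _ : Fin (k + 1) => ℂ) j).comp
      ((ContinuousLinearMap.snd ℂ ℂ (Fin (k + 1) → ℂ)).comp (ContinuousLinearMap.snd ℂ ℂ (ℂ × (Fin (k + 1) → ℂ))))).analyticAt q
  have hGa : ∀ q ∈ O, dk Q q ≠ 0 → AnalyticAt ℂ G q := by
    intro q hq hq0
    apply AnalyticAt.div _ (dk_analytic (hQ q hq)) hq0
    apply AnalyticAt.neg
    apply (hap _ q hq).add
    apply Finset.analyticAt_fun_sum
    intro j _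
    exact (hco j.succ q).mul (hap _ q hq)
  have hVa : ∀ q ∈ O, dk Q q ≠ 0 → AnalyticAt ℂ VV q := by
    intro q hq hq0
    rw [analyticAt_pi_iff]
    intro i
    refine Fin.lastCases ?_ (fun j => ?_) i
    · simpa [hVV] using hGa q hq hq0
    · simpa [hVV] using hco j.succ q
  have hdkc : ContinuousAt (dk Q) q₁ := (dk_analytic (hQ q₁ (hmem s₁ hs₁ z₁ hz₁))).continuousAt
  have hVc : ContinuousAt VV q₁ := (hVa q₁ (hmem s₁ hs₁ z₁ hz₁) hne).continuousAt
  obtain ⟨R, hR, hball⟩ : ∃ R : ℝ, 0 < R ∧ ∀ q ∈ ball q₁ (2 * R), q ∈ O ∧ dk Q q ≠ 0 ∧ ‖VV q‖ ≤ ‖VV q₁‖ + 1 := by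
    have h1 : ∀ᶠ q in 𝓝 q₁, q ∈ O ∧ dk Q q ≠ 0 ∧ ‖VV q‖ ≤ ‖VV q₁‖ + 1 := by
      refine (hO.eventually_mem (hmem s₁ hs₁ z₁ hz₁)).and ((hdkc.eventually_ne hne).and ?_)
      filter_upwards [hVc.norm.eventually_le_const (show ‖VV q₁‖ < ‖VV q₁‖ + 1 by linarith)] with q hq using hq
    obtain ⟨R, hR, h2⟩ := Metric.eventually_nhds_iff_ball.mp h1
    exact ⟨R / 2, by positivity, fun q hq => h2 q (by rwa [mul_div_cancel₀ R (two_ne_zero)] at hq)⟩
  set M := ‖VV q₁‖ + 1 with hM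
  have hM0 : 0 < M := by positivity
  obtain ⟨ε₀, hε₀, hε₀R, hode⟩ := ode_real (n := k + 1) hR hM0
  -- joint continuity of the jets
  have hJc : ContinuousAt (fun q : ℝ × ℂ => (fun j : Fin (k + 1) => w j q.1 q.2 : Fin (k + 1) → ℂ)) (s₁, z₁) := by
    rw [continuousAt_pi]
    intro j
    exact (hw.cont j).continuousAt ((hI.prod hD).mem_nhds ⟨hs₁, hz₁⟩)
  obtain ⟨r, hr, hrR, hrb⟩ : ∃ r : ℝ, 0 < r ∧ r ≤ R ∧ ∀ q ∈ ball (s₁, z₁) r, q ∈ I ×ˢ D ∧
      (fun j : Fin (k + 1) => w j q.1 q.2 : Fin (k + 1) → ℂ) ∈ ball (fun j : Fin (k + 1) => w j s₁ z₁ : Fin (k + 1) → ℂ) (R / 2) := by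
    have h1 : ∀ᶠ q in 𝓝 (s₁, z₁), q ∈ I ×ˢ D ∧
      (fun j : Fin (k + 1) => w j q.1 q.2 : Fin (k + 1) → ℂ) ∈ ball (fun j : Fin (k + 1) => w j s₁ z₁ : Fin (k + 1) → ℂ) (R / 2) :=
      ((hI.prod hD).eventually_mem ⟨hs₁, hz₁⟩).and (hJc.eventually_mem (isOpen_ball.mem_nhds (mem_ball_self (by positivity))))
    obtain ⟨r, hr, h2⟩ := Metric.eventually_nhds_iff_ball.mp h1
    exact ⟨min r R, lt_min hr hR, min_le_right _ _, fun q hq => h2 q (ball_subset_ball (min_le_left _ _) hq)⟩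
  set ε := min (min ε₀ r) R with hε
  have hε0 : 0 < ε := by positivity
  have hεε₀ : ε ≤ ε₀ := (min_le_left _ _).trans (min_le_left _ _)
  have hεr : ε ≤ r := (min_le_left _ _).trans (min_le_right _ _)
  have hεR : ε ≤ R := min_le_right _ _
  have hin : ∀ s : ℝ, |s - s₁| < r → ∀ z ∈ ball z₁ r, s ∈ I ∧ z ∈ D ∧
      (fun j : Fin (k + 1) => w j s z : Fin (k + 1) → ℂ) ∈ ball (fun j : Fin (k + 1) => w j s₁ z₁ : Fin (k + 1) → ℂ) (R / 2) := by
    intro s hs z hz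
    have h1 : ((s, z) : ℝ × ℂ) ∈ ball (s₁, z₁) r := by
      rw [← ball_prod_same]
      exact ⟨by rwa [mem_ball, Real.dist_eq], hz⟩
    obtain ⟨h2, h3⟩ := hrb _ h1
    exact ⟨h2.1, h2.2, h3⟩
  -- the solution for each z
  have hsol : ∀ z ∈ ball z₁ ε, ∃ Y : ℂ → Fin (k + 1) → ℂ, DifferentiableOn ℂ Y (ball (s₁ : ℂ) ε) ∧
      (∀ s ∈ ball (s₁ : ℂ) ε, ‖Y s‖ ≤ ‖(fun j : Fin (k + 1) => w j s₁ z₁ : Fin (k + 1) → ℂ)‖ + 2 * R) ∧
      ∀ s : ℝ, |s - s₁| < ε → Y (s : ℂ) = fun j : Fin (k + 1) => w j s z := by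
    intro z hz
    have hzr : z ∈ ball z₁ r := ball_subset_ball hεr hz
    have hzR : dist z z₁ < R := lt_of_lt_of_le hz hεR
    set y₁ : Fin (k + 1) → ℂ := fun j => w j s₁ z with hy₁
    have hy₁b : dist y₁ (fun j : Fin (k + 1) => w j s₁ z₁) < R / 2 := (hin s₁ (by simpa using hr) z hzr).2.2
    have hsub : ∀ q ∈ ball ((s₁ : ℂ), y₁) R, ((q.1, z, q.2) : ℂ × ℂ × (Fin (k + 1) → ℂ)) ∈ ball q₁ (2 * R) := by
      intro q hq
      rw [← ball_prod_same] at hq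
      rw [hq₁, Jt, ← ball_prod_same, ← ball_prod_same]
      refine ⟨?_, ?_, ?_⟩
      · exact ball_subset_ball (by linarith) hq.1
      · exact ball_subset_ball (by linarith) (show z ∈ ball z₁ R from hzR)
      · have h1 : dist q.2 y₁ < R := hq.2
        calc dist q.2 (fun j : Fin (k + 1) => w j s₁ z₁) ≤ dist q.2 y₁ + dist y₁ (fun j : Fin (k + 1) => w j s₁ z₁) := dist_triangle _ _ _
          _ < 2 * R := by linarith
    have hins : ∀ q : ℂ × (Fin (k + 1) → ℂ), AnalyticAt ℂ (fun q : ℂ × (Fin (k + 1) → ℂ) => ((q.1, z, q.2) : ℂ × ℂ × (Fin (k + 1) → ℂ))) q := by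
      intro q
      exact analyticAt_fst.prod (analyticAt_const.prod analyticAt_snd)
    obtain ⟨Y, hY1, hY2, hY3⟩ := hode (fun q => VV (q.1, z, q.2)) s₁ y₁ (by
        intro q hq
        obtain ⟨h1, h2, h3⟩ := hball _ (hsub q hq)
        exact ((hVa _ h1 h2).comp_of_eq (hins q) rfl).differentiableAt.differentiableWithinAt) (by
        intro q hq
        exact (hball _ (hsub q hq)).2.2) r (fun s j => w j s z) hr rfl (by
        intro s hs
        obtain ⟨hsI, hzD, hsb⟩ := hin s hs z hzr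
        refine ⟨?_, ?_⟩
        · rw [mem_ball] at hsb ⊢
          calc dist (fun j : Fin (k + 1) => w j s z) y₁ ≤ dist (fun j : Fin (k + 1) => w j s z : Fin (k + 1) → ℂ) (fun j : Fin (k + 1) => w j s₁ z₁) +
              dist y₁ (fun j : Fin (k + 1) => w j s₁ z₁) := dist_triangle_right _ _ _
            _ < R := by linarith
        · -- the differential equation
          have hder : HasDerivAt (fun t : ℝ => (fun j : Fin (k + 1) => w j t z : Fin (k + 1) → ℂ)) (fun j : Fin (k + 1) => w (j + 1) s z) s := by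
            rw [hasDerivAt_pi]
            intro j
            exact hw.der j s hsI z hzD
          convert hder using 1
          ext i
          refine Fin.lastCases ?_ (fun j => ?_) i
          · simp only [hVV, Fin.snoc_last, Fin.val_last]
            have hJ : HasDerivAt (fun t : ℝ => Jt k w t z) ((1, 0, fun j : Fin (k + 1) => w (j + 1) s z) : ℂ × ℂ × (Fin (k + 1) → ℂ)) s := by
              apply HasDerivAt.prodMk (HasDerivAt.ofReal_comp (hasDerivAt_id s))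
              exact (hasDerivAt_const s z).prodMk hder
            have hQd : HasFDerivAt Q ((fderiv ℂ Q (Jt k w s z)).restrictScalars ℝ) (Jt k w s z) :=
              (hQ _ (hmem s hsI z hzD)).differentiableAt.hasFDerivAt.restrictScalars ℝ
            have hcomp := hQd.comp_hasDerivAt s hJ
            have hz0 : HasDerivAt (Q ∘ fun t : ℝ => Jt k w t z) 0 s := by
              apply (hasDerivAt_const s (0 : ℂ)).congr_of_eventuallyEq
              filter_upwards [hI.mem_nhds hsI] with t ht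
              exact hrel t ht z hzD
            have heq := hcomp.unique hz0
            simp only [ContinuousLinearMap.coe_restrictScalars'] at heq
            rw [split_vec, map_add, map_add, map_sum, map_smul] at heq
            simp only [map_smul, smul_eq_mul, Fin.val_castSucc, Fin.val_last] at heq
            have hqb : Jt k w s z ∈ ball q₁ (2 * R) := by
              apply hsub ((s : ℂ), fun j : Fin (k + 1) => w j s z)
              rw [← ball_prod_same]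
              refine ⟨?_, ?_⟩
              · rw [mem_ball, dist_eq_norm, ← Complex.ofReal_sub, Complex.norm_real]
                exact lt_of_lt_of_le hs hrR
              · rw [mem_ball] at hsb ⊢
                calc dist (fun j : Fin (k + 1) => w j s z) y₁ ≤ dist (fun j : Fin (k + 1) => w j s z : Fin (k + 1) → ℂ) (fun j : Fin (k + 1) => w j s₁ z₁) +
                    dist y₁ (fun j : Fin (k + 1) => w j s₁ z₁) := dist_triangle_right _ _ _
                  _ < R := by linarith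
            have hdn : dk Q (Jt k w s z) ≠ 0 := (hball _ hqb).2.1
            rw [hG]
            simp only [Jt] at heq hdn ⊢
            rw [div_eq_iff hdn]
            simp only [dk, Fin.val_succ] at heq ⊢
            linear_combination -heq
          · simp [hVV])
    refine ⟨Y, hY1.mono (ball_subset_ball hεε₀), ?_, ?_⟩
    · intro s hs
      have h1 := hY2 s (ball_subset_ball hεε₀ hs)
      rw [mem_ball, dist_eq_norm] at h1
      have h2 : ‖y₁ - (fun j : Fin (k + 1) => w j s₁ z₁)‖ < R / 2 := by rwa [dist_eq_norm] at hy₁b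
      calc ‖Y s‖ = ‖(fun j : Fin (k + 1) => w j s₁ z₁ : Fin (k + 1) → ℂ) + (y₁ - (fun j : Fin (k + 1) => w j s₁ z₁)) + (Y s - y₁)‖ := by
            congr 1
            abel
        _ ≤ ‖(fun j : Fin (k + 1) => w j s₁ z₁ : Fin (k + 1) → ℂ)‖ + ‖y₁ - (fun j : Fin (k + 1) => w j s₁ z₁)‖ + ‖Y s - y₁‖ := norm_add₃_le
        _ ≤ _ := by linarith
    · intro s hs
      exact hY3 s (hs.trans_le hεε₀) (hs.trans_le hεr)
  choose! Y hY1 hY2 hY3 using hsol
  refine ⟨ε, fun s z => Y z s 0, ‖(fun j : Fin (k + 1) => w j s₁ z₁ : Fin (k + 1) → ℂ)‖ + 2 * R, hε0, ?_, ?_, ?_, ?_, ?_⟩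
  · intro z hz
    exact (hin s₁ (by simpa using hr) z (ball_subset_ball hεr hz)).2.1
  · intro s hs
    exact (hin s (hs.trans_le hεr) z₁ (mem_ball_self hr)).1
  · intro z hz
    exact (differentiableOn_pi.mp (hY1 z hz)) 0
  · intro z hz s hs
    show Y z (s : ℂ) 0 = w 0 s z
    rw [hY3 z hz s hs]
    simp
  · intro s hs z hz
    exact (norm_le_pi_norm _ 0).trans (hY2 z hz s hs)

end Pool.Agent.G3.C
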