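import Mathlib

/-!
# G3 C LemmaU: the uniqueness lemma on a half plane

`HP ω h` is the half plane `{z | h < Im (ω̄ z)}`.  `hp_zero`: if `L` is continuous on the half plane, its means over the circles of radius `R₀` exceed the value at the
centre by at least `c > 0`, `P` is holomorphic and `|P| e^L ≤ C`, then `P = 0`.
-/

set_option autoImplicit false

open Topology Filter Metric

namespace Pool.Agent.G3.C

/-- the half plane `{z | h < Im (ω̄ z)}` -/
def HP (ω : ℂ) (h : ℝ) : Set ℂ := {z | h < ((starRingEnd ℂ) ω * z).im}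

theorem isOpen_HP (ω : ℂ) (h : ℝ) : IsOpen (HP ω h) := isOpen_lt continuous_const (by fun_prop)

theorem convex_HP (ω : ℂ) (h : ℝ) : Convex ℝ (HP ω h) := by
  intro z hz w hw a b ha hb hab
  simp only [HP, Set.mem_ofPred_eq] at hz hw ⊢
  have h1 : ((starRingEnd ℂ) ω * (a • z + b • w)).im = a * ((starRingEnd ℂ) ω * z).im + b * ((starRingEnd ℂ) ω * w).im := by
    simp only [Complex.real_smul, mul_add, Complex.add_im]
    rw [show (starRingEnd ℂ) ω * ((a : ℂ) * z) = (a : ℂ) * ((starRingEnd ℂ) ω * z) by ring,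
      show (starRingEnd ℂ) ω * ((b : ℂ) * w) = (b : ℂ) * ((starRingEnd ℂ) ω * w) by ring, Complex.im_ofReal_mul, Complex.im_ofReal_mul]
  rw [h1]
  rcases eq_or_lt_of_le ha with h0 | h0
  · rw [← h0] at hab ⊢
    rw [zero_add] at hab
    rw [hab]
    linarith
  · have h2 := mul_lt_mul_of_pos_left hz h0
    have h3 := mul_le_mul_of_nonneg_left hw.le hb
    have h4 : a * h + b * h = h := by rw [← add_mul, hab, one_mul]
    linarith

/-- sub-mean inequality with a continuous majorant -/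
theorem log_norm_le_avg {P : ℂ → ℂ} {c : ℂ} {r : ℝ} (hr : 0 < r) (hP : AnalyticOnNhd ℂ P (closedBall c r)) (hc : P c ≠ 0) {g : ℂ → ℝ}
    (hg : ContinuousOn g (sphere c r)) (hle : ∀ z ∈ sphere c r, ‖P z‖ ≤ Real.exp (g z)) :
    Real.log ‖P c‖ ≤ Real.circleAverage g c r := by
  have har : |r| = r := abs_of_pos hr
  have hana : AnalyticOnNhd ℂ P (closedBall c |r|) := by rwa [har]
  have h1 : Real.log ‖P c‖ ≤ Real.circleAverage (fun z => Real.log ‖P z‖) c r := by
    rw [AnalyticOnNhd.circleAverage_log_norm hr.ne' hana hc]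
    have h1 : 0 ≤ ∑ᶠ u, (MeromorphicOn.divisor P (closedBall c |r|) u : ℝ) * Real.log (r * ‖c - u‖⁻¹) := by
      apply finsum_nonneg
      intro u
      by_cases hu : u ∈ closedBall c |r|
      · apply mul_nonneg
        · have := MeromorphicOn.AnalyticOnNhd.divisor_nonneg hana u
          exact_mod_cast this
        · by_cases huc : u = c
          · simp [huc]
          · apply Real.log_nonneg
            have h2 : 0 < ‖c - u‖ := by
              rw [norm_pos_iff, sub_ne_zero]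
              exact fun h => huc h.symm
            have h3 : ‖c - u‖ ≤ r := by
              rw [mem_closedBall, dist_eq_norm, abs_of_pos hr, norm_sub_rev] at hu
              exact hu
            rw [← div_eq_mul_inv, le_div_iff₀ h2]
            linarith
      · have : MeromorphicOn.divisor P (closedBall c |r|) u = 0 := Function.locallyFinsuppWithin.apply_eq_zero_of_notMem _ hu
        simp [this]
    linarith
  refine h1.trans ?_
  set f₂ : ℂ → ℝ := fun z => if P z = 0 then g z else Real.log ‖P z‖ with hf₂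
  have hcod : (fun z => Real.log ‖P z‖) =ᶠ[codiscreteWithin (sphere c |r|)] f₂ := by
    rcases hana.eqOn_zero_or_eventually_ne_zero_of_preconnected (convex_closedBall c |r|).isPreconnected with h | h
    · exact absurd (h (mem_closedBall_self (abs_nonneg r))) hc
    · have h' : ∀ᶠ x in codiscreteWithin (sphere c |r|), P x ≠ 0 := h.filter_mono (Filter.codiscreteWithin_mono sphere_subset_closedBall)
      filter_upwards [h'] with z hz
      simp [hf₂, hz]
  have hint1 : CircleIntegrable (fun z => Real.log ‖P z‖) c r := by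
    apply MeromorphicOn.circleIntegrable_log_norm
    intro z hz
    exact (hana z (sphere_subset_closedBall hz)).meromorphicAt
  have hint2 : CircleIntegrable f₂ c r := hint1.congr_codiscreteWithin hcod
  have hint : CircleIntegrable g c r := hg.circleIntegrable hr.le
  rw [Real.circleAverage_congr_codiscreteWithin hcod hr.ne']
  apply Real.circleAverage_mono hint2 hint
  intro z hz
  rw [har] at hz
  by_cases hz0 : P z = 0
  · simp [hf₂, hz0]
  · simp only [hf₂, hz0, if_false]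
    rw [Real.log_le_iff_le_exp (norm_pos_iff.mpr hz0)]
    exact hle z hz

/-- the comparison function -/
noncomputable def WU (ω : ℂ) (h κ δ H : ℝ) (P : ℂ → ℂ) (L : ℂ → ℝ) (z : ℂ) : ℝ :=
  ‖P z‖ * Real.exp (L z + κ * ((((starRingEnd ℂ) ω * z).im - h) * (H - (((starRingEnd ℂ) ω * z).im - h))) -
    δ * (Complex.cosh (((starRingEnd ℂ) ω * z - Complex.I * h - Complex.I * (H / 2)) / H)).re)

theorem WU_step {ω : ℂ} (hω : ‖ω‖ = 1) {h κ δ H c R₀ : ℝ} (hc : 0 < c) (hR : 0 < R₀) (hκ : κ = c / R₀ ^ 2) {P : ℂ → ℂ} {L : ℂ → ℝ} {z₀ : ℂ}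
    (hP : AnalyticOnNhd ℂ P (closedBall z₀ R₀)) (hL : ContinuousOn L (sphere z₀ R₀)) (hm : L z₀ + c ≤ Real.circleAverage L z₀ R₀) (hP0 : P z₀ ≠ 0) :
    ∃ z ∈ sphere z₀ R₀, WU ω h κ δ H P L z₀ < WU ω h κ δ H P L z := by
  by_contra hcon
  push Not at hcon
  set y₀ : ℝ := ((starRingEnd ℂ) ω * z₀).im - h with hy₀
  set K : ℂ → ℂ := fun z => Complex.cosh (((starRingEnd ℂ) ω * z - Complex.I * h - Complex.I * (H / 2)) / H) with hK
  set ζ : ℂ → ℂ := fun z => (starRingEnd ℂ) ω * (z - z₀) with hζ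
  set G : ℂ → ℂ := fun z => κ * (H * (y₀ - Complex.I * ζ z) - (y₀ ^ 2 + R₀ ^ 2 / 2 - 2 * Complex.I * y₀ * ζ z - ζ z ^ 2 / 2)) - δ * K z with hG
  have hKd : Differentiable ℂ K := by
    intro z
    simp only [hK]
    fun_prop
  have hGd : Differentiable ℂ G := by
    intro z
    simp only [hG, hζ]
    fun_prop
  have hGz₀ : (G z₀).re = κ * (H * y₀ - y₀ ^ 2 - R₀ ^ 2 / 2) - δ * (K z₀).re := by
    have e0 : G z₀ = ((κ * (H * y₀ - y₀ ^ 2 - R₀ ^ 2 / 2) : ℝ) : ℂ) - (δ : ℂ) * K z₀ := by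
      simp only [hG, hζ, sub_self, mul_zero]
      push_cast
      ring
    rw [e0, Complex.sub_re, Complex.ofReal_re, Complex.re_ofReal_mul]
  have hGs : ∀ z ∈ sphere z₀ R₀, (G z).re = κ * ((((starRingEnd ℂ) ω * z).im - h) * (H - (((starRingEnd ℂ) ω * z).im - h))) - δ * (K z).re := by
    intro z hz
    have hn : ‖ζ z‖ = R₀ := by
      simp only [hζ, norm_mul, RCLike.norm_conj, hω, one_mul]
      rw [← dist_eq_norm]
      exact hz
    have hsq : (ζ z).re ^ 2 + (ζ z).im ^ 2 = R₀ ^ 2 := by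
      have := Complex.sq_norm (ζ z)
      rw [hn, Complex.normSq_apply] at this
      nlinarith
    have hy : ((starRingEnd ℂ) ω * z).im - h = y₀ + (ζ z).im := by
      simp only [hζ, hy₀, mul_sub, Complex.sub_im]
      ring
    rw [hy]
    simp only [hG]
    simp only [Complex.sub_re, Complex.re_ofReal_mul, Complex.ofReal_re]
    have e1 : ((y₀ : ℂ) ^ 2 + R₀ ^ 2 / 2).re = y₀ ^ 2 + R₀ ^ 2 / 2 := by
      have : ((y₀ : ℂ) ^ 2 + R₀ ^ 2 / 2) = ((y₀ ^ 2 + R₀ ^ 2 / 2 : ℝ) : ℂ) := by push_cast; ring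
      rw [this, Complex.ofReal_re]
    have e3 : (2 * Complex.I * (y₀ : ℂ) * ζ z).re = - 2 * y₀ * (ζ z).im := by
      simp [Complex.mul_re, Complex.mul_im]
      try ring
    have e4 : (ζ z ^ 2 / 2).re = ((ζ z).re ^ 2 - (ζ z).im ^ 2) / 2 := by
      have : ζ z ^ 2 / 2 = ((1 / 2 : ℝ) : ℂ) * (ζ z ^ 2) := by push_cast; ring
      rw [this, Complex.re_ofReal_mul, pow_two, Complex.mul_re]
      ring
    have e5 : (Complex.I * ζ z).re = - (ζ z).im := by simp
    rw [e1, e3, e4, e5]
    have hre : (ζ z).re ^ 2 = R₀ ^ 2 - (ζ z).im ^ 2 := by linarith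
    rw [hre]
    ring
  have hW : ∀ z ∈ sphere z₀ R₀, WU ω h κ δ H P L z = ‖P z‖ * Real.exp (L z + (G z).re) := by
    intro z hz
    rw [WU, hGs z hz]
    congr 2
    ring
  have hWpos : 0 < WU ω h κ δ H P L z₀ := mul_pos (norm_pos_iff.mpr hP0) (Real.exp_pos _)
  have hLi : CircleIntegrable L z₀ R₀ := hL.circleIntegrable hR.le
  have key := log_norm_le_avg (P := fun z => P z * Complex.exp (G z)) (c := z₀) hR (hP.mul fun z _ => (hGd.cexp.analyticAt z))
    (mul_ne_zero hP0 (Complex.exp_ne_zero _)) (g := fun z => Real.log (WU ω h κ δ H P L z₀) - L z) (continuousOn_const.sub hL) (by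
      intro z hz
      rw [norm_mul, Complex.norm_exp, Real.exp_sub, Real.exp_log hWpos, le_div_iff₀ (Real.exp_pos _), mul_assoc, ← Real.exp_add, add_comm (G z).re, ← hW z hz]
      exact hcon z hz)
  have havg : Real.circleAverage (fun z => Real.log (WU ω h κ δ H P L z₀) - L z) z₀ R₀ =
      Real.log (WU ω h κ δ H P L z₀) - Real.circleAverage L z₀ R₀ := by
    have := Real.circleAverage_fun_sub (circleIntegrable_const (Real.log (WU ω h κ δ H P L z₀)) z₀ R₀) hLi
    rw [this, Real.circleAverage_const]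
  rw [havg] at key
  have h1 : Real.log ‖P z₀ * Complex.exp (G z₀)‖ = Real.log ‖P z₀‖ + (G z₀).re := by
    rw [norm_mul, Complex.norm_exp, Real.log_mul (norm_pos_iff.mpr hP0).ne' (Real.exp_pos _).ne', Real.log_exp]
  have h2 : Real.log (WU ω h κ δ H P L z₀) = Real.log ‖P z₀‖ + (L z₀ + κ * (y₀ * (H - y₀)) - δ * (K z₀).re) := by
    rw [WU, Real.log_mul (norm_pos_iff.mpr hP0).ne' (Real.exp_pos _).ne', Real.log_exp]
  rw [h1, h2, hGz₀] at key
  have h3 : κ * R₀ ^ 2 = c := by rw [hκ]; field_simp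
  nlinarith

theorem re_cosh_eq (ω z : ℂ) (h : ℝ) {H : ℝ} (hH : 0 < H) :
    (Complex.cosh (((starRingEnd ℂ) ω * z - Complex.I * h - Complex.I * (H / 2)) / H)).re =
      Real.cosh (((starRingEnd ℂ) ω * z).re / H) * Real.cos (((((starRingEnd ℂ) ω * z).im - h) - H / 2) / H) := by
  set w := (starRingEnd ℂ) ω * z with hw
  have e : (w - Complex.I * h - Complex.I * (H / 2)) / H = ((w.re / H : ℝ) : ℂ) + (((w.im - h - H / 2) / H : ℝ) : ℂ) * Complex.I := by
    conv_lhs => rw [← Complex.re_add_im w]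
    push_cast
    field_simp
    ring
  rw [e, Complex.cosh_add, Complex.cosh_mul_I, Complex.sinh_mul_I, ← Complex.ofReal_cosh, ← Complex.ofReal_sinh, ← Complex.ofReal_cos, ← Complex.ofReal_sin,
    Complex.add_re, ← Complex.ofReal_mul, Complex.ofReal_re, Complex.re_ofReal_mul, Complex.re_ofReal_mul, Complex.I_re, mul_zero, mul_zero, add_zero]

theorem re_cosh_ge {ω z : ℂ} {h H : ℝ} (hH : 0 < H) (hz : z ∈ HP ω h) (hzH : ((starRingEnd ℂ) ω * z).im - h < H) :
    Real.cosh (((starRingEnd ℂ) ω * z).re / H) * Real.cos (1 / 2) ≤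
      (Complex.cosh (((starRingEnd ℂ) ω * z - Complex.I * h - Complex.I * (H / 2)) / H)).re := by
  rw [re_cosh_eq ω z h hH]
  apply mul_le_mul_of_nonneg_left _ (Real.cosh_pos _).le
  have hz' : h < ((starRingEnd ℂ) ω * z).im := hz
  set y := ((starRingEnd ℂ) ω * z).im - h with hy
  have h0 : 0 < y := by rw [hy]; linarith
  have h1 : |(y - H / 2) / H| ≤ 1 / 2 := by
    rw [abs_div, abs_of_pos hH, div_le_iff₀ hH, abs_le]
    constructor <;> linarith
  rw [← Real.cos_abs ((y - H / 2) / H)]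
  apply Real.cos_le_cos_of_nonneg_of_le_pi (abs_nonneg _) _ h1
  have := Real.pi_gt_three
  linarith

theorem cos_half_pos : 0 < Real.cos (1 / 2) := by
  apply Real.cos_pos_of_mem_Ioo
  have := Real.pi_gt_three
  constructor <;> linarith

theorem im_sub_le {ω : ℂ} (hω : ‖ω‖ = 1) (z w : ℂ) : |((starRingEnd ℂ) ω * z).im - ((starRingEnd ℂ) ω * w).im| ≤ ‖z - w‖ := by
  rw [← Complex.sub_im, ← mul_sub]
  refine (Complex.abs_im_le_norm _).trans ?_
  rw [norm_mul, RCLike.norm_conj, hω, one_mul]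

/-- the bound in the strip -/
theorem WU_bound {ω : ℂ} (hω : ‖ω‖ = 1) {h C c R₀ H δ : ℝ} {P : ℂ → ℂ} {L : ℂ → ℝ} (hP : DifferentiableOn ℂ P (HP ω h))
    (hL : ContinuousOn L (HP ω h)) (hc : 0 < c) (hR : 0 < R₀) (hb : ∀ z ∈ HP ω h, ‖P z‖ * Real.exp (L z) ≤ C)
    (hm : ∀ z, closedBall z R₀ ⊆ HP ω h → L z + c ≤ Real.circleAverage L z R₀) (hH : 0 < H) (hδ : 0 < δ) {z₁ : ℂ} (hz₁ : z₁ ∈ HP ω h)
    (hzH₁ : ((starRingEnd ℂ) ω * z₁).im - h < H) :
    WU ω h (c / R₀ ^ 2) δ H P L z₁ ≤ C * Real.exp (c / R₀ ^ 2 * (2 * R₀ * H)) := by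
  by_contra hcon
  push Not at hcon
  set κ := c / R₀ ^ 2 with hκ
  have hκ0 : 0 < κ := by positivity
  have hC : 0 ≤ C := le_trans (mul_nonneg (norm_nonneg _) (Real.exp_pos _).le) (hb z₁ hz₁)
  set B := C * Real.exp (κ * (2 * R₀ * H)) with hB
  have hB0 : 0 ≤ B := mul_nonneg hC (Real.exp_pos _).le
  -- the basic estimate
  have hest : ∀ z ∈ HP ω h, ((starRingEnd ℂ) ω * z).im - h < H → ∀ t : ℝ,
      κ * ((((starRingEnd ℂ) ω * z).im - h) * (H - (((starRingEnd ℂ) ω * z).im - h))) -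
        δ * (Real.cosh (((starRingEnd ℂ) ω * z).re / H) * Real.cos (1 / 2)) ≤ t → WU ω h κ δ H P L z ≤ C * Real.exp t := by
    intro z hz hzH t ht
    rw [WU, add_sub_assoc, Real.exp_add, ← mul_assoc]
    apply mul_le_mul (hb z hz) _ (Real.exp_pos _).le hC
    rw [Real.exp_le_exp]
    refine le_trans ?_ ht
    have := re_cosh_ge hH hz hzH
    nlinarith [mul_le_mul_of_nonneg_left this hδ.le]
  obtain ⟨A, hA0, hA⟩ : ∃ A : ℝ, 0 < A ∧ κ * (H * H) ≤ δ * (Real.cosh (A / H) * Real.cos (1 / 2)) := by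
    refine ⟨H * (κ * (H * H) / (δ * Real.cos (1 / 2)) + 1), by have := cos_half_pos; positivity, ?_⟩
    have hp := cos_half_pos
    have e : H * (κ * (H * H) / (δ * Real.cos (1 / 2)) + 1) / H = κ * (H * H) / (δ * Real.cos (1 / 2)) + 1 := by field_simp
    rw [e]
    set t := κ * (H * H) / (δ * Real.cos (1 / 2)) with ht
    have ht0 : 0 ≤ t := by positivity
    have h1 : t + 1 ≤ Real.cosh (t + 1) := ((Real.self_le_sinh_iff).mpr (by linarith)).trans (Real.sinh_lt_cosh _).le
    have h2 : κ * (H * H) = t * (δ * Real.cos (1 / 2)) := by rw [ht]; field_simp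
    rw [h2]
    have h3 : 0 < δ * Real.cos (1 / 2) := by positivity
    nlinarith
  -- outside K
  have hout : ∀ z ∈ HP ω h, ((starRingEnd ℂ) ω * z).im - h < H → B < WU ω h κ δ H P L z →
      2 * R₀ ≤ ((starRingEnd ℂ) ω * z).im - h ∧ ((starRingEnd ℂ) ω * z).im - h ≤ H - 2 * R₀ ∧ |((starRingEnd ℂ) ω * z).re| ≤ A := by
    intro z hz hzH hzB
    have hz' : h < ((starRingEnd ℂ) ω * z).im := hz
    have hest' := hest z hz hzH
    set y := ((starRingEnd ℂ) ω * z).im - h with hy
    set x := ((starRingEnd ℂ) ω * z).re with hx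
    have hy0 : 0 < y := by rw [hy]; linarith
    have hch : 0 ≤ δ * (Real.cosh (x / H) * Real.cos (1 / 2)) :=
      mul_nonneg hδ.le (mul_nonneg (Real.cosh_pos _).le cos_half_pos.le)
    refine ⟨?_, ?_, ?_⟩
    · by_contra hlt
      push Not at hlt
      apply absurd (hest' (κ * (2 * R₀ * H)) _) (not_le.mpr hzB)
      have : y * (H - y) ≤ 2 * R₀ * H := by nlinarith
      have := mul_le_mul_of_nonneg_left this hκ0.le
      linarith
    · by_contra hlt
      push Not at hlt
      apply absurd (hest' (κ * (2 * R₀ * H)) _) (not_le.mpr hzB)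
      have : y * (H - y) ≤ 2 * R₀ * H := by
        have h1 : H - y ≤ 2 * R₀ := by linarith
        have h2 : 0 ≤ H - y := by linarith
        nlinarith
      have := mul_le_mul_of_nonneg_left this hκ0.le
      linarith
    · by_contra hlt
      push Not at hlt
      apply absurd (hest' 0 _) (not_le.mpr (lt_of_le_of_lt _ hzB))
      · have h1 : y * (H - y) ≤ H * H := by nlinarith
        have h2 := mul_le_mul_of_nonneg_left h1 hκ0.le
        have h3 : Real.cosh (A / H) ≤ Real.cosh (x / H) := by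
          rw [Real.cosh_le_cosh, abs_div, abs_div]
          apply div_le_div_of_nonneg_right _ (abs_nonneg _)
          rw [abs_of_pos hA0]
          exact hlt.le
        have h4 : δ * (Real.cosh (A / H) * Real.cos (1 / 2)) ≤ δ * (Real.cosh (x / H) * Real.cos (1 / 2)) :=
          mul_le_mul_of_nonneg_left (mul_le_mul_of_nonneg_right h3 cos_half_pos.le) hδ.le
        linarith
      · rw [hB]
        apply mul_le_mul_of_nonneg_left _ hC
        rw [Real.exp_le_exp]
        positivity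
  set K : Set ℂ := {z | 2 * R₀ ≤ ((starRingEnd ℂ) ω * z).im - h ∧ ((starRingEnd ℂ) ω * z).im - h ≤ H - 2 * R₀ ∧ |((starRingEnd ℂ) ω * z).re| ≤ A} with hK
  have hKU : K ⊆ HP ω h := by
    intro z hz
    have := hz.1
    show h < ((starRingEnd ℂ) ω * z).im
    linarith
  have hKc : IsCompact K := by
    apply Metric.isCompact_of_isClosed_isBounded
    · have c1 : Continuous fun z : ℂ => ((starRingEnd ℂ) ω * z).im - h := by fun_prop
      have c2 : Continuous fun z : ℂ => |((starRingEnd ℂ) ω * z).re| := by fun_prop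
      exact (isClosed_le continuous_const c1).inter ((isClosed_le c1 continuous_const).inter (isClosed_le c2 continuous_const))
    · apply Metric.isBounded_closedBall (x := (0 : ℂ)) (r := A + (|h| + H)) |>.subset
      intro z hz
      rw [mem_closedBall_zero_iff]
      have h1 : ‖z‖ = ‖(starRingEnd ℂ) ω * z‖ := by rw [norm_mul, RCLike.norm_conj, hω, one_mul]
      rw [h1]
      refine (Complex.norm_le_abs_re_add_abs_im _).trans (add_le_add hz.2.2 ?_)
      have h2 := hz.1
      have h3 := hz.2.1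
      have h4 := le_abs_self h
      have h5 := neg_abs_le h
      rw [abs_le]
      constructor <;> linarith
  have hWc : ContinuousOn (WU ω h κ δ H P L) K := by
    have h1 := hP.continuousOn.mono hKU
    have h2 := hL.mono hKU
    unfold WU
    apply h1.norm.mul
    apply Real.continuous_exp.comp_continuousOn
    apply ContinuousOn.sub
    · apply h2.add
      apply Continuous.continuousOn
      fun_prop
    · apply Continuous.continuousOn
      apply Continuous.mul continuous_const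
      apply Complex.continuous_re.comp
      apply Complex.continuous_cosh.comp
      fun_prop
  have hz₁K : z₁ ∈ K := hout z₁ hz₁ hzH₁ hcon
  obtain ⟨z₂, hz₂, hmax⟩ := hKc.exists_isMaxOn ⟨z₁, hz₁K⟩ hWc
  have hz₂B : B < WU ω h κ δ H P L z₂ := lt_of_lt_of_le hcon (hmax hz₁K)
  have hP0 : P z₂ ≠ 0 := by
    intro h0
    have : WU ω h κ δ H P L z₂ = 0 := by simp [WU, h0]
    linarith
  have hball : closedBall z₂ R₀ ⊆ HP ω h := by
    intro z hz
    rw [mem_closedBall, dist_eq_norm] at hz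
    have h1 := (im_sub_le hω z z₂).trans hz
    have h2 := hz₂.1
    rw [abs_le] at h1
    show h < ((starRingEnd ℂ) ω * z).im
    linarith [h1.1]
  have hPan : AnalyticOnNhd ℂ P (HP ω h) := hP.analyticOnNhd (isOpen_HP ω h)
  obtain ⟨z, hz, hlt⟩ := WU_step (δ := δ) (H := H) hω hc hR hκ (hPan.mono hball) (hL.mono (sphere_subset_closedBall.trans hball)) (hm z₂ hball) hP0
  have hzU := hball (sphere_subset_closedBall hz)
  have hzH : ((starRingEnd ℂ) ω * z).im - h < H := by
    have hz' := hz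
    rw [mem_sphere, dist_eq_norm] at hz'
    have h1 := (im_sub_le hω z z₂).trans_eq hz'
    have h2 := hz₂.2.1
    rw [abs_le] at h1
    linarith [h1.2]
  have hzK : z ∈ K := hout z hzU hzH (hz₂B.trans hlt)
  exact absurd (hmax hzK) (not_le.mpr hlt)

/-- **the uniqueness lemma** -/
theorem hp_zero {ω : ℂ} (hω : ‖ω‖ = 1) {h C c R₀ : ℝ} {P : ℂ → ℂ} {L : ℂ → ℝ} (hP : DifferentiableOn ℂ P (HP ω h))
    (hL : ContinuousOn L (HP ω h)) (hc : 0 < c) (hR : 0 < R₀) (hb : ∀ z ∈ HP ω h, ‖P z‖ * Real.exp (L z) ≤ C)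
    (hm : ∀ z, closedBall z R₀ ⊆ HP ω h → L z + c ≤ Real.circleAverage L z R₀) : ∀ z ∈ HP ω h, P z = 0 := by
  have hκ0 : 0 < c / R₀ ^ 2 := by positivity
  have hmain : ∀ z : ℂ, 2 * R₀ < ((starRingEnd ℂ) ω * z).im - h → P z = 0 := by
    intro z hz
    by_contra hP0
    have hzU : z ∈ HP ω h := by
      show h < ((starRingEnd ℂ) ω * z).im
      linarith
    have hC : 0 < C := lt_of_lt_of_le (mul_pos (norm_pos_iff.mpr hP0) (Real.exp_pos _)) (hb z hzU)
    set y := ((starRingEnd ℂ) ω * z).im - h with hy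
    have hy0 : 0 < y := by linarith
    have h1 : ∀ H : ℝ, y < H → ‖P z‖ * Real.exp (L z + c / R₀ ^ 2 * (y * (H - y))) ≤ C * Real.exp (c / R₀ ^ 2 * (2 * R₀ * H)) := by
      intro H hH
      have hHp : 0 < H := hy0.trans hH
      have ht : Tendsto (fun δ : ℝ => WU ω h (c / R₀ ^ 2) δ H P L z) (𝓝[>] 0) (𝓝 (WU ω h (c / R₀ ^ 2) 0 H P L z)) := by
        apply tendsto_nhdsWithin_of_tendsto_nhds
        apply Continuous.tendsto
        unfold WU
        fun_prop
      have h2 : WU ω h (c / R₀ ^ 2) 0 H P L z ≤ C * Real.exp (c / R₀ ^ 2 * (2 * R₀ * H)) := by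
        apply le_of_tendsto ht
        filter_upwards [self_mem_nhdsWithin] with δ hδ
        exact WU_bound hω hP hL hc hR hb hm hHp hδ hzU hH
      rw [WU, zero_mul, sub_zero] at h2
      exact h2
    set T := Real.log C - Real.log ‖P z‖ - L z + c / R₀ ^ 2 * (y * y) with hT
    have h3 : ∀ H : ℝ, y < H → c / R₀ ^ 2 * ((y - 2 * R₀) * H) ≤ T := by
      intro H hH
      have h4 := Real.log_le_log (mul_pos (norm_pos_iff.mpr hP0) (Real.exp_pos _)) (h1 H hH)
      rw [Real.log_mul (norm_pos_iff.mpr hP0).ne' (Real.exp_pos _).ne', Real.log_mul hC.ne' (Real.exp_pos _).ne', Real.log_exp, Real.log_exp] at h4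
      rw [hT]
      nlinarith
    have hpos : 0 < c / R₀ ^ 2 * (y - 2 * R₀) := mul_pos hκ0 (by linarith)
    have h5 := h3 (max (y + 1) ((T + 1) / (c / R₀ ^ 2 * (y - 2 * R₀)))) (lt_of_lt_of_le (by linarith) (le_max_left _ _))
    have h6 : (T + 1) / (c / R₀ ^ 2 * (y - 2 * R₀)) ≤ max (y + 1) ((T + 1) / (c / R₀ ^ 2 * (y - 2 * R₀))) := le_max_right _ _
    rw [div_le_iff₀ hpos] at h6
    nlinarith
  have hPan : AnalyticOnNhd ℂ P (HP ω h) := hP.analyticOnNhd (isOpen_HP ω h)
  set z₀ : ℂ := ω * (Complex.I * ((h + 2 * R₀ + 1 : ℝ) : ℂ)) with hz₀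
  have hωω : (starRingEnd ℂ) ω * ω = 1 := by
    rw [mul_comm, Complex.mul_conj, Complex.normSq_eq_norm_sq, hω]
    simp
  have hz₀y : ((starRingEnd ℂ) ω * z₀).im - h = 2 * R₀ + 1 := by
    rw [hz₀, ← mul_assoc, hωω, one_mul]
    simp
    ring
  have hz₀U : z₀ ∈ HP ω h := by
    show h < ((starRingEnd ℂ) ω * z₀).im
    linarith
  have hev : ∀ᶠ z in 𝓝 z₀, P z = 0 := by
    have hopen : IsOpen {z : ℂ | 2 * R₀ < ((starRingEnd ℂ) ω * z).im - h} := isOpen_lt continuous_const (by fun_prop)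
    filter_upwards [hopen.mem_nhds (show 2 * R₀ < ((starRingEnd ℂ) ω * z₀).im - h by rw [hz₀y]; linarith)] with z hz
    exact hmain z hz
  exact fun z hz => hPan.eqOn_zero_of_preconnected_of_eventuallyEq_zero (convex_HP ω h).isPreconnected hz₀U hev hz

end Pool.Agent.G3.C
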