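import Pool.Agent.G3.C.EDefs
import Pool.Agent.G3.C.GenA
import Pool.Agent.G3.C.LemmaU

/-!
# G3 C TDefs: jet forms and smooth families

`JForm X Λ u ν m`: a section of `E_m F^* (-1)`, where `F = {v | du (v) ∈ ℂ ν}`: a function of the `m`-jets of holomorphic curves in the cone `X` over lines in the direction `ν`.
`Smo`: the family `Φ` is smooth in the real parameter `s` near `(s₀, z₀)`, in a straight chart.  `TDat`: the data of block (C) for a real torus `b + ℝ ν + ℂ a` of dimension `3`.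
-/

set_option autoImplicit false

open Topology Filter Metric

namespace Pool.Agent.G3.C

open Pool.Agent.H36.BP (EN fs wd)
open Pool.Agent.H14.PP (IsCone)
open Pool.Agent.H62.EF (MN pr)
open Pool.Agent.AD (Vd Chart Charts)
open Pool.Agent.TG (TMap Lat Str ms tl)

variable {N k : ℕ}

/-- `φ` is at `0` a holomorphic curve in `X` over a line in the direction `ν` -/
def DirC (X : Set (EN N)) (Λ : AddSubgroup (Vd (k + 1))) (u : EN N → Vd (k + 1)) (ν : Vd (k + 1)) (φ : ℂ → EN N) : Prop :=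
  AnalyticAt ℂ φ 0 ∧ ∀ᶠ t in 𝓝 (0 : ℂ), φ t ∈ X ∧ u (φ t) - (u (φ 0) + t • ν) ∈ Λ

/-- the `m`-jet of `φ` at `0` -/
noncomputable def jt (m : ℕ) (φ : ℂ → EN N) : Fin (m + 1) → EN N := fun j => iteratedDeriv j φ 0

/-- a jet form: a function of the `m`-jets of the holomorphic curves in `X` over lines in the direction `ν`, which depends only on the curve in the projective space, with
values in `O(-1)` -/
structure JForm (X : Set (EN N)) (Λ : AddSubgroup (Vd (k + 1))) (u : EN N → Vd (k + 1)) (ν : Vd (k + 1)) (m : ℕ) where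
  /-- the form -/
  toFun : (Fin (m + 1) → EN N) → ℂ
  scale : ∀ φ : ℂ → EN N, DirC X Λ u ν φ → ∀ c : ℂ → ℂ, AnalyticAt ℂ c 0 → c 0 ≠ 0 → toFun (jt m fun t => c t • φ t) = (c 0)⁻¹ * toFun (jt m φ)
  /-- the form is holomorphic on the families of curves through points at which `u` is a submersion (it has a straight chart) -/
  analytic : ∀ (E : Type) [NormedAddCommGroup E] [NormedSpace ℂ E] [FiniteDimensional ℂ E] (φ : E × ℂ → EN N) (p : E), AnalyticAt ℂ φ (p, 0) →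
    (∀ᶠ q in 𝓝 (p, (0 : ℂ)), φ q ∈ X ∧ u (φ q) - (u (φ (q.1, 0)) + q.2 • ν) ∈ Λ) →
    (∃ (χ : Chart (k + 2) X) (c : Vd (k + 1)) (ρ : ℝ), Str Λ u χ c ρ ∧ ∃ q₀ ∈ ball (0 : Vd (k + 2)) 2, χ.σ q₀ = φ (p, 0)) →
    AnalyticAt ℂ (fun q => toFun (jt m fun t => φ (q, t))) p

variable {X : Set (EN N)} {Λ : AddSubgroup (Vd (k + 1))} {u : EN N → Vd (k + 1)} {ν a b : Vd (k + 1)} {m : ℕ}

/-- the jet form is nowhere locally `0` -/
def JForm.Thin (P : JForm X Λ u ν m) : Prop :=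
  ∀ x ∈ X, ∀ U ∈ 𝓝 x, ∃ φ : ℂ → EN N, DirC X Λ u ν φ ∧ φ 0 ∈ U ∧ P.toFun (jt m φ) ≠ 0

/-- the base coordinates of `b + s ν + z a` in the straight chart with the constants `c`, `ρ` -/
noncomputable def tz (b ν a c : Vd (k + 1)) (ρ : ℝ) (s z : ℂ) : Vd (k + 1) := (ρ : ℂ)⁻¹ • (b + s • ν + z • a - c)

/-- the point of the straight chart over `b + s ν + z a` with the first coordinate `x` -/
noncomputable def cz (b ν a c : Vd (k + 1)) (ρ : ℝ) (x s z : ℂ) : Vd (k + 2) := Fin.cons (α := fun _ => ℂ) x (tz b ν a c ρ s z)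

/-- the family `Φ` is smooth in the box with centre `(s₀, z₀)` and radius `r`, with the jets `w` of the first coordinate in the straight chart `χ` -/
structure Box (X : Set (EN N)) (Λ : AddSubgroup (Vd (k + 1))) (u : EN N → Vd (k + 1)) (a ν b : Vd (k + 1)) (Φ : ℝ → ℂ → MN N) (χ : Chart (k + 2) X)
    (c : Vd (k + 1)) (ρ : ℝ) (w : ℕ → ℝ → ℂ → ℂ) (s₀ : ℝ) (z₀ : ℂ) (r : ℝ) : Prop where
  pos : 0 < r
  str : Str Λ u χ c ρ
  jet : JetFam w (Set.Ioo (s₀ - r) (s₀ + r)) (ball z₀ r)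
  mem : ∀ s ∈ Set.Ioo (s₀ - r) (s₀ + r), ∀ z ∈ ball z₀ r, cz b ν a c ρ (w 0 s z) s z ∈ ball (0 : Vd (k + 2)) 2
  eq : ∀ s ∈ Set.Ioo (s₀ - r) (s₀ + r), ∀ z ∈ ball z₀ r, Φ s z = pr (χ.σ (cz b ν a c ρ (w 0 s z) s z))

/-- the family is smooth near `(s₀, z₀)` -/
def Smo (X : Set (EN N)) (Λ : AddSubgroup (Vd (k + 1))) (u : EN N → Vd (k + 1)) (a ν b : Vd (k + 1)) (Φ : ℝ → ℂ → MN N) (s₀ : ℝ) (z₀ : ℂ) : Prop :=
  ∃ (χ : Chart (k + 2) X) (c : Vd (k + 1)) (ρ : ℝ) (w : ℕ → ℝ → ℂ → ℂ) (r : ℝ), Box X Λ u a ν b Φ χ c ρ w s₀ z₀ r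

/-- the data of block (C): the families `FF` of curves over the lines `b + s ν + ℂ a` of a real torus.  `Dt`, `Bd` are the sets of the `(σ, z)` over `D` and over the bad points.
The families are smooth off `Dt` only: over the other points of `D` they may be discontinuous (indeterminacy points). -/
structure TDat (X : Set (EN N)) (Λ : AddSubgroup (Vd (k + 1))) (u : EN N → Vd (k + 1)) (a ν b : Vd (k + 1)) (LT : AddSubgroup (ℝ × ℂ)) (Dt Bd : Set (ℂ × ℂ))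
    (ρ : ℝ) (FF : Set (ℝ → ℂ → MN N)) : Prop where
  cone : IsCone X
  tor : TMap X Λ u
  lat : Lat Λ
  bas : ∀ y : Vd (k + 1), ∃ s z : ℂ, y = s • ν + z • a
  per : ∀ l ∈ LT, (l.1 : ℂ) • ν + l.2 • a ∈ Λ
  cpt : ∃ R : ℝ, 0 < R ∧ ∀ q : ℝ × ℂ, ∃ l ∈ LT, ‖q - l‖ ≤ R
  dns : Dense {s : ℝ | ∃ z : ℂ, (s, z) ∈ LT}
  sep : Sep Bd ρ
  bd_inv : ∀ β ∈ Bd, ∀ l ∈ LT, (β.1 + (l.1 : ℂ), β.2 + l.2) ∈ Bd
  bd_half : ∀ s : ℝ, ∃ (ω : ℂ) (h : ℝ), ‖ω‖ = 1 ∧ ∀ z ∈ HP ω h, ((s : ℂ), z) ∉ Bd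
  bd_sub : Bd ⊆ Dt
  dt_closed : IsClosed Dt
  dt_inv : ∀ β ∈ Dt, ∀ l ∈ LT, (β.1 + (l.1 : ℂ), β.2 + l.2) ∈ Dt
  dt_iso : ∀ (s : ℝ) (z : ℂ), ∀ᶠ z' in 𝓝[≠] z, ((s : ℂ), z') ∉ Dt
  fin : FF.Finite
  tr : ∀ Φ ∈ FF, ∀ l ∈ LT, (fun s z => Φ (s + l.1) (z + l.2)) ∈ FF
  lift : ∀ Φ ∈ FF, ∀ s : ℝ, ∃ F ∈ Gc X Λ u a (b + (s : ℂ) • ν), ∀ z, Φ s z = pr (F z)
  smo : ∀ Φ ∈ FF, ∀ (s : ℝ) (z : ℂ), ((s : ℂ), z) ∉ Dt → Smo X Λ u a ν b Φ s z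
  str : ∀ Φ ∈ FF, ∀ (s : ℝ) (z : ℂ), ((s : ℂ), z) ∉ Bd → ∃ (χ : Chart (k + 2) X) (c : Vd (k + 1)) (ρ' : ℝ) (x : ℂ), Str Λ u χ c ρ' ∧
    cz b ν a c ρ' x s z ∈ ball (0 : Vd (k + 2)) 2 ∧ Φ s z = pr (χ.σ (cz b ν a c ρ' x s z))
  gr : ∃ R₀ c : ℝ, 0 < R₀ ∧ 0 < c ∧ ∀ y, ∀ F ∈ Gc X Λ u a y, ∀ z, Real.log ‖F z‖ + c ≤ Real.circleAverage (fun w => Real.log ‖F w‖) z R₀

/-- the polynomial with the derivatives `v` at `0` -/
noncomputable def pol {m : ℕ} (v : Fin (m + 1) → ℂ) (t : ℂ) : ℂ := ∑ j : Fin (m + 1), v j / ((j : ℕ).factorial : ℂ) * t ^ (j : ℕ)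

/-- the curve in the straight chart over the line `b + (s + t) ν + z a` with the jet `v` of the first coordinate -/
noncomputable def crv (b ν a : Vd (k + 1)) (χ : Chart (k + 2) X) (c : Vd (k + 1)) (ρ : ℝ) (q : ℂ × ℂ × (Fin (m + 1) → ℂ)) (t : ℂ) : EN N :=
  χ.σ (cz b ν a c ρ (pol q.2.2 t) (q.1 + t) q.2.1)

/-- the jet form in the straight chart -/
noncomputable def QF (P : JForm X Λ u ν m) (b a : Vd (k + 1)) (χ : Chart (k + 2) X) (c : Vd (k + 1)) (ρ : ℝ) (q : ℂ × ℂ × (Fin (m + 1) → ℂ)) : ℂ :=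
  P.toFun (jt m (crv b ν a χ c ρ q))

/-- the domain of `QF` -/
def OD (b ν a c : Vd (k + 1)) (ρ : ℝ) (m : ℕ) : Set (ℂ × ℂ × (Fin (m + 1) → ℂ)) :=
  {q | cz b ν a c ρ (q.2.2 0) q.1 q.2.1 ∈ ball (0 : Vd (k + 2)) 2}

end Pool.Agent.G3.C
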