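import Pool.Agent.TG.Defs
import Pool.Agent.H62.EF.PrA

/-!
# G3 C EDefs: extension of families of curves to complex values of the parameter, definitions

Coordinates `(σ, z) ↦ b + σ ν + z a` of `ℂ^(k+1)` (`k = 1`), `Bd ⊆ ℂ × ℂ` the set of the `(σ, z)` over the bad points, separated for the sup metric,
`Φ : ℝ → ℂ → MN N` a family of curves, `Φ s` a curve over the line `b + s ν + ℂ a`.  `EAt Φ s₀ z₀ ε`: the family extends to the ball of radius `ε` in `ℂ × ℂ`.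
-/

set_option autoImplicit false

open Topology Filter Metric

namespace Pool.Agent.G3.C

open Pool.Agent.H36.BP (EN fs wd)
open Pool.Agent.H62.EF (MN pr)
open Pool.Agent.AD (Vd)

variable {N k : ℕ}

/-- the bad points are separated -/
structure Sep (Bd : Set (ℂ × ℂ)) (ρ : ℝ) : Prop where
  pos : 0 < ρ
  sep : ∀ β ∈ Bd, ∀ β' ∈ Bd, β ≠ β' → 8 * ρ ≤ dist β β'

/-- the points of distance at least `ρ` from the bad points (sup metric) -/
def Off (Bd : Set (ℂ × ℂ)) (ρ : ℝ) : Set (ℝ × ℂ) := {p | ∀ β ∈ Bd, ρ ≤ dist ((p.1 : ℂ), p.2) β}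

/-- the entire curves in `X` over the line `y + ℂ a` -/
def Gc (X : Set (EN N)) (Λ : AddSubgroup (Vd (k + 1))) (u : EN N → Vd (k + 1)) (a y : Vd (k + 1)) : Set (ℂ → EN N) :=
  {F | Differentiable ℂ F ∧ (∀ z, F z ∈ X) ∧ ∀ z, u (F z) - (y + z • a) ∈ Λ}

/-- `Φ s` is a curve over the line `b + s ν + ℂ a`, continuous in `(s, z)` outside the bad points -/
structure Fml (X : Set (EN N)) (Λ : AddSubgroup (Vd (k + 1))) (u : EN N → Vd (k + 1)) (a ν b : Vd (k + 1)) (Bd : Set (ℂ × ℂ)) (ρ : ℝ)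
    (Φ : ℝ → ℂ → MN N) : Prop where
  lift : ∀ s : ℝ, ∃ F ∈ Gc X Λ u a (b + (s : ℂ) • ν), ∀ z, Φ s z = pr (F z)
  cont : ∀ p ∈ Off Bd ρ, ContinuousAt (fun q : ℝ × ℂ => Φ q.1 q.2) p

/-- the family extends to the ball of radius `ε` in `ℂ × ℂ` with centre `(s₀, z₀)` -/
def EAt (Φ : ℝ → ℂ → MN N) (s₀ : ℝ) (z₀ : ℂ) (ε : ℝ) : Prop :=
  ∃ F : ℂ × ℂ → EN N, DifferentiableOn ℂ F (ball ((s₀ : ℂ), z₀) ε) ∧ (∀ p ∈ ball ((s₀ : ℂ), z₀) ε, F p ≠ 0) ∧
    ∀ (s : ℝ) (z : ℂ), ((s : ℂ), z) ∈ ball ((s₀ : ℂ), z₀) ε → Φ s z = pr (F (s, z))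

/-- the family of curves, continuous in `(s, z)` at the points `(s₀, z)`, `z ∈ Ω` (local version, `X` plays no role) -/
structure CFam (Φ : ℝ → ℂ → MN N) (s₀ : ℝ) (Ω : Set ℂ) : Prop where
  lift : ∀ s : ℝ, ∃ F : ℂ → EN N, Differentiable ℂ F ∧ (∀ z, F z ≠ 0) ∧ ∀ z, Φ s z = pr (F z)
  cont : ∀ z ∈ Ω, ∀ᶠ q in 𝓝 ((s₀, z) : ℝ × ℂ), ContinuousAt (fun q : ℝ × ℂ => Φ q.1 q.2) q

theorem EAt.shrink {Φ : ℝ → ℂ → MN N} {s₀ s₁ : ℝ} {z₀ z₁ : ℂ} {ε ε' : ℝ} (h : EAt Φ s₀ z₀ ε)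
    (hb : ball ((s₁ : ℂ), z₁) ε' ⊆ ball ((s₀ : ℂ), z₀) ε) : EAt Φ s₁ z₁ ε' := by
  obtain ⟨F, h1, h2, h3⟩ := h
  exact ⟨F, h1.mono hb, fun p hp => h2 p (hb hp), fun s z hz => h3 s z (hb hz)⟩

theorem EAt.mono {Φ : ℝ → ℂ → MN N} {s₀ : ℝ} {z₀ : ℂ} {ε ε' : ℝ} (h : EAt Φ s₀ z₀ ε) (hε : ε' ≤ ε) : EAt Φ s₀ z₀ ε' :=
  h.shrink (ball_subset_ball hε)

theorem EAt.move {Φ : ℝ → ℂ → MN N} {s₀ s₁ : ℝ} {z₀ z₁ : ℂ} {ε : ℝ} (h : EAt Φ s₀ z₀ ε) :
    EAt Φ s₁ z₁ (ε - dist ((s₁ : ℂ), z₁) ((s₀ : ℂ), z₀)) :=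
  h.shrink (ball_subset_ball' (by linarith))

/-! ### the normalised vector of a line -/

/-- the vector `x / ⟨v, x⟩` for the line with the projection matrix `pr x` -/
noncomputable def nv (v : EN N) (m : MN N) : EN N := (∑ i, ∑ j, (starRingEnd ℂ) (v i) * m (i, j) * v j)⁻¹ • WithLp.toLp 2 fun i => ∑ j, m (i, j) * v j

private theorem inner_eq_sum (x y : EN N) : (inner ℂ x y : ℂ) = ∑ j, (starRingEnd ℂ) (x j) * y j := by
  rw [PiLp.inner_apply]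
  refine Finset.sum_congr rfl fun j _ => ?_
  rw [RCLike.inner_apply]
  ring

private theorem nv_row (v x : EN N) (i : Fin (N + 1)) : ∑ j, pr x (i, j) * v j = (inner ℂ x v / ((‖x‖ ^ 2 : ℝ) : ℂ)) * x i := by
  rw [inner_eq_sum, Finset.sum_div, Finset.sum_mul]
  refine Finset.sum_congr rfl fun j _ => ?_
  simp only [pr]
  ring

private theorem nv_den (v x : EN N) : ∑ i, ∑ j, (starRingEnd ℂ) (v i) * pr x (i, j) * v j = (inner ℂ x v / ((‖x‖ ^ 2 : ℝ) : ℂ)) * inner ℂ v x := by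
  rw [inner_eq_sum v x, Finset.mul_sum]
  refine Finset.sum_congr rfl fun i _ => ?_
  have h := nv_row v x i
  calc ∑ j, (starRingEnd ℂ) (v i) * pr x (i, j) * v j = (starRingEnd ℂ) (v i) * ∑ j, pr x (i, j) * v j := by
        rw [Finset.mul_sum]
        exact Finset.sum_congr rfl fun j _ => by ring
    _ = _ := by rw [h]; ring

theorem nv_pr {v x : EN N} (h : inner ℂ v x ≠ (0 : ℂ)) : nv v (pr x) = (inner ℂ v x : ℂ)⁻¹ • x := by
  have hx : x ≠ 0 := by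
    rintro rfl
    exact h (inner_zero_right _)
  have h1 : ((‖x‖ ^ 2 : ℝ) : ℂ) ≠ 0 := by
    have : ‖x‖ ≠ 0 := norm_ne_zero_iff.mpr hx
    exact_mod_cast pow_ne_zero 2 this
  have h2 : inner ℂ x v ≠ (0 : ℂ) := fun h' => h (by rw [← inner_conj_symm, h', map_zero])
  unfold nv
  rw [nv_den]
  ext i
  simp only [PiLp.smul_apply, smul_eq_mul]
  rw [nv_row]
  field_simp

/-- the denominator of `nv`, a continuous function which is not zero at `pr x` if `⟨v, x⟩ ≠ 0` -/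
noncomputable def nd (v : EN N) (m : MN N) : ℂ := ∑ i, ∑ j, (starRingEnd ℂ) (v i) * m (i, j) * v j

theorem nd_cont (v : EN N) : Continuous (nd v : MN N → ℂ) := by
  unfold nd
  refine continuous_finsetSum _ fun i _ => continuous_finsetSum _ fun j _ => ?_
  exact (continuous_const.mul (PiLp.continuous_apply 2 _ (i, j))).mul continuous_const

theorem nd_pr_ne {v x : EN N} (hx : x ≠ 0) : nd v (pr x) ≠ 0 ↔ inner ℂ v x ≠ (0 : ℂ) := by
  have h1 : ((‖x‖ ^ 2 : ℝ) : ℂ) ≠ 0 := by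
    have : ‖x‖ ≠ 0 := norm_ne_zero_iff.mpr hx
    exact_mod_cast pow_ne_zero 2 this
  unfold nd
  rw [nv_den]
  constructor
  · intro h h'
    rw [h', mul_zero] at h
    exact h rfl
  · intro h
    have h2 : inner ℂ x v ≠ (0 : ℂ) := fun h' => h (by rw [← inner_conj_symm, h', map_zero])
    exact mul_ne_zero (div_ne_zero h2 h1) h

theorem nv_continuousAt {v : EN N} {m : MN N} (h : nd v m ≠ 0) : ContinuousAt (nv v) m := by
  have h1 : ContinuousAt (fun m : MN N => (nd v m)⁻¹) m := ((nd_cont v).continuousAt (x := m)).inv₀ h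
  have h2 : ContinuousAt (fun m : MN N => (WithLp.toLp 2 fun i => ∑ j, m (i, j) * v j : EN N)) m := ?_
  · exact h1.smul h2
  · refine ((PiLp.continuous_toLp 2 _).comp (continuous_pi fun i => ?_)).continuousAt
    refine continuous_finsetSum _ fun j _ => ?_
    exact (PiLp.continuous_apply 2 _ (i, j)).mul continuous_const

theorem pr_nv {v x : EN N} (h : inner ℂ v x ≠ (0 : ℂ)) : pr (nv v (pr x)) = pr x := by
  rw [nv_pr h]
  exact Pool.Agent.H62.EF.pr_smul x (inv_ne_zero h)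

end Pool.Agent.G3.C
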