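import Pool.Agent.G3.C.PVb

/-!
# G3 C PVd: the norm of the value of the jet form is continuous

In a box `‖pval‖ * ‖x‖ = ‖QF (Jt m w s z)‖ * ‖χ.σ (cz …)‖` (`pval_eq`, `Box.move`; `χ.σ = α • x`), a continuous function of `(s, z)` (`QF_analytic`, `JetFam.cont`).
-/

set_option autoImplicit false

open Topology Filter Metric

namespace Pool.Agent.G3.C

open Pool.Agent.H36.BP (EN fs wd)
open Pool.Agent.H14.PP (IsCone)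
open Pool.Agent.H62.EF (MN pr)
open Pool.Agent.AD (Vd Chart Charts)
open Pool.Agent.TG (TMap Lat Str ms tl)

variable {N k : ℕ} {X : Set (EN N)} {Λ : AddSubgroup (Vd (k + 1))} {u : EN N → Vd (k + 1)} {ν a b c : Vd (k + 1)} {m : ℕ} {ρ : ℝ}

/-- in a box the norm of the value is the norm of the local expression -/
private theorem pvd_val (hX : IsCone X) {Φ : ℝ → ℂ → MN N} {χ : Chart (k + 2) X} {w : ℕ → ℝ → ℂ → ℂ} {s₀ : ℝ} {z₀ : ℂ} {r : ℝ}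
    (B : Box X Λ u a ν b Φ χ c ρ w s₀ z₀ r) (P : JForm X Λ u ν m) {s : ℝ} {z : ℂ} (hs : s ∈ Set.Ioo (s₀ - r) (s₀ + r)) (hz : z ∈ ball z₀ r)
    {x : EN N} (hx : x ≠ 0) (hΦ : Φ s z = pr x) :
    ‖pval P a b Φ s z x‖ * ‖x‖ = ‖QF P b a χ c ρ (Jt m w s z)‖ * ‖χ.σ (cz b ν a c ρ (w 0 s z) s z)‖ := by
  have hne : χ.σ (cz b ν a c ρ (w 0 s z) s z) ≠ 0 := by
    intro h
    have h1 := (χ.σ_mem _ (B.mem s hs z hz)).1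
    rw [h] at h1
    exact hX.zero_notMem h1
  have h := B.eq s hs z hz
  rw [hΦ] at h
  obtain ⟨α, hα0, hα⟩ := (Pool.Agent.H62.EF.pr_eq_iff hne hx).1 h.symm
  obtain ⟨r', B'⟩ := B.move hs hz
  rw [pval_eq hX B' P hα hα0, norm_mul, mul_assoc, ← norm_smul, ← hα]

theorem pval_normCont (hX : IsCone X) {Φ : ℝ → ℂ → MN N} {s₀ : ℝ} {z₀ : ℂ} (hS : Smo X Λ u a ν b Φ s₀ z₀) (P : JForm X Λ u ν m) {x₀ : EN N} (hx₀ : x₀ ≠ 0)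
    (hΦ : Φ s₀ z₀ = pr x₀) {ε : ℝ} (hε : 0 < ε) :
    ∀ᶠ q in 𝓝 ((s₀, z₀) : ℝ × ℂ), ∀ x : EN N, x ≠ 0 → Φ q.1 q.2 = pr x →
      |‖pval P a b Φ q.1 q.2 x‖ * ‖x‖ - ‖pval P a b Φ s₀ z₀ x₀‖ * ‖x₀‖| < ε := by
  obtain ⟨χ, c, ρ, w, r, B⟩ := hS
  have hs₀ : s₀ ∈ Set.Ioo (s₀ - r) (s₀ + r) := ⟨by linarith [B.pos], by linarith [B.pos]⟩
  have hz₀ : z₀ ∈ ball z₀ r := mem_ball_self B.pos
  have hnh : Set.Ioo (s₀ - r) (s₀ + r) ×ˢ ball z₀ r ∈ 𝓝 ((s₀, z₀) : ℝ × ℂ) := (isOpen_Ioo.prod isOpen_ball).mem_nhds ⟨hs₀, hz₀⟩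
  have hw : ∀ j, ContinuousAt (fun q : ℝ × ℂ => w j q.1 q.2) (s₀, z₀) := fun j => (B.jet.cont j).continuousAt hnh
  have hre : ContinuousAt (fun q : ℝ × ℂ => (q.1 : ℂ)) (s₀, z₀) := by fun_prop
  have hJ : ContinuousAt (fun q : ℝ × ℂ => Jt m w q.1 q.2) (s₀, z₀) :=
    hre.prodMk (continuousAt_snd.prodMk (continuousAt_pi.2 fun j => hw j))
  have hQ : ContinuousAt (fun q : ℝ × ℂ => QF P b a χ c ρ (Jt m w q.1 q.2)) (s₀, z₀) := by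
    have h1 : ContinuousAt (QF P b a χ c ρ) (Jt m w s₀ z₀) := (QF_analytic P B.str _ (B.mem s₀ hs₀ z₀ hz₀)).continuousAt
    exact ContinuousAt.comp (g := QF P b a χ c ρ) (f := fun q : ℝ × ℂ => Jt m w q.1 q.2) h1 hJ
  have hcz : ContinuousAt (fun q : ℝ × ℂ => cz b ν a c ρ (w 0 q.1 q.2) q.1 q.2) (s₀, z₀) := by
    have h1 : ContinuousAt (fun p : ℂ × ℂ × ℂ => cz b ν a c ρ p.1 p.2.1 p.2.2) (w 0 s₀ z₀, (s₀ : ℂ), z₀) :=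
      (cz_analytic analyticAt_fst (analyticAt_fst.fun_comp analyticAt_snd) (analyticAt_snd.fun_comp analyticAt_snd)).continuousAt
    exact ContinuousAt.comp (g := fun p : ℂ × ℂ × ℂ => cz b ν a c ρ p.1 p.2.1 p.2.2) (f := fun q : ℝ × ℂ => (w 0 q.1 q.2, (q.1 : ℂ), q.2)) h1
      ((hw 0).prodMk (hre.prodMk continuousAt_snd))
  have hσ : ContinuousAt (fun q : ℝ × ℂ => χ.σ (cz b ν a c ρ (w 0 q.1 q.2) q.1 q.2)) (s₀, z₀) := by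
    have h1 : ContinuousAt χ.σ (cz b ν a c ρ (w 0 s₀ z₀) s₀ z₀) := (χ.σ_an _ (B.mem s₀ hs₀ z₀ hz₀)).continuousAt
    exact ContinuousAt.comp (g := χ.σ) (f := fun q : ℝ × ℂ => cz b ν a c ρ (w 0 q.1 q.2) q.1 q.2) h1 hcz
  have hG : ContinuousAt (fun q : ℝ × ℂ => ‖QF P b a χ c ρ (Jt m w q.1 q.2)‖ * ‖χ.σ (cz b ν a c ρ (w 0 q.1 q.2) q.1 q.2)‖) (s₀, z₀) :=
    hQ.norm.mul hσ.norm
  filter_upwards [hnh, Metric.tendsto_nhds.1 hG ε hε] with q hq hqε x hx hΦx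
  rw [pvd_val hX B P hq.1 hq.2 hx hΦx, pvd_val hX B P hs₀ hz₀ hx₀ hΦ, ← Real.dist_eq]
  exact hqε

end Pool.Agent.G3.C
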