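import Pool.Agent.G3.C.GCa
import Pool.Agent.G3.C.PVd

/-!
# G3 C GCb: the jet form on a family is bounded near every point which is not bad

`r`, `δ` from `good_dense`.  On the compact set `{|s - s₀| ≤ δ / 2} × sphere z₀ r` (off `Dt`, so `smo`) `‖pval‖ * ‖x‖ ≤ C` (`pval_locBound`).  For a good `s'` the function
`z ↦ pval P a b Φ s' z (F z) • F z` is holomorphic near `closedBall z₀ r` (`pval_hol`), so bounded by `C` (`Complex.norm_le_of_forall_mem_frontier_norm_le`).  For arbitrary `s`, `|s - s₀| < δ / 2`, and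
`z` off `Dt`: `pval_normCont` at `(s, z)` and good `s' → s`.
-/

set_option autoImplicit false

open Topology Filter Metric

namespace Pool.Agent.G3.C

open Pool.Agent.H36.BP (EN fs wd)
open Pool.Agent.H14.PP (IsCone)
open Pool.Agent.H62.EF (MN pr)
open Pool.Agent.AD (Vd Chart Charts)
open Pool.Agent.TG (TMap Lat Str ms tl)

variable {N k : ℕ} {X : Set (EN N)} {Λ : AddSubgroup (Vd (k + 1))} {u : EN N → Vd (k + 1)} {ν a b c : Vd (k + 1)} {m : ℕ} {ρ : ℝ}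
  {LT : AddSubgroup (ℝ × ℂ)} {Dt Bd : Set (ℂ × ℂ)} {FF : Set (ℝ → ℂ → MN N)}

/-- the bound on a compact set off `Dt` -/
private theorem gcb_cpt (D : TDat X Λ u a ν b LT Dt Bd ρ FF) (P : JForm X Λ u ν m) {Φ : ℝ → ℂ → MN N} (hΦ : Φ ∈ FF) {K : Set (ℝ × ℂ)} (hK : IsCompact K)
    (hKD : ∀ q ∈ K, ((q.1 : ℂ), q.2) ∉ Dt) : ∃ C : ℝ, ∀ q ∈ K, ∀ x : EN N, x ≠ 0 → Φ q.1 q.2 = pr x → ‖pval P a b Φ q.1 q.2 x‖ * ‖x‖ ≤ C := by
  refine hK.induction_on (p := fun S : Set (ℝ × ℂ) => ∃ C : ℝ, ∀ q ∈ S, ∀ x : EN N, x ≠ 0 → Φ q.1 q.2 = pr x → ‖pval P a b Φ q.1 q.2 x‖ * ‖x‖ ≤ C) ?_ ?_ ?_ ?_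
  · exact ⟨0, fun q hq => absurd hq (Set.notMem_empty q)⟩
  · rintro S T hST ⟨C, hC⟩
    exact ⟨C, fun q hq => hC q (hST hq)⟩
  · rintro S T ⟨C, hC⟩ ⟨C', hC'⟩
    refine ⟨max C C', fun q hq x hx hx' => ?_⟩
    rcases hq with hq | hq
    · exact (hC q hq x hx hx').trans (le_max_left _ _)
    · exact (hC' q hq x hx hx').trans (le_max_right _ _)
  · intro q hq
    obtain ⟨C, hC⟩ := pval_locBound D.cone (D.smo Φ hΦ q.1 q.2 (hKD q hq)) P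
    exact ⟨{q' : ℝ × ℂ | ∀ x : EN N, x ≠ 0 → Φ q'.1 q'.2 = pr x → ‖pval P a b Φ q'.1 q'.2 x‖ * ‖x‖ ≤ C}, mem_nhdsWithin_of_mem_nhds hC, C, fun q' hq' => hq'⟩

/-- the bound in the disc, for a good parameter -/
private theorem gcb_disc (D : TDat X Λ u a ν b LT Dt Bd ρ FF) (P : JForm X Λ u ν m) {Φ : ℝ → ℂ → MN N} (hΦ : Φ ∈ FF) {s : ℝ} {z₀ : ℂ} {r C : ℝ}
    (hr : 0 < r) (hS : ∀ z ∈ closedBall z₀ r, Smo X Λ u a ν b Φ s z)
    (hC : ∀ z ∈ sphere z₀ r, ∀ x : EN N, x ≠ 0 → Φ s z = pr x → ‖pval P a b Φ s z x‖ * ‖x‖ ≤ C) :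
    ∀ z ∈ closedBall z₀ r, ∃ x : EN N, x ≠ 0 ∧ Φ s z = pr x ∧ ‖pval P a b Φ s z x‖ * ‖x‖ ≤ C := by
  obtain ⟨F, ⟨hFd, hFX, -⟩, hF⟩ := D.lift Φ hΦ s
  have hF0 : ∀ z, F z ≠ 0 := fun z h0 => D.cone.zero_notMem (h0 ▸ hFX z)
  have hg : ∀ z ∈ closedBall z₀ r, DifferentiableAt ℂ (fun z => pval P a b Φ s z (F z) • F z) z := by
    intro z hz
    exact (pval_hol D.cone hFd hF0 hF (hS z hz) P).differentiableAt.smul (hFd z)
  have hd : DiffContOnCl ℂ (fun z => pval P a b Φ s z (F z) • F z) (ball z₀ r) := by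
    refine DifferentiableOn.diffContOnCl fun z hz => ?_
    rw [closure_ball z₀ hr.ne'] at hz
    exact (hg z hz).differentiableWithinAt
  intro z hz
  refine ⟨F z, hF0 z, hF z, ?_⟩
  have h1 := Complex.norm_le_of_forall_mem_frontier_norm_le isBounded_ball hd (C := C) (fun y hy => ?_) (z := z) (by rwa [closure_ball z₀ hr.ne'])
  · rwa [norm_smul] at h1
  · rw [frontier_ball z₀ hr.ne'] at hy
    rw [norm_smul]
    exact hC y hy (F y) (hF0 y) (hF y)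

theorem pval_locBound_bd (D : TDat X Λ u a ν b LT Dt Bd ρ FF) (P : JForm X Λ u ν m) {Φ : ℝ → ℂ → MN N} (hΦ : Φ ∈ FF) {s₀ : ℝ} {z₀ : ℂ}
    (h : ((s₀ : ℂ), z₀) ∉ Bd) : ∃ C : ℝ, ∀ᶠ q in 𝓝 ((s₀, z₀) : ℝ × ℂ), ((q.1 : ℂ), q.2) ∉ Dt → ∀ x : EN N, x ≠ 0 → Φ q.1 q.2 = pr x →
      ‖pval P a b Φ q.1 q.2 x‖ * ‖x‖ ≤ C := by
  obtain ⟨r, δ, hr, hδ, hsph, hden⟩ := good_dense D hΦ h
  have hK : IsCompact (closedBall s₀ δ ×ˢ sphere z₀ r) := (isCompact_closedBall s₀ δ).prod (isCompact_sphere z₀ r)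
  obtain ⟨C, hC⟩ := gcb_cpt D P hΦ hK fun q hq => hsph q.1 (by simpa [Real.dist_eq] using hq.1) q.2 hq.2
  refine ⟨C, ?_⟩
  filter_upwards [prod_mem_nhds (ball_mem_nhds s₀ hδ) (ball_mem_nhds z₀ hr)] with q hq hqD x hx hΦx
  have hq1 : |q.1 - s₀| < δ := by simpa [Real.dist_eq] using hq.1
  have hS := D.smo Φ hΦ q.1 q.2 hqD
  refine le_of_forall_pos_le_add fun ε hε => ?_
  have hev := pval_normCont D.cone hS P hx hΦx hε
  have hev2 : ∀ᶠ s in 𝓝 q.1, ∀ x' : EN N, x' ≠ 0 → Φ s q.2 = pr x' → |‖pval P a b Φ s q.2 x'‖ * ‖x'‖ - ‖pval P a b Φ q.1 q.2 x‖ * ‖x‖| < ε := by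
    have hc : Tendsto (fun s : ℝ => ((s, q.2) : ℝ × ℂ)) (𝓝 q.1) (𝓝 (q.1, q.2)) := by
      have : Continuous fun s : ℝ => ((s, q.2) : ℝ × ℂ) := by fun_prop
      exact this.tendsto q.1
    exact hc.eventually hev
  obtain ⟨η, hη, hball⟩ := Metric.eventually_nhds_iff_ball.1 hev2
  obtain ⟨s', hs'1, hs'2, hs'3⟩ := hden q.1 hq1 η hη
  obtain ⟨x', hx'0, hx', hx'C⟩ := gcb_disc D P hΦ hr hs'3 (fun z hz => hC (s', z) ⟨by simpa [Real.dist_eq] using hs'2.le, hz⟩) q.2 (ball_subset_closedBall hq.2)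
  have h1 := abs_lt.1 (hball s' (by simpa [Real.dist_eq] using hs'1) x' hx'0 hx')
  linarith [h1.1]

end Pool.Agent.G3.C
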