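import Pool.Agent.G3.C.GenA

/-!
# G3 C GenB: generic analyticity

`gen_analytic`: if the jets of a family satisfy an analytic relation `Q (s, z, w_0, …, w_k) = 0` with `Q ≠ 0`, then `w` is analytic in `s` near some point.  Induction on `k`:
either some derivative of `Q` in the last variable is not identically `0` on the jets (`gen_step` for the first one), or `Q (s, z, w_0, …, w_{k-1}, v) = 0` for all `v`.
-/

set_option autoImplicit false

open Topology Filter Metric

namespace Pool.Agent.G3.C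

/-- all derivatives are `0`: the function is `0` -/
theorem eventually_zero_of_iteratedDeriv {f : ℂ → ℂ} {x : ℂ} (hf : AnalyticAt ℂ f x) (h : ∀ i, iteratedDeriv i f x = 0) : ∀ᶠ y in 𝓝 x, f y = 0 := by
  have h1 := hf.hasFPowerSeriesAt
  have h2 : FormalMultilinearSeries.ofScalars ℂ (fun n => iteratedDeriv n f x / (n.factorial : ℂ)) = 0 := by
    ext n
    simp [FormalMultilinearSeries.ofScalars, h]
  rw [h2] at h1
  exact h1.eventually_eq_zero

theorem dk_iterate_analytic {k : ℕ} {O : Set (ℂ × ℂ × (Fin (k + 1) → ℂ))} {Q : ℂ × ℂ × (Fin (k + 1) → ℂ) → ℂ} (hQ : AnalyticOnNhd ℂ Q O) (i : ℕ) :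
    AnalyticOnNhd ℂ (dk^[i] Q) O := by
  induction i with
  | zero => exact hQ
  | succ i ih =>
    rw [Function.iterate_succ_apply']
    exact fun q hq => dk_analytic (ih q hq)

/-- the slice in the last variable -/
noncomputable def slc {k : ℕ} (q : ℂ × ℂ × (Fin (k + 1) → ℂ)) (ω : ℂ) : ℂ × ℂ × (Fin (k + 1) → ℂ) :=
  (q.1, q.2.1, Function.update q.2.2 (Fin.last k) ω)

theorem slc_hasDerivAt {k : ℕ} (q : ℂ × ℂ × (Fin (k + 1) → ℂ)) (ω : ℂ) : HasDerivAt (slc q) (0, 0, Pi.single (Fin.last k) 1) ω := by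
  apply (hasDerivAt_const ω q.1).prodMk
  apply (hasDerivAt_const ω q.2.1).prodMk
  exact hasDerivAt_update q.2.2 (Fin.last k) ω

theorem slc_analytic {k : ℕ} (q : ℂ × ℂ × (Fin (k + 1) → ℂ)) (ω : ℂ) : AnalyticAt ℂ (slc q) ω := by
  have : Differentiable ℂ (slc q) := fun ω => (slc_hasDerivAt q ω).differentiableAt
  exact this.analyticAt ω

theorem iteratedDeriv_slc {k : ℕ} {O : Set (ℂ × ℂ × (Fin (k + 1) → ℂ))} (hO : IsOpen O) {Q : ℂ × ℂ × (Fin (k + 1) → ℂ) → ℂ} (hQ : AnalyticOnNhd ℂ Q O)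
    (q : ℂ × ℂ × (Fin (k + 1) → ℂ)) (i : ℕ) : ∀ ω : ℂ, slc q ω ∈ O → iteratedDeriv i (fun ω => Q (slc q ω)) ω = (dk^[i] Q) (slc q ω) := by
  induction i with
  | zero => intro ω _; simp
  | succ i ih =>
    intro ω hω
    rw [iteratedDeriv_succ, Function.iterate_succ_apply']
    have hev : iteratedDeriv i (fun ω => Q (slc q ω)) =ᶠ[𝓝 ω] fun ω => (dk^[i] Q) (slc q ω) := by
      filter_upwards [(slc_analytic q ω).continuousAt.eventually_mem (hO.mem_nhds hω)] with ω' hω'
      exact ih ω' hω'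
    rw [hev.deriv_eq]
    have h1 := ((dk_iterate_analytic hQ i) _ hω).differentiableAt.hasFDerivAt.comp_hasDerivAt ω (slc_hasDerivAt q ω)
    exact h1.deriv

theorem slc_combo {k : ℕ} (q : ℂ × ℂ × (Fin (k + 1) → ℂ)) (x y : ℂ) {a b : ℝ} (hab : a + b = 1) : slc q (a • x + b • y) = a • slc q x + b • slc q y := by
  have hab' : (a : ℂ) + (b : ℂ) = 1 := by rw [← Complex.ofReal_add, hab, Complex.ofReal_one]
  simp only [slc, Prod.smul_mk, Prod.mk_add_mk, Complex.real_smul]
  refine Prod.ext ?_ (Prod.ext ?_ ?_)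
  · show q.1 = a * q.1 + b * q.1
    rw [← add_mul, hab', one_mul]
  · show q.2.1 = a * q.2.1 + b * q.2.1
    rw [← add_mul, hab', one_mul]
  · ext i
    by_cases hi : i = Fin.last k
    · subst hi
      simp
    · simp only [Function.update_of_ne hi, Pi.add_apply, Pi.smul_apply, Complex.real_smul]
      rw [← add_mul, hab', one_mul]

theorem slc_preconnected {k : ℕ} {O : Set (ℂ × ℂ × (Fin (k + 1) → ℂ))} (hconv : Convex ℝ O) (q : ℂ × ℂ × (Fin (k + 1) → ℂ)) :
    IsPreconnected {ω : ℂ | slc q ω ∈ O} := by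
  apply Convex.isPreconnected
  intro x hx y hy a b ha hb hab
  show slc q (a • x + b • y) ∈ O
  rw [slc_combo q x y hab]
  exact hconv hx hy ha hb hab

/-- if all derivatives vanish at a point of the slice, `Q` vanishes on the slice -/
theorem slice_zero {k : ℕ} {O : Set (ℂ × ℂ × (Fin (k + 1) → ℂ))} (hO : IsOpen O) (hconv : Convex ℝ O) {Q : ℂ × ℂ × (Fin (k + 1) → ℂ) → ℂ}
    (hQ : AnalyticOnNhd ℂ Q O) {q : ℂ × ℂ × (Fin (k + 1) → ℂ)} (hq : q ∈ O) (h : ∀ i, (dk^[i] Q) q = 0) : ∀ ω : ℂ, slc q ω ∈ O → Q (slc q ω) = 0 := by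
  have hq0 : slc q (q.2.2 (Fin.last k)) = q := by simp [slc]
  have hin : slc q (q.2.2 (Fin.last k)) ∈ O := by rwa [hq0]
  have han : AnalyticOnNhd ℂ (fun ω => Q (slc q ω)) {ω : ℂ | slc q ω ∈ O} := by
    intro ω hω
    exact (hQ _ hω).comp_of_eq (slc_analytic q ω) rfl
  have hev : ∀ᶠ ω in 𝓝 (q.2.2 (Fin.last k)), Q (slc q ω) = 0 := by
    apply eventually_zero_of_iteratedDeriv (han _ hin)
    intro i
    rw [iteratedDeriv_slc hO hQ q i _ hin, hq0]
    exact h i
  intro ω hω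
  exact han.eqOn_zero_of_preconnected_of_eventuallyEq_zero (slc_preconnected hconv q) hin hev hω

theorem caseA {k : ℕ} {O : Set (ℂ × ℂ × (Fin (k + 1) → ℂ))} (hO : IsOpen O) {Q : ℂ × ℂ × (Fin (k + 1) → ℂ) → ℂ} (hQ : AnalyticOnNhd ℂ Q O)
    {w : ℕ → ℝ → ℂ → ℂ} {I : Set ℝ} {D : Set ℂ} (hI : IsOpen I) (hD : IsOpen D) (hw : JetFam w I D) (hmem : ∀ s ∈ I, ∀ z ∈ D, Jt k w s z ∈ O)
    (hrel : ∀ s ∈ I, ∀ z ∈ D, Q (Jt k w s z) = 0) (hA : ∃ i : ℕ, ∃ s ∈ I, ∃ z ∈ D, (dk^[i] Q) (Jt k w s z) ≠ 0) :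
    ∃ s₁ ∈ I, ∃ z₁ ∈ D, Ext (w 0) I D s₁ z₁ := by
  classical
  obtain ⟨s₁, hs₁, z₁, hz₁, hne⟩ := Nat.find_spec hA
  have hmin := fun m hm => Nat.find_min hA (m := m) hm
  set i := Nat.find hA with hi
  rcases Nat.eq_zero_or_pos i with h0 | h0
  · rw [h0] at hne
    exact absurd (hrel s₁ hs₁ z₁ hz₁) hne
  · obtain ⟨j, hj⟩ : ∃ j, i = j + 1 := ⟨i - 1, by omega⟩
    have hjm := hmin j (by omega)
    push Not at hjm
    rw [hj, Function.iterate_succ_apply'] at hne
    exact ⟨s₁, hs₁, z₁, hz₁, gen_step hO (dk_iterate_analytic hQ j) hI hD hw hmem hjm hs₁ hz₁ hne⟩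

theorem gen_analytic : ∀ (k : ℕ) {O : Set (ℂ × ℂ × (Fin (k + 1) → ℂ))}, IsOpen O → Convex ℝ O →
    (∀ (s z : ℂ) (v v' : Fin (k + 1) → ℂ), v 0 = v' 0 → (s, z, v) ∈ O → (s, z, v') ∈ O) →
    ∀ {Q : ℂ × ℂ × (Fin (k + 1) → ℂ) → ℂ}, AnalyticOnNhd ℂ Q O → (∃ q ∈ O, Q q ≠ 0) →
    ∀ {w : ℕ → ℝ → ℂ → ℂ} {I : Set ℝ} {D : Set ℂ}, IsOpen I → IsOpen D → I.Nonempty → D.Nonempty → JetFam w I D →
    (∀ s ∈ I, ∀ z ∈ D, Jt k w s z ∈ O) → (∀ s ∈ I, ∀ z ∈ D, Q (Jt k w s z) = 0) → ∃ s₁ ∈ I, ∃ z₁ ∈ D, Ext (w 0) I D s₁ z₁ := by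
  intro k
  induction k with
  | zero =>
    intro O hO hconv _ Q hQ hne w I D hI hD hIn hDn hw hmem hrel
    by_cases hA : ∃ i : ℕ, ∃ s ∈ I, ∃ z ∈ D, (dk^[i] Q) (Jt 0 w s z) ≠ 0
    · exact caseA hO hQ hI hD hw hmem hrel hA
    · push Not at hA
      exfalso
      have hz : ∀ s ∈ I, ∀ z ∈ D, ∀ v : Fin 1 → ℂ, ((s : ℂ), z, v) ∈ O → Q ((s : ℂ), z, v) = 0 := by
        intro s hs z hz v hv
        have e : slc (Jt 0 w s z) (v 0) = ((s : ℂ), z, v) := by
          simp only [slc, Jt]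
          refine Prod.ext rfl (Prod.ext rfl ?_)
          ext i
          have hi : i = Fin.last 0 := Fin.ext (by omega)
          rw [hi]
          simp
        have := slice_zero hO hconv hQ (hmem s hs z hz) (fun i => hA i s hs z hz) (v 0) (by rwa [e])
        rwa [e] at this
      obtain ⟨s₀, hs₀⟩ := hIn
      obtain ⟨z₀, hz₀⟩ := hDn
      have hq₀ := hmem s₀ hs₀ z₀ hz₀
      obtain ⟨r, hr, hrb⟩ := Metric.isOpen_iff.mp hO _ hq₀
      obtain ⟨r₁, hr₁, hr₁b⟩ := Metric.isOpen_iff.mp hD _ hz₀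
      set r₂ := min r r₁ with hr₂
      have hr₂0 : 0 < r₂ := lt_min hr hr₁
      have hev : ∀ᶠ q in 𝓝 (Jt 0 w s₀ z₀), Q q = 0 := by
        filter_upwards [ball_mem_nhds _ hr₂0] with q hq
        rw [Jt, ← ball_prod_same, ← ball_prod_same] at hq
        obtain ⟨h1, h2, h3⟩ := hq
        have han : AnalyticOnNhd ℂ (fun t : ℂ => Q (t, q.2.1, q.2.2)) (ball (s₀ : ℂ) r₂) := by
          intro t ht
          have hin : ((t, q.2.1, q.2.2) : ℂ × ℂ × (Fin 1 → ℂ)) ∈ O := by
            apply hrb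
            rw [Jt, ← ball_prod_same, ← ball_prod_same]
            exact ⟨ball_subset_ball (min_le_left _ _) ht, ball_subset_ball (min_le_left _ _) h2, ball_subset_ball (min_le_left _ _) h3⟩
          exact (hQ _ hin).comp_of_eq (analyticAt_id.prod (analyticAt_const.prod analyticAt_const)) rfl
        have hfr : ∃ᶠ t in 𝓝[≠] (s₀ : ℂ), Q (t, q.2.1, q.2.2) = 0 := by
          have hm : Tendsto (fun x : ℝ => (x : ℂ)) (𝓝[≠] s₀) (𝓝[≠] (s₀ : ℂ)) := by
            apply tendsto_nhdsWithin_of_tendsto_nhds_of_eventually_within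
            · exact (Complex.continuous_ofReal.tendsto s₀).mono_left nhdsWithin_le_nhds
            · filter_upwards [self_mem_nhdsWithin] with x hx
              exact fun h => hx (Complex.ofReal_injective h)
          apply hm.frequently
          apply Filter.Eventually.frequently
          apply Filter.Eventually.filter_mono nhdsWithin_le_nhds
          filter_upwards [hI.mem_nhds hs₀, ball_mem_nhds s₀ hr₂0] with x hx hxr
          apply hz x hx q.2.1 (hr₁b (ball_subset_ball (min_le_right _ _) h2)) q.2.2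
          apply hrb
          rw [Jt, ← ball_prod_same, ← ball_prod_same]
          refine ⟨?_, ball_subset_ball (min_le_left _ _) h2, ball_subset_ball (min_le_left _ _) h3⟩
          rw [mem_ball, dist_eq_norm, ← Complex.ofReal_sub, Complex.norm_real, ← dist_eq_norm]
          exact ball_subset_ball (min_le_left _ _) hxr
        have := han.eqOn_zero_of_preconnected_of_frequently_eq_zero (convex_ball _ _).isPreconnected (mem_ball_self hr₂0) hfr h1
        exact this
      obtain ⟨q, hq, hne'⟩ := hne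
      exact hne' (hQ.eqOn_zero_of_preconnected_of_eventuallyEq_zero hconv.isPreconnected hq₀ hev hq)
  | succ k ih =>
    intro O hO hconv hdep Q hQ hne w I D hI hD hIn hDn hw hmem hrel
    by_cases hA : ∃ i : ℕ, ∃ s ∈ I, ∃ z ∈ D, (dk^[i] Q) (Jt (k + 1) w s z) ≠ 0
    · exact caseA hO hQ hI hD hw hmem hrel hA
    · push Not at hA
      obtain ⟨q₀, hq₀, hne⟩ := hne
      set ω := q₀.2.2 (Fin.last (k + 1)) with hω
      set ι : ℂ × ℂ × (Fin (k + 1) → ℂ) → ℂ × ℂ × (Fin (k + 2) → ℂ) := fun q => (q.1, q.2.1, Fin.snoc (α := fun _ => ℂ) q.2.2 ω) with hι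
      have hιc : ∀ (x y : ℂ × ℂ × (Fin (k + 1) → ℂ)) (a b : ℝ), a + b = 1 → ι (a • x + b • y) = a • ι x + b • ι y := by
        intro x y a b hab
        have hab' : (a : ℂ) + (b : ℂ) = 1 := by rw [← Complex.ofReal_add, hab, Complex.ofReal_one]
        refine Prod.ext rfl (Prod.ext rfl ?_)
        ext i
        refine Fin.lastCases ?_ (fun j => ?_) i
        · simp only [hι, Fin.snoc_last, Prod.smul_mk, Prod.mk_add_mk, Pi.add_apply, Pi.smul_apply, Complex.real_smul]
          rw [← add_mul, hab', one_mul]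
        · simp [hι]
      have hιa : ∀ q, AnalyticAt ℂ ι q := by
        intro q
        apply analyticAt_fst.prod
        apply (analyticAt_fst.comp analyticAt_snd).prod
        rw [analyticAt_pi_iff]
        intro i
        refine Fin.lastCases ?_ (fun j => ?_) i
        · simp only [Fin.snoc_last]
          exact analyticAt_const
        · simp only [Fin.snoc_castSucc]
          exact ((ContinuousLinearMap.proj (R := ℂ) (φ := fun _ : Fin (k + 1) => ℂ) j).comp
            ((ContinuousLinearMap.snd ℂ ℂ (Fin (k + 1) → ℂ)).comp (ContinuousLinearMap.snd ℂ ℂ (ℂ × (Fin (k + 1) → ℂ))))).analyticAt q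
      have hJ : ∀ s z, ι (Jt k w s z) = slc (Jt (k + 1) w s z) ω := by
        intro s z
        refine Prod.ext rfl (Prod.ext rfl ?_)
        ext i
        refine Fin.lastCases ?_ (fun j => ?_) i
        · simp [hι, slc]
        · simp [hι, slc, Jt]
      have hJO : ∀ s ∈ I, ∀ z ∈ D, slc (Jt (k + 1) w s z) ω ∈ O := by
        intro s hs z hz
        apply hdep _ _ _ _ _ (hmem s hs z hz)
        simp [Jt]
      apply ih (O := ι ⁻¹' O) (Q := fun q => Q (ι q))
      · exact hO.preimage (continuous_iff_continuousAt.mpr fun q => (hιa q).continuousAt)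
      · intro x hx y hy a b ha hb hab
        show ι (a • x + b • y) ∈ O
        rw [hιc x y a b hab]
        exact hconv hx hy ha hb hab
      · intro s z v v' hv hO'
        apply hdep s z _ _ _ hO'
        have : (0 : Fin (k + 2)) = Fin.castSucc 0 := rfl
        rw [this]
        simp only [Fin.snoc_castSucc]
        exact hv
      · intro q hq
        exact (hQ _ hq).comp_of_eq (hιa q) rfl
      · have e : ι (q₀.1, q₀.2.1, fun j => q₀.2.2 j.castSucc) = q₀ := by
          refine Prod.ext rfl (Prod.ext rfl ?_)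
          ext i
          refine Fin.lastCases ?_ (fun j => ?_) i
          · simp [hι, hω]
          · simp [hι]
        refine ⟨(q₀.1, q₀.2.1, fun j => q₀.2.2 j.castSucc), ?_, ?_⟩
        · show ι (q₀.1, q₀.2.1, fun j => q₀.2.2 j.castSucc) ∈ O
          rwa [e]
        · show Q (ι (q₀.1, q₀.2.1, fun j => q₀.2.2 j.castSucc)) ≠ 0
          rwa [e]
      · exact hI
      · exact hD
      · exact hIn
      · exact hDn
      · exact hw
      · intro s hs z hz
        show ι (Jt k w s z) ∈ O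
        rw [hJ]
        exact hJO s hs z hz
      · intro s hs z hz
        show Q (ι (Jt k w s z)) = 0
        rw [hJ]
        exact slice_zero hO hconv hQ (hmem s hs z hz) (fun i => hA i s hs z hz) ω (hJO s hs z hz)

end Pool.Agent.G3.C
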