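import Pool.Agent.G3.C.TDefs
import Pool.Agent.TH.Osg

/-!
# G3 C GenC: from separate to joint extension

`Ext.joint`: let `W`, `C`, `ε` be from `Ext`.  For `z ∈ ball z₁ ε` the Taylor coefficients of `W · z` at `s₁` are `w n s₁ z / n!` (the derivatives of the restriction to the real
line are the `w n`; `JetFam.der`), holomorphic in `z` and `‖w n s₁ z / n!‖ ≤ C / ε'^n` for `ε' < ε` (Cauchy), so `W s z = ∑ w n s₁ z / n! (s - s₁)^n` is holomorphic in `z` for
`s ∈ ball s₁ (ε / 2)` (`differentiableOn_tsum_of_summable_norm`), and `Pool.Agent.TH.osgood` at every point of `ball (s₁, z₁) (ε / 2)` gives joint analyticity.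
-/

set_option autoImplicit false

open Topology Filter Metric

namespace Pool.Agent.G3.C

/-- the complex derivatives on the real line are the `w n` -/
private theorem GenC_iter {w : ℕ → ℝ → ℂ → ℂ} {I : Set ℝ} {D : Set ℂ} (hw : JetFam w I D) {s₁ ε : ℝ} {z : ℂ} (hz : z ∈ D)
    (hI : ∀ s : ℝ, |s - s₁| < ε → s ∈ I) {f : ℂ → ℂ} (hf : DifferentiableOn ℂ f (ball (s₁ : ℂ) ε))
    (hfw : ∀ s : ℝ, |s - s₁| < ε → f s = w 0 s z) (n : ℕ) :
    ∀ s : ℝ, |s - s₁| < ε → iteratedDeriv n f s = w n s z := by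
  induction n with
  | zero => intro s hs; rw [iteratedDeriv_zero]; exact hfw s hs
  | succ n ih =>
    intro s hs
    have hmem : (s : ℂ) ∈ ball (s₁ : ℂ) ε := by
      rw [mem_ball, dist_eq_norm, ← Complex.ofReal_sub, Complex.norm_real, Real.norm_eq_abs]
      exact hs
    have h1 : AnalyticAt ℂ f s := hf.analyticAt (isOpen_ball.mem_nhds hmem)
    have h2 : AnalyticAt ℂ (iteratedDeriv n f) s := by
      rw [iteratedDeriv_eq_iterate]
      exact h1.iterated_deriv n
    have h3 : HasDerivAt (fun t : ℝ => iteratedDeriv n f t) (deriv (iteratedDeriv n f) s) s :=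
      h2.differentiableAt.hasDerivAt.comp_ofReal
    have h4 : HasDerivAt (fun t : ℝ => w n t z) (w (n + 1) s z) s := hw.der n s (hI s hs) z hz
    have h5 : (fun t : ℝ => iteratedDeriv n f t) =ᶠ[𝓝 s] fun t => w n t z := by
      have h6 : ∀ᶠ t : ℝ in 𝓝 s, |t - s₁| < ε := by
        have : Continuous fun t : ℝ => |t - s₁| := by fun_prop
        exact this.continuousAt.eventually_lt continuousAt_const hs
      filter_upwards [h6] with t ht
      exact ih t ht
    rw [iteratedDeriv_succ]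
    exact h3.unique (h4.congr_of_eventuallyEq h5)

/-- the extension is holomorphic in both variables -/
theorem Ext.joint {w : ℕ → ℝ → ℂ → ℂ} {I : Set ℝ} {D : Set ℂ} (hw : JetFam w I D) {s₁ : ℝ} {z₁ : ℂ} (h : Ext (w 0) I D s₁ z₁) :
    ∃ (ε : ℝ) (W : ℂ × ℂ → ℂ), 0 < ε ∧ DifferentiableOn ℂ W (ball ((s₁ : ℂ), z₁) ε) ∧ (∀ s : ℝ, |s - s₁| < ε → s ∈ I) ∧ ball z₁ ε ⊆ D ∧
      ∀ (s : ℝ) (z : ℂ), ((s : ℂ), z) ∈ ball ((s₁ : ℂ), z₁) ε → W ((s : ℂ), z) = w 0 s z := by
  obtain ⟨ε, W, C, hε, hD, hI, hh, he, hC⟩ := h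
  have hs₁ : |s₁ - s₁| < ε := by rw [sub_self, abs_zero]; exact hε
  have hC0 : 0 ≤ C := (norm_nonneg _).trans (hC s₁ (mem_ball_self hε) z₁ (mem_ball_self hε))
  set ε' : ℝ := 3 / 4 * ε with hε'
  have hε'0 : 0 < ε' := by positivity
  have hε'ε : ε' < ε := by rw [hε']; linarith
  -- the Taylor coefficients
  have hit : ∀ z ∈ ball z₁ ε, ∀ n, iteratedDeriv n (fun s => W s z) (s₁ : ℂ) = w n s₁ z := fun z hz n =>
    GenC_iter hw (hD hz) hI (hh z hz) (he z hz) n s₁ hs₁
  have hco : ∀ z ∈ ball z₁ ε, ∀ n : ℕ, ‖((n.factorial : ℂ))⁻¹ * w n s₁ z‖ ≤ C / ε' ^ n := by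
    intro z hz n
    have h1 := Complex.norm_iteratedDeriv_le_of_forall_mem_sphere_norm_le (f := fun s => W s z) (c := (s₁ : ℂ)) (R := ε') (C := C) n hε'0
      (((hh z hz).mono (closedBall_subset_ball hε'ε)).diffContOnCl_ball subset_rfl) (fun s hs => hC s (sphere_subset_closedBall.trans
        (closedBall_subset_ball hε'ε) hs) z hz)
    rw [hit z hz n] at h1
    have h2 : (0 : ℝ) < n.factorial := by exact_mod_cast n.factorial_pos
    rw [norm_mul, norm_inv, Complex.norm_natCast, inv_mul_le_iff₀ h2]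
    rw [mul_div_assoc] at h1
    exact h1
  have hser : ∀ s ∈ ball (s₁ : ℂ) ε, ∀ z ∈ ball z₁ ε, W s z = ∑' n : ℕ, ((n.factorial : ℂ))⁻¹ * w n s₁ z * (s - s₁) ^ n := by
    intro s hs z hz
    have h1 := Complex.taylorSeries_eq_on_ball' (f := fun s => W s z) hs (hh z hz)
    rw [← h1]
    refine tsum_congr fun n => ?_
    rw [hit z hz n]
  -- holomorphy in `z`
  have hz : ∀ s ∈ ball (s₁ : ℂ) (ε / 2), DifferentiableOn ℂ (fun z => W s z) (ball z₁ ε) := by
    intro s hs
    have hs' : ‖s - s₁‖ < ε / 2 := by rwa [mem_ball, dist_eq_norm] at hs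
    have h1 : DifferentiableOn ℂ (fun z => ∑' n : ℕ, ((n.factorial : ℂ))⁻¹ * w n s₁ z * (s - s₁) ^ n) (ball z₁ ε) := by
      refine Complex.differentiableOn_tsum_of_summable_norm (u := fun n : ℕ => C * (2 / 3 : ℝ) ^ n)
        ((summable_geometric_of_lt_one (by norm_num) (by norm_num)).mul_left C) ?_ isOpen_ball ?_
      · intro n
        exact ((((hw.hol n s₁ (hI s₁ hs₁)).mono hD).const_mul _).mul_const _)
      · intro n z hz
        rw [norm_mul, norm_pow]
        refine (mul_le_mul (hco z hz n) (pow_le_pow_left₀ (norm_nonneg _) hs'.le n) (by positivity) (by positivity)).trans (le_of_eq ?_)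
        rw [div_mul_eq_mul_div, mul_div_assoc, ← div_pow]
        congr 2
        rw [hε']
        field_simp
        norm_num
    refine h1.congr fun z hz => ?_
    exact hser s (ball_subset_ball (by linarith) hs) z hz
  refine ⟨ε / 2, fun p => W p.1 p.2, by positivity, ?_, fun s hs => hI s (hs.trans (by linarith)),
    (ball_subset_ball (by linarith)).trans hD, ?_⟩
  · rintro ⟨a, b⟩ hp
    rw [mem_ball, Prod.dist_eq, max_lt_iff] at hp
    obtain ⟨ha, hb⟩ := hp
    simp only at ha hb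
    set r : ℝ := min (ε / 2 - dist a (s₁ : ℂ)) (ε / 2 - dist b z₁) with hr
    have hr0 : 0 < r := lt_min (by linarith) (by linarith)
    have hba : ball a r ⊆ ball (s₁ : ℂ) (ε / 2) := ball_subset_ball' (by
      have := min_le_left (ε / 2 - dist a (s₁ : ℂ)) (ε / 2 - dist b z₁)
      rw [← hr] at this
      linarith)
    have hbb : ball b r ⊆ ball z₁ ε := ball_subset_ball' (by
      have := min_le_right (ε / 2 - dist a (s₁ : ℂ)) (ε / 2 - dist b z₁)
      rw [← hr] at this
      linarith)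
    have hba' : ball a r ⊆ ball (s₁ : ℂ) ε := hba.trans (ball_subset_ball (by linarith))
    have h1 : AnalyticAt ℂ (fun p : ℂ × ℂ => W p.1 p.2) (a, b) :=
      Pool.Agent.TH.osgood (M := C) hr0 (fun s hs z hz' => hC s (hba' hs) z (hbb hz'))
        (fun z hz' => (hh z (hbb hz')).mono hba') (fun s hs => (hz s (hba hs)).mono hbb)
    exact h1.differentiableAt.differentiableWithinAt
  · intro s z hp
    rw [mem_ball, Prod.dist_eq, max_lt_iff] at hp
    obtain ⟨ha, hb⟩ := hp
    simp only at ha hb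
    refine he z (mem_ball.2 (hb.trans (by linarith))) s ?_
    rw [dist_eq_norm, ← Complex.ofReal_sub, Complex.norm_real, Real.norm_eq_abs] at ha
    linarith

end Pool.Agent.G3.C
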