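import Pool.Agent.G3.C.EDefs
import Pool.Agent.TG.SaA

/-!
# G3 C LL: maps to the projective space with local holomorphic lifts

`LL W z₀`: near `z₀` the map `W : ℂ → MN N` is `pr ∘ G` with `G` holomorphic, `G z₀ ≠ 0`.

* `pr_iff_minors`: `pr x = pr y` iff all minors vanish (`pr_eq_iff`).
* `LL.ident`: the set of the `z ∈ A` near which `W = W'` is open, and closed in `A`: at a limit point `z₀ ∈ A` with the local lifts `G`, `G'` the minors `G i * G' j - G j * G' i` are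
  analytic and vanish on open sets near `z₀`, so (`AnalyticAt.eventually_eq_zero_or_eventually_ne_zero`) they vanish near `z₀`.
* `LL.nonvan`: the same for the set of the `z ∈ A` near which `nd v (W z) = 0`: this is `⟨v, G z⟩ = 0` (`nd_pr_ne`).
* `LL.lift`: `Pool.Agent.H17.exists_global_lift` as in `Pool.Agent.TG.exists_zeroFree`.
* `LL.of_zeros`: where `g` vanishes, `g z = (z - z₀) ^ n • G z` (`AnalyticAt.exists_eventuallyEq_pow_smul_nonzero_iff`).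
-/

set_option autoImplicit false

open Topology Filter Metric Set

namespace Pool.Agent.G3.C

open Pool.Agent.H36.BP (EN)
open Pool.Agent.H62.EF (MN pr pr_smul pr_eq_iff continuousAt_pr)

variable {N : ℕ}

/-- `W` has a holomorphic lift near `z₀` -/
def LL (W : ℂ → MN N) (z₀ : ℂ) : Prop := ∃ G : ℂ → EN N, AnalyticAt ℂ G z₀ ∧ G z₀ ≠ 0 ∧ ∀ᶠ z in 𝓝 z₀, W z = pr (G z)

theorem pr_iff_minors {x y : EN N} (hx : x ≠ 0) (hy : y ≠ 0) : pr x = pr y ↔ ∀ i j, x i * y j - x j * y i = 0 := by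
  rw [pr_eq_iff hx hy]
  constructor
  · rintro ⟨c, -, rfl⟩ i j
    simp only [PiLp.smul_apply, smul_eq_mul]
    ring
  · intro h
    obtain ⟨j, hj⟩ := Pool.Agent.TG.en_coord_ne hy
    have h1 : x = (x j / y j) • y := by
      ext i
      simp only [PiLp.smul_apply, smul_eq_mul]
      have h2 := h i j
      rw [div_mul_eq_mul_div, eq_div_iff hj]
      linear_combination h2
    refine ⟨x j / y j, ?_, h1⟩
    intro h0
    rw [h0, zero_smul] at h1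
    exact hx h1

/-- a property which holds near a point holds at a point different from a given one -/
private theorem LL_exists_ne {p : ℂ → Prop} {w : ℂ} (h : ∀ᶠ z in 𝓝 w, p z) (z₀ : ℂ) : ∃ z, z ≠ z₀ ∧ p z := by
  obtain ⟨O, hO, hOo, hw⟩ := _root_.mem_nhds_iff.1 h
  obtain ⟨z, hz, hz'⟩ := (dense_compl_singleton z₀).inter_open_nonempty O hOo ⟨w, hw⟩
  exact ⟨z, by simpa using hz', hO hz⟩

/-- near an accumulation point of open sets of zeros an analytic function is zero -/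
private theorem LL_zero {f : ℂ → ℂ} {z₀ : ℂ} (hf : AnalyticAt ℂ f z₀) {p q : ℂ → Prop} (hp : ∀ᶠ z in 𝓝 z₀, p z)
    (hq : z₀ ∈ closure {w | ∀ᶠ z in 𝓝 w, q z}) (h : ∀ z, p z → q z → f z = 0) : ∀ᶠ z in 𝓝 z₀, f z = 0 := by
  rcases hf.eventually_eq_zero_or_eventually_ne_zero with h1 | h1
  · exact h1
  · exfalso
    rw [eventually_nhdsWithin_iff] at h1
    obtain ⟨O, hO, hOo, hz₀⟩ := _root_.mem_nhds_iff.1 (h1.and hp)
    obtain ⟨w, hwO, hw⟩ := mem_closure_iff.1 hq O hOo hz₀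
    have h2' : ∀ᶠ z in 𝓝 w, z ∈ O := hOo.mem_nhds hwO
    have h2 : ∀ᶠ z in 𝓝 w, z ∈ O ∧ q z := h2'.and hw
    obtain ⟨z, hz, hzO, hzq⟩ := LL_exists_ne h2 z₀
    exact (hO hzO).1 hz (h z (hO hzO).2 hzq)

/-- the identity theorem -/
theorem LL.ident {W W' : ℂ → MN N} {A : Set ℂ} (hA : IsOpen A) (hc : IsPreconnected A) (hW : ∀ z ∈ A, LL W z) (hW' : ∀ z ∈ A, LL W' z) {z₁ : ℂ} (hz₁ : z₁ ∈ A)
    (h : ∀ᶠ z in 𝓝 z₁, W z = W' z) : ∀ z ∈ A, W z = W' z := by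
  have hsub : A ⊆ {z | ∀ᶠ w in 𝓝 z, W w = W' w} := by
    refine hc.subset_of_closure_inter_subset isOpen_setOfPred_eventually_nhds ⟨z₁, hz₁, h⟩ ?_
    rintro z₀ ⟨hz₀, hz₀A⟩
    obtain ⟨G, hG, hG0, hGe⟩ := hW z₀ hz₀A
    obtain ⟨G', hG', hG0', hGe'⟩ := hW' z₀ hz₀A
    have hp : ∀ᶠ z in 𝓝 z₀, (G z ≠ 0 ∧ W z = pr (G z)) ∧ G' z ≠ 0 ∧ W' z = pr (G' z) :=
      ((hG.continuousAt.eventually_ne hG0).and hGe).and ((hG'.continuousAt.eventually_ne hG0').and hGe')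
    have hm : ∀ i j, ∀ᶠ z in 𝓝 z₀, G z i * G' z j - G z j * G' z i = 0 := by
      intro i j
      refine LL_zero ?_ hp hz₀ ?_
      · exact ((Pool.Agent.TG.en_coord_an hG i).mul (Pool.Agent.TG.en_coord_an hG' j)).sub
          ((Pool.Agent.TG.en_coord_an hG j).mul (Pool.Agent.TG.en_coord_an hG' i))
      · rintro z ⟨⟨h1, h2⟩, h3, h4⟩ h5
        rw [h2, h4] at h5
        exact (pr_iff_minors h1 h3).1 h5 i j
    have hm' : ∀ᶠ z in 𝓝 z₀, ∀ i j, G z i * G' z j - G z j * G' z i = 0 :=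
      eventually_all.2 fun i => eventually_all.2 fun j => hm i j
    show ∀ᶠ w in 𝓝 z₀, W w = W' w
    filter_upwards [hp, hm'] with z hz1 hz2
    obtain ⟨⟨h1, h2⟩, h3, h4⟩ := hz1
    rw [h2, h4]
    exact (pr_iff_minors h1 h3).2 hz2
  intro z hz
  exact (hsub hz).self_of_nhds

/-- the zeros of a linear form are isolated -/
theorem LL.nonvan {W : ℂ → MN N} {A : Set ℂ} (hA : IsOpen A) (hc : IsPreconnected A) (hW : ∀ z ∈ A, LL W z) {v : EN N} {z₁ : ℂ} (hz₁ : z₁ ∈ A)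
    (h : nd v (W z₁) ≠ 0) : ∀ z ∈ A, ∀ᶠ w in 𝓝[≠] z, nd v (W w) ≠ 0 := by
  have han : ∀ {G : ℂ → EN N} {z₀ : ℂ}, AnalyticAt ℂ G z₀ → AnalyticAt ℂ (fun z => (inner ℂ v (G z) : ℂ)) z₀ := by
    intro G z₀ hG
    exact ((innerSL ℂ v).analyticAt _).comp hG
  have hno : ∀ z ∈ A, ¬ ∀ᶠ w in 𝓝 z, nd v (W w) = 0 := by
    intro z hz hcon
    have hsub : A ⊆ {z | ∀ᶠ w in 𝓝 z, nd v (W w) = 0} := by
      refine hc.subset_of_closure_inter_subset isOpen_setOfPred_eventually_nhds ⟨z, hz, hcon⟩ ?_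
      rintro z₀ ⟨hz₀, hz₀A⟩
      obtain ⟨G, hG, hG0, hGe⟩ := hW z₀ hz₀A
      have hp : ∀ᶠ z in 𝓝 z₀, G z ≠ 0 ∧ W z = pr (G z) := (hG.continuousAt.eventually_ne hG0).and hGe
      have h1 : ∀ᶠ z in 𝓝 z₀, (inner ℂ v (G z) : ℂ) = 0 := by
        refine LL_zero (han hG) hp hz₀ ?_
        rintro z ⟨h1, h2⟩ h3
        rw [h2] at h3
        by_contra h4
        exact (nd_pr_ne h1).2 h4 h3
      show ∀ᶠ w in 𝓝 z₀, nd v (W w) = 0
      filter_upwards [hp, h1] with z hz1 hz2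
      rw [hz1.2]
      by_contra h3
      exact (nd_pr_ne hz1.1).1 h3 hz2
    exact h (hsub hz₁).self_of_nhds
  intro z₀ hz₀A
  obtain ⟨G, hG, hG0, hGe⟩ := hW z₀ hz₀A
  have hp : ∀ᶠ z in 𝓝 z₀, G z ≠ 0 ∧ W z = pr (G z) := (hG.continuousAt.eventually_ne hG0).and hGe
  rcases (han hG).eventually_eq_zero_or_eventually_ne_zero with h1 | h1
  · exfalso
    apply hno z₀ hz₀A
    filter_upwards [hp, h1] with z hz1 hz2
    rw [hz1.2]
    by_contra h3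
    exact (nd_pr_ne hz1.1).1 h3 hz2
  · filter_upwards [h1, hp.filter_mono nhdsWithin_le_nhds] with z hz1 hz2
    rw [hz2.2]
    exact (nd_pr_ne hz2.1).2 hz1

/-- global lifts -/
theorem LL.lift {W : ℂ → MN N} (hW : ∀ z, LL W z) : ∃ F : ℂ → EN N, Differentiable ℂ F ∧ (∀ z, F z ≠ 0) ∧ ∀ z, W z = pr (F z) := by
  classical
  choose Φ hΦa hΦ0 hΦe using hW
  obtain ⟨f, hf⟩ : ∃ f : ℂ → Pool.Agent.H17.PN N,
      f = fun z => Projectivization.mk ℂ (Φ z z).ofLp (Pool.Agent.TG.ofLp_ne (hΦ0 z)) := ⟨_, rfl⟩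
  have hfhol : Pool.Agent.H17.HolomorphicInto f Set.univ := by
    intro z₀ _
    refine ⟨fun w => (Φ z₀ w).ofLp, ?_, ?_⟩
    · rw [analyticAt_pi_iff]
      intro j
      exact Pool.Agent.TG.en_coord_an (hΦa z₀) j
    · filter_upwards [hΦe z₀, (hΦa z₀).continuousAt.eventually_ne (hΦ0 z₀)] with z h1 h2
      have h3 : pr (Φ z z) = pr (Φ z₀ z) := by
        rw [← h1]
        exact ((hΦe z).self_of_nhds).symm
      obtain ⟨c, -, h4⟩ := (pr_eq_iff (hΦ0 z) h2).1 h3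
      refine ⟨Pool.Agent.TG.ofLp_ne h2, ?_⟩
      rw [hf, Projectivization.mk_eq_mk_iff']
      exact ⟨c, by rw [h4]; rfl⟩
  obtain ⟨x, hx⟩ := Pool.Agent.H17.exists_global_lift hfhol
  have hF0 : ∀ z, (WithLp.toLp 2 (fun j => (x j : ℂ → ℂ) z) : EN N) ≠ 0 := by
    intro z h
    obtain ⟨h1, -⟩ := hx z
    apply h1
    funext j
    exact congrArg (fun v : EN N => v j) h
  refine ⟨fun z => WithLp.toLp 2 (fun j => (x j : ℂ → ℂ) z), ?_, hF0, ?_⟩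
  · have h1 : Differentiable ℂ (fun z => (fun j => (x j : ℂ → ℂ) z)) := differentiable_pi.2 fun j => (x j).diff
    exact (PiLp.continuousLinearEquiv 2 ℂ (fun _ : Fin (N + 1) => ℂ)).symm.differentiable.comp h1
  · intro z
    obtain ⟨h1, h2⟩ := hx z
    rw [hf] at h2
    obtain ⟨c, hc, h3⟩ := Pool.Agent.H17.mk_eq_mk_cross h2
    rw [(hΦe z).self_of_nhds, pr_eq_iff (hΦ0 z) (hF0 z)]
    refine ⟨c, hc, ?_⟩
    ext j
    exact h3 j

/-- a vector of holomorphic functions with zeros defines a map with local lifts -/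
theorem LL.of_zeros {g : ℂ → EN N} {B : Set ℂ} (hB : IsOpen B) (hc : IsPreconnected B) (hg : DifferentiableOn ℂ g B) {z₁ : ℂ} (hz₁ : z₁ ∈ B) (h : g z₁ ≠ 0) :
    ∃ W : ℂ → MN N, (∀ z ∈ B, LL W z) ∧ ∀ z ∈ B, g z ≠ 0 → W z = pr (g z) := by
  classical
  have hga : AnalyticOnNhd ℂ g B := hg.analyticOnNhd hB
  have hloc : ∀ z₀ : ℂ, ∃ (m : ℕ) (Φ : ℂ → EN N), z₀ ∈ B → AnalyticAt ℂ Φ z₀ ∧ Φ z₀ ≠ 0 ∧ ∀ᶠ z in 𝓝 z₀, g z = (z - z₀) ^ m • Φ z := by
    intro z₀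
    by_cases hz₀ : z₀ ∈ B
    · have h1 : ¬ ∀ᶠ z in 𝓝 z₀, g z = 0 := fun h2 => h (hga.eqOn_zero_of_preconnected_of_eventuallyEq_zero hc hz₀ h2 hz₁)
      obtain ⟨m, Φ, h2⟩ := ((hga z₀ hz₀).exists_eventuallyEq_pow_smul_nonzero_iff).2 h1
      exact ⟨m, Φ, fun _ => h2⟩
    · exact ⟨0, 0, fun h2 => absurd h2 hz₀⟩
  choose m Φ hΦ using hloc
  have hself : ∀ z ∈ B, g z ≠ 0 → g z = Φ z z := by
    intro z hzB hz
    have h1 := ((hΦ z hzB).2.2).self_of_nhds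
    rw [sub_self] at h1
    rcases Nat.eq_zero_or_pos (m z) with h2 | h2
    · rwa [h2, pow_zero, one_smul] at h1
    · rw [zero_pow h2.ne', zero_smul] at h1
      exact absurd h1 hz
  refine ⟨fun z => pr (Φ z z), ?_, ?_⟩
  · intro z₀ hz₀
    obtain ⟨h1, h2, h3⟩ := hΦ z₀ hz₀
    refine ⟨Φ z₀, h1, h2, ?_⟩
    filter_upwards [h3, h1.continuousAt.eventually_ne h2, hB.mem_nhds hz₀] with z h4 h5 h6
    rcases eq_or_ne z z₀ with h7 | h7
    · rw [h7]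
    · have h8 : (z - z₀) ^ m z₀ ≠ 0 := pow_ne_zero _ (sub_ne_zero.2 h7)
      have h9 : g z ≠ 0 := by
        rw [h4]
        exact smul_ne_zero h8 h5
      rw [← hself z h6 h9, h4]
      exact pr_smul _ h8
  · intro z hz hgz
    show pr (Φ z z) = pr (g z)
    rw [← hself z hz hgz]

end Pool.Agent.G3.C
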