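import Pool.Agent.G3.C.EDefs
import Pool.Agent.TG.SmA

/-!
# G3 C XU: a holomorphic curve with infinitely many points in `X` (over the right points of the torus) is a curve in `X`
-/

set_option autoImplicit false

open Topology Filter Metric Set

namespace Pool.Agent.G3.C

open Pool.Agent.H36.BP (EN fs wd)
open Pool.Agent.H14.PP (IsCone)
open Pool.Agent.H62.EF (MN pr pr_smul pr_eq_iff continuousAt_pr)
open Pool.Agent.AD (Vd Chart Charts)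
open Pool.Agent.TG (TMap Lat close_lift mem_of_pr)

variable {N k : ℕ} {X : Set (EN N)} {Λ : AddSubgroup (Vd (k + 1))} {u : EN N → Vd (k + 1)}

private theorem xu_coord {E : Type*} [NormedAddCommGroup E] [NormedSpace ℂ E] {f : E → EN N} {z : E} (hf : AnalyticAt ℂ f z) (i : Fin (N + 1)) :
    AnalyticAt ℂ (fun w => f w i) z :=
  ((EuclideanSpace.proj (𝕜 := ℂ) i : EN N →L[ℂ] ℂ).analyticAt _).comp hf

private theorem xu_prop {x y : EN N} (hx : x ≠ 0) (hy : y ≠ 0) (h : ∀ i j, x i * y j - x j * y i = 0) : ∃ c : ℂ, c ≠ 0 ∧ x = c • y := by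
  obtain ⟨j, hj⟩ : ∃ j, y j ≠ 0 := by
    by_contra hcon
    push Not at hcon
    exact hy (by ext j; exact hcon j)
  have e : x = (x j / y j) • y := by
    ext i
    simp only [PiLp.smul_apply, smul_eq_mul]
    rw [div_mul_eq_mul_div, eq_div_iff hj]
    exact sub_eq_zero.1 (h i j)
  refine ⟨x j / y j, fun h0 => ?_, e⟩
  rw [h0, zero_smul] at e
  exact hx e

/-- the local statement -/
theorem xu_local {d : ℕ} (hX : IsCone X) (hch : Charts d X) (ht : TMap X Λ u) (hl : Lat Λ) {γ : ℂ → EN N} {υ : ℂ → Vd (k + 1)} {ζ : ℂ}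
    (hγ : AnalyticAt ℂ γ ζ) (h0 : γ ζ ≠ 0) (hυ : AnalyticAt ℂ υ ζ) (hfr : ∃ᶠ w in 𝓝[≠] ζ, γ w ∈ X ∧ u (γ w) - υ w ∈ Λ) :
    ∀ᶠ w in 𝓝 ζ, γ w ∈ X ∧ u (γ w) - υ w ∈ Λ := by
  obtain ⟨hxX, hxu⟩ := close_lift hX ht hl hγ.continuousAt h0 hυ.continuousAt (hfr.filter_mono nhdsWithin_le_nhds)
  obtain ⟨χ, hxU, hq0⟩ := hch _ hxX
  have hqγ : AnalyticAt ℂ (fun w => χ.q (γ w)) ζ := (χ.q_an _ hxU).comp hγ
  have hq0' : χ.q (γ ζ) ∈ ball (0 : Vd d) 2 := by rw [hq0]; exact mem_ball_self two_pos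
  have hσ : AnalyticAt ℂ (fun w => χ.σ (χ.q (γ w))) ζ := AnalyticAt.fun_comp (χ.σ_an _ hq0') hqγ
  have hev : ∀ᶠ w in 𝓝 ζ, γ w ∈ χ.U ∧ χ.q (γ w) ∈ ball (0 : Vd d) 2 ∧ γ w ≠ 0 :=
    (hγ.continuousAt.eventually_mem (χ.isOpen_U.mem_nhds hxU)).and
      ((hqγ.continuousAt.eventually_mem (isOpen_ball.mem_nhds hq0')).and (hγ.continuousAt.eventually_ne h0))
  -- in `X`
  have hm : ∀ i j, ∀ᶠ w in 𝓝 ζ, γ w i * χ.σ (χ.q (γ w)) j - γ w j * χ.σ (χ.q (γ w)) i = 0 := by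
    intro i j
    have han : AnalyticAt ℂ (fun w => γ w i * χ.σ (χ.q (γ w)) j - γ w j * χ.σ (χ.q (γ w)) i) ζ :=
      ((xu_coord hγ i).mul (xu_coord hσ j)).sub ((xu_coord hγ j).mul (xu_coord hσ i))
    refine han.frequently_zero_iff_eventually_zero.1 ?_
    refine (hfr.and_eventually (hev.filter_mono nhdsWithin_le_nhds)).mono fun w hw => ?_
    obtain ⟨⟨hwX, -⟩, hwU, hwq, hw0⟩ := hw
    obtain ⟨-, c, hc, he⟩ := χ.surj _ hwX hwU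
    have h1 : ∀ l, γ w l = c * χ.σ (χ.q (γ w)) l := fun l => by
      have := congrArg (fun v : EN N => v l) he
      simpa [PiLp.smul_apply, smul_eq_mul] using this
    rw [h1 i, h1 j]
    ring
  have hX' : ∀ᶠ w in 𝓝 ζ, γ w ∈ X := by
    have h2 : ∀ᶠ w in 𝓝 ζ, ∀ i j, γ w i * χ.σ (χ.q (γ w)) j - γ w j * χ.σ (χ.q (γ w)) i = 0 := eventually_all.2 fun i => eventually_all.2 fun j => hm i j
    filter_upwards [h2, hev] with w h3 h4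
    obtain ⟨hwU, hwq, hw0⟩ := h4
    have h5 := (χ.σ_mem _ hwq).1
    obtain ⟨c, hc, he⟩ := xu_prop hw0 (fun h => hX.zero_notMem (h ▸ h5)) h3
    rw [he]
    exact hX.smul_mem _ h5 c hc
  -- over the right points
  obtain ⟨v, hv, hvu⟩ := ht.loc _ hxX
  have hD : AnalyticAt ℂ (fun w => v (γ w) - υ w) ζ := (hv.comp hγ).sub hυ
  have hvu' : ∀ᶠ w in 𝓝 ζ, γ w ∈ X → u (γ w) - v (γ w) ∈ Λ := hγ.continuousAt.eventually hvu
  have hDζ : v (γ ζ) - υ ζ ∈ Λ := by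
    have h1 := Λ.sub_mem hxu (hvu'.self_of_nhds hxX)
    have e : u (γ ζ) - υ ζ - (u (γ ζ) - v (γ ζ)) = v (γ ζ) - υ ζ := by abel
    rwa [e] at h1
  obtain ⟨δ, hδ, hdisc⟩ := hl.disc
  have hclose : ∀ᶠ w in 𝓝 ζ, ‖(v (γ w) - υ w) - (v (γ ζ) - υ ζ)‖ < δ := by
    have h1 := Metric.tendsto_nhds.1 hD.continuousAt δ hδ
    filter_upwards [h1] with w hw
    rwa [dist_eq_norm] at hw
  have hz : ∀ᶠ w in 𝓝 ζ, (v (γ w) - υ w) - (v (γ ζ) - υ ζ) = 0 := by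
    have han : AnalyticAt ℂ (fun w => (v (γ w) - υ w) - (v (γ ζ) - υ ζ)) ζ := hD.sub analyticAt_const
    refine han.frequently_zero_iff_eventually_zero.1 ?_
    refine (hfr.and_eventually ((hvu'.and hclose).filter_mono nhdsWithin_le_nhds)).mono fun w hw => ?_
    obtain ⟨⟨hwX, hwu⟩, h1, h2⟩ := hw
    have h3 := Λ.sub_mem (Λ.sub_mem hwu (h1 hwX)) hDζ
    have e : u (γ w) - υ w - (u (γ w) - v (γ w)) - (v (γ ζ) - υ ζ) = (v (γ w) - υ w) - (v (γ ζ) - υ ζ) := by abel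
    rw [e] at h3
    exact hdisc _ h3 h2
  filter_upwards [hX', hvu', hz] with w h1 h2 h3
  refine ⟨h1, ?_⟩
  have h4 := Λ.add_mem (h2 h1) hDζ
  have e : u (γ w) - υ w = (u (γ w) - v (γ w)) + (v (γ ζ) - υ ζ) := by
    rw [← sub_eq_zero.1 h3]
    abel
  rw [e]
  exact h4

/-- the global statement -/
theorem xu_global {d : ℕ} (hX : IsCone X) (hch : Charts d X) (ht : TMap X Λ u) (hl : Lat Λ) {γ : ℂ → EN N} {υ : ℂ → Vd (k + 1)} {W : Set ℂ}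
    (hWo : IsOpen W) (hWc : IsPreconnected W) (hγ : DifferentiableOn ℂ γ W) (h0 : ∀ ζ ∈ W, γ ζ ≠ 0) (hυ : DifferentiableOn ℂ υ W) {ζ₀ : ℂ} (hζ₀ : ζ₀ ∈ W)
    (hfr : ∃ᶠ w in 𝓝[≠] ζ₀, γ w ∈ X ∧ u (γ w) - υ w ∈ Λ) : ∀ ζ ∈ W, γ ζ ∈ X ∧ u (γ ζ) - υ ζ ∈ Λ := by
  obtain ⟨A, hA⟩ : ∃ A : Set ℂ, ∀ ζ, ζ ∈ A ↔ ∀ᶠ w in 𝓝 ζ, γ w ∈ X ∧ u (γ w) - υ w ∈ Λ := ⟨{ζ | ∀ᶠ w in 𝓝 ζ, γ w ∈ X ∧ u (γ w) - υ w ∈ Λ}, fun _ => Iff.rfl⟩
  have hloc : ∀ ζ ∈ W, (∃ᶠ w in 𝓝[≠] ζ, γ w ∈ X ∧ u (γ w) - υ w ∈ Λ) → ζ ∈ A := fun ζ hζ h =>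
    (hA ζ).2 (xu_local hX hch ht hl (hγ.analyticAt (hWo.mem_nhds hζ)) (h0 ζ hζ) (hυ.analyticAt (hWo.mem_nhds hζ)) h)
  have hAo : IsOpen A := by
    rw [isOpen_iff_mem_nhds]
    intro ζ hζ
    filter_upwards [((hA ζ).1 hζ).eventually_nhds] with w hw
    exact (hA w).2 hw
  have hcl : closure A ∩ W ⊆ A := by
    rintro ζ ⟨hζ, hζW⟩
    refine hloc ζ hζW ?_
    have h1 : ∃ᶠ w in 𝓝 ζ, w ∈ A := mem_closure_iff_frequently.1 hζ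
    rw [Filter.frequently_iff] at h1 ⊢
    intro U hU
    rw [mem_nhdsWithin] at hU
    obtain ⟨V, hVo, hζV, hVU⟩ := hU
    obtain ⟨w, hwV, hwA⟩ := h1 (hVo.mem_nhds hζV)
    -- a point of `V` near `w`, not equal to `ζ`
    have h2 : ∀ᶠ x in 𝓝 w, x ∈ V ∧ γ x ∈ X ∧ u (γ x) - υ x ∈ Λ := Filter.Eventually.and (hVo.mem_nhds hwV) ((hA w).1 hwA)
    have h3 : ∃ᶠ x in 𝓝 w, x ≠ ζ := by
      have hd : Dense ({ζ}ᶜ : Set ℂ) := dense_compl_singleton ζ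
      exact mem_closure_iff_frequently.1 (hd w)
    obtain ⟨x, hx1, hx2⟩ := (h3.and_eventually h2).exists
    exact ⟨x, hVU ⟨hx2.1, hx1⟩, hx2.2⟩
  have h := hWc.subset_of_closure_inter_subset hAo ⟨ζ₀, hζ₀, hloc ζ₀ hζ₀ hfr⟩ hcl
  exact fun ζ hζ => ((hA ζ).1 (h hζ)).self_of_nhds

/-- real points accumulate -/
theorem real_freq {s : ℝ} {P : ℂ → Prop} (h : ∀ᶠ t : ℝ in 𝓝 s, P t) : ∃ᶠ w in 𝓝[≠] (s : ℂ), P w := by
  have h1 : Tendsto (fun t : ℝ => (t : ℂ)) (𝓝[≠] s) (𝓝[≠] (s : ℂ)) := by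
    refine tendsto_nhdsWithin_iff.2 ⟨(Complex.continuous_ofReal.tendsto s).mono_left nhdsWithin_le_nhds, ?_⟩
    filter_upwards [self_mem_nhdsWithin] with t ht
    intro hc
    exact ht (Complex.ofReal_injective hc)
  have h2 : ∃ᶠ t : ℝ in 𝓝[≠] s, P t := (h.filter_mono nhdsWithin_le_nhds).frequently
  exact h1.frequently h2

/-- the extension of the family is in `X` and over the right points -/
theorem ext_mem {d : ℕ} (hX : IsCone X) (hch : Charts d X) (ht : TMap X Λ u) (hl : Lat Λ) {a ν b : Vd (k + 1)} {Φ : ℝ → ℂ → MN N}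
    (hΦ : ∀ s : ℝ, ∃ F ∈ Gc X Λ u a (b + (s : ℂ) • ν), ∀ z, Φ s z = pr (F z)) {s₀ : ℝ} {z₀ : ℂ} {ε : ℝ} {F : ℂ × ℂ → EN N}
    (hF : DifferentiableOn ℂ F (ball ((s₀ : ℂ), z₀) ε)) (h0 : ∀ p ∈ ball ((s₀ : ℂ), z₀) ε, F p ≠ 0)
    (hr : ∀ (s : ℝ) (z : ℂ), ((s : ℂ), z) ∈ ball ((s₀ : ℂ), z₀) ε → Φ s z = pr (F (s, z))) :
    ∀ p ∈ ball ((s₀ : ℂ), z₀) ε, F p ∈ X ∧ u (F p) - (b + p.1 • ν + p.2 • a) ∈ Λ := by
  rintro ⟨ζ, z⟩ hp
  have hp' : ζ ∈ ball (s₀ : ℂ) ε ∧ z ∈ ball z₀ ε := by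
    rw [← ball_prod_same] at hp
    exact hp
  have hmem : ∀ w ∈ ball (s₀ : ℂ) ε, (w, z) ∈ ball ((s₀ : ℂ), z₀) ε := fun w hw => by
    rw [← ball_prod_same]
    exact ⟨hw, hp'.2⟩
  have hε : 0 < ε := dist_nonneg.trans_lt (mem_ball.1 hp)
  have hs₀ : (s₀ : ℂ) ∈ ball (s₀ : ℂ) ε := mem_ball_self hε
  refine xu_global (γ := fun w => F (w, z)) (υ := fun w => b + w • ν + z • a) (W := ball (s₀ : ℂ) ε) hX hch ht hl isOpen_ball (convex_ball _ _).isPreconnected ?_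
    (fun w hw => h0 _ (hmem w hw)) ?_ hs₀ (real_freq ?_) ζ hp'.1
  · intro w hw
    have h1 : DifferentiableAt ℂ F (w, z) := hF.differentiableAt (isOpen_ball.mem_nhds (hmem w hw))
    exact (h1.comp w (differentiableAt_id.prodMk (differentiableAt_const z))).differentiableWithinAt
  · exact ((differentiable_const _).add (differentiable_id.smul_const ν)).add (differentiable_const _) |>.differentiableOn
  · have h1 : ∀ᶠ t : ℝ in 𝓝 s₀, (t : ℂ) ∈ ball (s₀ : ℂ) ε := Complex.continuous_ofReal.continuousAt.eventually_mem (isOpen_ball.mem_nhds hs₀)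
    filter_upwards [h1] with t ht'
    obtain ⟨G, hG, hGΦ⟩ := hΦ t
    have h2 := hr t z (hmem _ ht')
    rw [hGΦ] at h2
    exact mem_of_pr hX ht (hG.2.1 z) (hG.2.2 z) (h0 _ (hmem _ ht')) h2.symm

end Pool.Agent.G3.C
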