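import Pool.Agent.G3.C.LMD
import Pool.Agent.G3.C.LL
import Pool.Agent.G3.C.XU
import Pool.Agent.TH.Osg

/-!
# G3 C Glue: entire curves for complex values of the parameter

Two local meromorphic lifts are proportional on the intersection of their balls (`lm_prop`: minors; they vanish for real values of the parameter).  For a fixed complex `ζ` the local
lifts `F (ζ, ·)` define a map `Ψ ζ : ℂ → MN N` with local holomorphic lifts (`LL.of_zeros`), so an entire curve (`LL.lift`), in `X` and over the line by `xu_global`.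
-/

set_option autoImplicit false

open Topology Filter Metric Set

namespace Pool.Agent.G3.C

open Pool.Agent.H36.BP (EN)
open Pool.Agent.H14.PP (IsCone)
open Pool.Agent.H62.EF (MN pr pr_smul pr_eq_iff continuousAt_pr)
open Pool.Agent.AD (Vd Chart Charts)
open Pool.Agent.TG (TMap Lat close_lift mem_of_pr)

variable {N k : ℕ} {X : Set (EN N)} {Λ : AddSubgroup (Vd (k + 1))} {u : EN N → Vd (k + 1)}

private theorem gl_re_self (ζ : ℂ) : dist ζ (ζ.re : ℂ) = |ζ.im| := by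
  rw [dist_eq_norm]
  have : ζ - (ζ.re : ℂ) = (ζ.im : ℂ) * Complex.I := by
    apply Complex.ext <;> simp
  rw [this, norm_mul, Complex.norm_I, mul_one, Complex.norm_real, Real.norm_eq_abs]

private theorem gl_re_le (ζ : ℂ) (s : ℝ) : dist (ζ.re : ℂ) (s : ℂ) ≤ dist ζ s := by
  rw [dist_eq_norm, ← Complex.ofReal_sub, Complex.norm_real, Real.norm_eq_abs, dist_eq_norm]
  have := Complex.abs_re_le_norm (ζ - s)
  simpa using this

/-- the data of a local meromorphic lift -/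
structure LD (Φ : ℝ → ℂ → MN N) (s₀ : ℝ) (z₀ : ℂ) (ε : ℝ) (F : ℂ × ℂ → EN N) : Prop where
  diff : DifferentiableOn ℂ F (ball ((s₀ : ℂ), z₀) ε)
  ne : ∀ ζ ∈ ball (s₀ : ℂ) ε, ∃ z ∈ ball z₀ ε, F (ζ, z) ≠ 0
  val : ∀ (s : ℝ) (z : ℂ), ((s : ℂ), z) ∈ ball ((s₀ : ℂ), z₀) ε → F (s, z) ≠ 0 → Φ s z = pr (F (s, z))

private theorem gl_mem {s₀ : ℝ} {z₀ : ℂ} {ε : ℝ} {ζ z : ℂ} : (ζ, z) ∈ ball ((s₀ : ℂ), z₀) ε ↔ ζ ∈ ball (s₀ : ℂ) ε ∧ z ∈ ball z₀ ε := by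
  rw [← ball_prod_same]
  exact Iff.rfl

private theorem gl_co {G : ℂ → EN N} {B : Set ℂ} (h : DifferentiableOn ℂ G B) (i : Fin (N + 1)) : DifferentiableOn ℂ (fun w => G w i) B :=
  (EuclideanSpace.proj (𝕜 := ℂ) i : EN N →L[ℂ] ℂ).differentiable.comp_differentiableOn h

/-- holomorphic functions of two variables are analytic -/
theorem gl_an {F : ℂ × ℂ → EN N} {c p : ℂ × ℂ} {ε : ℝ} (hF : DifferentiableOn ℂ F (ball c ε)) (hp : p ∈ ball c ε) : AnalyticAt ℂ F p := by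
  obtain ⟨r, hr, hrb⟩ := Metric.isOpen_iff.1 isOpen_ball _ hp
  have hFb := hF.mono hrb
  obtain ⟨r', hr', h⟩ := Metric.continuousAt_iff.1 (hF.differentiableAt (isOpen_ball.mem_nhds hp)).continuousAt 1 one_pos
  obtain ⟨e, he⟩ : ∃ e, e = min r r' := ⟨_, rfl⟩
  have he0 : 0 < e := by rw [he]; exact lt_min hr hr'
  have her : e ≤ r := by rw [he]; exact min_le_left _ _
  have her' : e ≤ r' := by rw [he]; exact min_le_right _ _
  have hpr : ∀ x ∈ ball p.1 e, ∀ y ∈ ball p.2 e, (x, y) ∈ ball p e := fun x hx y hy => by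
    rw [← ball_prod_same (x := p.1) (y := p.2)]
    exact ⟨hx, hy⟩
  have hdf : ∀ x ∈ ball p.1 e, ∀ y ∈ ball p.2 e, DifferentiableAt ℂ F (x, y) := fun x hx y hy =>
    hFb.differentiableAt (isOpen_ball.mem_nhds (ball_subset_ball her (hpr x hx y hy)))
  have key := Pool.Agent.TH.osgood (f := F) (a := p.1) (b := p.2) (M := ‖F p‖ + 1) he0 (fun x hx y hy => by
      have h1 := h (mem_ball.1 (ball_subset_ball her' (hpr x hx y hy)))
      rw [dist_eq_norm] at h1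
      have h2 := norm_le_norm_add_norm_sub' (F (x, y)) (F p)
      linarith)
    (fun y hy x hx => ((hdf x hx y hy).comp x (differentiableAt_id.prodMk (differentiableAt_const y))).differentiableWithinAt)
    (fun x hx y hy => ((hdf x hx y hy).comp y ((differentiableAt_const x).prodMk differentiableAt_id)).differentiableWithinAt)
  exact key

/-- the minors of two local lifts vanish -/
theorem lm_minors {Φ : ℝ → ℂ → MN N} {s₀ s₁ : ℝ} {z₀ z₁ : ℂ} {ε ε' : ℝ} {F F' : ℂ × ℂ → EN N} (h : LD Φ s₀ z₀ ε F) (h' : LD Φ s₁ z₁ ε' F') {ζ z : ℂ}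
    (hp : (ζ, z) ∈ ball ((s₀ : ℂ), z₀) ε) (hp' : (ζ, z) ∈ ball ((s₁ : ℂ), z₁) ε') (i j : Fin (N + 1)) :
    F (ζ, z) i * F' (ζ, z) j - F (ζ, z) j * F' (ζ, z) i = 0 := by
  obtain ⟨h1, h2⟩ := gl_mem.1 hp
  obtain ⟨h1', h2'⟩ := gl_mem.1 hp'
  obtain ⟨W, hW⟩ : ∃ W : Set ℂ, W = ball (s₀ : ℂ) ε ∩ ball (s₁ : ℂ) ε' := ⟨_, rfl⟩
  have hWo : IsOpen W := by rw [hW]; exact isOpen_ball.inter isOpen_ball
  have hWc : IsPreconnected W := by rw [hW]; exact ((convex_ball _ _).inter (convex_ball _ _)).isPreconnected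
  have hζW : ζ ∈ W := by rw [hW]; exact ⟨h1, h1'⟩
  have hreW : (ζ.re : ℂ) ∈ W := by
    rw [hW]
    exact ⟨(gl_re_le ζ s₀).trans_lt h1, (gl_re_le ζ s₁).trans_lt h1'⟩
  have hm1 : ∀ w ∈ W, (w, z) ∈ ball ((s₀ : ℂ), z₀) ε := fun w hw => gl_mem.2 ⟨by rw [hW] at hw; exact hw.1, h2⟩
  have hm2 : ∀ w ∈ W, (w, z) ∈ ball ((s₁ : ℂ), z₁) ε' := fun w hw => gl_mem.2 ⟨by rw [hW] at hw; exact hw.2, h2'⟩
  have hd : ∀ {G : ℂ × ℂ → EN N} {c : ℂ × ℂ} {e : ℝ}, DifferentiableOn ℂ G (ball c e) → (∀ w ∈ W, (w, z) ∈ ball c e) → DifferentiableOn ℂ (fun w => G (w, z)) W := by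
    intro G c e hG hm w hw
    have h1 : DifferentiableAt ℂ G (w, z) := hG.differentiableAt (isOpen_ball.mem_nhds (hm w hw))
    exact (h1.comp w (differentiableAt_id.prodMk (differentiableAt_const z))).differentiableWithinAt
  have han : AnalyticOnNhd ℂ (fun w => F (w, z) i * F' (w, z) j - F (w, z) j * F' (w, z) i) W :=
    (((gl_co (hd h.diff hm1) i).mul (gl_co (hd h'.diff hm2) j)).sub ((gl_co (hd h.diff hm1) j).mul (gl_co (hd h'.diff hm2) i))).analyticOnNhd hWo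
  refine han.eqOn_zero_of_preconnected_of_frequently_eq_zero hWc hreW (real_freq (P := fun w => F (w, z) i * F' (w, z) j - F (w, z) j * F' (w, z) i = 0) ?_) hζW
  have h3 : ∀ᶠ t : ℝ in 𝓝 ζ.re, (t : ℂ) ∈ W := Complex.continuous_ofReal.continuousAt.eventually_mem (hWo.mem_nhds hreW)
  filter_upwards [h3] with t ht
  by_cases hz : F ((t : ℂ), z) = 0
  · rw [hz]
    simp
  by_cases hz' : F' ((t : ℂ), z) = 0
  · rw [hz']
    simp
  exact (pr_iff_minors hz hz').1 ((h.val t z (hm1 _ ht) hz).symm.trans (h'.val t z (hm2 _ ht) hz')) i j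

/-- curves in `X`, local lifts -/
theorem xu_LL {d : ℕ} (hX : IsCone X) (hch : Charts d X) (ht : TMap X Λ u) (hl : Lat Λ) {W : ℂ → MN N} {υ : ℂ → Vd (k + 1)} {B : Set ℂ}
    (hBo : IsOpen B) (hBc : IsPreconnected B) (hW : ∀ ζ ∈ B, LL W ζ) (hυ : DifferentiableOn ℂ υ B) {ζ₀ : ℂ} (hζ₀ : ζ₀ ∈ B)
    (hfr : ∃ᶠ w in 𝓝[≠] ζ₀, ∃ x ∈ X, W w = pr x ∧ u x - υ w ∈ Λ) : ∀ ζ ∈ B, ∃ x ∈ X, W ζ = pr x ∧ u x - υ ζ ∈ Λ := by
  obtain ⟨P, hP⟩ : ∃ P : ℂ → Prop, ∀ w, P w ↔ ∃ x ∈ X, W w = pr x ∧ u x - υ w ∈ Λ := ⟨fun w => ∃ x ∈ X, W w = pr x ∧ u x - υ w ∈ Λ, fun _ => Iff.rfl⟩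
  have hloc : ∀ ζ ∈ B, (∃ᶠ w in 𝓝[≠] ζ, P w) → ∀ᶠ w in 𝓝 ζ, P w := by
    intro ζ hζ hf
    obtain ⟨G, hG, hG0, hGe⟩ := hW ζ hζ
    have hne : ∀ᶠ w in 𝓝 ζ, G w ≠ 0 := hG.continuousAt.eventually_ne hG0
    have hf' : ∃ᶠ w in 𝓝[≠] ζ, G w ∈ X ∧ u (G w) - υ w ∈ Λ := by
      refine (hf.and_eventually ((hne.and hGe).filter_mono nhdsWithin_le_nhds)).mono fun w hw => ?_
      obtain ⟨hw1, hw2, hw3⟩ := hw
      obtain ⟨x, hx, hx1, hx2⟩ := (hP w).1 hw1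
      exact mem_of_pr hX ht hx hx2 hw2 (by rw [← hw3, hx1])
    filter_upwards [xu_local hX hch ht hl hG hG0 (hυ.analyticAt (hBo.mem_nhds hζ)) hf', hGe] with w hw1 hw2
    exact (hP w).2 ⟨G w, hw1.1, hw2, hw1.2⟩
  obtain ⟨A, hA⟩ : ∃ A : Set ℂ, ∀ ζ, ζ ∈ A ↔ ∀ᶠ w in 𝓝 ζ, P w := ⟨{ζ | ∀ᶠ w in 𝓝 ζ, P w}, fun _ => Iff.rfl⟩
  have hAo : IsOpen A := by
    rw [isOpen_iff_mem_nhds]
    intro ζ hζ
    filter_upwards [((hA ζ).1 hζ).eventually_nhds] with w hw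
    exact (hA w).2 hw
  have hcl : closure A ∩ B ⊆ A := by
    rintro ζ ⟨hζ, hζB⟩
    refine (hA ζ).2 (hloc ζ hζB ?_)
    have h1 : ∃ᶠ w in 𝓝 ζ, w ∈ A := mem_closure_iff_frequently.1 hζ
    rw [Filter.frequently_iff] at h1 ⊢
    intro U hU
    rw [mem_nhdsWithin] at hU
    obtain ⟨V, hVo, hζV, hVU⟩ := hU
    obtain ⟨w, hwV, hwA⟩ := h1 (hVo.mem_nhds hζV)
    have h2 : ∀ᶠ x in 𝓝 w, x ∈ V ∧ P x := Filter.Eventually.and (hVo.mem_nhds hwV) ((hA w).1 hwA)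
    have h3 : ∃ᶠ x in 𝓝 w, x ≠ ζ := by
      have hd : Dense ({ζ}ᶜ : Set ℂ) := dense_compl_singleton ζ
      exact mem_closure_iff_frequently.1 (hd w)
    obtain ⟨x, hx1, hx2⟩ := (h3.and_eventually h2).exists
    exact ⟨x, hVU ⟨hx2.1, hx1⟩, hx2.2⟩
  have hfr' : ∃ᶠ w in 𝓝[≠] ζ₀, P w := hfr.mono fun w hw => (hP w).2 hw
  have h := hBc.subset_of_closure_inter_subset hAo ⟨ζ₀, hζ₀, (hA ζ₀).2 (hloc ζ₀ hζ₀ hfr')⟩ hcl
  exact fun ζ hζ => (hP ζ).1 ((hA ζ).1 (h hζ)).self_of_nhds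

/-- the zeros of a function which is not identically `0` are isolated -/
theorem gl_iso {g : ℂ → EN N} {B : Set ℂ} (hB : IsOpen B) (hc : IsPreconnected B) (hg : DifferentiableOn ℂ g B) (h : ∃ z ∈ B, g z ≠ 0) :
    ∀ z ∈ B, ∀ᶠ w in 𝓝[≠] z, g w ≠ 0 := by
  intro z hz
  obtain ⟨z₁, hz₁, hne⟩ := h
  rcases (hg.analyticAt (hB.mem_nhds hz)).eventually_eq_zero_or_eventually_ne_zero with h1 | h1
  · exact absurd ((hg.analyticOnNhd hB).eqOn_zero_of_preconnected_of_eventuallyEq_zero hc hz h1 hz₁) hne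
  · exact h1

/-- the value at a point where another proportional vector is not `0` -/
theorem gl_agree {W : ℂ → MN N} {B : Set ℂ} (hB : IsOpen B) (hc : IsPreconnected B) {g g' : ℂ → EN N} (hg' : DifferentiableOn ℂ g' B)
    (hne : ∃ z ∈ B, g' z ≠ 0) (hWg : ∀ z ∈ B, g' z ≠ 0 → W z = pr (g' z)) {w : ℂ} (hw : w ∈ B) (hW : LL W w) (hg : ContinuousAt g w)
    (hm : ∀ᶠ z in 𝓝 w, ∀ i j, g z i * g' z j - g z j * g' z i = 0) (h0 : g w ≠ 0) : W w = pr (g w) := by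
  obtain ⟨H, hH, hH0, hHe⟩ := hW
  have hiso := gl_iso hB hc hg' hne w hw
  rw [hHe.self_of_nhds, pr_iff_minors hH0 h0]
  intro i j
  have hco : ∀ {f : ℂ → EN N}, ContinuousAt f w → ∀ i, ContinuousAt (fun z => f z i) w := fun hf i =>
    (EuclideanSpace.proj (𝕜 := ℂ) i : EN N →L[ℂ] ℂ).continuous.continuousAt.comp hf
  have hcm : ContinuousAt (fun z => H z i * g z j - H z j * g z i) w :=
    ((hco hH.continuousAt i).mul (hco hg j)).sub ((hco hH.continuousAt j).mul (hco hg i))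
  have hfr : ∃ᶠ z in 𝓝 w, H z i * g z j - H z j * g z i ∈ ({0} : Set ℂ) := by
    have h1 : ∀ᶠ z in 𝓝[≠] w, H z i * g z j - H z j * g z i ∈ ({0} : Set ℂ) := by
      filter_upwards [hiso, hHe.filter_mono nhdsWithin_le_nhds, hm.filter_mono nhdsWithin_le_nhds, mem_nhdsWithin_of_mem_nhds (hB.mem_nhds hw),
        (hH.continuousAt.eventually_ne hH0).filter_mono nhdsWithin_le_nhds] with z h2 h3 h4 h5 h6
      have h7 := (pr_iff_minors h6 h2).1 (h3.symm.trans (hWg z h5 h2))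
      rw [mem_singleton_iff]
      obtain ⟨l, hl⟩ : ∃ l, g' z l ≠ 0 := by
        by_contra hcon
        push Not at hcon
        exact h2 (by ext l; exact hcon l)
      have e1 := h7 i l
      have e2 := h7 j l
      have e3 := h4 i l
      have e4 := h4 j l
      have e5 : (H z i * g z j - H z j * g z i) * (g' z l * g' z l) = 0 := by
        have a1 : H z i * g' z l = H z l * g' z i := sub_eq_zero.1 e1
        have a2 : H z j * g' z l = H z l * g' z j := sub_eq_zero.1 e2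
        have a3 : g z i * g' z l = g z l * g' z i := sub_eq_zero.1 e3
        have a4 : g z j * g' z l = g z l * g' z j := sub_eq_zero.1 e4
        calc (H z i * g z j - H z j * g z i) * (g' z l * g' z l) = (H z i * g' z l) * (g z j * g' z l) - (H z j * g' z l) * (g z i * g' z l) := by ring
          _ = 0 := by rw [a1, a2, a3, a4]; ring
      exact (mul_eq_zero.1 e5).resolve_right (mul_ne_zero hl hl)
    exact (h1.frequently).filter_mono nhdsWithin_le_nhds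
  have h2 := isClosed_singleton.mem_of_frequently_of_tendsto hfr hcm
  exact h2

/-- **entire curves for complex values of the parameter** -/
theorem glue {d : ℕ} (hX : IsCone X) (hch : Charts d X) (ht : TMap X Λ u) (hl : Lat Λ) {a ν b : Vd (k + 1)} {Φ : ℝ → ℂ → MN N}
    (hΦ : ∀ s : ℝ, ∃ F ∈ Gc X Λ u a (b + (s : ℂ) • ν), ∀ z, Φ s z = pr (F z)) {ε : ℝ} (hε : 0 < ε) (hM : ∀ s z, LMer Φ s z ε) :
    ∃ Ψ : ℂ → ℂ → MN N, (∀ (s : ℝ) z, Ψ s z = Φ s z) ∧ (∀ ζ : ℂ, |ζ.im| < ε → ∃ F ∈ Gc X Λ u a (b + ζ • ν), ∀ z, Ψ ζ z = pr (F z)) ∧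
      ∀ ζ z : ℂ, |ζ.im| < ε → ∃ G : ℂ × ℂ → EN N, AnalyticAt ℂ G (ζ, z) ∧ (¬ ∀ᶠ w in 𝓝 z, G (ζ, w) = 0) ∧
        ∀ᶠ p in 𝓝 (ζ, z), G p ≠ 0 → Ψ p.1 p.2 = pr (G p) := by
  classical
  have hex : ∀ (s : ℝ) (z : ℂ), ∃ F : ℂ × ℂ → EN N, LD Φ s z ε F := fun s z => by
    obtain ⟨F, h1, h2, h3⟩ := hM s z
    exact ⟨F, h1, h2, h3⟩
  choose Fl hFl using hex
  -- the centre of the ball
  have hcen : ∀ ζ : ℂ, |ζ.im| < ε → ζ ∈ ball (ζ.re : ℂ) ε := fun ζ hζ => by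
    rw [mem_ball, gl_re_self]
    exact hζ
  have hmem : ∀ ζ : ℂ, |ζ.im| < ε → ∀ z w : ℂ, w ∈ ball z ε → (ζ, w) ∈ ball ((ζ.re : ℂ), z) ε := fun ζ hζ z w hw => gl_mem.2 ⟨hcen ζ hζ, hw⟩
  have hsl : ∀ ζ : ℂ, |ζ.im| < ε → ∀ z : ℂ, DifferentiableOn ℂ (fun w => Fl ζ.re z (ζ, w)) (ball z ε) := fun ζ hζ z =>
    lm_slice (p := ((ζ.re : ℂ), z)) (hFl ζ.re z).diff (hcen ζ hζ)
  have hW : ∀ ζ : ℂ, |ζ.im| < ε → ∀ z : ℂ, ∃ W : ℂ → MN N, (∀ w ∈ ball z ε, LL W w) ∧ ∀ w ∈ ball z ε, Fl ζ.re z (ζ, w) ≠ 0 → W w = pr (Fl ζ.re z (ζ, w)) := by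
    intro ζ hζ z
    obtain ⟨z₁, hz₁, hne⟩ := (hFl ζ.re z).ne ζ (hcen ζ hζ)
    exact LL.of_zeros isOpen_ball (convex_ball _ _).isPreconnected (hsl ζ hζ z) hz₁ hne
  choose! W hW1 hW2 using hW
  obtain ⟨Ψ, hΨ⟩ : ∃ Ψ : ℂ → ℂ → MN N, ∀ ζ z, Ψ ζ z = W ζ z z := ⟨fun ζ z => W ζ z z, fun _ _ => rfl⟩
  -- consistency
  have hcons : ∀ ζ : ℂ, |ζ.im| < ε → ∀ z w : ℂ, w ∈ ball z ε → Ψ ζ w = W ζ z w := by
    intro ζ hζ z w hw
    rw [hΨ]
    obtain ⟨A, hA⟩ : ∃ A : Set ℂ, A = ball w ε ∩ ball z ε := ⟨_, rfl⟩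
    have hAo : IsOpen A := by rw [hA]; exact isOpen_ball.inter isOpen_ball
    have hAc : IsPreconnected A := by rw [hA]; exact ((convex_ball _ _).inter (convex_ball _ _)).isPreconnected
    have hwA : w ∈ A := by rw [hA]; exact ⟨mem_ball_self hε, hw⟩
    have hA1 : A ⊆ ball w ε := by rw [hA]; exact inter_subset_left
    have hA2 : A ⊆ ball z ε := by rw [hA]; exact inter_subset_right
    have i1 := gl_iso isOpen_ball (convex_ball w ε).isPreconnected (hsl ζ hζ w) ((hFl ζ.re w).ne ζ (hcen ζ hζ)) w (mem_ball_self hε)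
    have i2 := gl_iso isOpen_ball (convex_ball z ε).isPreconnected (hsl ζ hζ z) ((hFl ζ.re z).ne ζ (hcen ζ hζ)) w hw
    have i3 : ∀ᶠ x in 𝓝[≠] w, x ∈ A := mem_nhdsWithin_of_mem_nhds (hAo.mem_nhds hwA)
    obtain ⟨x, hx1, hx2, hxA⟩ := (i1.and (i2.and i3)).exists
    refine LL.ident hAo hAc (fun y hy => hW1 ζ hζ w y (hA1 hy)) (fun y hy => hW1 ζ hζ z y (hA2 hy)) hxA ?_ w hwA
    have c1 : ContinuousAt (fun y => Fl ζ.re w (ζ, y)) x := ((hsl ζ hζ w).differentiableAt (isOpen_ball.mem_nhds (hA1 hxA))).continuousAt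
    have c2 : ContinuousAt (fun y => Fl ζ.re z (ζ, y)) x := ((hsl ζ hζ z).differentiableAt (isOpen_ball.mem_nhds (hA2 hxA))).continuousAt
    filter_upwards [c1.eventually_ne hx1, c2.eventually_ne hx2, hAo.mem_nhds hxA] with y hy1 hy2 hyA
    rw [hW2 ζ hζ w y (hA1 hyA) hy1, hW2 ζ hζ z y (hA2 hyA) hy2, pr_iff_minors hy1 hy2]
    intro i j
    exact lm_minors (hFl ζ.re w) (hFl ζ.re z) (hmem ζ hζ w y (hA1 hyA)) (hmem ζ hζ z y (hA2 hyA)) i j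
  have hΨLL : ∀ ζ : ℂ, |ζ.im| < ε → ∀ z, LL (Ψ ζ) z := by
    intro ζ hζ z
    obtain ⟨G, hG, hG0, hGe⟩ := hW1 ζ hζ z z (mem_ball_self hε)
    refine ⟨G, hG, hG0, ?_⟩
    filter_upwards [hGe, ball_mem_nhds z hε] with w hw1 hw2
    rw [hcons ζ hζ z w hw2, hw1]
  -- the values of the lifts are in `X`
  have hXv : ∀ ζ : ℂ, |ζ.im| < ε → ∀ z w : ℂ, w ∈ ball z ε → Fl ζ.re z (ζ, w) ≠ 0 → ∃ x ∈ X, pr (Fl ζ.re z (ζ, w)) = pr x ∧ u x - (b + ζ • ν + w • a) ∈ Λ := by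
    intro ζ hζ z w hw hne
    have hζc := hcen ζ hζ
    have hdξ : DifferentiableOn ℂ (fun ξ => Fl ζ.re z (ξ, w)) (ball (ζ.re : ℂ) ε) := by
      intro ξ hξ
      have h1 : DifferentiableAt ℂ (Fl ζ.re z) (ξ, w) := (hFl ζ.re z).diff.differentiableAt (isOpen_ball.mem_nhds (gl_mem.2 ⟨hξ, hw⟩))
      exact (h1.comp ξ (differentiableAt_id.prodMk (differentiableAt_const w))).differentiableWithinAt
    obtain ⟨U, hU1, hU2⟩ := LL.of_zeros isOpen_ball (convex_ball _ _).isPreconnected hdξ hζc hne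
    have hre : (ζ.re : ℂ) ∈ ball (ζ.re : ℂ) ε := mem_ball_self hε
    have hiso := gl_iso isOpen_ball (convex_ball _ _).isPreconnected hdξ ⟨ζ, hζc, hne⟩ _ hre
    obtain ⟨x, hx, hx1, hx2⟩ := xu_LL hX hch ht hl (υ := fun ξ => b + ξ • ν + w • a) isOpen_ball (convex_ball _ _).isPreconnected hU1
      (((differentiable_const _).add (differentiable_id.smul_const ν)).add (differentiable_const _)).differentiableOn hre (by
        have h1 : ∃ᶠ ξ in 𝓝[≠] (ζ.re : ℂ), ξ ∈ ball (ζ.re : ℂ) ε ∧ ∃ t : ℝ, ξ = t := by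
          refine real_freq (P := fun ξ => ξ ∈ ball (ζ.re : ℂ) ε ∧ ∃ t : ℝ, ξ = t) ?_
          filter_upwards [Complex.continuous_ofReal.continuousAt.eventually_mem (isOpen_ball.mem_nhds hre)] with t ht
          exact ⟨ht, t, rfl⟩
        refine (h1.and_eventually hiso).mono fun ξ hξ => ?_
        obtain ⟨⟨hξ1, t, rfl⟩, hξ2⟩ := hξ
        obtain ⟨F, hF, hFΦ⟩ := hΦ t
        refine ⟨F w, hF.2.1 w, ?_, ?_⟩
        · rw [hU2 _ hξ1 hξ2, ← hFΦ, (hFl ζ.re z).val t w (gl_mem.2 ⟨hξ1, hw⟩) hξ2]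
        · exact hF.2.2 w) ζ hζc
    exact ⟨x, hx, by rw [← hU2 ζ hζc hne, hx1], hx2⟩
  refine ⟨Ψ, ?_, ?_, ?_⟩
  · intro s
    have him : |((s : ℂ)).im| < ε := by rw [Complex.ofReal_im, abs_zero]; exact hε
    obtain ⟨F, hF, hFΦ⟩ := hΦ s
    have hFX0 : ∀ z, F z ≠ 0 := fun z h => hX.zero_notMem (h ▸ hF.2.1 z)
    have hre : ((s : ℂ)).re = s := Complex.ofReal_re s
    obtain ⟨z₁, hz₁, hne⟩ := (hFl ((s : ℂ)).re 0).ne s (hcen _ him)
    have hc : ContinuousAt (fun y => Fl ((s : ℂ)).re 0 ((s : ℂ), y)) z₁ := ((hsl _ him 0).differentiableAt (isOpen_ball.mem_nhds hz₁)).continuousAt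
    have key := LL.ident (W := Ψ s) (W' := Φ s) isOpen_univ isPreconnected_univ (fun z _ => hΨLL _ him z)
      (fun z _ => ⟨F, hF.1.analyticAt z, hFX0 z, Eventually.of_forall hFΦ⟩) (mem_univ z₁) (by
        filter_upwards [hc.eventually_ne hne, isOpen_ball.mem_nhds hz₁] with y hy1 hy2
        rw [hcons _ him 0 y hy2, hW2 _ him 0 y hy2 hy1]
        have h := (hFl ((s : ℂ)).re 0).val s y (hmem _ him 0 y hy2) hy1
        exact h.symm)
    exact fun z => key z (mem_univ z)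
  · intro ζ hζ
    obtain ⟨F, hF, hF0, hFΨ⟩ := LL.lift (hΨLL ζ hζ)
    obtain ⟨z₁, hz₁, hne⟩ := (hFl ζ.re 0).ne ζ (hcen ζ hζ)
    have hc : ContinuousAt (fun y => Fl ζ.re 0 (ζ, y)) z₁ := ((hsl ζ hζ 0).differentiableAt (isOpen_ball.mem_nhds hz₁)).continuousAt
    have hev : ∀ᶠ y in 𝓝 z₁, F y ∈ X ∧ u (F y) - (b + ζ • ν + y • a) ∈ Λ := by
      filter_upwards [hc.eventually_ne hne, isOpen_ball.mem_nhds hz₁] with y hy1 hy2
      obtain ⟨x, hx, hx1, hx2⟩ := hXv ζ hζ 0 y hy2 hy1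
      refine mem_of_pr hX ht hx hx2 (hF0 y) ?_
      rw [← hFΨ, hcons ζ hζ 0 y hy2, hW2 ζ hζ 0 y hy2 hy1, hx1]
    have hall := xu_global hX hch ht hl (γ := F) (υ := fun y => b + ζ • ν + y • a) isOpen_univ isPreconnected_univ hF.differentiableOn (fun z _ => hF0 z)
      ((differentiable_const _).add (differentiable_id.smul_const a)).differentiableOn (mem_univ z₁) ((hev.filter_mono nhdsWithin_le_nhds).frequently)
    exact ⟨F, ⟨hF, fun z => (hall z (mem_univ z)).1, fun z => (hall z (mem_univ z)).2⟩, hFΨ⟩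
  · intro ζ z hζ
    have hd := (hFl ζ.re z).diff
    have hp : (ζ, z) ∈ ball ((ζ.re : ℂ), z) ε := hmem ζ hζ z z (mem_ball_self hε)
    refine ⟨Fl ζ.re z, ?_, ?_, ?_⟩
    · exact gl_an hd hp
    · intro hcon
      have i1 := gl_iso isOpen_ball (convex_ball z ε).isPreconnected (hsl ζ hζ z) ((hFl ζ.re z).ne ζ (hcen ζ hζ)) z (mem_ball_self hε)
      obtain ⟨w, hw1, hw2⟩ := (i1.and (hcon.filter_mono nhdsWithin_le_nhds)).exists
      exact hw1 hw2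
    · have h1 : ∀ᶠ p : ℂ × ℂ in 𝓝 (ζ, z), |p.1.im| < ε := by
        have hc : ContinuousAt (fun p : ℂ × ℂ => |p.1.im|) (ζ, z) := by fun_prop
        exact hc.eventually_lt continuousAt_const hζ
      filter_upwards [h1, isOpen_ball.mem_nhds hp] with p hp1 hp2 hp3
      obtain ⟨ξ, w⟩ := p
      simp only at hp1 hp2 hp3 ⊢
      obtain ⟨hp2a, hp2b⟩ := gl_mem.1 hp2
      rw [hΨ]
      have hw : w ∈ ball w ε := mem_ball_self hε
      refine gl_agree (B := ball w ε) isOpen_ball (convex_ball w ε).isPreconnected (g := fun y => Fl ζ.re z (ξ, y)) (hsl ξ hp1 w) ((hFl ξ.re w).ne ξ (hcen ξ hp1))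
        (hW2 ξ hp1 w) hw (hW1 ξ hp1 w w hw) ?_ ?_ hp3
      · exact ((lm_slice (p := ((ζ.re : ℂ), z)) hd hp2a).differentiableAt (isOpen_ball.mem_nhds hp2b)).continuousAt
      · filter_upwards [ball_mem_nhds w hε, isOpen_ball.mem_nhds hp2b] with y hy1 hy2
        intro i j
        exact lm_minors (hFl ζ.re z) (hFl ξ.re w) (gl_mem.2 ⟨hp2a, hy2⟩) (hmem ξ hp1 w y hy1) i j

end Pool.Agent.G3.C
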