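import Pool.Agent.H6.G3.Circ

/-!
# G3 C Hankel: filling the bad discs for complex values of the parameter

`f (ζ, z)` is holomorphic for `ζ` in a disc with real centre and `z` in an annulus.  If for every real `ζ` there is a polynomial `q ≠ 0` of degree at
most `M` such that `q f (ζ, ·)` extends to the disc, then the same is true for every `ζ` (`hankel_fill`).  Proof: `q f` extends iff
`∮ z^i q f_j = 0` for all `i`, `j` (`laurent_fill`), a linear system for the coefficients of `q`; its minors of size `M + 1` are holomorphic in `ζ`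
and vanish for real `ζ`.
-/

set_option autoImplicit false

open Topology Filter Metric Set

namespace Pool.Agent.G3.C

/-- the annulus -/
private def An (zc : ℂ) (r₁ r₂ : ℝ) : Set ℂ := {z | r₁ < ‖z - zc‖ ∧ ‖z - zc‖ < r₂}

private theorem An_open (zc : ℂ) (r₁ r₂ : ℝ) : IsOpen (An zc r₁ r₂) :=
  (isOpen_lt continuous_const (continuous_id.sub continuous_const).norm).inter
    (isOpen_lt (continuous_id.sub continuous_const).norm continuous_const)

private theorem An_sphere {zc : ℂ} {r₁ r₂ r : ℝ} (h₁ : r₁ < r) (h₂ : r < r₂) : sphere zc r ⊆ An zc r₁ r₂ := by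
  intro z hz
  rw [mem_sphere, dist_eq_norm] at hz
  exact ⟨by rw [hz]; exact h₁, by rw [hz]; exact h₂⟩

private theorem An_annulus {zc : ℂ} {r₁ r₂ r r' : ℝ} (h₁ : r₁ < r) (h₂ : r' < r₂) :
    closedBall zc r' \ ball zc r ⊆ An zc r₁ r₂ := by
  rintro z ⟨h3, h4⟩
  rw [mem_closedBall, dist_eq_norm] at h3
  rw [mem_ball, dist_eq_norm, not_lt] at h4
  exact ⟨h₁.trans_le h4, h3.trans_lt h₂⟩

/-- independence of the radius -/
private theorem an_radius {zc : ℂ} {r₁ r₂ r r' : ℝ} (h₀ : 0 < r₁) {h : ℂ → ℂ} (hh : DifferentiableOn ℂ h (An zc r₁ r₂))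
    (h1 : r₁ < r) (h2 : r < r₂) (h1' : r₁ < r') (h2' : r' < r₂) : (∮ z in C(zc, r), h z) = ∮ z in C(zc, r'), h z := by
  have main : ∀ {a b : ℝ}, r₁ < a → b < r₂ → a ≤ b → (∮ z in C(zc, b), h z) = ∮ z in C(zc, a), h z := by
    intro a b ha hb hab
    refine Complex.circleIntegral_eq_of_differentiable_on_annulus_off_countable (h₀.trans ha) hab countable_empty
      (hh.continuousOn.mono (An_annulus ha hb)) ?_
    rintro z ⟨⟨hz1, hz2⟩, -⟩
    refine hh.differentiableAt ((An_open zc r₁ r₂).mem_nhds (An_annulus ha hb ⟨ball_subset_closedBall hz1, ?_⟩))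
    exact fun hz => hz2 (ball_subset_closedBall hz)
  rcases le_total r r' with h | h
  · exact (main h1 h2' h).symm
  · exact main h1' h2 h

/-- a function on an annulus with vanishing moments extends to the disc -/
theorem laurent_fill {zc : ℂ} {r₁ r₂ r : ℝ} (h₀ : 0 < r₁) (h1 : r₁ < r) (h2 : r < r₂) {h : ℂ → ℂ}
    (hh : DifferentiableOn ℂ h {z | r₁ < ‖z - zc‖ ∧ ‖z - zc‖ < r₂})
    (hm : ∀ i : ℕ, (∮ z in C(zc, r), z ^ i * h z) = 0) :
    ∃ g : ℂ → ℂ, DifferentiableOn ℂ g (ball zc r₂) ∧ ∀ z, r₁ < ‖z - zc‖ → ‖z - zc‖ < r₂ → g z = h z := by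
  have hh' : DifferentiableOn ℂ h (An zc r₁ r₂) := hh
  have hr0 : 0 < r := h₀.trans h1
  -- polynomials, all radii
  have hpoly : ∀ (P : Polynomial ℂ) (ρ : ℝ), r₁ < ρ → ρ < r₂ → (∮ z in C(zc, ρ), P.eval z * h z) = 0 := by
    intro P ρ hρ1 hρ2
    have hc : ContinuousOn h (sphere zc r) := hh'.continuousOn.mono (An_sphere h1 h2)
    have h3 : DifferentiableOn ℂ (fun z => P.eval z * h z) (An zc r₁ r₂) := P.differentiable.differentiableOn.mul hh'
    rw [an_radius h₀ h3 hρ1 hρ2 h1 h2]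
    have e : (fun z => P.eval z * h z) = fun z => ∑ i ∈ Finset.range (P.natDegree + 1), P.coeff i * (z ^ i * h z) := by
      funext z
      rw [Polynomial.eval_eq_sum_range, Finset.sum_mul]
      refine Finset.sum_congr rfl fun i _ => ?_
      ring
    rw [e, circleIntegral.integral_fun_sum]
    · refine Finset.sum_eq_zero fun i _ => ?_
      rw [circleIntegral.integral_const_mul, hm i, mul_zero]
    · intro i _
      refine ContinuousOn.circleIntegrable hr0.le ?_
      exact continuousOn_const.mul ((continuous_pow i).continuousOn.mul hc)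
  -- the inner Cauchy integral vanishes
  have hinner : ∀ z : ℂ, ∀ ρ : ℝ, r₁ < ρ → ρ < r₂ → ρ < ‖z - zc‖ → (∮ w in C(zc, ρ), (w - z)⁻¹ * h w) = 0 := by
    intro z ρ hρ1 hρ2 hρz
    have hρ0 : 0 < ρ := h₀.trans hρ1
    have hz0 : 0 < ‖z - zc‖ := hρ0.trans hρz
    have hzc : z - zc ≠ 0 := norm_pos_iff.1 hz0
    have hc : ContinuousOn h (sphere zc ρ) := hh'.continuousOn.mono (An_sphere hρ1 hρ2)
    obtain ⟨H, hH⟩ := (isCompact_sphere zc ρ).exists_bound_of_continuousOn hc
    have hwz : ∀ w ∈ sphere zc ρ, ‖z - zc‖ - ρ ≤ ‖w - z‖ := by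
      intro w hw
      rw [mem_sphere, dist_eq_norm] at hw
      have h3 : ‖z - zc‖ ≤ ‖w - z‖ + ‖w - zc‖ := by
        calc ‖z - zc‖ = ‖(w - zc) - (w - z)‖ := by congr 1; ring
          _ ≤ ‖w - zc‖ + ‖w - z‖ := norm_sub_le _ _
          _ = ‖w - z‖ + ‖w - zc‖ := add_comm _ _
      linarith
    have hwz0 : ∀ w ∈ sphere zc ρ, w - z ≠ 0 := by
      intro w hw e
      have := hwz w hw
      rw [e, norm_zero] at this
      linarith
    have hci : ContinuousOn (fun w => (w - z)⁻¹) (sphere zc ρ) := by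
      refine ContinuousOn.inv₀ (Continuous.continuousOn (by fun_prop)) hwz0
    -- the truncated geometric series
    have hK : ∀ K : ℕ, (∮ w in C(zc, ρ), (w - z)⁻¹ * h w) =
        ∮ w in C(zc, ρ), ((w - zc) / (z - zc)) ^ K * ((w - z)⁻¹ * h w) := by
      intro K
      obtain ⟨P, hP⟩ : ∃ P : Polynomial ℂ, P = ∑ k ∈ Finset.range K,
          Polynomial.C (-((z - zc)⁻¹ * ((z - zc)⁻¹) ^ k)) * (Polynomial.X - Polynomial.C zc) ^ k := ⟨_, rfl⟩
      have hid : ∀ w ∈ sphere zc ρ, (w - z)⁻¹ * h w =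
          P.eval w * h w + ((w - zc) / (z - zc)) ^ K * ((w - z)⁻¹ * h w) := by
        intro w hw
        have hPe : P.eval w = -((z - zc)⁻¹ * ∑ k ∈ Finset.range K, ((w - zc) / (z - zc)) ^ k) := by
          rw [hP, Polynomial.eval_finsetSum, Finset.mul_sum, ← Finset.sum_neg_distrib]
          refine Finset.sum_congr rfl fun k _ => ?_
          rw [Polynomial.eval_mul, Polynomial.eval_C, Polynomial.eval_pow, Polynomial.eval_sub, Polynomial.eval_X,
            Polynomial.eval_C, div_pow, inv_pow]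
          field_simp
        have hgeom := geom_sum_mul ((w - zc) / (z - zc)) K
        have hx : (w - zc) / (z - zc) - 1 = (w - z) * (z - zc)⁻¹ := by
          field_simp
          ring
        rw [hx] at hgeom
        have hw0 := hwz0 w hw
        have hS : (z - zc)⁻¹ * ∑ k ∈ Finset.range K, ((w - zc) / (z - zc)) ^ k =
            (((w - zc) / (z - zc)) ^ K - 1) * (w - z)⁻¹ := by
          rw [← hgeom]
          field_simp
        rw [hPe, hS]
        ring
      rw [circleIntegral.integral_congr hρ0.le hid, circleIntegral.integral_add, hpoly P ρ hρ1 hρ2, zero_add]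
      · exact ContinuousOn.circleIntegrable hρ0.le (P.continuous.continuousOn.mul hc)
      · refine ContinuousOn.circleIntegrable hρ0.le ?_
        exact (Continuous.continuousOn (by fun_prop)).mul (hci.mul hc)
    obtain ⟨q, hq⟩ : ∃ q : ℝ, q = ρ / ‖z - zc‖ := ⟨_, rfl⟩
    have hq0 : 0 ≤ q := by rw [hq]; positivity
    have hq1 : q < 1 := by rw [hq, div_lt_one hz0]; exact hρz
    have hbound : ∀ K : ℕ, ‖∮ w in C(zc, ρ), (w - z)⁻¹ * h w‖ ≤ 2 * Real.pi * ρ * (q ^ K * ((‖z - zc‖ - ρ)⁻¹ * H)) := by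
      intro K
      rw [hK K]
      refine circleIntegral.norm_integral_le_of_norm_le_const hρ0.le fun w hw => ?_
      have hwn : ‖w - zc‖ = ρ := by rwa [mem_sphere, dist_eq_norm] at hw
      rw [norm_mul, norm_pow, norm_div, hwn, ← hq, norm_mul, norm_inv]
      have h4 : ‖w - z‖⁻¹ ≤ (‖z - zc‖ - ρ)⁻¹ := inv_anti₀ (by linarith) (hwz w hw)
      have h5 := hH w hw
      have h6 : 0 ≤ (‖z - zc‖ - ρ)⁻¹ := inv_nonneg.2 (by linarith)
      gcongr
    have hlim : Tendsto (fun K : ℕ => 2 * Real.pi * ρ * (q ^ K * ((‖z - zc‖ - ρ)⁻¹ * H))) atTop (𝓝 0) := by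
      have h3 := ((tendsto_pow_atTop_nhds_zero_of_lt_one hq0 hq1).mul_const ((‖z - zc‖ - ρ)⁻¹ * H)).const_mul
        (2 * Real.pi * ρ)
      simpa using h3
    have h0 : ‖∮ w in C(zc, ρ), (w - z)⁻¹ * h w‖ ≤ 0 := ge_of_tendsto' hlim hbound
    exact norm_le_zero_iff.1 h0
  -- Cauchy formula
  have hcauchy : ∀ z : ℂ, r₁ < ‖z - zc‖ → ‖z - zc‖ < r →
      (∮ w in C(zc, r), (w - z)⁻¹ * h w) = 2 * Real.pi * Complex.I * h z := by
    intro z hz1 hz2
    obtain ⟨ρ, hρ1, hρ2⟩ := exists_between hz1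
    have hρ0 : 0 < ρ := h₀.trans hρ1
    have hρr : ρ < r := hρ2.trans hz2
    have hzA : z ∈ An zc r₁ r₂ := ⟨hz1, hz2.trans h2⟩
    have hds : DifferentiableOn ℂ (dslope h z) (An zc r₁ r₂) :=
      (Complex.differentiableOn_dslope ((An_open zc r₁ r₂).mem_nhds hzA)).2 hh'
    have heq := an_radius h₀ hds h1 h2 hρ1 (hρr.trans h2)
    have hsplit : ∀ ρ' : ℝ, r₁ < ρ' → ρ' < r₂ → ‖z - zc‖ ≠ ρ' →
        (∮ w in C(zc, ρ'), dslope h z w) = (∮ w in C(zc, ρ'), (w - z)⁻¹ * h w) - (∮ w in C(zc, ρ'), (w - z)⁻¹) * h z := by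
      intro ρ' a1 a2 a3
      have hρ'0 : 0 < ρ' := h₀.trans a1
      have hne : ∀ w ∈ sphere zc ρ', w ≠ z := by
        intro w hw e
        rw [e, mem_sphere, dist_eq_norm] at hw
        exact a3 hw
      have hc : ContinuousOn h (sphere zc ρ') := hh'.continuousOn.mono (An_sphere a1 a2)
      have hci : ContinuousOn (fun w => (w - z)⁻¹) (sphere zc ρ') :=
        ContinuousOn.inv₀ (Continuous.continuousOn (by fun_prop)) fun w hw => sub_ne_zero.2 (hne w hw)
      have e1 : EqOn (dslope h z) (fun w => (w - z)⁻¹ * h w - (w - z)⁻¹ * h z) (sphere zc ρ') := by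
        intro w hw
        rw [dslope_of_ne _ (hne w hw), slope_def_field, div_eq_inv_mul, mul_sub]
      rw [circleIntegral.integral_congr hρ'0.le e1, circleIntegral.integral_sub]
      · congr 1
        have e2 : (fun w => (w - z)⁻¹ * h z) = fun w => h z * (w - z)⁻¹ := by
          funext w
          ring
        rw [e2, circleIntegral.integral_const_mul, mul_comm]
      · exact ContinuousOn.circleIntegrable hρ'0.le (hci.mul hc)
      · exact ContinuousOn.circleIntegrable hρ'0.le (hci.mul continuousOn_const)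
    rw [hsplit r h1 h2 hz2.ne, hsplit ρ hρ1 (hρr.trans h2) hρ2.ne', hinner z ρ hρ1 (hρr.trans h2) hρ2] at heq
    have hin : (∮ w in C(zc, r), (w - z)⁻¹) = 2 * Real.pi * Complex.I := by
      refine circleIntegral.integral_sub_inv_of_mem_ball ?_
      rw [mem_ball, dist_eq_norm]
      exact hz2
    have hout : (∮ w in C(zc, ρ), (w - z)⁻¹) = 0 := by
      have hne : ∀ w ∈ closedBall zc ρ, w - z ≠ 0 := by
        intro w hw e
        rw [mem_closedBall, dist_eq_norm, sub_eq_zero.1 e] at hw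
        linarith
      refine Complex.circleIntegral_eq_zero_of_differentiable_on_off_countable hρ0.le countable_empty
        (ContinuousOn.inv₀ (Continuous.continuousOn (by fun_prop)) hne) ?_
      rintro w ⟨hw, -⟩
      exact (differentiableAt_id.sub_const z).inv (hne w (ball_subset_closedBall hw))
    rw [hin, hout, zero_mul, sub_zero] at heq
    linear_combination heq
  -- the extension
  have hcr : ContinuousOn h (sphere zc r) := hh'.continuousOn.mono (An_sphere h1 h2)
  have hci : CircleIntegrable h zc r := ContinuousOn.circleIntegrable hr0.le hcr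
  obtain ⟨g₀, hg₀⟩ : ∃ g₀ : ℂ → ℂ, g₀ = fun z => (2 * Real.pi * Complex.I : ℂ)⁻¹ • ∮ w in C(zc, r), (w - z)⁻¹ • h w := ⟨_, rfl⟩
  have hg₀d : DifferentiableOn ℂ g₀ (ball zc r) := by
    have h3 := hasFPowerSeriesOn_cauchy_integral (f := h) (c := zc) (R := ⟨r, hr0.le⟩) hci (by exact_mod_cast hr0)
    have h4 := h3.differentiableOn
    rw [hg₀]
    refine h4.mono ?_
    intro z hz
    rw [Metric.mem_eball] 
    rw [edist_lt_coe]
    rw [mem_ball] at hz
    exact hz
  have hg₀h : ∀ z : ℂ, r₁ < ‖z - zc‖ → ‖z - zc‖ < r → g₀ z = h z := by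
    intro z hz1 hz2
    rw [hg₀]
    show (2 * Real.pi * Complex.I : ℂ)⁻¹ • (∮ w in C(zc, r), (w - z)⁻¹ * h w) = h z
    rw [hcauchy z hz1 hz2, smul_eq_mul, ← mul_assoc, inv_mul_cancel₀ Complex.two_pi_I_ne_zero, one_mul]
  classical
  have hgA : ∀ z : ℂ, r₁ < ‖z - zc‖ → ‖z - zc‖ < r₂ → (if ‖z - zc‖ < r then g₀ z else h z) = h z := by
    intro z hz1 hz2
    split_ifs with h3
    · exact hg₀h z hz1 h3
    · rfl
  refine ⟨fun z => if ‖z - zc‖ < r then g₀ z else h z, ?_, hgA⟩
  intro z hz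
  rw [mem_ball, dist_eq_norm] at hz
  refine DifferentiableAt.differentiableWithinAt ?_
  by_cases hzr : ‖z - zc‖ < r
  · have hzb : z ∈ ball zc r := by rw [mem_ball, dist_eq_norm]; exact hzr
    refine (hg₀d.differentiableAt (isOpen_ball.mem_nhds hzb)).congr_of_eventuallyEq ?_
    filter_upwards [isOpen_ball.mem_nhds hzb] with w hw
    rw [mem_ball, dist_eq_norm] at hw
    exact if_pos hw
  · have hzA : z ∈ An zc r₁ r₂ := ⟨h1.trans_le (not_lt.1 hzr), hz⟩
    refine (hh'.differentiableAt ((An_open zc r₁ r₂).mem_nhds hzA)).congr_of_eventuallyEq ?_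
    filter_upwards [(An_open zc r₁ r₂).mem_nhds hzA] with w hw
    exact hgA w hw.1 hw.2

/-- a family of rows all of whose maximal minors vanish has a kernel vector -/
private theorem exists_kernel {ι : Type} {M : ℕ} (A : ι → Fin (M + 1) → ℂ)
    (h : ∀ t : Fin (M + 1) → ι, (Matrix.of fun k => A (t k)).det = 0) :
    ∃ q : Fin (M + 1) → ℂ, q ≠ 0 ∧ ∀ i, ∑ l, A i l * q l = 0 := by
  by_cases htop : Submodule.span ℂ (range A) = ⊤
  · exfalso
    obtain ⟨κ, a, -, hspan, hli⟩ := exists_linearIndependent' ℂ A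
    rw [htop] at hspan
    have b := Module.Basis.mk hli hspan.ge
    have hfin : Fintype κ := FiniteDimensional.fintypeBasisIndex b
    have hcard : Fintype.card κ = M + 1 := by
      rw [← Module.finrank_eq_card_basis b, Module.finrank_fin_fun]
    let e : Fin (M + 1) ≃ κ := (Fintype.equivFinOfCardEq hcard).symm
    have hli' : LinearIndependent ℂ (Matrix.of fun k => A (a (e k))).row := by
      have h1 := hli.comp e e.injective
      exact h1
    rw [Matrix.linearIndependent_rows_iff_isUnit, Matrix.isUnit_iff_isUnit_det, h, isUnit_zero_iff] at hli'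
    exact zero_ne_one hli'
  · obtain ⟨φ, hφ0, hφ⟩ := Submodule.exists_le_ker_of_lt_top _ (lt_top_iff_ne_top.2 htop)
    have hφe : ∀ x : Fin (M + 1) → ℂ, φ x = ∑ l, x l * φ (Pi.single l 1) := by
      intro x
      conv_lhs => rw [pi_eq_sum_univ x]
      rw [map_sum]
      refine Finset.sum_congr rfl fun l _ => ?_
      rw [map_smul, smul_eq_mul]
      congr 2
      funext j
      simp [Pi.single_apply, eq_comm]
    refine ⟨fun l => φ (Pi.single l 1), ?_, fun i => ?_⟩
    · intro h0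
      apply hφ0
      ext x
      simp only [LinearMap.coe_comp, Function.comp_apply, LinearMap.zero_apply, LinearMap.coe_single]
      exact congrFun h0 x
    · rw [← hφe]
      exact hφ (Submodule.subset_span ⟨i, rfl⟩)

/-- a holomorphic function on a disc with real centre which vanishes at the real points is zero -/
private theorem zero_of_real {s₀ ε : ℝ} (hε : 0 < ε) {D : ℂ → ℂ} (hD : DifferentiableOn ℂ D (ball (s₀ : ℂ) ε))
    (h : ∀ s : ℝ, |s - s₀| < ε → D (s : ℂ) = 0) : ∀ ζ ∈ ball (s₀ : ℂ) ε, D ζ = 0 := by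
  have h1 : EqOn D (fun _ => 0) (ball (s₀ : ℂ) ε) := by
    refine AnalyticOnNhd.eqOn_of_preconnected_of_frequently_eq (z₀ := (s₀ : ℂ)) (hD.analyticOnNhd isOpen_ball)
      analyticOnNhd_const (convex_ball _ _).isPreconnected (mem_ball_self hε) ?_
    obtain ⟨x, hx⟩ : ∃ x : ℕ → ℝ, x = fun n : ℕ => s₀ + ε / ((n : ℝ) + 2) := ⟨_, rfl⟩
    have hxv : ∀ n, x n = s₀ + ε / ((n : ℝ) + 2) := fun n => by rw [hx]
    have hpos : ∀ n : ℕ, 0 < ε / ((n : ℝ) + 2) := fun n => by positivity
    have hlt : ∀ n : ℕ, ε / ((n : ℝ) + 2) < ε := by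
      intro n
      rw [div_lt_iff₀ (by positivity)]
      have : (0 : ℝ) ≤ n := Nat.cast_nonneg n
      nlinarith
    have hlim : Tendsto (fun n => ((x n : ℝ) : ℂ)) atTop (𝓝[≠] (s₀ : ℂ)) := by
      rw [tendsto_nhdsWithin_iff]
      refine ⟨?_, Eventually.of_forall fun n => ?_⟩
      · have h1 : Tendsto x atTop (𝓝 (s₀ + 0)) := by
          rw [hx]
          refine tendsto_const_nhds.add ?_
          exact Tendsto.const_div_atTop (tendsto_atTop_add_const_right _ _ tendsto_natCast_atTop_atTop) _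
        rw [add_zero] at h1
        exact (Complex.continuous_ofReal.tendsto s₀).comp h1
      · intro e
        have h2 := Complex.ofReal_injective e
        rw [hxv] at h2
        linarith [hpos n]
    refine hlim.frequently (Frequently.of_forall fun n => h _ ?_)
    rw [hxv, add_sub_cancel_left, abs_of_pos (hpos n)]
    exact hlt n
  exact h1

theorem hankel_fill {N M : ℕ} {s0 : ℝ} {eps : ℝ} (heps : 0 < eps) {zc : ℂ} {r1 r2 : ℝ} (h1 : 0 < r1) (h12 : r1 < r2)
    {f : ℂ × ℂ → (Fin (N + 1) → ℂ)}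
    (hf : DifferentiableOn ℂ f (ball (s0 : ℂ) eps ×ˢ {z | r1 < ‖z - zc‖ ∧ ‖z - zc‖ < r2}))
    (hr : ∀ s : ℝ, |s - s0| < eps → ∃ q : Polynomial ℂ, q ≠ 0 ∧ q.natDegree ≤ M ∧ ∃ g : ℂ → (Fin (N + 1) → ℂ),
      DifferentiableOn ℂ g (ball zc r2) ∧ ∀ z, r1 < ‖z - zc‖ → ‖z - zc‖ < r2 → g z = q.eval z • f (s, z)) :
    ∀ zeta ∈ ball (s0 : ℂ) eps, ∃ q : Polynomial ℂ, q ≠ 0 ∧ q.natDegree ≤ M ∧ ∃ g : ℂ → (Fin (N + 1) → ℂ),
      DifferentiableOn ℂ g (ball zc r2) ∧ ∀ z, r1 < ‖z - zc‖ → ‖z - zc‖ < r2 → g z = q.eval z • f (zeta, z) := by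
  obtain ⟨r, hr1, hr2⟩ := exists_between h12
  have hr0 : 0 < r := h1.trans hr1
  have hcm : ∀ θ : ℝ, circleMap zc r θ ∈ An zc r1 r2 := fun θ => An_sphere hr1 hr2 (circleMap_mem_sphere zc hr0.le θ)
  -- the moments
  obtain ⟨mom, hmom⟩ : ∃ mom : Fin (N + 1) → ℕ → ℂ → ℂ, mom = fun j i ζ => ∮ w in C(zc, r), w ^ i * f (ζ, w) j := ⟨_, rfl⟩
  have hmomv : ∀ j i ζ, mom j i ζ = ∮ w in C(zc, r), w ^ i * f (ζ, w) j := fun j i ζ => by rw [hmom]
  have hfj : ∀ ζ ∈ ball (s0 : ℂ) eps, ∀ j, DifferentiableOn ℂ (fun w => f (ζ, w) j) (An zc r1 r2) := by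
    intro ζ hζ j
    have h3 : DifferentiableOn ℂ (fun w => f (ζ, w)) (An zc r1 r2) :=
      DifferentiableOn.comp (g := f) (f := fun w => (ζ, w)) (t := ball (s0 : ℂ) eps ×ˢ {z | r1 < ‖z - zc‖ ∧ ‖z - zc‖ < r2})
        hf ((differentiableOn_const ζ).prodMk differentiableOn_id) fun w hw => ⟨hζ, hw⟩
    exact (differentiableOn_pi.1 h3) j
  have hmomd : ∀ j i, DifferentiableOn ℂ (mom j i) (ball (s0 : ℂ) eps) := by
    intro j i
    have e : mom j i = fun ζ => ∫ θ in (0 : ℝ)..(2 * Real.pi),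
        deriv (circleMap zc r) θ * ((circleMap zc r θ) ^ i * f (ζ, circleMap zc r θ) j) := by
      funext ζ
      rw [hmomv]
      rfl
    rw [e]
    refine Pool.Agent.H6G3.differentiableOn_parInt
      (F := fun θ ζ => deriv (circleMap zc r) θ * ((circleMap zc r θ) ^ i * f (ζ, circleMap zc r θ) j))
      (by positivity) isOpen_ball ?_ ?_
    · have hdc : Continuous (deriv (circleMap zc r)) := by
        have : deriv (circleMap zc r) = fun θ => circleMap 0 r θ * Complex.I := by
          funext θ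
          exact deriv_circleMap zc r θ
        rw [this]
        exact (continuous_circleMap 0 r).mul continuous_const
      have hcc : Continuous (circleMap zc r) := continuous_circleMap zc r
      refine ContinuousOn.mul (hdc.comp continuous_fst).continuousOn (ContinuousOn.mul ?_ ?_)
      · exact ((hcc.comp continuous_fst).pow i).continuousOn
      · have h3 : ContinuousOn (fun p : ℝ × ℂ => f (p.2, circleMap zc r p.1)) (Icc 0 (2 * Real.pi) ×ˢ ball (s0 : ℂ) eps) := by
          refine ContinuousOn.comp (g := f) (f := fun p : ℝ × ℂ => (p.2, circleMap zc r p.1)) hf.continuousOn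
            (continuous_snd.prodMk (hcc.comp continuous_fst)).continuousOn ?_
          rintro ⟨θ, ζ⟩ ⟨-, hζ⟩
          exact ⟨hζ, hcm θ⟩
        exact (continuous_apply j).comp_continuousOn h3
    · intro θ _
      refine DifferentiableOn.const_mul (DifferentiableOn.const_mul ?_ _) _
      have h3 : DifferentiableOn ℂ (fun ζ => f (ζ, circleMap zc r θ)) (ball (s0 : ℂ) eps) :=
        DifferentiableOn.comp (g := f) (f := fun ζ => (ζ, circleMap zc r θ))
          (t := ball (s0 : ℂ) eps ×ˢ {z | r1 < ‖z - zc‖ ∧ ‖z - zc‖ < r2})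
          hf (differentiableOn_id.prodMk (differentiableOn_const _)) fun ζ hζ => ⟨hζ, hcm θ⟩
      exact (differentiableOn_pi.1 h3) j
  -- linear combinations of moments
  have hcomb : ∀ ζ ∈ ball (s0 : ℂ) eps, ∀ (j : Fin (N + 1)) (i : ℕ) (q : Fin (M + 1) → ℂ),
      (∮ w in C(zc, r), w ^ i * ((∑ l : Fin (M + 1), q l * w ^ (l : ℕ)) * f (ζ, w) j)) =
        ∑ l : Fin (M + 1), mom j (i + l) ζ * q l := by
    intro ζ hζ j i q
    have hc : ContinuousOn (fun w => f (ζ, w) j) (sphere zc r) := (hfj ζ hζ j).continuousOn.mono (An_sphere hr1 hr2)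
    have e : (fun w : ℂ => w ^ i * ((∑ l : Fin (M + 1), q l * w ^ (l : ℕ)) * f (ζ, w) j)) =
        fun w => ∑ l : Fin (M + 1), q l * (w ^ (i + (l : ℕ)) * f (ζ, w) j) := by
      funext w
      rw [Finset.sum_mul, Finset.mul_sum]
      refine Finset.sum_congr rfl fun l _ => ?_
      rw [pow_add]
      ring
    rw [e, circleIntegral.integral_fun_sum]
    · refine Finset.sum_congr rfl fun l _ => ?_
      rw [circleIntegral.integral_const_mul, hmomv, mul_comm]
    · intro l _
      refine ContinuousOn.circleIntegrable hr0.le ?_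
      exact continuousOn_const.mul ((continuous_pow _).continuousOn.mul hc)
  -- the minors vanish
  have hminor : ∀ (t : Fin (M + 1) → Fin (N + 1) × ℕ), ∀ ζ ∈ ball (s0 : ℂ) eps,
      (Matrix.of fun k : Fin (M + 1) => fun l : Fin (M + 1) => mom (t k).1 ((t k).2 + l) ζ).det = 0 := by
    intro t
    refine zero_of_real heps ?_ ?_
    · have e : (fun ζ => (Matrix.of fun k : Fin (M + 1) => fun l : Fin (M + 1) => mom (t k).1 ((t k).2 + l) ζ).det) =
          fun ζ => ∑ σ : Equiv.Perm (Fin (M + 1)), ((Equiv.Perm.sign σ : ℤ) : ℂ) *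
            ∏ i : Fin (M + 1), mom (t (σ i)).1 ((t (σ i)).2 + i) ζ := by
        funext ζ
        rw [Matrix.det_apply']
        rfl
      rw [e]
      refine DifferentiableOn.fun_sum fun σ _ => DifferentiableOn.const_mul ?_ _
      exact DifferentiableOn.fun_finsetProd fun i _ => hmomd _ _
    · intro s hs
      obtain ⟨q, hq0, hqM, g, hg, hgf⟩ := hr s hs
      have hsb : (s : ℂ) ∈ ball (s0 : ℂ) eps := by
        rw [mem_ball, dist_eq_norm, ← Complex.ofReal_sub, Complex.norm_real, Real.norm_eq_abs]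
        exact hs
      rw [← Matrix.exists_mulVec_eq_zero_iff]
      refine ⟨fun l => q.coeff l, ?_, ?_⟩
      · intro h0
        apply hq0
        ext n
        rw [Polynomial.coeff_zero]
        by_cases hn : n < M + 1
        · exact congrFun h0 ⟨n, hn⟩
        · exact Polynomial.coeff_eq_zero_of_natDegree_lt (by omega)
      · funext k
        show ∑ l : Fin (M + 1), mom (t k).1 ((t k).2 + l) s * q.coeff l = 0
        rw [← hcomb s hsb (t k).1 (t k).2 (fun l => q.coeff l)]
        have hqe : ∀ w : ℂ, ∑ l : Fin (M + 1), q.coeff l * w ^ (l : ℕ) = q.eval w := by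
          intro w
          rw [Polynomial.eval_eq_sum_range' (Nat.lt_succ_of_le hqM), Finset.sum_range]
        have e : EqOn (fun w : ℂ => w ^ (t k).2 * ((∑ l : Fin (M + 1), q.coeff l * w ^ (l : ℕ)) * f ((s : ℂ), w) (t k).1))
            (fun w => w ^ (t k).2 * g w (t k).1) (sphere zc r) := by
          intro w hw
          have hwA := An_sphere hr1 hr2 hw
          simp only
          rw [hqe, hgf w hwA.1 hwA.2]
          rfl
        rw [circleIntegral.integral_congr hr0.le e]
        have hgk : DifferentiableOn ℂ (fun w => g w (t k).1) (ball zc r2) := (differentiableOn_pi.1 hg) _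
        have hsub : closedBall zc r ⊆ ball zc r2 := closedBall_subset_ball hr2
        have hd : ∀ w ∈ ball zc r2, DifferentiableAt ℂ (fun w => w ^ (t k).2 * g w (t k).1) w := fun w hw =>
          (differentiableAt_pow _).mul (hgk.differentiableAt (isOpen_ball.mem_nhds hw))
        refine Complex.circleIntegral_eq_zero_of_differentiable_on_off_countable hr0.le countable_empty
          (fun w hw => (hd w (hsub hw)).continuousAt.continuousWithinAt) ?_
        rintro w ⟨hw, -⟩
        exact hd w (hsub (ball_subset_closedBall hw))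
  -- complex parameters
  intro ζ hζ
  obtain ⟨q, hq0, hq⟩ := exists_kernel (ι := Fin (N + 1) × ℕ) (fun p l => mom p.1 (p.2 + l) ζ) fun t => hminor t ζ hζ
  obtain ⟨Q, hQ⟩ : ∃ Q : Polynomial ℂ, Q = ∑ l : Fin (M + 1), Polynomial.C (q l) * Polynomial.X ^ (l : ℕ) := ⟨_, rfl⟩
  have hQe : ∀ w : ℂ, Q.eval w = ∑ l : Fin (M + 1), q l * w ^ (l : ℕ) := by
    intro w
    rw [hQ, Polynomial.eval_finsetSum]
    refine Finset.sum_congr rfl fun l _ => ?_
    simp
  have hQc : ∀ l : Fin (M + 1), Q.coeff l = q l := by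
    intro l
    rw [hQ, Polynomial.finsetSum_coeff]
    rw [Finset.sum_eq_single l]
    · simp
    · intro l' _ hl'
      rw [Polynomial.coeff_C_mul, Polynomial.coeff_X_pow, if_neg, mul_zero]
      intro h
      exact hl' (Fin.ext h.symm)
    · intro h
      exact absurd (Finset.mem_univ l) h
  have hQ0 : Q ≠ 0 := by
    intro h0
    apply hq0
    funext l
    rw [← hQc l, h0]
    rfl
  have hQd : Q.natDegree ≤ M := by
    rw [hQ]
    refine Polynomial.natDegree_sum_le_of_forall_le _ _ fun l _ => ?_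
    refine (Polynomial.natDegree_C_mul_X_pow_le _ _).trans ?_
    have := l.isLt
    omega
  have hfill : ∀ j : Fin (N + 1), ∃ g : ℂ → ℂ, DifferentiableOn ℂ g (ball zc r2) ∧
      ∀ z, r1 < ‖z - zc‖ → ‖z - zc‖ < r2 → g z = Q.eval z * f (ζ, z) j := by
    intro j
    refine laurent_fill h1 hr1 hr2 (h := fun z => Q.eval z * f (ζ, z) j) ?_ ?_
    · exact Q.differentiable.differentiableOn.mul (hfj ζ hζ j)
    · intro i
      have h3 := hcomb ζ hζ j i q
      rw [hq (j, i)] at h3
      rw [← h3]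
      congr 1
      funext w
      rw [hQe]
  choose g hg hgf using hfill
  refine ⟨Q, hQ0, hQd, fun z j => g j z, differentiableOn_pi.2 fun j => hg j, fun z hz1 hz2 => ?_⟩
  funext j
  show g j z = Q.eval z * f (ζ, z) j
  exact hgf j z hz1 hz2

end Pool.Agent.G3.C
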