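import Pool.Agent.G3.C.HankelU
import Pool.Agent.TH.Osg

/-!
# G3 C8: Hankel determinants, joint version

The kernel of the Hankel matrix is holomorphic in the parameter: take the least `M` such that all
minors with the columns `0, …, M` vanish identically, `M` rows `r` whose minor with the columns
`0, …, M - 1` does not vanish identically, and the cofactors of the matrices with the rows `p, r`;
divide by a power of `ζ - ζ₀`.
-/

set_option autoImplicit false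

open Topology Filter Metric Set

namespace Pool.Agent.G3.C

/-- the moments -/
noncomputable def hkm {N : ℕ} (f : ℂ × ℂ → Fin (N + 1) → ℂ) (zc : ℂ) (ρ : ℝ) (ζ : ℂ)
    (p : Fin (N + 1) × ℕ) (l : ℕ) : ℂ := ∮ z in C(zc, ρ), z ^ (p.2 + l) * f (ζ, z) p.1

section

variable {N : ℕ} {ζ₀ : ℂ} {ε : ℝ} {zc : ℂ} {r₁ r₂ ρ : ℝ} {f : ℂ × ℂ → Fin (N + 1) → ℂ}

private lemma hj_slice
    (hf : DifferentiableOn ℂ f (ball ζ₀ ε ×ˢ {z | r₁ < dist z zc ∧ dist z zc < r₂})) {ζ : ℂ}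
    (hζ : ζ ∈ ball ζ₀ ε) (j : Fin (N + 1)) :
    DifferentiableOn ℂ (fun z => f (ζ, z) j) {z | r₁ < dist z zc ∧ dist z zc < r₂} := by
  refine (differentiableOn_pi.1 hf j).comp (f := fun z : ℂ => (ζ, z)) ?_ fun z hz => ⟨hζ, hz⟩
  exact (differentiable_const ζ).prodMk differentiable_id |>.differentiableOn

private lemma hj_diff (hρ : 0 < ρ) (h1 : r₁ < ρ) (h2 : ρ < r₂)
    (hf : DifferentiableOn ℂ f (ball ζ₀ ε ×ˢ {z | r₁ < dist z zc ∧ dist z zc < r₂}))
    (p : Fin (N + 1) × ℕ) (l : ℕ) : DifferentiableOn ℂ (fun ζ => hkm f zc ρ ζ p l) (ball ζ₀ ε) := by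
  have hsph := hankel_sphere (zc := zc) h1 h2
  refine hankel_param isOpen_ball hρ (F := fun q : ℂ × ℂ => q.2 ^ (p.2 + l) * f q p.1) ?_ ?_
  · exact (by fun_prop : ContinuousOn (fun q : ℂ × ℂ => q.2 ^ (p.2 + l)) _).mul
      ((differentiableOn_pi.1 hf p.1).continuousOn.mono (Set.prod_mono subset_rfl hsph))
  · intro z hz
    refine DifferentiableOn.const_mul (b := z ^ (p.2 + l)) ?_
    refine (differentiableOn_pi.1 hf p.1).comp (f := fun ζ : ℂ => (ζ, z)) ?_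
      fun ζ hζ => ⟨hζ, hsph hz⟩
    exact differentiable_id.prodMk (differentiable_const z) |>.differentiableOn

private lemma hj_key (hρ : 0 < ρ) (h1 : r₁ < ρ) (h2 : ρ < r₂)
    (hf : DifferentiableOn ℂ f (ball ζ₀ ε ×ˢ {z | r₁ < dist z zc ∧ dist z zc < r₂})) {ζ : ℂ}
    (hζ : ζ ∈ ball ζ₀ ε) {n : ℕ} (c : Fin n → ℂ) (p : Fin (N + 1) × ℕ) :
    ∑ l : Fin n, c l * hkm f zc ρ ζ p l =
      ∮ z in C(zc, ρ), z ^ p.2 * ((∑ l : Fin n, c l * z ^ (l : ℕ)) * f (ζ, z) p.1) := by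
  have hsph := hankel_sphere (zc := zc) h1 h2
  have h3 : ∀ z : ℂ, z ^ p.2 * ((∑ l : Fin n, c l * z ^ (l : ℕ)) * f (ζ, z) p.1) =
      ∑ l : Fin n, c l * (z ^ (p.2 + (l : ℕ)) * f (ζ, z) p.1) := by
    intro z
    rw [Finset.sum_mul, Finset.mul_sum]
    exact Finset.sum_congr rfl fun l _ => by rw [pow_add]; ring
  simp only [h3]
  rw [circleIntegral.integral_fun_sum]
  · refine Finset.sum_congr rfl fun l _ => ?_
    rw [circleIntegral.integral_const_mul]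
    rfl
  · intro l _
    refine CircleIntegrable.const_fun_smul (a := c l) ?_
    refine ContinuousOn.circleIntegrable hρ.le ?_
    exact (by fun_prop : ContinuousOn (fun z : ℂ => z ^ (p.2 + (l : ℕ))) _).mul
      ((hj_slice hf hζ p.1).continuousOn.mono hsph)

/-- holomorphic determinants -/
private lemma hj_det (hρ : 0 < ρ) (h1 : r₁ < ρ) (h2 : ρ < r₂)
    (hf : DifferentiableOn ℂ f (ball ζ₀ ε ×ˢ {z | r₁ < dist z zc ∧ dist z zc < r₂})) {n : ℕ}
    (r : Fin n → Fin (N + 1) × ℕ) (k : Fin n → ℕ) :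
    DifferentiableOn ℂ (fun ζ => (Matrix.of fun i l => hkm f zc ρ ζ (r i) (k l)).det)
      (ball ζ₀ ε) := by
  simp only [Matrix.det_apply']
  refine DifferentiableOn.fun_sum fun σ _ => ?_
  refine DifferentiableOn.const_mul ?_ _
  refine DifferentiableOn.fun_finsetProd fun i _ => ?_
  exact hj_diff hρ h1 h2 hf (r (σ i)) (k i)

/-- some size of minors vanishes identically -/
private lemma hj_minors (hr₁ : 0 < r₁) (h1 : r₁ < ρ) (h2 : ρ < r₂)
    (hf : DifferentiableOn ℂ f (ball ζ₀ ε ×ˢ {z | r₁ < dist z zc ∧ dist z zc < r₂}))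
    {T : Set ℂ} (hT : T ⊆ ball ζ₀ ε) (hTu : ¬ T.Countable)
    (hq : ∀ ζ ∈ T, ∃ q : Polynomial ℂ, q ≠ 0 ∧ ∃ g : ℂ → Fin (N + 1) → ℂ,
      DifferentiableOn ℂ g (ball zc r₂) ∧
        ∀ z, r₁ < dist z zc → dist z zc < r₂ → g z = q.eval z • f (ζ, z)) :
    ∃ M : ℕ, ∀ r : Fin (M + 1) → Fin (N + 1) × ℕ, ∀ ζ ∈ ball ζ₀ ε,
      (Matrix.of fun i (l : Fin (M + 1)) => hkm f zc ρ ζ (r i) l).det = 0 := by
  have hρ : 0 < ρ := hr₁.trans h1
  have hsph := hankel_sphere (zc := zc) h1 h2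
  set TM : ℕ → Set ℂ := fun M => {ζ | ζ ∈ T ∧ ∃ q : Polynomial ℂ, q ≠ 0 ∧ q.natDegree ≤ M ∧
    ∃ g : ℂ → Fin (N + 1) → ℂ, DifferentiableOn ℂ g (ball zc r₂) ∧
      ∀ z, r₁ < dist z zc → dist z zc < r₂ → g z = q.eval z • f (ζ, z)} with hTM
  have hex : ∃ M, ¬ (TM M).Countable := by
    by_contra hcon
    push Not at hcon
    refine hTu ((Set.countable_iUnion hcon).mono ?_)
    intro ζ hζ
    obtain ⟨q, hq0, g, hg, hgf⟩ := hq ζ hζ
    exact Set.mem_iUnion.2 ⟨q.natDegree, hζ, q, hq0, le_rfl, g, hg, hgf⟩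
  obtain ⟨M, hM⟩ := hex
  obtain ⟨x, hx, hacc⟩ := hankel_acc hM
  refine ⟨M, fun r => ?_⟩
  have hdet := hj_det hρ h1 h2 hf r (fun l : Fin (M + 1) => (l : ℕ))
  have han := hdet.analyticOnNhd isOpen_ball
  have hfreq : ∃ᶠ ζ in 𝓝[≠] x,
      (Matrix.of fun i (l : Fin (M + 1)) => hkm f zc ρ ζ (r i) l).det = 0 := by
    refine hacc.mono fun s hs => ?_
    obtain ⟨hsT, q, hq0, hqM, g, hg, hgf⟩ := hs
    have hsb : s ∈ ball ζ₀ ε := hT hsT
    have hqe : ∀ z : ℂ, (∑ l : Fin (M + 1), q.coeff l * z ^ (l : ℕ)) = q.eval z := by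
      intro z
      rw [Finset.sum_fin_eq_sum_range, Polynomial.eval_eq_sum_range' (n := M + 1) (by omega)]
      refine Finset.sum_congr rfl fun i hi => ?_
      rw [dif_pos (Finset.mem_range.1 hi)]
    refine hankel_det (fun p (l : Fin (M + 1)) => hkm f zc ρ s p l)
      (c := fun l : Fin (M + 1) => q.coeff l) ?_ ?_ r
    · intro h0
      apply hq0
      ext n
      by_cases hn : n < M + 1
      · exact congrFun h0 ⟨n, hn⟩
      · rw [Polynomial.coeff_zero]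
        exact Polynomial.coeff_eq_zero_of_natDegree_lt (by omega)
    · intro p
      rw [hj_key hρ h1 h2 hf hsb]
      simp only [hqe]
      have h3 : (∮ z in C(zc, ρ), z ^ p.2 * (q.eval z * f (s, z) p.1)) =
          ∮ z in C(zc, ρ), z ^ p.2 * g z p.1 := by
        refine circleIntegral.integral_congr hρ.le fun z hz => ?_
        have hz' := hsph hz
        have := congrFun (hgf z hz'.1 hz'.2) p.1
        simp only [Pi.smul_apply, smul_eq_mul] at this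
        simp only [this]
      rw [h3]
      refine DiffContOnCl.circleIntegral_eq_zero hρ.le ?_
      refine DifferentiableOn.diffContOnCl ?_
      rw [closure_ball _ hρ.ne']
      have h4 : DifferentiableOn ℂ (fun z => g z p.1) (ball zc r₂) := differentiableOn_pi.1 hg p.1
      exact (by fun_prop : DifferentiableOn ℂ (fun z : ℂ => z ^ p.2) _).mul
        (h4.mono (closedBall_subset_ball h2))
  have := han.eqOn_zero_of_preconnected_of_frequently_eq_zero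
    (convex_ball _ _).isPreconnected (hT hx.1) hfreq
  intro ζ hζ
  exact this hζ

/-- a holomorphic kernel vector, not identically zero -/
private lemma hj_kernel (hρ : 0 < ρ) (h1 : r₁ < ρ) (h2 : ρ < r₂) (hε : 0 < ε)
    (hf : DifferentiableOn ℂ f (ball ζ₀ ε ×ˢ {z | r₁ < dist z zc ∧ dist z zc < r₂}))
    (hM : ∃ M : ℕ, ∀ r : Fin (M + 1) → Fin (N + 1) × ℕ, ∀ ζ ∈ ball ζ₀ ε,
      (Matrix.of fun i (l : Fin (M + 1)) => hkm f zc ρ ζ (r i) l).det = 0) :
    ∃ (M : ℕ) (c : ℂ → Fin (M + 1) → ℂ), DifferentiableOn ℂ c (ball ζ₀ ε) ∧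
      (∃ ζ ∈ ball ζ₀ ε, c ζ ≠ 0) ∧
        ∀ ζ ∈ ball ζ₀ ε, ∀ p, ∑ l : Fin (M + 1), c ζ l * hkm f zc ρ ζ p l = 0 := by
  classical
  have hmin : ∃ M : ℕ, (∀ r : Fin (M + 1) → Fin (N + 1) × ℕ, ∀ ζ ∈ ball ζ₀ ε,
      (Matrix.of fun i (l : Fin (M + 1)) => hkm f zc ρ ζ (r i) l).det = 0) ∧
      ∃ r : Fin M → Fin (N + 1) × ℕ, ∃ ζ ∈ ball ζ₀ ε,
        (Matrix.of fun i (l : Fin M) => hkm f zc ρ ζ (r i) l).det ≠ 0 := by
    refine ⟨Nat.find hM, Nat.find_spec hM, ?_⟩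
    rcases hn : Nat.find hM with _ | n
    · refine ⟨fun i => i.elim0, ζ₀, mem_ball_self hε, ?_⟩
      rw [Matrix.det_isEmpty]
      exact one_ne_zero
    · have := Nat.find_min hM (m := n) (by omega)
      push Not at this
      exact this
  obtain ⟨M, hM0, r, ζs, hζs, hne⟩ := hmin
  refine ⟨M, fun ζ l => (-1) ^ (l : ℕ) *
    (Matrix.of fun (i : Fin M) (k : Fin M) => hkm f zc ρ ζ (r i) ((l.succAbove k : Fin (M + 1)) : ℕ)).det,
    ?_, ⟨ζs, hζs, ?_⟩, ?_⟩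
  · rw [differentiableOn_pi]
    intro l
    refine DifferentiableOn.const_mul ?_ _
    exact hj_det hρ h1 h2 hf r fun k => ((l.succAbove k : Fin (M + 1)) : ℕ)
  · intro h0
    have h3 := congrFun h0 (Fin.last M)
    simp only [Pi.zero_apply, mul_eq_zero] at h3
    rcases h3 with h3 | h3
    · exact (pow_ne_zero _ (by norm_num : (-1 : ℂ) ≠ 0)) h3
    · apply hne
      rw [← h3]
      congr 1
      ext i k
      simp
  · intro ζ hζ p
    have h3 := hM0 (Fin.cons p r) ζ hζ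
    rw [Matrix.det_succ_row_zero] at h3
    rw [← h3]
    refine Finset.sum_congr rfl fun l _ => ?_
    simp only [Matrix.of_apply, Fin.cons_zero]
    have h4 : (Matrix.of fun (i : Fin M) (k : Fin M) =>
        hkm f zc ρ ζ (r i) ((l.succAbove k : Fin (M + 1)) : ℕ)) =
        (Matrix.of fun (i : Fin (M + 1)) (l : Fin (M + 1)) =>
          hkm f zc ρ ζ ((Fin.cons p r : Fin (M + 1) → Fin (N + 1) × ℕ) i) l).submatrix
            Fin.succ l.succAbove := by
      ext i k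
      simp
    rw [h4]
    ring

end

/-- **Hankel determinants**, joint version. -/
theorem hankel_joint {N : ℕ} {ζ₀ : ℂ} {ε : ℝ} (hε : 0 < ε) {zc : ℂ} {r₁ r₂ : ℝ} (hr₁ : 0 < r₁)
    (hr : r₁ < r₂) {f : ℂ × ℂ → Fin (N + 1) → ℂ}
    (hf : DifferentiableOn ℂ f (ball ζ₀ ε ×ˢ {z | r₁ < dist z zc ∧ dist z zc < r₂}))
    {T : Set ℂ} (hT : T ⊆ ball ζ₀ ε) (hTu : ¬ T.Countable)
    (hq : ∀ ζ ∈ T, ∃ q : Polynomial ℂ, q ≠ 0 ∧ ∃ g : ℂ → Fin (N + 1) → ℂ,
      DifferentiableOn ℂ g (ball zc r₂) ∧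
        ∀ z, r₁ < dist z zc → dist z zc < r₂ → g z = q.eval z • f (ζ, z)) :
    ∃ ε' : ℝ, 0 < ε' ∧ ε' ≤ ε ∧ ∃ (Q : ℂ × ℂ → ℂ) (G : ℂ × ℂ → Fin (N + 1) → ℂ),
      DifferentiableOn ℂ Q (ball ζ₀ ε' ×ˢ univ) ∧
      (∀ ζ ∈ ball ζ₀ ε', ∃ q : Polynomial ℂ, q ≠ 0 ∧ ∀ z, Q (ζ, z) = q.eval z) ∧
      DifferentiableOn ℂ G (ball ζ₀ ε' ×ˢ ball zc r₂) ∧
      ∀ ζ ∈ ball ζ₀ ε', ∀ z, r₁ < dist z zc → dist z zc < r₂ → G (ζ, z) = Q (ζ, z) • f (ζ, z) := by
  classical
  obtain ⟨ρ, hρ1, hρ2⟩ := exists_between hr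
  have hρ : 0 < ρ := hr₁.trans hρ1
  obtain ⟨M, c, hcd, ⟨ζs, hζs, hcs⟩, hck⟩ :=
    hj_kernel hρ hρ1 hρ2 hε hf (hj_minors hr₁ hρ1 hρ2 hf hT hTu hq)
  have hζ₀ : ζ₀ ∈ ball ζ₀ ε := mem_ball_self hε
  have hca : AnalyticOnNhd ℂ c (ball ζ₀ ε) := hcd.analyticOnNhd isOpen_ball
  have hnz : ¬ ∀ᶠ ζ in 𝓝 ζ₀, c ζ = 0 := fun h =>
    hcs (hca.eqOn_zero_of_preconnected_of_eventuallyEq_zero (convex_ball _ _).isPreconnected
      hζ₀ h hζs)
  obtain ⟨n, d, hda, hd0, hde⟩ :=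
    ((hca ζ₀ hζ₀).exists_eventuallyEq_pow_smul_nonzero_iff).2 hnz
  have hev : ∀ᶠ ζ in 𝓝 ζ₀, AnalyticAt ℂ d ζ ∧ d ζ ≠ 0 ∧ c ζ = (ζ - ζ₀) ^ n • d ζ :=
    hda.eventually_analyticAt.and ((hda.continuousAt.eventually_ne hd0).and hde)
  obtain ⟨ε₁, hε₁, hball⟩ := Metric.eventually_nhds_iff_ball.1 hev
  set ε' : ℝ := min ε₁ ε with hε'd
  have hε' : 0 < ε' := lt_min hε₁ hε
  have hsub : ball ζ₀ ε' ⊆ ball ζ₀ ε := ball_subset_ball (min_le_right _ _)
  have hsub₁ : ball ζ₀ ε' ⊆ ball ζ₀ ε₁ := ball_subset_ball (min_le_left _ _)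
  have hda' : ∀ ζ ∈ ball ζ₀ ε', AnalyticAt ℂ d ζ := fun ζ hζ => (hball ζ (hsub₁ hζ)).1
  have hdl : ∀ ζ ∈ ball ζ₀ ε', ∀ l, DifferentiableAt ℂ (fun ζ => d ζ l) ζ := fun ζ hζ l =>
    (differentiableAt_pi.1 (hda' ζ hζ).differentiableAt) l
  have hdk : ∀ ζ ∈ ball ζ₀ ε', ∀ p, ∑ l : Fin (M + 1), d ζ l * hkm f zc ρ ζ p l = 0 := by
    have h1 : ∀ ζ ∈ ball ζ₀ ε', ζ ≠ ζ₀ → ∀ p, ∑ l : Fin (M + 1), d ζ l * hkm f zc ρ ζ p l = 0 := by
      intro ζ hζ hne p
      have h2 := hck ζ (hsub hζ) p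
      rw [(hball ζ (hsub₁ hζ)).2.2] at h2
      simp only [Pi.smul_apply, smul_eq_mul, mul_assoc] at h2
      rw [← Finset.mul_sum] at h2
      exact (mul_eq_zero.1 h2).resolve_left (pow_ne_zero _ (sub_ne_zero.2 hne))
    intro ζ hζ p
    by_cases hne : ζ = ζ₀
    · subst hne
      have hcont : ContinuousAt (fun ξ => ∑ l : Fin (M + 1), d ξ l * hkm f zc ρ ξ p l) ζ := by
        refine DifferentiableAt.continuousAt (𝕜 := ℂ) ?_
        refine DifferentiableAt.fun_sum fun l _ => ?_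
        refine (hdl ζ hζ l).mul ?_
        exact (hj_diff hρ hρ1 hρ2 hf p l).differentiableAt (isOpen_ball.mem_nhds (hsub hζ))
      have h2 : Tendsto (fun ξ => ∑ l : Fin (M + 1), d ξ l * hkm f zc ρ ξ p l) (𝓝[≠] ζ) (𝓝 0) := by
        refine tendsto_const_nhds.congr' ?_
        have h3 : ∀ᶠ ξ in 𝓝[≠] ζ, ξ ∈ ball ζ ε' :=
          eventually_nhdsWithin_of_eventually_nhds (isOpen_ball.mem_nhds hζ)
        filter_upwards [h3, self_mem_nhdsWithin] with ξ h4 h5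
        exact (h1 ξ h4 h5 p).symm
      exact tendsto_nhds_unique (hcont.tendsto.mono_left nhdsWithin_le_nhds) h2
    · exact h1 ζ hζ hne p
  -- the polynomials
  set Q : ℂ × ℂ → ℂ := fun q => ∑ l : Fin (M + 1), d q.1 l * q.2 ^ (l : ℕ) with hQ
  have hQd : DifferentiableOn ℂ Q (ball ζ₀ ε' ×ˢ univ) := by
    intro q hq'
    refine DifferentiableAt.differentiableWithinAt ?_
    refine DifferentiableAt.fun_sum fun l _ => ?_
    refine DifferentiableAt.mul ?_ (by fun_prop)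
    exact (hdl q.1 hq'.1 l).comp q differentiableAt_fst
  have hQe : ∀ ζ ∈ ball ζ₀ ε', ∃ q : Polynomial ℂ, q ≠ 0 ∧ ∀ z, Q (ζ, z) = q.eval z := by
    intro ζ hζ
    refine ⟨∑ l : Fin (M + 1), Polynomial.C (d ζ l) * Polynomial.X ^ (l : ℕ), ?_, ?_⟩
    · intro h0
      apply (hball ζ (hsub₁ hζ)).2.1
      funext l
      have h1 := congrArg (fun P : Polynomial ℂ => P.coeff l) h0
      simp only [Polynomial.finsetSum_coeff, Polynomial.coeff_C_mul, Polynomial.coeff_X_pow,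
        Polynomial.coeff_zero] at h1
      rw [Finset.sum_eq_single l] at h1
      · simpa using h1
      · intro b _ hb
        have : ¬ ((l : ℕ) = (b : ℕ)) := fun h => hb (Fin.ext h.symm)
        simp [this]
      · simp
    · intro z
      rw [Polynomial.eval_finsetSum]
      exact Finset.sum_congr rfl fun l _ => by simp
  -- the extensions
  have hext : ∀ (ζ : ℂ) (j : Fin (N + 1)), ∃ J : ℂ → ℂ, ζ ∈ ball ζ₀ ε' →
      DifferentiableOn ℂ J (ball zc r₂) ∧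
        ∀ z, r₁ < dist z zc → dist z zc < r₂ → J z = Q (ζ, z) * f (ζ, z) j := by
    intro ζ j
    by_cases hζ : ζ ∈ ball ζ₀ ε'
    · have hQz : DifferentiableOn ℂ (fun z => Q (ζ, z)) {z | r₁ < dist z zc ∧ dist z zc < r₂} := by
        refine hQd.comp (f := fun z : ℂ => (ζ, z)) ?_ fun z hz => ⟨hζ, mem_univ _⟩
        exact (differentiable_const ζ).prodMk differentiable_id |>.differentiableOn
      have hhd := hQz.mul (hj_slice hf (hsub hζ) j)
      have h0 : ∀ n : ℕ, (∮ z in C(zc, ρ), z ^ n * (Q (ζ, z) * f (ζ, z) j)) = 0 := by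
        intro n
        have h1 := hj_key hρ hρ1 hρ2 hf (hsub hζ) (d ζ) (j, n)
        rw [hdk ζ hζ (j, n)] at h1
        exact h1.symm
      obtain ⟨J, hJ1, hJ2⟩ := Pool.Agent.H62.EL.ext_annulus hr₁ hr
        (J := fun z => Q (ζ, z) * f (ζ, z) j) (b := zc) (by
          refine hhd.mono ?_
          rintro z ⟨hz1, hz2⟩
          rw [← dist_eq_norm] at hz1 hz2
          exact ⟨hz1, hz2⟩) (by
          intro n r hrr hrr'
          have := hankel_moment hr₁ hρ1 hρ2 hhd h0 ((Polynomial.X - Polynomial.C zc) ^ n) hrr hrr'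
          simpa using this)
      refine ⟨J, fun _ => ⟨hJ1, fun z hz1 hz2 => ?_⟩⟩
      rw [dist_eq_norm] at hz1 hz2
      exact hJ2 z hz1 hz2
    · exact ⟨0, fun h => absurd h hζ⟩
  choose J hJ using hext
  refine ⟨ε', hε', min_le_right _ _, Q, fun q j => J q.1 j q.2, hQd, hQe, ?_, ?_⟩
  · rw [differentiableOn_pi]
    rintro j ⟨ζ₁, z₁⟩ ⟨hζ₁, hz₁⟩
    rw [mem_ball] at hz₁
    refine DifferentiableAt.differentiableWithinAt (AnalyticAt.differentiableAt ?_)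
    -- a circle around `z₁`
    obtain ⟨ρ', hρ'1, hρ'2⟩ := exists_between (max_lt hz₁ hr)
    have hzρ : dist z₁ zc < ρ' := (le_max_left _ _).trans_lt hρ'1
    have hrρ : r₁ < ρ' := (le_max_right _ _).trans_lt hρ'1
    have hρ' : 0 < ρ' := hr₁.trans hrρ
    have hsph := hankel_sphere (zc := zc) hrρ hρ'2
    obtain ⟨δ₁, hδ₁, hδb⟩ := Metric.isOpen_iff.1 isOpen_ball ζ₁ hζ₁
    set δ : ℝ := min (δ₁ / 2) ((ρ' - dist z₁ zc) / 2) with hδd
    have hδ : 0 < δ := lt_min (by linarith) (by linarith)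
    have hcb : closedBall ζ₁ δ ⊆ ball ζ₀ ε' := by
      refine Subset.trans ?_ hδb
      refine closedBall_subset_ball ?_
      have : δ ≤ δ₁ / 2 := min_le_left _ _
      linarith
    have hzb : ball z₁ δ ⊆ ball zc ρ' := by
      intro z hz
      rw [mem_ball] at hz ⊢
      have h1 : δ ≤ (ρ' - dist z₁ zc) / 2 := min_le_right _ _
      have := dist_triangle z z₁ zc
      linarith
    have hQf : ContinuousOn (fun q : ℂ × ℂ => Q q * f q j)
        (ball ζ₀ ε' ×ˢ {z | r₁ < dist z zc ∧ dist z zc < r₂}) :=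
      (hQd.continuousOn.mono (Set.prod_mono subset_rfl (subset_univ _))).mul
        ((differentiableOn_pi.1 hf j).continuousOn.mono (Set.prod_mono hsub subset_rfl))
    have hK : IsCompact (closedBall ζ₁ δ ×ˢ sphere zc ρ') :=
      (isCompact_closedBall _ _).prod (isCompact_sphere _ _)
    obtain ⟨K, hKb⟩ := hK.exists_bound_of_continuousOn (hQf.mono (Set.prod_mono hcb hsph))
    have hcl : ∀ ζ ∈ ball ζ₀ ε', DiffContOnCl ℂ (J ζ j) (ball zc ρ') := by
      intro ζ hζ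
      refine DifferentiableOn.diffContOnCl ?_
      rw [closure_ball _ hρ'.ne']
      exact (hJ ζ j hζ).1.mono (closedBall_subset_ball hρ'2)
    refine Pool.Agent.TH.osgood (f := fun q : ℂ × ℂ => J q.1 j q.2) hδ (M := K) ?_ ?_ ?_
    · intro ζ hζ z hz
      have hζ' : ζ ∈ ball ζ₀ ε' := hcb (ball_subset_closedBall hζ)
      refine Complex.norm_le_of_forall_mem_frontier_norm_le isBounded_ball (hcl ζ hζ') ?_
        (subset_closure (hzb hz))
      intro w hw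
      rw [frontier_ball _ hρ'.ne'] at hw
      rw [(hJ ζ j hζ').2 w (hsph hw).1 (hsph hw).2]
      exact hKb (ζ, w) ⟨ball_subset_closedBall hζ, hw⟩
    · intro z hz
      have hzρ' : z ∈ ball zc ρ' := hzb hz
      have hwz : ∀ w ∈ sphere zc ρ', w - z ≠ 0 := by
        intro w hw h0
        rw [sub_eq_zero] at h0
        rw [mem_sphere, h0] at hw
        rw [mem_ball, hw] at hzρ'
        exact lt_irrefl _ hzρ'
      have hpar : DifferentiableOn ℂ
          (fun ζ => ∮ w in C(zc, ρ'), (w - z)⁻¹ * (Q (ζ, w) * f (ζ, w) j)) (ball ζ₀ ε') := by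
        refine hankel_param isOpen_ball hρ'
          (F := fun q : ℂ × ℂ => (q.2 - z)⁻¹ * (Q q * f q j)) ?_ ?_
        · refine ContinuousOn.mul ?_ (hQf.mono (Set.prod_mono subset_rfl hsph))
          exact ContinuousOn.inv₀ (by fun_prop) fun q hq' => hwz q.2 hq'.2
        · intro w hw
          refine DifferentiableOn.const_mul (b := (w - z)⁻¹) ?_
          refine DifferentiableOn.mul ?_ ?_
          · refine hQd.comp (f := fun ζ : ℂ => (ζ, w)) ?_ fun ζ hζ => ⟨hζ, mem_univ _⟩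
            exact differentiable_id.prodMk (differentiable_const w) |>.differentiableOn
          · refine (differentiableOn_pi.1 hf j).comp (f := fun ζ : ℂ => (ζ, w)) ?_
              fun ζ hζ => ⟨hsub hζ, hsph hw⟩
            exact differentiable_id.prodMk (differentiable_const w) |>.differentiableOn
      have hform : ∀ ζ ∈ ball ζ₁ δ, (2 * Real.pi * Complex.I : ℂ)⁻¹ *
          (∮ w in C(zc, ρ'), (w - z)⁻¹ * (Q (ζ, w) * f (ζ, w) j)) = J ζ j z := by
        intro ζ hζ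
        have hζ' : ζ ∈ ball ζ₀ ε' := hcb (ball_subset_closedBall hζ)
        have h1 := (hcl ζ hζ').two_pi_i_inv_smul_circleIntegral_sub_inv_smul hzρ'
        rw [← h1, smul_eq_mul]
        congr 1
        refine circleIntegral.integral_congr hρ'.le fun w hw => ?_
        simp only [smul_eq_mul]
        rw [(hJ ζ j hζ').2 w (hsph hw).1 (hsph hw).2]
      refine DifferentiableOn.congr (f := fun ζ => (2 * Real.pi * Complex.I : ℂ)⁻¹ *
          (∮ w in C(zc, ρ'), (w - z)⁻¹ * (Q (ζ, w) * f (ζ, w) j))) ?_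
        fun ζ hζ => (hform ζ hζ).symm
      refine DifferentiableOn.const_mul ?_ _
      exact hpar.mono fun ζ hζ => hcb (ball_subset_closedBall hζ)
    · intro ζ hζ
      have hζ' : ζ ∈ ball ζ₀ ε' := hcb (ball_subset_closedBall hζ)
      exact (hJ ζ j hζ').1.mono (hzb.trans (ball_subset_ball hρ'2.le))
  · intro ζ hζ z hz1 hz2
    funext j
    rw [Pi.smul_apply, smul_eq_mul]
    exact (hJ ζ j hζ).2 z hz1 hz2

end Pool.Agent.G3.C
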