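import Mathlib
import Pool.Agent.H62.EL.Ext

/-!
# G3 C8: Hankel determinants

A holomorphic family on an annulus which, for uncountably many parameters, becomes holomorphic on
the disc after multiplication by a nonzero polynomial, has this property for all parameters: for
some `M` uncountably many parameters have a polynomial of degree at most `M`; the moments
`∮ z ^ i f_j (ζ, z) dz` are holomorphic in `ζ`, and the maximal minors of the matrix with rows
`(j, i)` and columns `l ≤ M`, entries `∮ z ^ (i + l) f_j`, vanish for these parameters, so for all.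
-/

set_option autoImplicit false

open Topology Filter Metric Set

namespace Pool.Agent.G3.C

/-! ### linear algebra -/

/-- If all maximal minors of a matrix vanish, then it has a kernel vector. -/
lemma hankel_ker {ι : Type*} {n : ℕ} (A : ι → Fin n → ℂ)
    (h : ∀ r : Fin n → ι, (Matrix.of fun i => A (r i)).det = 0) :
    ∃ c : Fin n → ℂ, c ≠ 0 ∧ ∀ i, ∑ l, c l * A i l = 0 := by
  classical
  set W : Submodule ℂ (Fin n → ℂ) := Submodule.span ℂ (Set.range A) with hW
  have hlt : W < ⊤ := by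
    rw [lt_top_iff_ne_top]
    intro htop
    obtain ⟨b, hb, hspan, hli⟩ := exists_linearIndependent ℂ (Set.range A)
    have hfin : b.Finite := hli.setFinite
    have : Fintype b := hfin.fintype
    have hcard : Fintype.card b = n := by
      have h1 := finrank_span_eq_card hli
      rw [Subtype.range_val, hspan, ← hW, htop, finrank_top, Module.finrank_fin_fun] at h1
      exact h1.symm
    let e : Fin n ≃ b := (Fintype.equivFinOfCardEq hcard).symm
    choose g hg using fun x : b => hb x.2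
    have h1 := h (fun i => g (e i))
    have h2 : LinearIndependent ℂ (Matrix.of fun i => A (g (e i))).row := by
      have : (Matrix.of fun i => A (g (e i))).row = fun i => ((e i : b) : Fin n → ℂ) := by
        funext i
        exact hg (e i)
      rw [this]
      exact hli.comp _ e.injective
    rw [Matrix.linearIndependent_rows_iff_isUnit, Matrix.isUnit_iff_isUnit_det, h1] at h2
    exact not_isUnit_zero h2
  obtain ⟨φ, hφ, hker⟩ := Submodule.exists_le_ker_of_lt_top W hlt
  have hφx : ∀ x : Fin n → ℂ, φ x = ∑ l, φ (Pi.single l 1) * x l := by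
    intro x
    conv_lhs => rw [← Finset.univ_sum_single x]
    rw [map_sum]
    refine Finset.sum_congr rfl fun l _ => ?_
    have : (Pi.single l (x l) : Fin n → ℂ) = x l • (Pi.single l 1 : Fin n → ℂ) := by
      rw [← Pi.single_smul, smul_eq_mul, mul_one]
    rw [this, map_smul, smul_eq_mul, mul_comm]
  refine ⟨fun l => φ (Pi.single l 1), ?_, ?_⟩
  · intro h0
    apply hφ
    ext x
    have h1 : ∀ l, φ (Pi.single l 1) = 0 := fun l => congrFun h0 l
    simp [h1]
  · intro i
    rw [← hφx]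
    exact hker (Submodule.subset_span ⟨i, rfl⟩)

/-- If a matrix has a kernel vector, then all its maximal minors vanish. -/
lemma hankel_det {ι : Type*} {n : ℕ} (A : ι → Fin n → ℂ) {c : Fin n → ℂ} (hc : c ≠ 0)
    (h : ∀ i, ∑ l, c l * A i l = 0) (r : Fin n → ι) : (Matrix.of fun i => A (r i)).det = 0 := by
  rw [← Matrix.exists_mulVec_eq_zero_iff]
  refine ⟨c, hc, ?_⟩
  funext i
  rw [Matrix.mulVec, dotProduct]
  simp only [Matrix.of_apply, Pi.zero_apply]
  rw [← h (r i)]
  exact Finset.sum_congr rfl fun l _ => mul_comm _ _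

/-! ### circle integrals with parameters -/

lemma hankel_param {U : Set ℂ} (hU : IsOpen U) {c : ℂ} {ρ : ℝ} (hρ : 0 < ρ)
    {F : ℂ × ℂ → ℂ} (hF : ContinuousOn F (U ×ˢ sphere c ρ))
    (hd : ∀ z ∈ sphere c ρ, DifferentiableOn ℂ (fun ζ => F (ζ, z)) U) :
    DifferentiableOn ℂ (fun ζ => ∮ z in C(c, ρ), F (ζ, z)) U := by
  intro ζ₀ hζ₀
  refine DifferentiableAt.differentiableWithinAt ?_
  obtain ⟨δ₀, hδ₀, hball⟩ := Metric.isOpen_iff.1 hU ζ₀ hζ₀
  set δ : ℝ := δ₀ / 3 with hδ
  have hδ0 : 0 < δ := by positivity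
  have hcb : closedBall ζ₀ (2 * δ) ⊆ U := by
    intro x hx
    apply hball
    rw [mem_closedBall] at hx
    rw [mem_ball]
    linarith
  have hK : IsCompact (closedBall ζ₀ (2 * δ) ×ˢ sphere c ρ) :=
    (isCompact_closedBall _ _).prod (isCompact_sphere _ _)
  obtain ⟨M, hM⟩ := hK.exists_bound_of_continuousOn (hF.mono (Set.prod_mono hcb subset_rfl))
  have hmem : ∀ θ : ℝ, circleMap c ρ θ ∈ sphere c ρ := fun θ => circleMap_mem_sphere c hρ.le θ
  set dc : ℝ → ℂ := fun θ => deriv (circleMap c ρ) θ with hdc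
  have hdcc : Continuous dc := by
    rw [hdc]
    simp only [deriv_circleMap]
    fun_prop
  have hdcn : ∀ θ, ‖dc θ‖ = ρ := by
    intro θ
    rw [hdc]
    simp only [deriv_circleMap, norm_mul, Complex.norm_I, mul_one, norm_circleMap_zero,
      abs_of_pos hρ]
  have hFc : ∀ ζ ∈ U, Continuous fun θ : ℝ => F (ζ, circleMap c ρ θ) := by
    intro ζ hζ
    refine hF.comp_continuous (by fun_prop) fun θ => ⟨hζ, hmem θ⟩
  have hder : ∀ ζ ∈ ball ζ₀ δ, ∀ θ : ℝ,
      HasDerivAt (fun ζ => F (ζ, circleMap c ρ θ)) (deriv (fun ζ => F (ζ, circleMap c ρ θ)) ζ) ζ ∧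
        ‖deriv (fun ζ => F (ζ, circleMap c ρ θ)) ζ‖ ≤ M / δ := by
    intro ζ hζ θ
    have hsub : closedBall ζ δ ⊆ closedBall ζ₀ (2 * δ) := by
      intro x hx
      rw [mem_closedBall] at hx ⊢
      rw [mem_ball] at hζ
      have := dist_triangle x ζ ζ₀
      linarith
    have hζU : ζ ∈ U := hcb (hsub (mem_closedBall_self hδ0.le))
    refine ⟨((hd _ (hmem θ)).differentiableAt (hU.mem_nhds hζU)).hasDerivAt, ?_⟩
    refine Complex.norm_deriv_le_of_forall_mem_sphere_norm_le hδ0 ?_ ?_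
    · refine DifferentiableOn.diffContOnCl ?_
      rw [closure_ball _ hδ0.ne']
      exact (hd _ (hmem θ)).mono (hsub.trans hcb)
    · intro z hz
      exact hM _ ⟨hsub (sphere_subset_closedBall hz), hmem θ⟩
  have hev : ∀ᶠ ζ in 𝓝 ζ₀, ζ ∈ ball ζ₀ δ := isOpen_ball.mem_nhds (mem_ball_self hδ0)
  have hbU : ball ζ₀ δ ⊆ U := fun x hx => hcb (by
    rw [mem_ball] at hx
    rw [mem_closedBall]
    linarith)
  have key := intervalIntegral.hasDerivAt_integral_of_dominated_loc_of_deriv_le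
    (μ := MeasureTheory.volume) (a := 0) (b := 2 * Real.pi)
    (F := fun ζ θ => dc θ • F (ζ, circleMap c ρ θ))
    (F' := fun ζ θ => dc θ • deriv (fun ζ => F (ζ, circleMap c ρ θ)) ζ)
    (x₀ := ζ₀) (s := ball ζ₀ δ) (bound := fun _ => ρ * (M / δ))
    (isOpen_ball.mem_nhds (mem_ball_self hδ0)) ?_ ?_ ?_ ?_ ?_ ?_
  · exact key.2.differentiableAt
  · filter_upwards [hev] with ζ hζ
    exact (hdcc.smul (hFc ζ (hbU hζ))).aestronglyMeasurable
  · exact (hdcc.smul (hFc ζ₀ hζ₀)).intervalIntegrable _ _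
  · refine MeasureTheory.AEStronglyMeasurable.smul hdcc.aestronglyMeasurable ?_
    set hh : ℕ → ℂ := fun n => ((δ / (n + 2) : ℝ) : ℂ) with hhh
    have hpos : ∀ n : ℕ, 0 < δ / ((n : ℝ) + 2) := fun n => by positivity
    have hne : ∀ n, hh n ≠ 0 := fun n => by
      show ((δ / ((n : ℝ) + 2) : ℝ) : ℂ) ≠ 0
      exact Complex.ofReal_ne_zero.2 (hpos n).ne'
    have hU' : ∀ n, ζ₀ + hh n ∈ U := by
      intro n
      apply hbU
      rw [mem_ball, dist_eq_norm, add_sub_cancel_left, hhh]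
      simp only [Complex.norm_real, Real.norm_eq_abs, abs_of_pos (hpos n)]
      rw [div_lt_iff₀ (by positivity)]
      have : (0 : ℝ) ≤ n := Nat.cast_nonneg n
      nlinarith
    have hlim0 : Tendsto hh atTop (𝓝 0) := by
      have h1 : Tendsto (fun n : ℕ => δ / ((n : ℝ) + 2)) atTop (𝓝 0) := by
        refine Tendsto.div_atTop tendsto_const_nhds ?_
        exact tendsto_atTop_add_const_right _ _ tendsto_natCast_atTop_atTop
      have h2 := (Complex.continuous_ofReal.tendsto 0).comp h1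
      simpa [hhh, Function.comp_def] using h2
    have hlim : Tendsto hh atTop (𝓝[≠] 0) :=
      tendsto_nhdsWithin_iff.2 ⟨hlim0, Eventually.of_forall fun n => hne n⟩
    refine aestronglyMeasurable_of_tendsto_ae (u := atTop) (f := fun (n : ℕ) (θ : ℝ) =>
      (hh n)⁻¹ • (F (ζ₀ + hh n, circleMap c ρ θ) - F (ζ₀, circleMap c ρ θ))) ?_ ?_
    · intro n
      have h1 : Continuous fun θ : ℝ =>
          (hh n)⁻¹ • (F (ζ₀ + hh n, circleMap c ρ θ) - F (ζ₀, circleMap c ρ θ)) :=
        ((hFc _ (hU' n)).sub (hFc _ hζ₀)).const_smul ((hh n)⁻¹)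
      exact h1.aestronglyMeasurable
    · refine Eventually.of_forall fun θ => ?_
      exact ((hder ζ₀ (mem_ball_self hδ0) θ).1.tendsto_slope_zero).comp hlim
  · refine Eventually.of_forall fun θ _ ζ hζ => ?_
    rw [norm_smul, hdcn]
    exact mul_le_mul_of_nonneg_left (hder ζ hζ θ).2 hρ.le
  · exact intervalIntegrable_const
  · refine Eventually.of_forall fun θ _ ζ hζ => ?_
    exact ((hder ζ hζ θ).1).const_smul (dc θ)

/-! ### moments -/

lemma hankel_ann_open {zc : ℂ} {r1 r2 : ℝ} :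
    IsOpen {z : ℂ | r1 < dist z zc ∧ dist z zc < r2} := by
  have h1 : IsOpen {z : ℂ | r1 < dist z zc} := isOpen_lt continuous_const (by fun_prop)
  have h2 : IsOpen {z : ℂ | dist z zc < r2} := isOpen_lt (by fun_prop) continuous_const
  exact h1.inter h2

lemma hankel_sphere {zc : ℂ} {r1 r2 ρ : ℝ} (h1 : r1 < ρ) (h2 : ρ < r2) :
    sphere zc ρ ⊆ {z : ℂ | r1 < dist z zc ∧ dist z zc < r2} := by
  intro z hz
  rw [mem_sphere] at hz
  exact ⟨by rw [hz]; exact h1, by rw [hz]; exact h2⟩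

/-- circle integrals do not depend on the radius -/
lemma hankel_radius {zc : ℂ} {r1 r2 ρ ρ' : ℝ} (hr1 : 0 < r1) (h1 : r1 < ρ) (h2 : ρ < r2)
    (h1' : r1 < ρ') (h2' : ρ' < r2) {h : ℂ → ℂ}
    (hh : DifferentiableOn ℂ h {z | r1 < dist z zc ∧ dist z zc < r2}) :
    (∮ z in C(zc, ρ), h z) = ∮ z in C(zc, ρ'), h z := by
  wlog hle : ρ' ≤ ρ generalizing ρ ρ'
  · exact (this h1' h2' h1 h2 (le_of_not_ge hle)).symm
  refine Complex.circleIntegral_eq_of_differentiable_on_annulus_off_countable (hr1.trans h1')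
    hle Set.countable_empty (hh.continuousOn.mono ?_) ?_
  · rintro z ⟨hz1, hz2⟩
    rw [mem_closedBall] at hz1
    rw [mem_ball, not_lt] at hz2
    exact ⟨h1'.trans_le hz2, hz1.trans_lt h2⟩
  · rintro z ⟨⟨hz1, hz2⟩, -⟩
    rw [mem_ball] at hz1
    rw [mem_closedBall, not_le] at hz2
    exact hh.differentiableAt (hankel_ann_open.mem_nhds ⟨h1'.trans hz2, hz1.trans h2⟩)

/-- the extension criterion with moments, polynomial form -/
lemma hankel_moment {zc : ℂ} {r1 r2 ρ : ℝ} (hr1 : 0 < r1) (h1 : r1 < ρ) (h2 : ρ < r2)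
    {h : ℂ → ℂ} (hh : DifferentiableOn ℂ h {z | r1 < dist z zc ∧ dist z zc < r2})
    (h0 : ∀ n : ℕ, (∮ z in C(zc, ρ), z ^ n * h z) = 0) (p : Polynomial ℂ) {r : ℝ}
    (hr : r1 < r) (hr' : r < r2) : (∮ z in C(zc, r), p.eval z * h z) = 0 := by
  have hρ : 0 < ρ := hr1.trans h1
  have hd : DifferentiableOn ℂ (fun z => p.eval z * h z)
      {z | r1 < dist z zc ∧ dist z zc < r2} :=
    (p.differentiable.differentiableOn).mul hh
  rw [← hankel_radius hr1 h1 h2 hr hr' hd]
  have hc : ContinuousOn h (sphere zc ρ) := hh.continuousOn.mono (hankel_sphere h1 h2)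
  have he : ∀ z, p.eval z * h z =
      ∑ i ∈ Finset.range (p.natDegree + 1), p.coeff i * (z ^ i * h z) := by
    intro z
    rw [Polynomial.eval_eq_sum_range, Finset.sum_mul]
    exact Finset.sum_congr rfl fun i _ => by ring
  simp only [he]
  rw [circleIntegral.integral_fun_sum]
  · refine Finset.sum_eq_zero fun i _ => ?_
    rw [circleIntegral.integral_const_mul, h0 i, mul_zero]
  · intro i _
    refine ContinuousOn.circleIntegrable hρ.le ?_
    exact continuousOn_const.mul ((by fun_prop : ContinuousOn (fun z : ℂ => z ^ i) _).mul hc)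

/-- **Hankel determinants**, the parameters of a set with an accumulation point. -/
theorem hankel_fill_acc {N M : ℕ} {s0 : ℂ} {eps : ℝ} {zc : ℂ} {r1 r2 : ℝ}
    (hr1 : 0 < r1) (hr : r1 < r2) {f : ℂ × ℂ → Fin (N + 1) → ℂ}
    (hf : DifferentiableOn ℂ f (ball s0 eps ×ˢ {z | r1 < dist z zc ∧ dist z zc < r2}))
    {S : Set ℂ} (hS : S ⊆ ball s0 eps) {x : ℂ} (hx : x ∈ ball s0 eps)
    (hacc : ∃ᶠ z in 𝓝[≠] x, z ∈ S)
    (hq : ∀ s ∈ S, ∃ q : Polynomial ℂ, q ≠ 0 ∧ q.natDegree ≤ M ∧
      ∃ g : ℂ → Fin (N + 1) → ℂ, DifferentiableOn ℂ g (ball zc r2) ∧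
        ∀ z, r1 < dist z zc → dist z zc < r2 → g z = q.eval z • f (s, z)) :
    ∀ zeta ∈ ball s0 eps, ∃ q : Polynomial ℂ, q ≠ 0 ∧ q.natDegree ≤ M ∧
      ∃ g : ℂ → Fin (N + 1) → ℂ, DifferentiableOn ℂ g (ball zc r2) ∧
        ∀ z, r1 < dist z zc → dist z zc < r2 → g z = q.eval z • f (zeta, z) := by
  classical
  obtain ⟨ρ, hρ1, hρ2⟩ := exists_between hr
  have hρ : 0 < ρ := hr1.trans hρ1
  set Ann : Set ℂ := {z | r1 < dist z zc ∧ dist z zc < r2} with hAnn
  have hAo : IsOpen Ann := hankel_ann_open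
  have hsph : sphere zc ρ ⊆ Ann := hankel_sphere hρ1 hρ2
  have hfj : ∀ j : Fin (N + 1), DifferentiableOn ℂ (fun p => f p j) (ball s0 eps ×ˢ Ann) :=
    fun j => differentiableOn_pi.1 hf j
  -- the slices
  have hfz : ∀ ζ ∈ ball s0 eps, ∀ j : Fin (N + 1),
      DifferentiableOn ℂ (fun z => f (ζ, z) j) Ann := by
    intro ζ hζ j
    refine (hfj j).comp (f := fun z : ℂ => (ζ, z)) ?_ fun z hz => ⟨hζ, hz⟩
    exact (differentiable_const ζ).prodMk differentiable_id |>.differentiableOn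
  -- the moments
  set a : ℂ → Fin (N + 1) × ℕ → Fin (M + 1) → ℂ := fun ζ p l =>
    ∮ z in C(zc, ρ), z ^ (p.2 + (l : ℕ)) * f (ζ, z) p.1 with ha
  have hint : ∀ ζ ∈ ball s0 eps, ∀ j : Fin (N + 1), ∀ n : ℕ,
      CircleIntegrable (fun z => z ^ n * f (ζ, z) j) zc ρ := by
    intro ζ hζ j n
    refine ContinuousOn.circleIntegrable hρ.le ?_
    exact (by fun_prop : ContinuousOn (fun z : ℂ => z ^ n) _).mul
      ((hfz ζ hζ j).continuousOn.mono hsph)
  have hkey : ∀ ζ ∈ ball s0 eps, ∀ c : Fin (M + 1) → ℂ, ∀ p : Fin (N + 1) × ℕ,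
      ∑ l, c l * a ζ p l =
        ∮ z in C(zc, ρ), z ^ p.2 * ((∑ l : Fin (M + 1), c l * z ^ (l : ℕ)) * f (ζ, z) p.1) := by
    intro ζ hζ c p
    have h1 : ∀ z : ℂ, z ^ p.2 * ((∑ l : Fin (M + 1), c l * z ^ (l : ℕ)) * f (ζ, z) p.1) =
        ∑ l : Fin (M + 1), c l * (z ^ (p.2 + (l : ℕ)) * f (ζ, z) p.1) := by
      intro z
      rw [Finset.sum_mul, Finset.mul_sum]
      exact Finset.sum_congr rfl fun l _ => by rw [pow_add]; ring
    simp only [h1]
    rw [circleIntegral.integral_fun_sum]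
    · refine Finset.sum_congr rfl fun l _ => ?_
      rw [circleIntegral.integral_const_mul]
    · intro l _
      exact (hint ζ hζ p.1 _).const_fun_smul (a := c l)
  have hadiff : ∀ p l, DifferentiableOn ℂ (fun ζ => a ζ p l) (ball s0 eps) := by
    intro p l
    refine hankel_param isOpen_ball hρ (F := fun q : ℂ × ℂ => q.2 ^ (p.2 + (l : ℕ)) * f q p.1)
      ?_ ?_
    · exact (by fun_prop : ContinuousOn (fun q : ℂ × ℂ => q.2 ^ (p.2 + (l : ℕ))) _).mul
        ((hfj p.1).continuousOn.mono (Set.prod_mono subset_rfl hsph))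
    · intro z hz
      refine DifferentiableOn.const_mul (b := z ^ (p.2 + (l : ℕ))) ?_
      refine (hfj p.1).comp (f := fun ζ : ℂ => (ζ, z)) ?_ fun ζ hζ => ⟨hζ, hsph hz⟩
      exact differentiable_id.prodMk (differentiable_const z) |>.differentiableOn
  -- the minors vanish for real parameters
  have hreal : ∀ s ∈ S, ∀ r : Fin (M + 1) → Fin (N + 1) × ℕ,
      (Matrix.of fun i => a s (r i)).det = 0 := by
    intro s hs r
    have hsb : s ∈ ball s0 eps := hS hs
    obtain ⟨q, hq0, hqM, g, hg, hgf⟩ := hq s hs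
    have hqe : ∀ z : ℂ, (∑ l : Fin (M + 1), q.coeff l * z ^ (l : ℕ)) = q.eval z := by
      intro z
      rw [Finset.sum_fin_eq_sum_range, Polynomial.eval_eq_sum_range' (n := M + 1) (by omega)]
      refine Finset.sum_congr rfl fun i hi => ?_
      rw [dif_pos (Finset.mem_range.1 hi)]
    refine hankel_det (fun p => a s p) (c := fun l : Fin (M + 1) => q.coeff l) ?_ ?_ r
    · intro h0
      apply hq0
      ext n
      by_cases hn : n < M + 1
      · exact congrFun h0 ⟨n, hn⟩
      · rw [Polynomial.coeff_zero]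
        exact Polynomial.coeff_eq_zero_of_natDegree_lt (by omega)
    · intro p
      rw [hkey s hsb]
      simp only [hqe]
      have h1 : (∮ z in C(zc, ρ), z ^ p.2 * (q.eval z * f (s, z) p.1)) =
          ∮ z in C(zc, ρ), z ^ p.2 * g z p.1 := by
        refine circleIntegral.integral_congr hρ.le fun z hz => ?_
        have hz' := hsph hz
        have := congrFun (hgf z hz'.1 hz'.2) p.1
        simp only [Pi.smul_apply, smul_eq_mul] at this
        simp only [this]
      rw [h1]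
      refine DiffContOnCl.circleIntegral_eq_zero hρ.le ?_
      refine DifferentiableOn.diffContOnCl ?_
      rw [closure_ball _ hρ.ne']
      have h2 : DifferentiableOn ℂ (fun z => g z p.1) (ball zc r2) := differentiableOn_pi.1 hg p.1
      exact (by fun_prop : DifferentiableOn ℂ (fun z : ℂ => z ^ p.2) _).mul
        (h2.mono (closedBall_subset_ball hρ2))
  -- the minors vanish for all parameters
  have hall : ∀ r : Fin (M + 1) → Fin (N + 1) × ℕ, ∀ ζ ∈ ball s0 eps,
      (Matrix.of fun i => a ζ (r i)).det = 0 := by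
    intro r
    have hdet : DifferentiableOn ℂ (fun ζ => (Matrix.of fun i => a ζ (r i)).det)
        (ball s0 eps) := by
      simp only [Matrix.det_apply']
      refine DifferentiableOn.fun_sum fun σ _ => ?_
      refine DifferentiableOn.const_mul ?_ _
      refine DifferentiableOn.fun_finsetProd fun i _ => ?_
      exact hadiff (r (σ i)) i
    have han : AnalyticOnNhd ℂ (fun ζ => (Matrix.of fun i => a ζ (r i)).det)
        (ball s0 eps) := hdet.analyticOnNhd isOpen_ball
    have hfreq : ∃ᶠ ζ in 𝓝[≠] x, (Matrix.of fun i => a ζ (r i)).det = 0 :=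
      hacc.mono fun s hs => hreal s hs r
    have := han.eqOn_zero_of_preconnected_of_frequently_eq_zero
      (convex_ball _ _).isPreconnected hx hfreq
    intro ζ hζ
    exact this hζ
  -- the conclusion
  intro ζ hζ
  obtain ⟨c, hc, hker⟩ := hankel_ker (a ζ) (fun r => hall r ζ hζ)
  set q : Polynomial ℂ := ∑ l : Fin (M + 1), Polynomial.C (c l) * Polynomial.X ^ (l : ℕ) with hqd
  have hqe : ∀ z : ℂ, q.eval z = ∑ l : Fin (M + 1), c l * z ^ (l : ℕ) := by
    intro z
    rw [hqd, Polynomial.eval_finsetSum]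
    exact Finset.sum_congr rfl fun l _ => by simp
  have hcoef : ∀ l : Fin (M + 1), q.coeff l = c l := by
    intro l
    rw [hqd, Polynomial.finsetSum_coeff]
    simp only [Polynomial.coeff_C_mul, Polynomial.coeff_X_pow]
    rw [Finset.sum_eq_single l]
    · simp
    · intro b _ hb
      have : ¬ ((l : ℕ) = (b : ℕ)) := fun h => hb (Fin.ext h.symm)
      simp [this]
    · simp
  have hq0 : q ≠ 0 := by
    intro h0
    apply hc
    funext l
    rw [← hcoef l, h0]
    simp
  have hqM : q.natDegree ≤ M := by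
    rw [hqd]
    refine Polynomial.natDegree_sum_le_of_forall_le _ _ fun l _ => ?_
    refine (Polynomial.natDegree_C_mul_X_pow_le _ _).trans ?_
    have := l.2
    omega
  have hext : ∀ j : Fin (N + 1), ∃ J' : ℂ → ℂ, DifferentiableOn ℂ J' (ball zc r2) ∧
      ∀ z, r1 < ‖z - zc‖ → ‖z - zc‖ < r2 → J' z = q.eval z * f (ζ, z) j := by
    intro j
    have hhd : DifferentiableOn ℂ (fun z => q.eval z * f (ζ, z) j) Ann :=
      (q.differentiable.differentiableOn).mul (hfz ζ hζ j)
    have h0 : ∀ n : ℕ, (∮ z in C(zc, ρ), z ^ n * (q.eval z * f (ζ, z) j)) = 0 := by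
      intro n
      have h1 := hkey ζ hζ c (j, n)
      rw [hker (j, n)] at h1
      simp only [hqe]
      exact h1.symm
    refine Pool.Agent.H62.EL.ext_annulus hr1 hr ?_ ?_
    · refine hhd.mono ?_
      rintro z ⟨hz1, hz2⟩
      rw [← dist_eq_norm] at hz1 hz2
      exact ⟨hz1, hz2⟩
    · intro n r hrr hrr'
      have := hankel_moment hr1 hρ1 hρ2 hhd h0 ((Polynomial.X - Polynomial.C zc) ^ n) hrr hrr'
      simpa using this
  choose J hJd hJe using hext
  refine ⟨q, hq0, hqM, fun z j => J j z, ?_, ?_⟩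
  · rw [differentiableOn_pi]
    exact hJd
  · intro z hz1 hz2
    rw [dist_eq_norm] at hz1 hz2
    funext j
    rw [Pi.smul_apply, smul_eq_mul]
    exact hJe j z hz1 hz2

/-- An uncountable set of complex numbers contains one of its accumulation points. -/
lemma hankel_acc {S : Set ℂ} (hS : ¬ S.Countable) : ∃ x ∈ S, ∃ᶠ z in 𝓝[≠] x, z ∈ S := by
  by_contra hcon
  push Not at hcon
  have hd : DiscreteTopology S := by
    rw [discreteTopology_subtype_iff]
    intro x hx
    have h1 := hcon x hx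
    have h2 : Sᶜ ∈ 𝓝[≠] x := h1
    rwa [Filter.mem_iff_inf_principal_compl, compl_compl] at h2
  apply hS
  have : Countable S := (TopologicalSpace.separableSpace_iff_countable (α := S)).1 inferInstance
  exact Set.countable_coe_iff.1 this

/-- **Hankel determinants**: a pole set for uncountably many parameters. -/
theorem hankel_fill_unc {N : ℕ} {ζ₀ : ℂ} {ε : ℝ} (hε : 0 < ε) {zc : ℂ} {r₁ r₂ : ℝ} (hr₁ : 0 < r₁)
    (hr : r₁ < r₂) {f : ℂ × ℂ → Fin (N + 1) → ℂ}
    (hf : DifferentiableOn ℂ f (ball ζ₀ ε ×ˢ {z | r₁ < dist z zc ∧ dist z zc < r₂}))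
    {T : Set ℂ} (hT : T ⊆ ball ζ₀ ε) (hTu : ¬ T.Countable)
    (hq : ∀ ζ ∈ T, ∃ q : Polynomial ℂ, q ≠ 0 ∧ ∃ g : ℂ → Fin (N + 1) → ℂ,
      DifferentiableOn ℂ g (ball zc r₂) ∧
        ∀ z, r₁ < dist z zc → dist z zc < r₂ → g z = q.eval z • f (ζ, z)) :
    ∀ ζ ∈ ball ζ₀ ε, ∃ q : Polynomial ℂ, q ≠ 0 ∧ ∃ g : ℂ → Fin (N + 1) → ℂ,
      DifferentiableOn ℂ g (ball zc r₂) ∧
        ∀ z, r₁ < dist z zc → dist z zc < r₂ → g z = q.eval z • f (ζ, z) := by
  set TM : ℕ → Set ℂ := fun M => {ζ | ζ ∈ T ∧ ∃ q : Polynomial ℂ, q ≠ 0 ∧ q.natDegree ≤ M ∧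
    ∃ g : ℂ → Fin (N + 1) → ℂ, DifferentiableOn ℂ g (ball zc r₂) ∧
      ∀ z, r₁ < dist z zc → dist z zc < r₂ → g z = q.eval z • f (ζ, z)} with hTM
  have hex : ∃ M, ¬ (TM M).Countable := by
    by_contra hcon
    push Not at hcon
    refine hTu ((Set.countable_iUnion hcon).mono ?_)
    intro ζ hζ
    obtain ⟨q, hq0, g, hg, hgf⟩ := hq ζ hζ
    exact Set.mem_iUnion.2 ⟨q.natDegree, hζ, q, hq0, le_rfl, g, hg, hgf⟩
  obtain ⟨M, hM⟩ := hex
  obtain ⟨x, hx, hacc⟩ := hankel_acc hM
  intro ζ hζ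
  obtain ⟨q, hq0, -, g, hg, hgf⟩ := hankel_fill_acc hr₁ hr hf (S := TM M)
    (fun s hs => hT hs.1) (hT hx.1) hacc (fun s hs => hs.2) ζ hζ
  exact ⟨q, hq0, g, hg, hgf⟩

alias hankel_unc := hankel_fill_unc

end Pool.Agent.G3.C
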