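import Pool.Agent.G3.C.TDefs

/-!
# G3 C JetComp: analytic functions of smooth families are smooth families

Say that `g : ℝ → ℂ → ℂ` is in `J_n` if there are `g_0 = g, …, g_n` on `I × D`, continuous, holomorphic in `z`, `g_{j+1}` the `s`-derivative of `g_j` for `j < n`.
CLAIM `S n`: for all finite types `ι : Type`, all families `f : ι → …` of `JetFam`s and all analytic `Q`: `Q (s, z, (f i 0 s z)_i) ∈ J_n`.  Induction on `n`: the `s`-derivative is
`fderiv Q (1, 0, 0) + ∑ i, f i 1 s z * fderiv Q (0, 0, Pi.single i 1)`, an analytic function of `(s, z, (f i 0, f i 1)_i)`, index type `ι ⊕ ι`, with the shifted families.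
`g_j` is unique on the open set `I`: `g_j s z = iteratedDeriv j (fun t => g t z) s`; this gives one sequence for all `n`.
`jet_fill`: `v j s z = (2 π i)⁻¹ ∮ W j s ζ / (ζ - z) dζ` over the circle, `W j s ζ = iteratedDeriv j (fun t => w t ζ) s`; derivative under the integral sign
(`hasDerivAt_integral_of_dominated_loc_of_deriv_le`).
-/

set_option autoImplicit false

open Topology Filter Metric

namespace Pool.Agent.G3.C

/-- families of functions with `n` derivatives in `s` -/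
private def Sm (I : Set ℝ) (D : Set ℂ) : ℕ → (ℝ → ℂ → ℂ) → Prop
  | 0, g => ContinuousOn (fun q : ℝ × ℂ => g q.1 q.2) (I ×ˢ D) ∧ ∀ s ∈ I, DifferentiableOn ℂ (g s) D
  | n + 1, g => (ContinuousOn (fun q : ℝ × ℂ => g q.1 q.2) (I ×ˢ D) ∧ ∀ s ∈ I, DifferentiableOn ℂ (g s) D) ∧
      ∃ g' : ℝ → ℂ → ℂ, (∀ s ∈ I, ∀ z ∈ D, HasDerivAt (fun t => g t z) (g' s z) s) ∧ Sm I D n g'

private theorem sm_base {I : Set ℝ} {D : Set ℂ} {n : ℕ} {g : ℝ → ℂ → ℂ} (h : Sm I D n g) :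
    ContinuousOn (fun q : ℝ × ℂ => g q.1 q.2) (I ×ˢ D) ∧ ∀ s ∈ I, DifferentiableOn ℂ (g s) D := by
  cases n with
  | zero => exact h
  | succ n => exact h.1

private theorem sm_congr {I : Set ℝ} {D : Set ℂ} (hI : IsOpen I) {n : ℕ} {g h : ℝ → ℂ → ℂ} (hg : Sm I D n g) (he : ∀ s ∈ I, ∀ z ∈ D, h s z = g s z) : Sm I D n h := by
  have hb : ContinuousOn (fun q : ℝ × ℂ => h q.1 q.2) (I ×ˢ D) ∧ ∀ s ∈ I, DifferentiableOn ℂ (h s) D := by
    obtain ⟨h1, h2⟩ := sm_base hg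
    exact ⟨h1.congr fun q hq => he q.1 hq.1 q.2 hq.2, fun s hs => (h2 s hs).congr fun z hz => he s hs z hz⟩
  cases n with
  | zero => exact hb
  | succ n =>
    obtain ⟨-, g', h1, h2⟩ := hg
    refine ⟨hb, g', fun s hs z hz => ?_, h2⟩
    refine (h1 s hs z hz).congr_of_eventuallyEq ?_
    filter_upwards [hI.mem_nhds hs] with t ht
    exact he t ht z hz

private theorem sm_deriv {I : Set ℝ} {D : Set ℂ} (hI : IsOpen I) {n : ℕ} {g : ℝ → ℂ → ℂ} (hg : Sm I D (n + 1) g) : Sm I D n fun s z => deriv (fun t => g t z) s := by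
  obtain ⟨-, g', h1, h2⟩ := hg
  exact sm_congr hI h2 fun s hs z hz => (h1 s hs z hz).deriv

/-- one sequence for all `n` -/
private theorem jet_of_sm {I : Set ℝ} {D : Set ℂ} (hI : IsOpen I) {g : ℝ → ℂ → ℂ} (hg : ∀ n, Sm I D n g) :
    JetFam (fun j s z => iteratedDeriv j (fun t => g t z) s) I D := by
  have key : ∀ j n, Sm I D n fun s z => iteratedDeriv j (fun t => g t z) s := by
    intro j
    induction j with
    | zero =>
      intro n
      simpa only [iteratedDeriv_zero] using hg n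
    | succ j ih =>
      intro n
      have h1 := sm_deriv hI (ih (n + 1))
      simpa only [iteratedDeriv_succ] using h1
  refine ⟨fun j s hs z hz => ?_, fun j => (sm_base (key j 0)).1, fun j => (sm_base (key j 0)).2⟩
  obtain ⟨-, g', h1, -⟩ := key j 1
  have h2 := h1 s hs z hz
  have h3 := h2.deriv
  rw [iteratedDeriv_succ]
  rw [← h3] at h2
  exact h2

private theorem jet_shift {w : ℕ → ℝ → ℂ → ℂ} {I : Set ℝ} {D : Set ℂ} (hw : JetFam w I D) : JetFam (fun j => w (j + 1)) I D :=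
  ⟨fun j s hs z hz => hw.der (j + 1) s hs z hz, fun j => hw.cont (j + 1), fun j => hw.hol (j + 1)⟩

open Classical in
private theorem split_pi {ι : Type} [Fintype ι] (v : ι → ℂ) :
    ((1, 0, v) : ℂ × ℂ × (ι → ℂ)) = (1, 0, 0) + ∑ j : ι, v j • ((0, 0, Pi.single j 1) : ℂ × ℂ × (ι → ℂ)) := by
  have h : (v : ι → ℂ) = ∑ j : ι, v j • (Pi.single j 1 : ι → ℂ) := by
    ext i
    simp [Finset.sum_apply, Pi.single_apply]
  have h2 : ((0, 0, v) : ℂ × ℂ × (ι → ℂ)) = ∑ j : ι, v j • ((0, 0, Pi.single j 1) : ℂ × ℂ × (ι → ℂ)) := by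
    rw [Prod.ext_iff, Prod.ext_iff]
    refine ⟨by simp [Prod.fst_sum], by simp [Prod.fst_sum, Prod.snd_sum], ?_⟩
    simp only [Prod.snd_sum, Prod.smul_snd]
    exact h
  rw [← h2]
  simp

private theorem comp_sm {I : Set ℝ} {D : Set ℂ} (hI : IsOpen I) (hD : IsOpen D) (n : ℕ) : ∀ (ι : Type) [Fintype ι] (f : ι → ℕ → ℝ → ℂ → ℂ), (∀ i, JetFam (f i) I D) →
    ∀ (O : Set (ℂ × ℂ × (ι → ℂ))) (Q : ℂ × ℂ × (ι → ℂ) → ℂ), AnalyticOnNhd ℂ Q O → (∀ s ∈ I, ∀ z ∈ D, ((s : ℂ), z, fun i => f i 0 s z) ∈ O) →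
    Sm I D n fun s z => Q ((s : ℂ), z, fun i => f i 0 s z) := by
  have hbase : ∀ (ι : Type) [Fintype ι] (f : ι → ℕ → ℝ → ℂ → ℂ), (∀ i, JetFam (f i) I D) →
      ∀ (O : Set (ℂ × ℂ × (ι → ℂ))) (Q : ℂ × ℂ × (ι → ℂ) → ℂ), AnalyticOnNhd ℂ Q O → (∀ s ∈ I, ∀ z ∈ D, ((s : ℂ), z, fun i => f i 0 s z) ∈ O) →
      ContinuousOn (fun q : ℝ × ℂ => Q ((q.1 : ℂ), q.2, fun i => f i 0 q.1 q.2)) (I ×ˢ D) ∧
        ∀ s ∈ I, DifferentiableOn ℂ (fun z => Q ((s : ℂ), z, fun i => f i 0 s z)) D := by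
    intro ι _ f hf O Q hQ hm
    constructor
    · have h1 : ContinuousOn (fun q : ℝ × ℂ => ((q.1 : ℂ), q.2, fun i => f i 0 q.1 q.2)) (I ×ˢ D) := by
        refine ContinuousOn.prodMk (Complex.continuous_ofReal.comp continuous_fst).continuousOn (ContinuousOn.prodMk continuous_snd.continuousOn ?_)
        rw [continuousOn_pi]
        exact fun i => (hf i).cont 0
      exact hQ.continuousOn.comp h1 fun q hq => hm q.1 hq.1 q.2 hq.2
    · intro s hs z hz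
      have h1 : DifferentiableWithinAt ℂ (fun z => ((s : ℂ), z, fun i => f i 0 s z)) D z := by
        refine (differentiableWithinAt_const _).prodMk (differentiableWithinAt_id.prodMk ?_)
        rw [differentiableWithinAt_pi]
        exact fun i => (hf i).hol 0 s hs z hz
      exact (hQ _ (hm s hs z hz)).differentiableAt.comp_differentiableWithinAt z h1
  induction n with
  | zero =>
    intro ι _ f hf O Q hQ hm
    exact hbase ι f hf O Q hQ hm
  | succ n ih =>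
    intro ι _ f hf O Q hQ hm
    classical
    refine ⟨hbase ι f hf O Q hQ hm, ?_⟩
    -- the derivative
    let res : ℂ × ℂ × (ι ⊕ ι → ℂ) → ℂ × ℂ × (ι → ℂ) := fun q => (q.1, q.2.1, fun i => q.2.2 (Sum.inl i))
    let Q' : ℂ × ℂ × (ι ⊕ ι → ℂ) → ℂ := fun q =>
      fderiv ℂ Q (res q) (1, 0, 0) + ∑ i : ι, q.2.2 (Sum.inr i) * fderiv ℂ Q (res q) (0, 0, Pi.single i 1)
    let f' : ι ⊕ ι → ℕ → ℝ → ℂ → ℂ := Sum.elim f fun i j => f i (j + 1)
    have hf' : ∀ i, JetFam (f' i) I D := by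
      rintro (i | i)
      · exact hf i
      · exact jet_shift (hf i)
    have hproj : ∀ (i : ι ⊕ ι) (q : ℂ × ℂ × (ι ⊕ ι → ℂ)), AnalyticAt ℂ (fun q : ℂ × ℂ × (ι ⊕ ι → ℂ) => q.2.2 i) q := by
      intro i q
      exact ((ContinuousLinearMap.proj (R := ℂ) (φ := fun _ : ι ⊕ ι => ℂ) i).comp
        ((ContinuousLinearMap.snd ℂ ℂ (ι ⊕ ι → ℂ)).comp (ContinuousLinearMap.snd ℂ ℂ (ℂ × (ι ⊕ ι → ℂ))))).analyticAt q
    have hres : ∀ q, AnalyticAt ℂ res q := by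
      intro q
      refine analyticAt_fst.prod ((analyticAt_fst.comp analyticAt_snd).prod ?_)
      rw [analyticAt_pi_iff]
      exact fun i => hproj (Sum.inl i) q
    have hap : ∀ v : ℂ × ℂ × (ι → ℂ), ∀ q, res q ∈ O → AnalyticAt ℂ (fun q => fderiv ℂ Q (res q) v) q := by
      intro v q hq
      have h1 : AnalyticAt ℂ (fun q => fderiv ℂ Q q v) (res q) := (ContinuousLinearMap.apply ℂ ℂ v).analyticAt _ |>.comp (hQ _ hq).fderiv
      exact h1.comp (hres q)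
    have hQ' : AnalyticOnNhd ℂ Q' (res ⁻¹' O) := by
      intro q hq
      refine (hap _ q hq).add ?_
      refine Finset.analyticAt_fun_sum _ fun i _ => ?_
      exact (hproj (Sum.inr i) q).mul (hap _ q hq)
    refine ⟨fun s z => Q' ((s : ℂ), z, fun i => f' i 0 s z), fun s hs z hz => ?_, ih (ι ⊕ ι) f' hf' (res ⁻¹' O) Q' hQ' fun s hs z hz => hm s hs z hz⟩
    have hder : HasDerivAt (fun t : ℝ => (fun i : ι => f i 0 t z : ι → ℂ)) (fun i : ι => f i 1 s z) s := by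
      rw [hasDerivAt_pi]
      exact fun i => (hf i).der 0 s hs z hz
    have hJ : HasDerivAt (fun t : ℝ => (((t : ℂ), z, fun i => f i 0 t z) : ℂ × ℂ × (ι → ℂ))) ((1, 0, fun i : ι => f i 1 s z) : ℂ × ℂ × (ι → ℂ)) s := by
      apply HasDerivAt.prodMk (HasDerivAt.ofReal_comp (hasDerivAt_id s))
      exact (hasDerivAt_const s z).prodMk hder
    have hQd : HasFDerivAt Q ((fderiv ℂ Q ((s : ℂ), z, fun i => f i 0 s z)).restrictScalars ℝ) ((s : ℂ), z, fun i => f i 0 s z) :=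
      (hQ _ (hm s hs z hz)).differentiableAt.hasFDerivAt.restrictScalars ℝ
    have hcomp := hQd.comp_hasDerivAt s hJ
    refine hcomp.congr_deriv ?_
    simp only [ContinuousLinearMap.coe_restrictScalars']
    rw [split_pi, map_add, map_sum]
    simp only [map_smul, smul_eq_mul]
    rfl

/-- analytic functions of smooth families are smooth families -/
theorem JetFam.comp {ι : Type} [Fintype ι] {f : ι → ℕ → ℝ → ℂ → ℂ} {I : Set ℝ} {D : Set ℂ} (hI : IsOpen I) (hD : IsOpen D) (hf : ∀ i, JetFam (f i) I D)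
    {O : Set (ℂ × ℂ × (ι → ℂ))} {Q : ℂ × ℂ × (ι → ℂ) → ℂ} (hQ : AnalyticOnNhd ℂ Q O) (hm : ∀ s ∈ I, ∀ z ∈ D, ((s : ℂ), z, fun i => f i 0 s z) ∈ O) :
    ∃ v : ℕ → ℝ → ℂ → ℂ, JetFam v I D ∧ ∀ s ∈ I, ∀ z ∈ D, v 0 s z = Q ((s : ℂ), z, fun i => f i 0 s z) := by
  refine ⟨_, jet_of_sm hI (g := fun s z => Q ((s : ℂ), z, fun i => f i 0 s z)) fun n => comp_sm hI hD n ι f hf O Q hQ hm, fun s _ z _ => ?_⟩
  rw [iteratedDeriv_zero]

/-- the derivatives of a smooth family -/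
private theorem jet_iter {v : ℕ → ℝ → ℂ → ℂ} {I : Set ℝ} {D : Set ℂ} (hI : IsOpen I) (hv : JetFam v I D) {w : ℝ → ℂ → ℂ}
    (h : ∀ s ∈ I, ∀ z ∈ D, v 0 s z = w s z) (j : ℕ) : ∀ s ∈ I, ∀ z ∈ D, iteratedDeriv j (fun t => w t z) s = v j s z := by
  induction j with
  | zero =>
    intro s hs z hz
    rw [iteratedDeriv_zero]
    exact (h s hs z hz).symm
  | succ j ih =>
    intro s hs z hz
    rw [iteratedDeriv_succ]
    have h1 : (iteratedDeriv j fun t => w t z) =ᶠ[𝓝 s] fun t => v j t z := by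
      filter_upwards [hI.mem_nhds hs] with t ht
      exact ih t ht z hz
    rw [h1.deriv_eq]
    exact (hv.der j s hs z hz).deriv

/-- a family which is smooth near a circle is smooth inside -/
theorem jet_fill {w : ℝ → ℂ → ℂ} {I : Set ℝ} (hI : IsOpen I) {z₁ : ℂ} {r₁ : ℝ} (hr : 0 < r₁)
    (hc : ∀ s ∈ I, DifferentiableOn ℂ (w s) (ball z₁ r₁) ∧ ContinuousOn (w s) (closedBall z₁ r₁))
    (hloc : ∀ s ∈ I, ∀ z ∈ sphere z₁ r₁, ∃ (δ : ℝ) (v : ℕ → ℝ → ℂ → ℂ), 0 < δ ∧ JetFam v (Set.Ioo (s - δ) (s + δ)) (ball z δ) ∧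
      ∀ s' ∈ Set.Ioo (s - δ) (s + δ), ∀ z' ∈ ball z δ, v 0 s' z' = w s' z') :
    ∃ v : ℕ → ℝ → ℂ → ℂ, JetFam v I (ball z₁ r₁) ∧ ∀ s ∈ I, ∀ z ∈ ball z₁ r₁, v 0 s z = w s z := by
  obtain ⟨W, hW⟩ : ∃ W : ℕ → ℝ → ℂ → ℂ, ∀ j s ζ, W j s ζ = iteratedDeriv j (fun t => w t ζ) s := ⟨_, fun _ _ _ => rfl⟩
  -- the properties of `W` near the circle
  have hWd : ∀ j, ∀ s ∈ I, ∀ ζ ∈ sphere z₁ r₁, HasDerivAt (fun t => W j t ζ) (W (j + 1) s ζ) s := by
    intro j s hs ζ hζ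
    obtain ⟨δ, v, hδ, hv, hvw⟩ := hloc s hs ζ hζ
    have hsI : s ∈ Set.Ioo (s - δ) (s + δ) := ⟨by linarith, by linarith⟩
    have hζb : ζ ∈ ball ζ δ := mem_ball_self hδ
    rw [hW, jet_iter isOpen_Ioo hv hvw (j + 1) s hsI ζ hζb]
    refine (hv.der j s hsI ζ hζb).congr_of_eventuallyEq ?_
    filter_upwards [isOpen_Ioo.mem_nhds hsI] with t ht
    rw [hW, jet_iter isOpen_Ioo hv hvw j t ht ζ hζb]
  have hWc : ∀ j, ∀ s ∈ I, ∀ ζ ∈ sphere z₁ r₁, ContinuousAt (fun q : ℝ × ℂ => W j q.1 q.2) (s, ζ) := by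
    intro j s hs ζ hζ
    obtain ⟨δ, v, hδ, hv, hvw⟩ := hloc s hs ζ hζ
    have hsI : s ∈ Set.Ioo (s - δ) (s + δ) := ⟨by linarith, by linarith⟩
    have hζb : ζ ∈ ball ζ δ := mem_ball_self hδ
    have hn : Set.Ioo (s - δ) (s + δ) ×ˢ ball ζ δ ∈ 𝓝 (s, ζ) := (isOpen_Ioo.prod isOpen_ball).mem_nhds ⟨hsI, hζb⟩
    refine ((hv.cont j).continuousAt hn).congr ?_
    filter_upwards [hn] with q hq
    rw [hW, jet_iter isOpen_Ioo hv hvw j q.1 hq.1 q.2 hq.2]
  have hcm : ∀ θ : ℝ, circleMap z₁ r₁ θ ∈ sphere z₁ r₁ := fun θ => circleMap_mem_sphere z₁ hr.le θ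
  -- the integrand
  obtain ⟨F, hF⟩ : ∃ F : ℕ → ℝ × ℂ → ℝ → ℂ, ∀ j q θ, F j q θ = deriv (circleMap z₁ r₁) θ • ((circleMap z₁ r₁ θ - q.2)⁻¹ • W j q.1 (circleMap z₁ r₁ θ)) :=
    ⟨_, fun _ _ _ => rfl⟩
  have hne : ∀ z ∈ ball z₁ r₁, ∀ θ : ℝ, circleMap z₁ r₁ θ - z ≠ 0 := by
    intro z hz θ h
    rw [sub_eq_zero] at h
    have h1 := hcm θ
    rw [h, mem_sphere] at h1
    rw [mem_ball] at hz
    linarith
  have hFc : ∀ j, ∀ s ∈ I, ∀ z ∈ ball z₁ r₁, ∀ θ : ℝ, ContinuousAt (fun x : (ℝ × ℂ) × ℝ => F j x.1 x.2) ((s, z), θ) := by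
    intro j s hs z hz θ
    simp only [hF, smul_eq_mul]
    have hcm' : ContinuousAt (fun x : (ℝ × ℂ) × ℝ => circleMap z₁ r₁ x.2) ((s, z), θ) := ((continuous_circleMap z₁ r₁).comp continuous_snd).continuousAt
    refine ContinuousAt.mul ?_ (ContinuousAt.mul ?_ ?_)
    · have h1 : Continuous (deriv (circleMap z₁ r₁)) := by
        have h2 : deriv (circleMap z₁ r₁) = fun θ => circleMap 0 r₁ θ * Complex.I := by
          funext θ
          exact deriv_circleMap z₁ r₁ θ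
        rw [h2]
        exact (continuous_circleMap 0 r₁).mul continuous_const
      exact (h1.comp continuous_snd).continuousAt
    · exact (hcm'.sub (continuous_snd.comp continuous_fst).continuousAt).inv₀ (hne z hz θ)
    · have h1 : ContinuousAt (fun x : (ℝ × ℂ) × ℝ => ((x.1.1, circleMap z₁ r₁ x.2) : ℝ × ℂ)) ((s, z), θ) :=
        (continuous_fst.comp continuous_fst).continuousAt.prodMk hcm'
      exact ContinuousAt.comp_of_eq (hWc j s hs _ (hcm θ)) h1 rfl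
  have hFθ : ∀ j, ∀ s ∈ I, ∀ z ∈ ball z₁ r₁, Continuous (F j (s, z)) := by
    intro j s hs z hz
    rw [continuous_iff_continuousAt]
    intro θ
    exact ContinuousAt.comp_of_eq (f := fun θ : ℝ => (((s, z), θ) : (ℝ × ℂ) × ℝ)) (hFc j s hs z hz θ) (by fun_prop) rfl
  -- local bounds
  have hbd : ∀ j, ∀ s ∈ I, ∀ z ∈ ball z₁ r₁, ∃ (ε B : ℝ), 0 < ε ∧ ball s ε ⊆ I ∧ ball z ε ⊆ ball z₁ r₁ ∧
      ∀ s' ∈ ball s ε, ∀ z' ∈ ball z ε, ∀ θ ∈ Set.uIoc 0 (2 * Real.pi), ‖F j (s', z') θ‖ ≤ B := by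
    intro j s hs z hz
    obtain ⟨ε₁, hε₁, h1⟩ := Metric.isOpen_iff.1 hI s hs
    obtain ⟨ε₂, hε₂, h2⟩ := Metric.isOpen_iff.1 isOpen_ball z hz
    have hε : 0 < min ε₁ ε₂ / 2 := by positivity
    have hcpt : IsCompact ((closedBall s (min ε₁ ε₂ / 2) ×ˢ closedBall z (min ε₁ ε₂ / 2)) ×ˢ Set.Icc 0 (2 * Real.pi)) :=
      ((isCompact_closedBall _ _).prod (isCompact_closedBall _ _)).prod isCompact_Icc
    have hs1 : closedBall s (min ε₁ ε₂ / 2) ⊆ I := (closedBall_subset_ball (by linarith [min_le_left ε₁ ε₂])).trans h1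
    have hs2 : closedBall z (min ε₁ ε₂ / 2) ⊆ ball z₁ r₁ := (closedBall_subset_ball (by linarith [min_le_right ε₁ ε₂])).trans h2
    have hco : ContinuousOn (fun x : (ℝ × ℂ) × ℝ => F j x.1 x.2) ((closedBall s (min ε₁ ε₂ / 2) ×ˢ closedBall z (min ε₁ ε₂ / 2)) ×ˢ Set.Icc 0 (2 * Real.pi)) := by
      rintro ⟨⟨s', z'⟩, θ⟩ ⟨⟨h3, h4⟩, -⟩
      exact (hFc j s' (hs1 h3) z' (hs2 h4) θ).continuousWithinAt
    obtain ⟨B, hB⟩ := hcpt.exists_bound_of_continuousOn hco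
    refine ⟨min ε₁ ε₂ / 2, B, hε, ball_subset_closedBall.trans hs1, ball_subset_closedBall.trans hs2, fun s' hs' z' hz' θ hθ => ?_⟩
    rw [Set.uIoc_of_le (by positivity)] at hθ
    exact hB ((s', z'), θ) ⟨⟨ball_subset_closedBall hs', ball_subset_closedBall hz'⟩, hθ.1.le, hθ.2⟩
  obtain ⟨V, hV⟩ : ∃ V : ℕ → ℝ → ℂ → ℂ, ∀ j s z, V j s z = (2 * Real.pi * Complex.I : ℂ)⁻¹ • ∫ θ in (0 : ℝ)..2 * Real.pi, F j (s, z) θ := ⟨_, fun _ _ _ => rfl⟩
  have hVi : ∀ j s z, V j s z = (2 * Real.pi * Complex.I : ℂ)⁻¹ • ∮ ζ in C(z₁, r₁), (ζ - z)⁻¹ • W j s ζ := by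
    intro j s z
    rw [hV]
    simp only [hF]
    rfl
  refine ⟨V, ⟨fun j s hs z hz => ?_, fun j => ?_, fun j s hs => ?_⟩, fun s hs z hz => ?_⟩
  · -- the derivative in `s`
    simp only [hV, smul_eq_mul]
    refine HasDerivAt.const_mul _ ?_
    obtain ⟨ε, B, hε, hε1, hε2, hB⟩ := hbd (j + 1) s hs z hz
    have h1 := intervalIntegral.hasDerivAt_integral_of_dominated_loc_of_deriv_le (𝕜 := ℝ) (μ := MeasureTheory.volume) (F := fun t θ => F j (t, z) θ)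
      (F' := fun t θ => F (j + 1) (t, z) θ) (x₀ := s) (a := 0) (b := 2 * Real.pi) (bound := fun _ => B) (s := ball s ε) (ball_mem_nhds s hε) ?_ ?_ ?_ ?_ ?_ ?_
    · exact h1.2
    · filter_upwards [hI.mem_nhds hs] with t ht
      exact (hFθ j t ht z hz).aestronglyMeasurable
    · exact (hFθ j s hs z hz).intervalIntegrable _ _
    · exact (hFθ (j + 1) s hs z hz).aestronglyMeasurable
    · exact MeasureTheory.ae_of_all _ fun θ hθ t ht => hB t ht z (mem_ball_self hε) θ hθ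
    · exact intervalIntegrable_const
    · refine MeasureTheory.ae_of_all _ fun θ hθ t ht => ?_
      simp only [hF, smul_eq_mul]
      exact ((hWd j t (hε1 ht) _ (hcm θ)).const_mul _).const_mul _
  · -- continuity
    rintro ⟨s, z⟩ ⟨hs, hz⟩
    refine ContinuousAt.continuousWithinAt ?_
    simp only [hV, smul_eq_mul]
    refine continuousAt_const.mul ?_
    obtain ⟨ε, B, hε, hε1, hε2, hB⟩ := hbd j s hs z hz
    have hn : ball s ε ×ˢ ball z ε ∈ 𝓝 (s, z) := (isOpen_ball.prod isOpen_ball).mem_nhds ⟨mem_ball_self hε, mem_ball_self hε⟩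
    refine intervalIntegral.continuousAt_of_dominated_interval (F := fun q : ℝ × ℂ => F j (q.1, q.2)) (bound := fun _ => B) ?_ ?_ ?_ ?_
    · filter_upwards [hn] with q hq
      exact (hFθ j q.1 (hε1 hq.1) q.2 (hε2 hq.2)).aestronglyMeasurable
    · filter_upwards [hn] with q hq
      exact MeasureTheory.ae_of_all _ fun θ hθ => hB q.1 hq.1 q.2 hq.2 θ hθ
    · exact intervalIntegrable_const
    · refine MeasureTheory.ae_of_all _ fun θ _ => ?_
      exact ContinuousAt.comp_of_eq (f := fun q : ℝ × ℂ => ((q, θ) : (ℝ × ℂ) × ℝ)) (hFc j s hs z hz θ) (by fun_prop) rfl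
  · -- holomorphic in `z`
    have hci : CircleIntegrable (W j s) z₁ r₁ := by
      refine ContinuousOn.circleIntegrable hr.le fun ζ hζ => ?_
      have h1 : ContinuousAt (W j s) ζ := ContinuousAt.comp_of_eq (f := fun ζ : ℂ => ((s, ζ) : ℝ × ℂ)) (hWc j s hs ζ hζ) (by fun_prop) rfl
      exact h1.continuousWithinAt
    obtain ⟨ρ, hρ⟩ : ∃ ρ : NNReal, (ρ : ℝ) = r₁ := ⟨⟨r₁, hr.le⟩, rfl⟩
    have hρ0 : 0 < ρ := by
      rw [← NNReal.coe_pos, hρ]
      exact hr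
    have h2 := hasFPowerSeriesOn_cauchy_integral (f := W j s) (c := z₁) (R := ρ) (by rwa [hρ]) hρ0
    rw [hρ] at h2
    have h3 : (fun z => V j s z) = fun z => (2 * Real.pi * Complex.I : ℂ)⁻¹ • ∮ ζ in C(z₁, r₁), (ζ - z)⁻¹ • W j s ζ := funext fun z => hVi j s z
    have h4 : DifferentiableOn ℂ (fun z => V j s z) (ball z₁ r₁) := by
      rw [h3]
      intro z hz
      have h5 : z ∈ Metric.eball z₁ (ρ : ENNReal) := by
        rw [Metric.eball_coe, hρ]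
        exact hz
      exact (h2.analyticAt_of_mem h5).differentiableAt.differentiableWithinAt
    exact h4
  · -- the value
    obtain ⟨h1, h2⟩ := hc s hs
    rw [hVi]
    have h3 : DiffContOnCl ℂ (w s) (ball z₁ r₁) := ⟨h1, by rwa [closure_ball z₁ hr.ne']⟩
    have h4 := h3.two_pi_i_inv_smul_circleIntegral_sub_inv_smul hz
    rw [← h4]
    congr 1
    have h5 : ∀ ζ, W 0 s ζ = w s ζ := by
      intro ζ
      rw [hW, iteratedDeriv_zero]
    simp only [h5]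

end Pool.Agent.G3.C
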