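import Mathlib

/-!
# G3 C Mero: removing poles by a polynomial, isolated points in compact sets, annuli

* `mero_poly`: induction on `Z` (`Finset.induction_on`, generalizing `φ`): for `Z = insert z₀ Z'`, `z₀ ∈ U`, replace `φ` by `φ₁ z = (z - z₀) ^ n • φ z` for `z ≠ z₀`, `φ₁ z₀ = G z₀`
  (analytic at `z₀`, and `(z - z') ^ n' • φ₁` is still analytic at the other points `z'`); `q = q₁ * (X - C z₀) ^ n`.
* `finite_of_isolated`: every point of `K` has a neighbourhood `V` with `{z ∈ V | P z} ⊆ {the point}`; finite subcover.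
* `isPreconnected_annulus`: the image of the convex set `{w | log r₁ < re w < log r₂}` (`re w < log r₂` if `r₁ = 0`) under `w ↦ c + exp w`.
-/

set_option autoImplicit false

open Topology Filter Metric Set

namespace Pool.Agent.G3.C

/-- the poles are removed by a polynomial -/
theorem mero_poly {E : Type*} [NormedAddCommGroup E] [NormedSpace ℂ E] {U : Set ℂ} (hU : IsOpen U) (Z : Finset ℂ) : ∀ {φ : ℂ → E},
    (∀ z ∈ U, z ∉ Z → DifferentiableAt ℂ φ z) →
    (∀ z₀ ∈ Z, z₀ ∈ U → ∃ (n : ℕ) (G : ℂ → E), AnalyticAt ℂ G z₀ ∧ ∀ᶠ z in 𝓝[≠] z₀, (z - z₀) ^ n • φ z = G z) →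
    ∃ q : Polynomial ℂ, q ≠ 0 ∧ ∃ g : ℂ → E, DifferentiableOn ℂ g U ∧ ∀ z ∈ U, z ∉ Z → g z = q.eval z • φ z := by
  classical
  induction Z using Finset.induction_on with
  | empty =>
    intro φ h1 _
    exact ⟨1, one_ne_zero, φ, fun z hz => (h1 z hz (Finset.notMem_empty z)).differentiableWithinAt, fun z _ _ => by simp⟩
  | insert z₀ Z' hz₀ ih =>
    intro φ h1 h2
    by_cases hU0 : z₀ ∈ U
    · obtain ⟨n, G, hG, hGe⟩ := h2 z₀ (Finset.mem_insert_self _ _) hU0
      set φ₁ : ℂ → E := Function.update (fun z => (z - z₀) ^ n • φ z) z₀ (G z₀) with hφ₁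
      have hne : ∀ z, z ≠ z₀ → φ₁ z = (z - z₀) ^ n • φ z := fun z hz => by rw [hφ₁, Function.update_of_ne hz]
      have hev : ∀ z, z ≠ z₀ → φ₁ =ᶠ[𝓝 z] fun w => (w - z₀) ^ n • φ w := by
        intro z hz
        filter_upwards [isOpen_ne.mem_nhds hz] with w hw
        exact hne w hw
      have h0 : φ₁ =ᶠ[𝓝 z₀] G := by
        rw [eventually_nhdsWithin_iff] at hGe
        filter_upwards [hGe] with w hw
        by_cases hw0 : w = z₀
        · rw [hw0, hφ₁, Function.update_self]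
        · rw [hne w hw0, hw hw0]
      have k1 : ∀ z ∈ U, z ∉ Z' → DifferentiableAt ℂ φ₁ z := by
        intro z hz hzZ
        by_cases hz0 : z = z₀
        · rw [hz0]
          exact hG.differentiableAt.congr_of_eventuallyEq h0
        · have hd : DifferentiableAt ℂ φ z := h1 z hz (by simp [hz0, hzZ])
          have hd2 : DifferentiableAt ℂ (fun w : ℂ => (w - z₀) ^ n) z := by fun_prop
          exact (hd2.smul hd).congr_of_eventuallyEq (hev z hz0)
      have k2 : ∀ z' ∈ Z', z' ∈ U → ∃ (n : ℕ) (G : ℂ → E), AnalyticAt ℂ G z' ∧ ∀ᶠ z in 𝓝[≠] z', (z - z') ^ n • φ₁ z = G z := by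
        intro z' hz' hzU
        have hne' : z' ≠ z₀ := fun h => hz₀ (h ▸ hz')
        obtain ⟨n', G', hG', hGe'⟩ := h2 z' (Finset.mem_insert_of_mem hz') hzU
        refine ⟨n', fun z => (z - z₀) ^ n • G' z, ?_, ?_⟩
        · have ha : AnalyticAt ℂ (fun w : ℂ => (w - z₀) ^ n) z' := (analyticAt_id.sub analyticAt_const).pow n
          exact ha.smul hG'
        · have hev' : ∀ᶠ w in 𝓝[≠] z', φ₁ w = (w - z₀) ^ n • φ w := (hev z' hne').filter_mono nhdsWithin_le_nhds
          filter_upwards [hGe', hev'] with w hw1 hw2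
          rw [hw2, smul_comm, hw1]
      obtain ⟨q₁, hq₁, g, hg, hgq⟩ := ih k1 k2
      refine ⟨q₁ * (Polynomial.X - Polynomial.C z₀) ^ n, mul_ne_zero hq₁ (pow_ne_zero _ (Polynomial.X_sub_C_ne_zero z₀)), g, hg, ?_⟩
      intro z hz hzZ
      have hz0 : z ≠ z₀ := fun h => hzZ (h ▸ Finset.mem_insert_self _ _)
      have hzZ' : z ∉ Z' := fun h => hzZ (Finset.mem_insert_of_mem h)
      rw [hgq z hz hzZ', hne z hz0, smul_smul]
      simp
    · obtain ⟨q, hq, g, hg, hgq⟩ := ih (φ := φ)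
        (fun z hz hzZ => h1 z hz (by
          intro h
          rcases Finset.mem_insert.1 h with h | h
          · exact hU0 (h ▸ hz)
          · exact hzZ h))
        (fun z' hz' hzU => h2 z' (Finset.mem_insert_of_mem hz') hzU)
      exact ⟨q, hq, g, hg, fun z hz hzZ => hgq z hz (fun h => hzZ (Finset.mem_insert_of_mem h))⟩

/-- a subset of a compact set without accumulation points is finite -/
theorem finite_of_isolated {K : Set ℂ} (hK : IsCompact K) {P : ℂ → Prop} (h : ∀ z ∈ K, ∀ᶠ w in 𝓝[≠] z, ¬ P w) : {z ∈ K | P z}.Finite := by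
  have hV : ∀ z ∈ K, {w : ℂ | w ≠ z → ¬ P w} ∈ 𝓝 z := by
    intro z hz
    have h1 := h z hz
    rw [eventually_nhdsWithin_iff] at h1
    exact h1
  obtain ⟨t, -, ht⟩ := hK.elim_nhds_subcover (fun z => {w : ℂ | w ≠ z → ¬ P w}) hV
  refine t.finite_toSet.subset ?_
  rintro z ⟨hz, hPz⟩
  obtain ⟨x, hx, hzx⟩ := mem_iUnion₂.1 (ht hz)
  by_cases hzx' : z = x
  · rw [hzx']
    exact hx
  · exact absurd hPz (hzx hzx')

/-- annuli are connected -/
theorem isPreconnected_annulus (c : ℂ) {r₁ r₂ : ℝ} (h : 0 ≤ r₁) : IsPreconnected {z : ℂ | r₁ < dist z c ∧ dist z c < r₂} := by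
  have he : {z : ℂ | r₁ < dist z c ∧ dist z c < r₂} = (fun p : ℝ × ℝ => circleMap c p.1 p.2) '' (Ioo r₁ r₂ ×ˢ univ) := by
    ext z
    simp only [mem_ofPred_eq, mem_image, mem_prod, mem_Ioo, mem_univ, and_true, Prod.exists]
    constructor
    · rintro ⟨h1, h2⟩
      refine ⟨dist z c, Complex.arg (z - c), ⟨h1, h2⟩, ?_⟩
      rw [circleMap, Complex.dist_eq, Complex.norm_mul_exp_arg_mul_I]
      ring
    · rintro ⟨r, θ, ⟨h1, h2⟩, rfl⟩
      have hd : dist (circleMap c r θ) c = r := by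
        rw [Complex.dist_eq, circleMap_sub_center, norm_circleMap_zero, abs_of_pos (lt_of_le_of_lt h h1)]
      rw [hd]
      exact ⟨h1, h2⟩
  rw [he]
  refine (isPreconnected_Ioo.prod isPreconnected_univ).image _ ?_
  have hc : Continuous fun p : ℝ × ℝ => circleMap c p.1 p.2 := by
    unfold circleMap
    fun_prop
  exact hc.continuousOn

end Pool.Agent.G3.C
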