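import Pool.Agent.G3.C.LL
import Pool.Agent.G3.C.XU
import Pool.Agent.TH.Osg

/-!
# G3 C Val: the values of the extension outside the bad points
-/

set_option autoImplicit false

open Topology Filter Metric Set

namespace Pool.Agent.G3.C

open Pool.Agent.H36.BP (EN)
open Pool.Agent.H14.PP (IsCone)
open Pool.Agent.H62.EF (MN pr pr_smul pr_eq_iff continuousAt_pr)
open Pool.Agent.AD (Vd Chart Charts)
open Pool.Agent.TG (TMap Lat close_lift mem_of_pr)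

variable {N k : ℕ} {X : Set (EN N)} {Λ : AddSubgroup (Vd (k + 1))} {u : EN N → Vd (k + 1)}

theorem dist_re_self (ζ : ℂ) : dist ζ (ζ.re : ℂ) = |ζ.im| := by
  rw [dist_eq_norm]
  have : ζ - (ζ.re : ℂ) = (ζ.im : ℂ) * Complex.I := by
    apply Complex.ext <;> simp
  rw [this, norm_mul, Complex.norm_I, mul_one, Complex.norm_real, Real.norm_eq_abs]

theorem dist_re_le (ζ : ℂ) (s : ℝ) : dist (ζ.re : ℂ) (s : ℂ) ≤ dist ζ s := by
  rw [dist_eq_norm, ← Complex.ofReal_sub, Complex.norm_real, Real.norm_eq_abs, dist_eq_norm]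
  have := Complex.abs_re_le_norm (ζ - s)
  simpa using this

open Classical in
/-- the value of the extension -/
noncomputable def V (Φ : ℝ → ℂ → MN N) (ε : ℝ) (ζ z : ℂ) : MN N := if h : EAt Φ ζ.re z ε then pr (h.choose (ζ, z)) else 0

theorem V_eq {Φ : ℝ → ℂ → MN N} {ε : ℝ} {s₀ : ℝ} {z₀ : ℂ} {ε' : ℝ} {F : ℂ × ℂ → EN N} (hF : DifferentiableOn ℂ F (ball ((s₀ : ℂ), z₀) ε'))
    (h0 : ∀ p ∈ ball ((s₀ : ℂ), z₀) ε', F p ≠ 0) (hr : ∀ (s : ℝ) (z : ℂ), ((s : ℂ), z) ∈ ball ((s₀ : ℂ), z₀) ε' → Φ s z = pr (F (s, z)))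
    {ζ z : ℂ} (hp : (ζ, z) ∈ ball ((s₀ : ℂ), z₀) ε') (hE : EAt Φ ζ.re z ε) (hζ : |ζ.im| < ε) : V Φ ε ζ z = pr (F (ζ, z)) := by
  have hV : V Φ ε ζ z = pr (hE.choose (ζ, z)) := by
    unfold V
    rw [dif_pos hE]
  rw [hV]
  obtain ⟨hF', h0', hr'⟩ := hE.choose_spec
  obtain ⟨F', hF'e⟩ : ∃ F', F' = hE.choose := ⟨_, rfl⟩
  rw [← hF'e] at hF' h0' hr' ⊢
  have hp' : ζ ∈ ball (s₀ : ℂ) ε' ∧ z ∈ ball z₀ ε' := by
    rw [← ball_prod_same] at hp
    exact hp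
  have hε : 0 < ε := (abs_nonneg _).trans_lt hζ
  obtain ⟨W, hW⟩ : ∃ W : Set ℂ, W = ball (s₀ : ℂ) ε' ∩ ball (ζ.re : ℂ) ε := ⟨_, rfl⟩
  have hWo : IsOpen W := by rw [hW]; exact isOpen_ball.inter isOpen_ball
  have hWc : IsPreconnected W := by rw [hW]; exact ((convex_ball _ _).inter (convex_ball _ _)).isPreconnected
  have hζW : ζ ∈ W := by
    rw [hW]
    exact ⟨hp'.1, by rw [mem_ball, dist_re_self]; exact hζ⟩
  have hreW : (ζ.re : ℂ) ∈ W := by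
    rw [hW]
    exact ⟨(dist_re_le ζ s₀).trans_lt hp'.1, mem_ball_self hε⟩
  have hm1 : ∀ w ∈ W, (w, z) ∈ ball ((s₀ : ℂ), z₀) ε' := fun w hw => by
    rw [hW] at hw
    rw [← ball_prod_same]
    exact ⟨hw.1, hp'.2⟩
  have hm2 : ∀ w ∈ W, (w, z) ∈ ball ((ζ.re : ℂ), z) ε := fun w hw => by
    rw [hW] at hw
    rw [← ball_prod_same]
    exact ⟨hw.2, mem_ball_self hε⟩
  have hd : ∀ {G : ℂ × ℂ → EN N} {c : ℂ × ℂ} {e : ℝ}, DifferentiableOn ℂ G (ball c e) → (∀ w ∈ W, (w, z) ∈ ball c e) → ∀ i, DifferentiableOn ℂ (fun w => G (w, z) i) W := by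
    intro G c e hG hm i w hw
    have h1 : DifferentiableAt ℂ G (w, z) := hG.differentiableAt (isOpen_ball.mem_nhds (hm w hw))
    have h2 : DifferentiableAt ℂ (fun w => G (w, z)) w := h1.comp w (differentiableAt_id.prodMk (differentiableAt_const z))
    exact ((EuclideanSpace.proj (𝕜 := ℂ) i : EN N →L[ℂ] ℂ).differentiableAt.comp w h2).differentiableWithinAt
  have key : ∀ i j, F' (ζ, z) i * F (ζ, z) j - F' (ζ, z) j * F (ζ, z) i = 0 := by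
    intro i j
    have han : AnalyticOnNhd ℂ (fun w => F' (w, z) i * F (w, z) j - F' (w, z) j * F (w, z) i) W :=
      (((hd hF' hm2 i).mul (hd hF hm1 j)).sub ((hd hF' hm2 j).mul (hd hF hm1 i))).analyticOnNhd hWo
    refine han.eqOn_zero_of_preconnected_of_frequently_eq_zero hWc hreW (real_freq (P := fun w => F' (w, z) i * F (w, z) j - F' (w, z) j * F (w, z) i = 0) ?_) hζW
    have h1 : ∀ᶠ t : ℝ in 𝓝 ζ.re, (t : ℂ) ∈ W := Complex.continuous_ofReal.continuousAt.eventually_mem (hWo.mem_nhds hreW)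
    filter_upwards [h1] with t ht
    have h2 := (hr' t z (hm2 _ ht)).symm.trans (hr t z (hm1 _ ht))
    exact (pr_iff_minors (h0' _ (hm2 _ ht)) (h0 _ (hm1 _ ht))).1 h2 i j
  exact (pr_iff_minors (h0' _ (hm2 _ hζW)) (h0 _ hp)).2 key

theorem V_real {Φ : ℝ → ℂ → MN N} {ε : ℝ} (hε : 0 < ε) {s : ℝ} {z : ℂ} (hE : EAt Φ s z ε) : V Φ ε s z = Φ s z := by
  have hE0 := hE
  obtain ⟨F, hF, h0, hr⟩ := hE
  have hm : ((s : ℂ), z) ∈ ball ((s : ℂ), z) ε := mem_ball_self hε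
  rw [V_eq hF h0 hr hm (by rw [Complex.ofReal_re]; exact hE0) (by rw [Complex.ofReal_im, abs_zero]; exact hε), hr s z hm]

/-- the extension is holomorphic in both variables -/
theorem V_joint {Φ : ℝ → ℂ → MN N} {O : Set (ℝ × ℂ)} {ε : ℝ} (hO : IsOpen O) (hE : ∀ p ∈ O, EAt Φ p.1 p.2 ε) {ζ z : ℂ} (hζ : |ζ.im| < ε)
    (hz : (ζ.re, z) ∈ O) : ∃ G : ℂ × ℂ → EN N, AnalyticAt ℂ G (ζ, z) ∧ (∀ᶠ p in 𝓝 (ζ, z), G p ≠ 0 ∧ V Φ ε p.1 p.2 = pr (G p)) := by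
  have hε : 0 < ε := (abs_nonneg _).trans_lt hζ
  have hm : (ζ, z) ∈ ball ((ζ.re : ℂ), z) ε := by
    rw [← ball_prod_same]
    exact ⟨by rw [mem_ball, dist_re_self]; exact hζ, mem_ball_self hε⟩
  obtain ⟨F, hF, h0, hr⟩ := hE _ hz
  refine ⟨F, ?_, ?_⟩
  · obtain ⟨r, hr0, hrb⟩ := Metric.isOpen_iff.1 isOpen_ball _ hm
    have hc : ContinuousOn F (ball ((ζ.re : ℂ), z) ε) := hF.continuousOn
    -- analyticity from differentiability on an open set of `ℂ × ℂ`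
    have hFb := (hF.mono hrb)
    have hcb : ContinuousAt F (ζ, z) := (hF.differentiableAt (isOpen_ball.mem_nhds hm)).continuousAt
    obtain ⟨r', hr', hM⟩ : ∃ r' > 0, ∀ p ∈ ball (ζ, z) r', ‖F p‖ ≤ ‖F (ζ, z)‖ + 1 := by
      obtain ⟨r', hr', h⟩ := Metric.continuousAt_iff.1 hcb 1 one_pos
      refine ⟨r', hr', fun p hp => ?_⟩
      have h1 := h hp
      rw [dist_eq_norm] at h1
      have h2 := norm_le_norm_add_norm_sub' (F p) (F (ζ, z))
      linarith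
    obtain ⟨e, he⟩ : ∃ e, e = min r r' := ⟨_, rfl⟩
    have he0 : 0 < e := by rw [he]; exact lt_min hr0 hr'
    have her : e ≤ r := by rw [he]; exact min_le_left _ _
    have her' : e ≤ r' := by rw [he]; exact min_le_right _ _
    have hpr : ∀ x ∈ ball ζ e, ∀ y ∈ ball z e, (x, y) ∈ ball (ζ, z) e := fun x hx y hy => by
      rw [← ball_prod_same]
      exact ⟨hx, hy⟩
    have hdf : ∀ x ∈ ball ζ e, ∀ y ∈ ball z e, DifferentiableAt ℂ F (x, y) := fun x hx y hy =>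
      hFb.differentiableAt (isOpen_ball.mem_nhds (ball_subset_ball her (hpr x hx y hy)))
    exact Pool.Agent.TH.osgood he0 (fun x hx y hy => hM _ (ball_subset_ball her' (hpr x hx y hy)))
      (fun y hy x hx => ((hdf x hx y hy).comp x (differentiableAt_id.prodMk (differentiableAt_const y))).differentiableWithinAt)
      (fun x hx y hy => ((hdf x hx y hy).comp y ((differentiableAt_const x).prodMk differentiableAt_id)).differentiableWithinAt)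
  · have h1 : ∀ᶠ p in 𝓝 (ζ, z), p ∈ ball ((ζ.re : ℂ), z) ε := isOpen_ball.mem_nhds hm
    have h2 : ∀ᶠ p : ℂ × ℂ in 𝓝 (ζ, z), |p.1.im| < ε := by
      have hc : ContinuousAt (fun p : ℂ × ℂ => |p.1.im|) (ζ, z) := by fun_prop
      exact hc.eventually_lt continuousAt_const hζ
    have h3 : ∀ᶠ p : ℂ × ℂ in 𝓝 (ζ, z), (p.1.re, p.2) ∈ O := by
      have hc : ContinuousAt (fun p : ℂ × ℂ => (p.1.re, p.2)) (ζ, z) := by fun_prop
      exact hc.eventually_mem (hO.mem_nhds hz)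
    filter_upwards [h1, h2, h3] with p hp1 hp2 hp3
    exact ⟨h0 p hp1, V_eq hF h0 hr hp1 (hE _ hp3) hp2⟩

theorem V_LL {Φ : ℝ → ℂ → MN N} {O : Set (ℝ × ℂ)} {ε : ℝ} (hO : IsOpen O) (hE : ∀ p ∈ O, EAt Φ p.1 p.2 ε) {ζ z : ℂ} (hζ : |ζ.im| < ε)
    (hz : (ζ.re, z) ∈ O) : LL (V Φ ε ζ) z := by
  obtain ⟨G, hG, hev⟩ := V_joint hO hE hζ hz
  have hc : ContinuousAt (fun w : ℂ => (ζ, w)) z := by fun_prop
  refine ⟨fun w => G (ζ, w), ?_, hev.self_of_nhds.1, ?_⟩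
  · exact AnalyticAt.fun_comp hG (analyticAt_const.prod analyticAt_id)
  · have h1 := hc.eventually hev
    filter_upwards [h1] with w hw
    exact hw.2

/-- the extension is in `X`, over the right points -/
theorem V_mem {d : ℕ} (hX : IsCone X) (hch : Charts d X) (ht : TMap X Λ u) (hl : Lat Λ) {a ν b : Vd (k + 1)} {Φ : ℝ → ℂ → MN N}
    (hΦ : ∀ s : ℝ, ∃ F ∈ Gc X Λ u a (b + (s : ℂ) • ν), ∀ z, Φ s z = pr (F z)) {ε : ℝ} {ζ z : ℂ} (hζ : |ζ.im| < ε) (hE : EAt Φ ζ.re z ε) :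
    ∃ x ∈ X, V Φ ε ζ z = pr x ∧ u x - (b + ζ • ν + z • a) ∈ Λ := by
  have hε : 0 < ε := (abs_nonneg _).trans_lt hζ
  have hm : (ζ, z) ∈ ball ((ζ.re : ℂ), z) ε := by
    rw [← ball_prod_same]
    exact ⟨by rw [mem_ball, dist_re_self]; exact hζ, mem_ball_self hε⟩
  have hE0 := hE
  obtain ⟨F, hF, h0, hr⟩ := hE
  obtain ⟨h1, h2⟩ := ext_mem hX hch ht hl hΦ hF h0 hr _ hm
  exact ⟨_, h1, V_eq hF h0 hr hm hE0 hζ, h2⟩

end Pool.Agent.G3.C
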