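import Pool.Agent.G3.C.LMD
import Pool.Agent.G3.C.Val
import Pool.Agent.G3.C.Mero
import Pool.Agent.G3.C.HankelJ

/-!
# G3 C LM: local meromorphic lifts from the extension on a circle
-/

set_option autoImplicit false

open Topology Filter Metric Set

namespace Pool.Agent.G3.C

open Pool.Agent.H36.BP (EN)
open Pool.Agent.H62.EF (MN pr pr_smul pr_eq_iff continuousAt_pr)

variable {N : ℕ}

/-- uniform extension near a circle -/
private theorem lm_unif {Φ : ℝ → ℂ → MN N} {s₀ : ℝ} {z₀ : ℂ} {r : ℝ} (hE : ∀ z, dist z z₀ = r → ∃ ε : ℝ, 0 < ε ∧ EAt Φ s₀ z ε) :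
    ∃ ε : ℝ, 0 < ε ∧ ∀ (s : ℝ) (z : ℂ), dist s s₀ < ε → (∃ w, dist w z₀ = r ∧ dist z w < ε) → EAt Φ s z ε := by
  rcases (sphere z₀ r).eq_empty_or_nonempty with he | hne
  · refine ⟨1, one_pos, fun s z _ hz => ?_⟩
    obtain ⟨w, hw, -⟩ := hz
    have : w ∈ sphere z₀ r := hw
    rw [he] at this
    exact absurd this (notMem_empty _)
  choose! e he hEe using hE
  obtain ⟨t, ht, hcov⟩ := (isCompact_sphere z₀ r).elim_nhds_subcover (fun z => ball z (e z / 2)) (fun z hz => ball_mem_nhds z (half_pos (he z hz)))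
  have htne : t.Nonempty := by
    obtain ⟨w, hw⟩ := hne
    obtain ⟨x, hx, -⟩ := mem_iUnion₂.1 (hcov hw)
    exact ⟨x, hx⟩
  obtain ⟨m, hm, hmin⟩ : ∃ m : ℝ, 0 < m ∧ ∀ x ∈ t, m ≤ e x := by
    refine ⟨t.inf' htne e, ?_, fun x hx => Finset.inf'_le _ hx⟩
    rw [Finset.lt_inf'_iff]
    exact fun x hx => he x (ht x hx)
  refine ⟨m / 4, by positivity, fun s z hs hz => ?_⟩
  obtain ⟨w, hw, hzw⟩ := hz
  obtain ⟨x, hx, hwx⟩ := mem_iUnion₂.1 (hcov (show w ∈ sphere z₀ r from hw))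
  have h1 := hmin x hx
  have h2 : dist z x < 3 / 4 * e x := by
    have h3 := dist_triangle z w x
    have h4 := mem_ball.1 hwx
    linarith
  refine (hEe x (ht x hx)).shrink (ball_subset_ball' ?_)
  rw [Prod.dist_eq]
  have h5 : dist (s : ℂ) (s₀ : ℂ) = dist s s₀ := by
    rw [dist_eq_norm, ← Complex.ofReal_sub, Complex.norm_real, ← dist_eq_norm]
  simp only
  rw [h5]
  have h6 : max (dist s s₀) (dist z x) ≤ 3 / 4 * e x := max_le (by linarith) h2.le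
  linarith

/-- points near a circle -/
private theorem lm_near {z z₀ : ℂ} {r δ : ℝ} (hr : 0 < r) (hz : |dist z z₀ - r| < δ) (hδ : δ ≤ r) : ∃ w, dist w z₀ = r ∧ dist z w < δ := by
  have hd : 0 < dist z z₀ := by
    have := (abs_lt.1 hz).1
    linarith
  refine ⟨z₀ + ((r / dist z z₀ : ℝ) : ℂ) * (z - z₀), ?_, ?_⟩
  · rw [dist_eq_norm, add_sub_cancel_left, norm_mul, Complex.norm_real, Real.norm_of_nonneg (by positivity), ← dist_eq_norm, div_mul_cancel₀ _ hd.ne']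
  · have e : z - (z₀ + ((r / dist z z₀ : ℝ) : ℂ) * (z - z₀)) = (((dist z z₀ - r) / dist z z₀ : ℝ) : ℂ) * (z - z₀) := by
      have hdc : ((dist z z₀ : ℝ) : ℂ) ≠ 0 := by exact_mod_cast hd.ne'
      push_cast
      field_simp
      ring
    rw [dist_eq_norm, e, norm_mul, Complex.norm_real, norm_div, Real.norm_eq_abs, Real.norm_of_nonneg hd.le, ← dist_eq_norm z z₀, div_mul_cancel₀ _ hd.ne']
    exact hz

private theorem lm_nvd {G : ℂ × ℂ → EN N} {v : EN N} {p : ℂ × ℂ} (hG : AnalyticAt ℂ G p) (hv : (inner ℂ v (G p) : ℂ) ≠ 0) :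
    DifferentiableAt ℂ (fun q => (inner ℂ v (G q) : ℂ)⁻¹ • G q) p := by
  have h1 : DifferentiableAt ℂ (fun q => (inner ℂ v (G q) : ℂ)) p := (innerSL ℂ v).differentiableAt.comp p hG.differentiableAt
  exact (h1.inv hv).smul hG.differentiableAt

/-- an uncountable set -/
private theorem lm_unc {s₀ δ : ℝ} (hδ : 0 < δ) : ¬ ((fun t : ℝ => (t : ℂ)) '' ball s₀ δ).Countable := by
  intro h
  have h1 : (ball s₀ δ).Countable := countable_of_injective_of_countable_image Complex.ofReal_injective.injOn h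
  have h2 := h1.dense_compl ℝ
  obtain ⟨x, hx1, hx2⟩ := h2.inter_open_nonempty _ isOpen_ball ⟨s₀, mem_ball_self hδ⟩
  exact hx2 hx1

/-- **local meromorphic lifts** -/
theorem lmer_of_circle {Φ : ℝ → ℂ → MN N} (hl : ∀ s : ℝ, ∃ F : ℂ → EN N, Differentiable ℂ F ∧ (∀ z, F z ≠ 0) ∧ ∀ z, Φ s z = pr (F z)) {s₀ : ℝ} {z₀ : ℂ} {r : ℝ}
    (hr : 0 < r) (hE : ∀ z, dist z z₀ = r → ∃ ε : ℝ, 0 < ε ∧ EAt Φ s₀ z ε) : ∃ ε : ℝ, 0 < ε ∧ LMer Φ s₀ z₀ ε := by
  classical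
  obtain ⟨ε₀', hε₀', hE'⟩ := lm_unif hE
  obtain ⟨ε₀, hε₀e⟩ : ∃ ε₀, ε₀ = min ε₀' r := ⟨_, rfl⟩
  have hε₀ : 0 < ε₀ := by rw [hε₀e]; exact lt_min hε₀' hr
  have hε₀r : ε₀ ≤ r := by rw [hε₀e]; exact min_le_right _ _
  have hε₀ε : ε₀ ≤ ε₀' := by rw [hε₀e]; exact min_le_left _ _
  -- the open set
  obtain ⟨O, hO⟩ : ∃ O : Set (ℝ × ℂ), O = {p | dist p.1 s₀ < ε₀ ∧ |dist p.2 z₀ - r| < ε₀} := ⟨_, rfl⟩
  have hOo : IsOpen O := by
    rw [hO]
    have h1 : IsOpen {p : ℝ × ℂ | dist p.1 s₀ < ε₀} := isOpen_lt (by fun_prop) continuous_const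
    have h2 : IsOpen {p : ℝ × ℂ | |dist p.2 z₀ - r| < ε₀} := isOpen_lt (by fun_prop) continuous_const
    exact h1.inter h2
  have hEO : ∀ p ∈ O, EAt Φ p.1 p.2 ε₀ := by
    intro p hp
    rw [hO] at hp
    obtain ⟨w, hw, hpw⟩ := lm_near hr hp.2 hε₀r
    exact (hE' p.1 p.2 (hp.1.trans_le hε₀ε) ⟨w, hw, hpw.trans_le hε₀ε⟩).mono hε₀ε
  -- the linear form and the circle
  obtain ⟨F₀, hF₀, hF₀0, hF₀Φ⟩ := hl s₀
  obtain ⟨v, hv⟩ : ∃ v, v = F₀ z₀ := ⟨_, rfl⟩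
  obtain ⟨h₀, hh₀⟩ : ∃ h₀ : ℂ → ℂ, ∀ z, h₀ z = inner ℂ v (F₀ z) := ⟨_, fun _ => rfl⟩
  have hh₀d : Differentiable ℂ h₀ := by
    have e : h₀ = fun z => inner ℂ v (F₀ z) := funext hh₀
    rw [e]
    exact (innerSL ℂ v).differentiable.comp hF₀
  have hh₀ne : h₀ z₀ ≠ 0 := by
    rw [hh₀, hv]
    exact inner_self_ne_zero.2 (hF₀0 z₀)
  have hiso : ∀ z, ∀ᶠ w in 𝓝[≠] z, h₀ w ≠ 0 := by
    intro z
    rcases (hh₀d.analyticAt z).eventually_eq_zero_or_eventually_ne_zero with h1 | h1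
    · exact absurd ((AnalyticOnNhd.eqOn_zero_of_preconnected_of_eventuallyEq_zero (U := univ) (fun w _ => hh₀d.analyticAt w) isPreconnected_univ
        (mem_univ z) h1) (mem_univ z₀)) hh₀ne
    · exact h1
  have hfin := finite_of_isolated (isCompact_closedBall z₀ (2 * r)) (P := fun z => h₀ z = 0) (fun z _ => hiso z)
  obtain ⟨r', hr'1, hr'2⟩ : ∃ r', r' ∈ Ioo r (r + ε₀) ∧ r' ∉ (fun z => dist z z₀) '' {z ∈ closedBall z₀ (2 * r) | h₀ z = 0} :=
    ((Ioo_infinite (by linarith : r < r + ε₀)).exists_notMem_finite (hfin.image _))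
  have hr'0 : 0 < r' := hr.trans hr'1.1
  have hsph : ∀ z, dist z z₀ = r' → h₀ z ≠ 0 := by
    intro z hz h1
    refine hr'2 ⟨z, ⟨?_, h1⟩, hz⟩
    rw [mem_closedBall, hz]
    linarith [hr'1.2]
  -- joint nonvanishing near the circle
  obtain ⟨O', hO'⟩ : ∃ O' : Set (ℂ × ℂ), O' = {p | ∀ᶠ q in 𝓝 p, |q.1.im| < ε₀ ∧ (q.1.re, q.2) ∈ O ∧ nd v (V Φ ε₀ q.1 q.2) ≠ 0} := ⟨_, rfl⟩
  have hO'o : IsOpen O' := by
    rw [hO']
    exact isOpen_setOfPred_eventually_nhds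
  have hVs : ∀ z, dist z z₀ = r' → (s₀, z) ∈ O := by
    intro z hz
    rw [hO]
    refine ⟨by rw [dist_self]; exact hε₀, ?_⟩
    rw [hz, abs_lt]
    constructor <;> linarith [hr'1.1, hr'1.2]
  have hKO : ({(s₀ : ℂ)} : Set ℂ) ×ˢ sphere z₀ r' ⊆ O' := by
    rintro ⟨ζ, z⟩ ⟨hζ, hz⟩
    simp only [mem_singleton_iff] at hζ
    subst hζ
    have hz' : dist z z₀ = r' := hz
    have him : |((s₀ : ℂ)).im| < ε₀ := by rw [Complex.ofReal_im, abs_zero]; exact hε₀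
    have hre : (((s₀ : ℂ)).re, z) ∈ O := by rw [Complex.ofReal_re]; exact hVs z hz'
    obtain ⟨G, hG, hGev⟩ := V_joint hOo hEO him hre
    have hGs := hGev.self_of_nhds
    have hVr : V Φ ε₀ (s₀ : ℂ) z = Φ s₀ z := V_real hε₀ (hEO _ (hVs z hz'))
    have hnd : nd v (pr (G ((s₀ : ℂ), z))) ≠ 0 := by
      rw [← hGs.2]
      simp only
      rw [hVr, hF₀Φ, nd_pr_ne (hF₀0 z), ← hh₀]
      exact hsph z hz'
    have hc : ContinuousAt (fun p => nd v (pr (G p))) ((s₀ : ℂ), z) :=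
      ContinuousAt.comp (g := nd v) (nd_cont v).continuousAt (ContinuousAt.comp (g := pr) (continuousAt_pr hGs.1) hG.continuousAt)
    rw [hO']
    have h2 : ∀ᶠ p : ℂ × ℂ in 𝓝 ((s₀ : ℂ), z), |p.1.im| < ε₀ := by
      have hc : ContinuousAt (fun p : ℂ × ℂ => |p.1.im|) ((s₀ : ℂ), z) := by fun_prop
      exact hc.eventually_lt continuousAt_const him
    have h3 : ∀ᶠ p : ℂ × ℂ in 𝓝 ((s₀ : ℂ), z), (p.1.re, p.2) ∈ O := by
      have hc : ContinuousAt (fun p : ℂ × ℂ => (p.1.re, p.2)) ((s₀ : ℂ), z) := by fun_prop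
      exact hc.eventually_mem (hOo.mem_nhds hre)
    filter_upwards [h2, h3, hGev, hc.eventually_ne hnd] with p hp1 hp2 hp3 hp4
    refine ⟨hp1, hp2, ?_⟩
    rw [hp3.2]
    exact hp4
  obtain ⟨δ₁, hδ₁, hthick⟩ := (isCompact_singleton.prod (isCompact_sphere z₀ r')).exists_thickening_subset_open hO'o hKO
  obtain ⟨δ, hδe⟩ : ∃ δ, δ = min δ₁ (r' / 2) := ⟨_, rfl⟩
  have hδ : 0 < δ := by rw [hδe]; exact lt_min hδ₁ (by linarith)
  have hδδ₁ : δ ≤ δ₁ := by rw [hδe]; exact min_le_left _ _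
  have hδr' : δ ≤ r' / 2 := by rw [hδe]; exact min_le_right _ _
  have hmem : ∀ ζ ∈ ball (s₀ : ℂ) δ, ∀ z, |dist z z₀ - r'| < δ → (ζ, z) ∈ O' := by
    intro ζ hζ z hz
    obtain ⟨w, hw, hzw⟩ := lm_near hr'0 hz (by linarith)
    apply hthick
    rw [mem_thickening_iff]
    refine ⟨((s₀ : ℂ), w), ⟨rfl, hw⟩, ?_⟩
    rw [Prod.dist_eq]
    exact max_lt ((mem_ball.1 hζ).trans_le hδδ₁) (hzw.trans_le hδδ₁)
  obtain ⟨r₁, hr₁⟩ : ∃ r₁, r₁ = r' - δ := ⟨_, rfl⟩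
  obtain ⟨r₂, hr₂⟩ : ∃ r₂, r₂ = r' + δ := ⟨_, rfl⟩
  have hr₁0 : 0 < r₁ := by rw [hr₁]; linarith
  have hr₁₂ : r₁ < r₂ := by rw [hr₁, hr₂]; linarith
  have hann : ∀ z, r₁ < dist z z₀ → dist z z₀ < r₂ → |dist z z₀ - r'| < δ := by
    intro z h1 h2
    rw [hr₁] at h1
    rw [hr₂] at h2
    rw [abs_lt]
    constructor <;> linarith
  -- the functions on the annulus
  obtain ⟨f, hf⟩ : ∃ f : ℂ × ℂ → Fin (N + 1) → ℂ, ∀ p i, f p i = nv v (V Φ ε₀ p.1 p.2) i := ⟨fun p i => nv v (V Φ ε₀ p.1 p.2) i, fun _ _ => rfl⟩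
  have hfd : DifferentiableOn ℂ f (ball (s₀ : ℂ) δ ×ˢ {z | r₁ < dist z z₀ ∧ dist z z₀ < r₂}) := by
    rintro ⟨ζ, z⟩ ⟨hζ, hz1, hz2⟩
    have h1 := hmem ζ hζ z (hann z hz1 hz2)
    rw [hO'] at h1
    have h1s := h1.self_of_nhds
    obtain ⟨G, hG, hGev⟩ := V_joint hOo hEO h1s.1 h1s.2.1
    have h2 : DifferentiableAt ℂ (fun q => (inner ℂ v (G q) : ℂ)⁻¹ • G q) (ζ, z) := by
      refine lm_nvd hG ?_
      have h3 := h1s.2.2
      simp only at h3
      have h4 := hGev.self_of_nhds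
      simp only at h4
      rw [h4.2] at h3
      exact (nd_pr_ne h4.1).1 h3
    refine DifferentiableAt.differentiableWithinAt ?_
    rw [differentiableAt_pi]
    intro i
    have h3 : DifferentiableAt ℂ (fun q => ((inner ℂ v (G q) : ℂ)⁻¹ • G q) i) (ζ, z) :=
      (EuclideanSpace.proj (𝕜 := ℂ) i : EN N →L[ℂ] ℂ).differentiableAt.comp (ζ, z) h2
    refine h3.congr_of_eventuallyEq ?_
    filter_upwards [h1, hGev] with q hq1 hq2
    have h5 := hq1.2.2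
    rw [hq2.2] at h5
    rw [hf, hq2.2, nv_pr ((nd_pr_ne hq2.1).1 h5)]
  -- the values for real parameters
  have hreal : ∀ t : ℝ, (t : ℂ) ∈ ball (s₀ : ℂ) δ → ∀ z, r₁ < dist z z₀ → dist z z₀ < r₂ → V Φ ε₀ t z = Φ t z ∧ nd v (Φ t z) ≠ 0 := by
    intro t ht z hz1 hz2
    have h1 := hmem _ ht z (hann z hz1 hz2)
    rw [hO'] at h1
    have h1s := h1.self_of_nhds
    simp only [Complex.ofReal_re] at h1s
    have h2 : V Φ ε₀ t z = Φ t z := V_real hε₀ (hEO _ h1s.2.1)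
    refine ⟨h2, ?_⟩
    rw [← h2]
    exact h1s.2.2
  have hq : ∀ ζ ∈ ((fun t : ℝ => (t : ℂ)) '' ball s₀ δ), ∃ q : Polynomial ℂ, q ≠ 0 ∧ ∃ g : ℂ → Fin (N + 1) → ℂ, DifferentiableOn ℂ g (ball z₀ r₂) ∧
      ∀ z, r₁ < dist z z₀ → dist z z₀ < r₂ → g z = q.eval z • f (ζ, z) := by
    rintro _ ⟨t, ht, rfl⟩
    have htb : (t : ℂ) ∈ ball (s₀ : ℂ) δ := by
      rw [mem_ball, dist_eq_norm, ← Complex.ofReal_sub, Complex.norm_real, ← dist_eq_norm]
      exact ht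
    obtain ⟨Ft, hFt, hFt0, hFtΦ⟩ := hl t
    obtain ⟨ht', hht'⟩ : ∃ ht' : ℂ → ℂ, ∀ z, ht' z = inner ℂ v (Ft z) := ⟨_, fun _ => rfl⟩
    have hd : Differentiable ℂ ht' := by
      have e : ht' = fun z => inner ℂ v (Ft z) := funext hht'
      rw [e]
      exact (innerSL ℂ v).differentiable.comp hFt
    have hnev : ∀ z, r₁ < dist z z₀ → dist z z₀ < r₂ → ht' z ≠ 0 := by
      intro z hz1 hz2
      have h1 := (hreal t htb z hz1 hz2).2
      rw [hFtΦ] at h1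
      rw [hht']
      exact (nd_pr_ne (hFt0 z)).1 h1
    obtain ⟨z₁, hz₁⟩ : ∃ z₁, dist z₁ z₀ = r' := by
      refine ⟨z₀ + (r' : ℂ), ?_⟩
      rw [dist_eq_norm, add_sub_cancel_left, Complex.norm_real, Real.norm_of_nonneg hr'0.le]
    have hz₁ne : ht' z₁ ≠ 0 := hnev z₁ (by rw [hz₁, hr₁]; linarith) (by rw [hz₁, hr₂]; linarith)
    have hiso' : ∀ z, ∀ᶠ w in 𝓝[≠] z, ht' w ≠ 0 := by
      intro z
      rcases (hd.analyticAt z).eventually_eq_zero_or_eventually_ne_zero with h1 | h1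
      · exact absurd ((AnalyticOnNhd.eqOn_zero_of_preconnected_of_eventuallyEq_zero (U := univ) (fun w _ => hd.analyticAt w) isPreconnected_univ
          (mem_univ z) h1) (mem_univ z₁)) hz₁ne
      · exact h1
    have hfin' := finite_of_isolated (isCompact_closedBall z₀ r₂) (P := fun z => ht' z = 0) (fun z _ => hiso' z)
    obtain ⟨q, hq0, g, hg, hgq⟩ := mero_poly (E := Fin (N + 1) → ℂ) (U := ball z₀ r₂) isOpen_ball hfin'.toFinset (φ := fun z i => (ht' z)⁻¹ * Ft z i) (by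
      intro z hz hzZ
      have h1 : ht' z ≠ 0 := by
        intro h2
        apply hzZ
        rw [Finite.mem_toFinset]
        exact ⟨ball_subset_closedBall hz, h2⟩
      rw [differentiableAt_pi]
      intro i
      have h2 : DifferentiableAt ℂ (fun w => Ft w i) z := (EuclideanSpace.proj (𝕜 := ℂ) i : EN N →L[ℂ] ℂ).differentiableAt.comp z (hFt z)
      exact ((hd z).inv h1).mul h2) (by
      intro z hz hzU
      have hne : ¬ ∀ᶠ w in 𝓝 z, ht' w = 0 := by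
        intro h2
        obtain ⟨w, hw1, hw2⟩ := ((hiso' z).and (h2.filter_mono nhdsWithin_le_nhds)).exists
        exact hw1 hw2
      obtain ⟨n, e, he, he0, hev⟩ := ((hd.analyticAt z).exists_eventuallyEq_pow_smul_nonzero_iff).2 hne
      refine ⟨n, fun w i => (e w)⁻¹ * Ft w i, ?_, ?_⟩
      · rw [analyticAt_pi_iff]
        intro i
        exact (he.inv he0).mul (((EuclideanSpace.proj (𝕜 := ℂ) i : EN N →L[ℂ] ℂ).analyticAt _).comp (hFt.analyticAt z))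
      · filter_upwards [hev.filter_mono nhdsWithin_le_nhds, self_mem_nhdsWithin, (he.continuousAt.eventually_ne he0).filter_mono nhdsWithin_le_nhds] with w hw1 hw2 hw3
        have h3 : (w - z) ^ n ≠ 0 := pow_ne_zero _ (sub_ne_zero.2 hw2)
        funext i
        simp only [Pi.smul_apply, smul_eq_mul]
        rw [hw1, smul_eq_mul]
        field_simp)
    refine ⟨q, hq0, g, hg, fun z hz1 hz2 => ?_⟩
    have hzZ : z ∉ hfin'.toFinset := by
      rw [Finite.mem_toFinset]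
      exact fun h2 => hnev z hz1 hz2 h2.2
    rw [hgq z (mem_ball.2 hz2) hzZ]
    congr 1
    funext i
    obtain ⟨h1, h2⟩ := hreal t htb z hz1 hz2
    rw [hf]
    simp only
    rw [h1, hFtΦ, nv_pr (by rw [← hht']; exact hnev z hz1 hz2)]
    simp only [PiLp.smul_apply, smul_eq_mul]
    rw [hht']
  obtain ⟨ε', hε', hε'δ, Q, G, hQ, hQp, hG, hGQ⟩ := hankel_joint hδ hr₁0 hr₁₂ hfd (T := (fun t : ℝ => (t : ℂ)) '' ball s₀ δ) (by
    rintro _ ⟨t, ht, rfl⟩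
    rw [mem_ball, dist_eq_norm, ← Complex.ofReal_sub, Complex.norm_real, ← dist_eq_norm]
    exact ht) (lm_unc hδ) hq
  obtain ⟨e, he⟩ : ∃ e, e = min ε' r₂ := ⟨_, rfl⟩
  have he0 : 0 < e := by rw [he]; exact lt_min hε' (hr₁0.trans hr₁₂)
  have heε' : e ≤ ε' := by rw [he]; exact min_le_left _ _
  have her₂ : e ≤ r₂ := by rw [he]; exact min_le_right _ _
  obtain ⟨F, hF⟩ : ∃ F : ℂ × ℂ → EN N, ∀ p i, F p i = G p i := ⟨fun p => WithLp.toLp 2 (G p), fun _ _ => rfl⟩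
  have hFd : DifferentiableOn ℂ F (ball (s₀ : ℂ) ε' ×ˢ ball z₀ r₂) := by
    rw [differentiableOn_piLp]
    intro i
    simp only [hF]
    exact (differentiableOn_pi.1 hG) i
  have hFz : ∀ ζ ∈ ball (s₀ : ℂ) ε', DifferentiableOn ℂ (fun z => F (ζ, z)) (ball z₀ r₂) := by
    intro ζ hζ z hz
    have h1 : DifferentiableAt ℂ F (ζ, z) := hFd.differentiableAt ((isOpen_ball.prod isOpen_ball).mem_nhds ⟨hζ, hz⟩)
    exact (h1.comp z ((differentiableAt_const ζ).prodMk differentiableAt_id)).differentiableWithinAt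
  obtain ⟨z₁, hz₁⟩ : ∃ z₁, dist z₁ z₀ = r' := by
    refine ⟨z₀ + (r' : ℂ), ?_⟩
    rw [dist_eq_norm, add_sub_cancel_left, Complex.norm_real, Real.norm_of_nonneg hr'0.le]
  have hz₁a : r₁ < dist z₁ z₀ := by rw [hz₁, hr₁]; linarith
  have hz₁b : dist z₁ z₀ < r₂ := by rw [hz₁, hr₂]; linarith
  have hevA : ∀ᶠ z in 𝓝 z₁, r₁ < dist z z₀ ∧ dist z z₀ < r₂ := by
    have hc : ContinuousAt (fun z => dist z z₀) z₁ := by fun_prop
    exact (continuousAt_const.eventually_lt hc hz₁a).and (hc.eventually_lt continuousAt_const hz₁b)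
  refine ⟨e, he0, F, hFd.mono ?_, ?_, ?_⟩
  · rw [← ball_prod_same]
    exact prod_mono (ball_subset_ball heε') (ball_subset_ball her₂)
  · -- not identically `0`
    intro ζ hζ
    have hζ' : ζ ∈ ball (s₀ : ℂ) ε' := ball_subset_ball heε' hζ
    by_contra hcon
    push Not at hcon
    have han : AnalyticOnNhd ℂ (fun z => F (ζ, z)) (ball z₀ r₂) := (hFz ζ hζ').analyticOnNhd isOpen_ball
    have h1 := han.eqOn_zero_of_preconnected_of_eventuallyEq_zero (convex_ball _ _).isPreconnected (mem_ball_self (hr₁0.trans hr₁₂)) (by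
      filter_upwards [ball_mem_nhds z₀ he0] with w hw
      exact hcon w hw)
    obtain ⟨q, hq0, hqe⟩ := hQp ζ hζ'
    have h2 : ∀ᶠ z in 𝓝 z₁, q.eval z = 0 := by
      filter_upwards [hevA] with z hz
      have h3 := h1 (mem_ball.2 hz.2)
      simp only [Pi.zero_apply] at h3
      have h4 := hGQ ζ hζ' z hz.1 hz.2
      have h5 := hmem ζ (ball_subset_ball hε'δ hζ') z (hann z hz.1 hz.2)
      rw [hO'] at h5
      have h5s := h5.self_of_nhds
      obtain ⟨G', hG', hG'ev⟩ := V_joint hOo hEO h5s.1 h5s.2.1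
      have h6 := hG'ev.self_of_nhds
      simp only at h6
      have h7 := h5s.2.2
      simp only at h7
      rw [h6.2] at h7
      have h8 := (nd_pr_ne h6.1).1 h7
      -- some coordinate of `f` is not `0`
      obtain ⟨i, hi⟩ : ∃ i, f (ζ, z) i ≠ 0 := by
        by_contra hc2
        push Not at hc2
        have h9 : nv v (V Φ ε₀ ζ z) = 0 := by
          ext i
          rw [← hf (ζ, z) i, hc2 i]
          rfl
        rw [h6.2, nv_pr h8] at h9
        exact smul_ne_zero (inv_ne_zero h8) h6.1 h9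
      have h10 : G (ζ, z) i = 0 := by
        rw [← hF, h3]
        rfl
      rw [h4, Pi.smul_apply, smul_eq_mul, hqe z] at h10
      exact (mul_eq_zero.1 h10).resolve_right hi
    have h3 : (fun z => q.eval z) = fun _ => 0 := by
      have h4 : AnalyticOnNhd ℂ (fun z => q.eval z) univ := fun z _ => q.differentiable.analyticAt z
      funext z
      exact h4.eqOn_zero_of_preconnected_of_eventuallyEq_zero isPreconnected_univ (mem_univ z₁) h2 (mem_univ z)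
    apply hq0
    apply Polynomial.funext
    intro z
    rw [Polynomial.eval_zero]
    exact congrFun h3 z
  · -- the values
    intro s z hsz hne
    have hsz' : (s : ℂ) ∈ ball (s₀ : ℂ) e ∧ z ∈ ball z₀ e := by
      rw [← ball_prod_same] at hsz
      exact hsz
    have hs' : (s : ℂ) ∈ ball (s₀ : ℂ) ε' := ball_subset_ball heε' hsz'.1
    have hz' : z ∈ ball z₀ r₂ := ball_subset_ball her₂ hsz'.2
    obtain ⟨Fs, hFs, hFs0, hFsΦ⟩ := hl s
    rw [hFsΦ, pr_iff_minors (hFs0 z) hne]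
    intro i j
    have hco : ∀ i, DifferentiableOn ℂ (fun w => F ((s : ℂ), w) i) (ball z₀ r₂) := fun i =>
      (EuclideanSpace.proj (𝕜 := ℂ) i : EN N →L[ℂ] ℂ).differentiable.comp_differentiableOn (hFz _ hs')
    have hco' : ∀ i, DifferentiableOn ℂ (fun w => Fs w i) (ball z₀ r₂) := fun i =>
      ((EuclideanSpace.proj (𝕜 := ℂ) i : EN N →L[ℂ] ℂ).differentiable.comp hFs).differentiableOn
    have han : AnalyticOnNhd ℂ (fun w => Fs w i * F ((s : ℂ), w) j - Fs w j * F ((s : ℂ), w) i) (ball z₀ r₂) :=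
      (((hco' i).mul (hco j)).sub ((hco' j).mul (hco i))).analyticOnNhd isOpen_ball
    refine han.eqOn_zero_of_preconnected_of_eventuallyEq_zero (convex_ball _ _).isPreconnected (mem_ball.2 hz₁b) ?_ hz'
    filter_upwards [hevA] with w hw
    obtain ⟨h1, h2⟩ := hreal s (ball_subset_ball hε'δ hs') w hw.1 hw.2
    have h3 : ∀ i, F ((s : ℂ), w) i = Q (s, w) * ((inner ℂ v (Fs w) : ℂ)⁻¹ * Fs w i) := by
      intro i
      rw [hF, hGQ _ hs' w hw.1 hw.2, Pi.smul_apply, smul_eq_mul, hf]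
      simp only
      rw [h1, hFsΦ, nv_pr]
      · simp only [PiLp.smul_apply, smul_eq_mul]
      · rw [hFsΦ] at h2
        exact (nd_pr_ne (hFs0 w)).1 h2
    simp only [Pi.zero_apply]
    rw [h3 i, h3 j]
    ring

end Pool.Agent.G3.C
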