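import Pool.Agent.G3.C.EDefs

/-!
# G3 C LMD: local meromorphic lifts of a family of curves
-/

set_option autoImplicit false

open Topology Filter Metric Set

namespace Pool.Agent.G3.C

open Pool.Agent.H36.BP (EN)
open Pool.Agent.H62.EF (MN pr)

variable {N : ℕ}

/-- near `(s₀, z₀)` the family has a holomorphic lift with zeros, for complex values of the parameter; it is not identically `0` for any value of the parameter -/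
def LMer (Φ : ℝ → ℂ → MN N) (s₀ : ℝ) (z₀ : ℂ) (ε : ℝ) : Prop :=
  ∃ F : ℂ × ℂ → EN N, DifferentiableOn ℂ F (ball ((s₀ : ℂ), z₀) ε) ∧ (∀ ζ ∈ ball (s₀ : ℂ) ε, ∃ z ∈ ball z₀ ε, F (ζ, z) ≠ 0) ∧
    ∀ (s : ℝ) (z : ℂ), ((s : ℂ), z) ∈ ball ((s₀ : ℂ), z₀) ε → F (s, z) ≠ 0 → Φ s z = pr (F (s, z))

theorem lm_slice {F : ℂ × ℂ → EN N} {p : ℂ × ℂ} {ε : ℝ} (hF : DifferentiableOn ℂ F (ball p ε)) {ζ : ℂ} (hζ : ζ ∈ ball p.1 ε) :
    DifferentiableOn ℂ (fun z => F (ζ, z)) (ball p.2 ε) := by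
  intro z hz
  have hm : (ζ, z) ∈ ball p ε := by
    rw [← ball_prod_same (x := p.1) (y := p.2)]
    exact ⟨hζ, hz⟩
  have h1 : DifferentiableAt ℂ F (ζ, z) := hF.differentiableAt (isOpen_ball.mem_nhds hm)
  exact (h1.comp z ((differentiableAt_const ζ).prodMk differentiableAt_id)).differentiableWithinAt

theorem LMer.shrink {Φ : ℝ → ℂ → MN N} {s₀ s₁ : ℝ} {z₀ z₁ : ℂ} {ε ε' : ℝ} (h : LMer Φ s₀ z₀ ε) (hε' : 0 < ε')
    (hb : ball ((s₁ : ℂ), z₁) ε' ⊆ ball ((s₀ : ℂ), z₀) ε) : LMer Φ s₁ z₁ ε' := by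
  obtain ⟨F, h1, h2, h3⟩ := h
  refine ⟨F, h1.mono hb, fun ζ hζ => ?_, fun s z hz => h3 s z (hb hz)⟩
  by_contra hcon
  push Not at hcon
  have hm : (ζ, z₁) ∈ ball ((s₁ : ℂ), z₁) ε' := by
    rw [← ball_prod_same]
    exact ⟨hζ, mem_ball_self hε'⟩
  have hm2 : ζ ∈ ball (s₀ : ℂ) ε ∧ z₁ ∈ ball z₀ ε := by
    have h := hb hm
    rw [← ball_prod_same] at h
    exact h
  obtain ⟨z, hz, hne⟩ := h2 ζ hm2.1
  apply hne
  have han : AnalyticOnNhd ℂ (fun z => F (ζ, z)) (ball z₀ ε) := (lm_slice (p := ((s₀ : ℂ), z₀)) h1 hm2.1).analyticOnNhd isOpen_ball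
  refine han.eqOn_zero_of_preconnected_of_eventuallyEq_zero (convex_ball _ _).isPreconnected hm2.2 ?_ hz
  filter_upwards [ball_mem_nhds z₁ hε'] with w hw
  exact hcon w hw

theorem LMer.mono {Φ : ℝ → ℂ → MN N} {s₀ : ℝ} {z₀ : ℂ} {ε ε' : ℝ} (h : LMer Φ s₀ z₀ ε) (hε' : 0 < ε') (hε : ε' ≤ ε) : LMer Φ s₀ z₀ ε' :=
  h.shrink hε' (ball_subset_ball hε)

theorem LMer.move {Φ : ℝ → ℂ → MN N} {s₀ s₁ : ℝ} {z₀ z₁ : ℂ} {ε : ℝ} (h : LMer Φ s₀ z₀ ε) (hd : dist ((s₁ : ℂ), z₁) ((s₀ : ℂ), z₀) < ε) :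
    LMer Φ s₁ z₁ (ε - dist ((s₁ : ℂ), z₁) ((s₀ : ℂ), z₀)) :=
  h.shrink (by linarith) (ball_subset_ball' (by linarith))

end Pool.Agent.G3.C
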