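import Pool.Agent.G3.C.TDefs

/-!
# G3 C Tay: Taylor expansions

`taylor_bound`: induction on `m` for all families (the derivative in `t` of the remainder of `f 0` of order `m + 1` is the remainder of `f 1` of order `m`; mean value
inequality on `[0, t]`, `image_norm_le_of_norm_deriv_right_le_deriv_boundary` or `Convex.norm_image_sub_le_of_norm_hasDerivWithin_le`).
`iteratedDeriv_pol`.  `jt_eq_of_bound`: the function `φ - ψ` is analytic at `0`; if it is not locally `0`, it is `t^n h t` with `h 0 ≠ 0` (`AnalyticAt.exists_eventuallyEq_pow_smul_nonzero_iff`),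
and the bound gives `n > m`; so all derivatives of order `≤ m` are `0` (Mathlib: order and `iteratedDeriv`, for instance `natCast_le_analyticOrderAt_iff_iteratedDeriv_eq_zero`).
`hol_taylor`: apply `taylor_bound` to `f j t = iteratedDeriv j g t`.
-/

set_option autoImplicit false

open Topology Filter Metric

namespace Pool.Agent.G3.C

open Pool.Agent.H36.BP (EN fs wd)
open Pool.Agent.AD (Vd Chart Charts)

variable {N : ℕ}

private theorem hasDeriv_sum (c : ℕ → ℂ) (k : ℕ) (z : ℂ) :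
    HasDerivAt (fun z : ℂ => ∑ i ∈ Finset.range (k + 1), c i / (i.factorial : ℂ) * z ^ i)
      (∑ i ∈ Finset.range k, c (i + 1) / (i.factorial : ℂ) * z ^ i) z := by
  have h1 : (fun z : ℂ => ∑ i ∈ Finset.range (k + 1), c i / (i.factorial : ℂ) * z ^ i) =
      fun z : ℂ => ∑ i ∈ Finset.range k, c (i + 1) / ((i + 1).factorial : ℂ) * z ^ (i + 1) + c 0 := by
    funext z
    rw [Finset.sum_range_succ']
    simp
  rw [h1]
  refine HasDerivAt.add_const _ ?_
  refine HasDerivAt.fun_sum fun i _ => ?_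
  have h2 := (hasDerivAt_pow (i + 1) z).const_mul (c (i + 1) / ((i + 1).factorial : ℂ))
  refine h2.congr_deriv ?_
  have h3 : ((i + 1 : ℕ) : ℂ) ≠ 0 := by exact_mod_cast Nat.succ_ne_zero i
  have h4 : (i.factorial : ℂ) ≠ 0 := by exact_mod_cast i.factorial_ne_zero
  rw [Nat.factorial_succ, Nat.add_sub_cancel]
  push_cast
  push_cast at h3
  field_simp

private theorem rem_bound {s r : ℝ} (hr : 0 < r) (k : ℕ) : ∀ f : ℕ → ℝ → ℂ,
    (∀ j, ∀ t ∈ Set.Ioo (s - r) (s + r), HasDerivAt (f j) (f (j + 1) t) t) →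
    ∃ C : ℝ, 0 ≤ C ∧ ∀ t ∈ Set.Icc (0 : ℝ) (r / 2),
      ‖f 0 (s + t) - ∑ i ∈ Finset.range k, f i s / (i.factorial : ℂ) * (t : ℂ) ^ i‖ ≤ C * t ^ k := by
  induction k with
  | zero =>
    intro f hf
    have hc : ContinuousOn (fun t : ℝ => f 0 (s + t)) (Set.Icc (0 : ℝ) (r / 2)) := by
      intro t ht
      have h1 : s + t ∈ Set.Ioo (s - r) (s + r) := ⟨by linarith [ht.1], by linarith [ht.2]⟩
      have h2 : ContinuousAt (fun t : ℝ => f 0 (s + t)) t :=
        ContinuousAt.comp (g := f 0) (f := fun t : ℝ => s + t) (hf 0 _ h1).continuousAt (by fun_prop)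
      exact h2.continuousWithinAt
    obtain ⟨C, hC⟩ := isCompact_Icc.exists_bound_of_continuousOn hc
    refine ⟨max C 0, le_max_right _ _, fun t ht => ?_⟩
    simp only [Finset.range_zero, Finset.sum_empty, sub_zero, pow_zero, mul_one]
    exact (hC t ht).trans (le_max_left _ _)
  | succ k ih =>
    intro f hf
    obtain ⟨C, hC0, hC⟩ := ih (fun j => f (j + 1)) (fun j t ht => hf (j + 1) t ht)
    refine ⟨C, hC0, fun t ht => ?_⟩
    have hder : ∀ x ∈ Set.Icc (0 : ℝ) t, HasDerivWithinAt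
        (fun x : ℝ => f 0 (s + x) - ∑ i ∈ Finset.range (k + 1), f i s / (i.factorial : ℂ) * (x : ℂ) ^ i)
        (f 1 (s + x) - ∑ i ∈ Finset.range k, f (i + 1) s / (i.factorial : ℂ) * (x : ℂ) ^ i) (Set.Icc (0 : ℝ) t) x := by
      intro x hx
      have h1 : s + x ∈ Set.Ioo (s - r) (s + r) := ⟨by linarith [hx.1], by linarith [hx.2, ht.2]⟩
      have h2 : HasDerivAt (fun x : ℝ => f 0 (s + x)) (f 1 (s + x)) x := by
        have h3 := HasDerivAt.scomp x (hf 0 _ h1) ((hasDerivAt_id x).const_add s)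
        rw [one_smul] at h3
        exact h3
      have h4 := (hasDeriv_sum (fun i => f i s) k (x : ℂ)).comp_ofReal
      exact (h2.sub h4).hasDerivWithinAt
    have hbd : ∀ x ∈ Set.Icc (0 : ℝ) t,
        ‖f 1 (s + x) - ∑ i ∈ Finset.range k, f (i + 1) s / (i.factorial : ℂ) * (x : ℂ) ^ i‖ ≤ C * t ^ k := by
      intro x hx
      have h1 := hC x ⟨hx.1, hx.2.trans ht.2⟩
      exact h1.trans (mul_le_mul_of_nonneg_left (pow_le_pow_left₀ hx.1 hx.2 k) hC0)
    have h5 := Convex.norm_image_sub_le_of_norm_hasDerivWithin_le hder hbd (convex_Icc 0 t)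
      (Set.left_mem_Icc.2 ht.1) (Set.right_mem_Icc.2 ht.1)
    have h6 : f 0 (s + 0) - ∑ i ∈ Finset.range (k + 1), f i s / (i.factorial : ℂ) * (((0 : ℝ) : ℂ)) ^ i = 0 := by
      rw [Finset.sum_range_succ']
      simp
    rw [h6, sub_zero, sub_zero, Real.norm_of_nonneg ht.1] at h5
    calc _ ≤ C * t ^ k * t := h5
      _ = C * t ^ (k + 1) := by ring

/-- the remainder is `O(t^(m+1))`, on the right of `s` -/
theorem taylor_bound {f : ℕ → ℝ → ℂ} {s r : ℝ} (hr : 0 < r) (hf : ∀ j, ∀ t ∈ Set.Ioo (s - r) (s + r), HasDerivAt (f j) (f (j + 1) t) t) (m : ℕ) :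
    ∃ C δ : ℝ, 0 < δ ∧ ∀ t ∈ Set.Ioo (0 : ℝ) δ, ‖f 0 (s + t) - pol (fun j : Fin (m + 1) => f j s) (t : ℂ)‖ ≤ C * t ^ (m + 1) := by
  obtain ⟨C, _, hC⟩ := rem_bound hr (m + 1) f hf
  refine ⟨C, r / 2, by linarith, fun t ht => ?_⟩
  have h1 := hC t ⟨ht.1.le, ht.2.le⟩
  have h2 : pol (fun j : Fin (m + 1) => f j s) (t : ℂ) =
      ∑ i ∈ Finset.range (m + 1), f i s / (i.factorial : ℂ) * (t : ℂ) ^ i := by
    unfold pol
    exact Fin.sum_univ_eq_sum_range (fun i => f i s / (i.factorial : ℂ) * (t : ℂ) ^ i) (m + 1)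
  rw [h2]
  exact h1

private theorem iter_sum (j : ℕ) : ∀ (c : ℕ → ℂ) (k : ℕ), j < k →
    iteratedDeriv j (fun z : ℂ => ∑ i ∈ Finset.range k, c i / (i.factorial : ℂ) * z ^ i) 0 = c j := by
  induction j with
  | zero =>
    intro c k hk
    obtain ⟨k', rfl⟩ : ∃ k', k = k' + 1 := ⟨k - 1, by omega⟩
    rw [iteratedDeriv_zero, Finset.sum_range_succ']
    simp
  | succ j ih =>
    intro c k hk
    obtain ⟨k', rfl⟩ : ∃ k', k = k' + 1 := ⟨k - 1, by omega⟩
    rw [iteratedDeriv_succ']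
    have h1 : deriv (fun z : ℂ => ∑ i ∈ Finset.range (k' + 1), c i / (i.factorial : ℂ) * z ^ i) =
        fun z : ℂ => ∑ i ∈ Finset.range k', c (i + 1) / (i.factorial : ℂ) * z ^ i := by
      funext z
      exact (hasDeriv_sum c k' z).deriv
    rw [h1]
    exact ih (fun i => c (i + 1)) k' (by omega)

theorem iteratedDeriv_pol {m : ℕ} (v : Fin (m + 1) → ℂ) (j : Fin (m + 1)) : iteratedDeriv j (pol v) 0 = v j := by
  have h1 : pol v = fun z : ℂ => ∑ i ∈ Finset.range (m + 1), (if h : i < m + 1 then v ⟨i, h⟩ else 0) / (i.factorial : ℂ) * z ^ i := by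
    funext z
    unfold pol
    rw [← Fin.sum_univ_eq_sum_range (fun i => (if h : i < m + 1 then v ⟨i, h⟩ else 0) / (i.factorial : ℂ) * z ^ i) (m + 1)]
    refine Finset.sum_congr rfl fun i _ => ?_
    rw [dif_pos i.2]
  rw [h1, iter_sum (j : ℕ) _ (m + 1) j.2, dif_pos j.2]

theorem pol_zero {m : ℕ} (v : Fin (m + 1) → ℂ) : pol v 0 = v 0 := by
  have h := iteratedDeriv_pol v 0
  rwa [Fin.val_zero, iteratedDeriv_zero] at h

/-- curves which agree to the order `m` along the positive real axis have the same `m`-jet -/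
theorem jt_eq_of_bound {m : ℕ} {φ ψ : ℂ → EN N} (hφ : AnalyticAt ℂ φ 0) (hψ : AnalyticAt ℂ ψ 0) {C δ : ℝ} (hδ : 0 < δ)
    (h : ∀ t : ℝ, t ∈ Set.Ioo (0 : ℝ) δ → ‖φ (t : ℂ) - ψ (t : ℂ)‖ ≤ C * t ^ (m + 1)) : jt m φ = jt m ψ := by
  have hg : AnalyticAt ℂ (φ - ψ) 0 := hφ.sub hψ
  have hord : ((m + 1 : ℕ) : ℕ∞) ≤ analyticOrderAt (φ - ψ) 0 := by
    by_contra hcon
    rw [not_le] at hcon
    have hne : analyticOrderAt (φ - ψ) 0 ≠ ⊤ := ne_top_of_lt hcon
    obtain ⟨n, hn⟩ := ENat.ne_top_iff_exists.1 hne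
    rw [← hn] at hcon
    have hnm : n < m + 1 := by exact_mod_cast hcon
    obtain ⟨q, hq1, hq2, hq3⟩ := (hg.analyticOrderAt_eq_natCast (n := n)).1 hn.symm
    have hcast : Tendsto (fun t : ℝ => (t : ℂ)) (𝓝[>] (0 : ℝ)) (𝓝 (0 : ℂ)) := by
      have h1 : Tendsto (fun t : ℝ => (t : ℂ)) (𝓝 (0 : ℝ)) (𝓝 ((0 : ℝ) : ℂ)) := Complex.continuous_ofReal.tendsto 0
      rw [Complex.ofReal_zero] at h1
      exact h1.mono_left nhdsWithin_le_nhds
    have hlim : Tendsto (fun t : ℝ => ‖q (t : ℂ)‖) (𝓝[>] (0 : ℝ)) (𝓝 ‖q 0‖) :=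
      (hq1.continuousAt.tendsto.comp hcast).norm
    have hlim0 : Tendsto (fun t : ℝ => C * t ^ (m + 1 - n)) (𝓝[>] (0 : ℝ)) (𝓝 0) := by
      have h1 : Tendsto (fun t : ℝ => C * t ^ (m + 1 - n)) (𝓝 (0 : ℝ)) (𝓝 (C * 0 ^ (m + 1 - n))) :=
        Continuous.tendsto (by fun_prop) 0
      rw [zero_pow (by omega), mul_zero] at h1
      exact h1.mono_left nhdsWithin_le_nhds
    have hle : ∀ᶠ t : ℝ in 𝓝[>] (0 : ℝ), ‖q (t : ℂ)‖ ≤ C * t ^ (m + 1 - n) := by
      have e1 : ∀ᶠ t : ℝ in 𝓝[>] (0 : ℝ), t ∈ Set.Ioo (0 : ℝ) δ := Ioo_mem_nhdsGT hδ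
      filter_upwards [e1, hcast.eventually hq3] with t ht hqt
      have h1 := h t ht
      have h2 : φ (t : ℂ) - ψ (t : ℂ) = (t : ℂ) ^ n • q (t : ℂ) := by
        have h3 : (φ - ψ) (t : ℂ) = ((t : ℂ) - 0) ^ n • q (t : ℂ) := hqt
        rw [sub_zero] at h3
        exact h3
      rw [h2, norm_smul, norm_pow, Complex.norm_real, Real.norm_of_nonneg ht.1.le] at h1
      have h4 : t ^ (m + 1) = t ^ n * t ^ (m + 1 - n) := by rw [← pow_add]; congr 1; omega
      have h5 : (0 : ℝ) < t ^ n := pow_pos ht.1 n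
      rw [h4] at h1
      refine le_of_mul_le_mul_left ?_ h5
      calc t ^ n * ‖q (t : ℂ)‖ ≤ C * (t ^ n * t ^ (m + 1 - n)) := h1
        _ = t ^ n * (C * t ^ (m + 1 - n)) := by ring
    have h0 : ‖q 0‖ ≤ 0 := le_of_tendsto_of_tendsto hlim hlim0 hle
    exact hq2 (norm_le_zero_iff.1 h0)
  funext j
  unfold jt
  have h1 := (natCast_le_analyticOrderAt_iff_iteratedDeriv_eq_zero hg).1 hord j j.2
  rw [iteratedDeriv_sub hφ.contDiffAt hψ.contDiffAt] at h1
  exact sub_eq_zero.1 h1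

/-- Taylor's formula for a holomorphic function, along the positive real axis -/
theorem hol_taylor {g : ℂ → ℂ} (hg : AnalyticAt ℂ g 0) (m : ℕ) :
    ∃ C δ : ℝ, 0 < δ ∧ ∀ t ∈ Set.Ioo (0 : ℝ) δ, ‖g (t : ℂ) - pol (fun j : Fin (m + 1) => iteratedDeriv j g 0) (t : ℂ)‖ ≤ C * t ^ (m + 1) := by
  obtain ⟨r, hr, hgr⟩ := hg.exists_ball_analyticOnNhd
  have hf : ∀ j, ∀ t ∈ Set.Ioo ((0 : ℝ) - r) (0 + r), HasDerivAt (fun t : ℝ => iteratedDeriv j g (t : ℂ)) (iteratedDeriv (j + 1) g (t : ℂ)) t := by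
    intro j t ht
    have h1 : (t : ℂ) ∈ ball (0 : ℂ) r := by
      rw [mem_ball_zero_iff, Complex.norm_real, Real.norm_eq_abs, abs_lt]
      exact ⟨by linarith [ht.1], by linarith [ht.2]⟩
    have h2 : AnalyticAt ℂ (iteratedDeriv j g) (t : ℂ) := by
      rw [iteratedDeriv_eq_iterate]
      exact hgr.iterated_deriv j _ h1
    have h3 := h2.differentiableAt.hasDerivAt
    rw [← iteratedDeriv_succ] at h3
    exact h3.comp_ofReal
  obtain ⟨C, δ, hδ, hC⟩ := taylor_bound hr hf m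
  refine ⟨C, δ, hδ, fun t ht => ?_⟩
  have h1 := hC t ht
  rw [zero_add, iteratedDeriv_zero, Complex.ofReal_zero] at h1
  exact h1

end Pool.Agent.G3.C
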