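import Pool.Agent.G3.C.QFa
import Pool.Agent.G3.C.Tay

/-!
# G3 C QFt: the jet form in a straight chart is not identically `0`

Let `x = χ.σ 0`; `P.Thin` with a neighbourhood of `x` in `χ.U`: a curve `φ`, `φ 0 ∈ χ.U`, `P (jt m φ) ≠ 0`.  For `t` near `0`: `φ t ∈ X ∩ χ.U`, `p t := χ.q (φ t)` is analytic,
`p t ∈ ball 0 2` (`Chart.surj`), `φ t = α t • χ.σ (p t)` with `α t = ℓ (φ t) / ℓ (χ.σ (p t))` for a linear form `ℓ` (a coordinate) which is not `0` at `φ 0`; `α` is analytic, `α 0 ≠ 0`.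
`c + ρ tl (p t) - (c + ρ tl (p 0)) - t ν ∈ Λ` (`TMap.smul`, `Str.lift`, `DirC`), continuous and `0` at `t = 0`, so `0` near `0` (`Lat.disc`): `tl (p t) = tl (p 0) + (t / ρ) ν`.
`bas`: `c + ρ tl (p 0) - b = s₀ ν + z₀ a`, so `p t = cz b ν a c ρ (p t 0) (s₀ + t) z₀`.  With `v j = iteratedDeriv j (fun t => p t 0) 0`: `crv b ν a χ c ρ (s₀, z₀, v)` and `t ↦ χ.σ (p t)`
have the same `m`-jet (`hol_taylor`, `χ.σ` is Lipschitz near `p 0`, `jt_eq_of_bound`), and `P (jt m φ) = (α 0)⁻¹ * P (jt m (χ.σ ∘ p))` (`P.scale`).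
-/

set_option autoImplicit false

open Topology Filter Metric

namespace Pool.Agent.G3.C

open Pool.Agent.H36.BP (EN fs wd)
open Pool.Agent.H14.PP (IsCone)
open Pool.Agent.H62.EF (MN pr)
open Pool.Agent.AD (Vd Chart Charts)
open Pool.Agent.TG (TMap Lat Str ms tl)

variable {N k : ℕ} {X : Set (EN N)} {Λ : AddSubgroup (Vd (k + 1))} {u : EN N → Vd (k + 1)} {ν a b c : Vd (k + 1)} {m : ℕ} {ρ : ℝ}

private theorem eq_cz (hρ : 0 < ρ) {p : Vd (k + 2)} {s z : ℂ} (h : ms c ρ p = b + s • ν + z • a) : p = cz b ν a c ρ (p 0) s z := by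
  have h0 : (ρ : ℂ) ≠ 0 := by exact_mod_cast hρ.ne'
  funext i
  refine Fin.cases rfl (fun j => ?_) i
  have h1 : c j + (ρ : ℂ) * p j.succ = b j + s * ν j + z * a j := congrFun h j
  change p j.succ = (ρ : ℂ)⁻¹ * (b j + s * ν j + z * a j - c j)
  rw [← h1]
  field_simp
  ring

private theorem cz_sub_le (x x' s z : ℂ) : ‖cz b ν a c ρ x s z - cz b ν a c ρ x' s z‖ ≤ ‖x - x'‖ := by
  rw [pi_norm_le_iff_of_nonneg (norm_nonneg _)]
  intro i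
  refine Fin.cases le_rfl (fun j => ?_) i
  change ‖tz b ν a c ρ s z j - tz b ν a c ρ s z j‖ ≤ ‖x - x'‖
  rw [sub_self, norm_zero]
  exact norm_nonneg _

theorem QF_ne (hX : IsCone X) (hu : TMap X Λ u) (hΛ : Lat Λ) (hbas : ∀ y : Vd (k + 1), ∃ s z : ℂ, y = s • ν + z • a) {P : JForm X Λ u ν m} (hP : P.Thin)
    {χ : Chart (k + 2) X} (hs : Str Λ u χ c ρ) : ∃ q ∈ OD b ν a c ρ m, QF P b a χ c ρ q ≠ 0 := by
  obtain ⟨hxX, hxU, -⟩ := χ.σ_mem 0 (mem_ball_self two_pos)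
  obtain ⟨φ, hφ, hφU, hne⟩ := hP (χ.σ 0) hxX χ.U (χ.isOpen_U.mem_nhds hxU)
  obtain ⟨hφan, hφev⟩ := hφ
  -- the coordinates of the curve
  set p : ℂ → Vd (k + 2) := fun t => χ.q (φ t) with hp
  have hpan : AnalyticAt ℂ p 0 := AnalyticAt.fun_comp (g := χ.q) (f := φ) (χ.q_an (φ 0) hφU) hφan
  have hφX : φ 0 ∈ X := hφev.self_of_nhds.1
  have hUev : ∀ᶠ t in 𝓝 (0 : ℂ), φ t ∈ χ.U := hφan.continuousAt.eventually (χ.isOpen_U.mem_nhds hφU)
  have hp0 : p 0 ∈ ball (0 : Vd (k + 2)) 2 := (χ.surj _ hφX hφU).1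
  have hψan : AnalyticAt ℂ (fun t => χ.σ (p t)) 0 := AnalyticAt.fun_comp (g := χ.σ) (f := p) (χ.σ_an _ hp0) hpan
  have hpball : ∀ᶠ t in 𝓝 (0 : ℂ), p t ∈ ball (0 : Vd (k + 2)) 2 := hpan.continuousAt.eventually (isOpen_ball.mem_nhds hp0)
  -- the factor
  have hφ0 : φ 0 ≠ 0 := fun h => hX.zero_notMem (h ▸ hφX)
  obtain ⟨ℓ, hℓ⟩ : ∃ ℓ : EN N →L[ℂ] ℂ, ℓ (φ 0) = 1 := by
    have hne : inner ℂ (φ 0) (φ 0) ≠ (0 : ℂ) := inner_self_ne_zero.mpr hφ0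
    refine ⟨(inner ℂ (φ 0) (φ 0) : ℂ)⁻¹ • innerSL ℂ (φ 0), ?_⟩
    simp only [_root_.smul_apply, innerSL_apply_apply, smul_eq_mul]
    exact inv_mul_cancel₀ hne
  obtain ⟨c0, hc0, hc0e⟩ := (χ.surj _ hφX hφU).2
  have hℓσ0 : ℓ (χ.σ (p 0)) ≠ 0 := by
    intro h
    have h1 : ℓ (φ 0) = c0 * ℓ (χ.σ (p 0)) := by
      conv_lhs => rw [hc0e]
      rw [map_smul, smul_eq_mul]
    rw [hℓ, h, mul_zero] at h1
    exact one_ne_zero h1
  have hℓφan : AnalyticAt ℂ (fun t => ℓ (φ t)) 0 := AnalyticAt.fun_comp (g := fun x => ℓ x) (f := φ) (ℓ.analyticAt _) hφan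
  have hℓψan : AnalyticAt ℂ (fun t => ℓ (χ.σ (p t))) 0 := AnalyticAt.fun_comp (g := fun x => ℓ x) (f := fun t => χ.σ (p t)) (ℓ.analyticAt _) hψan
  set α : ℂ → ℂ := fun t => ℓ (φ t) / ℓ (χ.σ (p t)) with hα
  have hαan : AnalyticAt ℂ α 0 := hℓφan.fun_div hℓψan hℓσ0
  have hα0 : α 0 ≠ 0 := by
    simp only [hα, hℓ]
    exact div_ne_zero one_ne_zero hℓσ0
  have hαne : ∀ᶠ t in 𝓝 (0 : ℂ), α t ≠ 0 := hαan.continuousAt.eventually_ne hα0
  have hφα : ∀ᶠ t in 𝓝 (0 : ℂ), φ t = α t • χ.σ (p t) := by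
    filter_upwards [hφev, hUev, hℓψan.continuousAt.eventually_ne hℓσ0] with t h1 h2 h3
    obtain ⟨c1, -, hc1⟩ := (χ.surj _ h1.1 h2).2
    have h4 : ℓ (φ t) = c1 * ℓ (χ.σ (p t)) := by
      conv_lhs => rw [hc1]
      rw [map_smul, smul_eq_mul]
    have h5 : α t = c1 := by
      simp only [hα]
      rw [h4, mul_div_cancel_right₀ _ h3]
    rw [h5]
    exact hc1
  -- the curve in the chart
  have hψΛ : ∀ᶠ t in 𝓝 (0 : ℂ), u (φ t) - u (χ.σ (p t)) ∈ Λ := by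
    filter_upwards [hφα, hαne, hpball] with t h1 h2 h3
    rw [h1]
    exact hu.smul _ (χ.σ_mem _ h3).1 _ h2
  have hψdir : DirC X Λ u ν (fun t => χ.σ (p t)) := by
    refine ⟨hψan, ?_⟩
    filter_upwards [hφev, hψΛ, hpball] with t h1 h2 h3
    refine ⟨(χ.σ_mem _ h3).1, ?_⟩
    have h4 := hψΛ.self_of_nhds
    have h5 : u (χ.σ (p t)) - (u (χ.σ (p 0)) + t • ν) = (u (φ t) - (u (φ 0) + t • ν)) - (u (φ t) - u (χ.σ (p t))) + (u (φ 0) - u (χ.σ (p 0))) := by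
      abel
    rw [h5]
    exact Λ.add_mem (Λ.sub_mem h1.2 h2) h4
  have hPψ : P.toFun (jt m fun t => χ.σ (p t)) ≠ 0 := by
    intro h
    have h1 : jt m φ = jt m fun t => α t • χ.σ (p t) := by
      funext j
      exact Filter.EventuallyEq.iteratedDeriv_eq (j : ℕ) hφα
    rw [h1, P.scale _ hψdir α hαan hα0, h, mul_zero] at hne
    exact hne rfl
  -- the base coordinates
  have hms : ∀ᶠ t in 𝓝 (0 : ℂ), ms c ρ (p t) = ms c ρ (p 0) + t • ν := by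
    obtain ⟨δ, hδ, hdisc⟩ := hΛ.disc
    have hcont : ContinuousAt (fun t : ℂ => ms c ρ (p t) - (ms c ρ (p 0) + t • ν)) 0 := by
      have h1 : Continuous (fun p : Vd (k + 2) => ms c ρ p) := by
        unfold ms tl
        fun_prop
      exact (ContinuousAt.comp (g := fun p : Vd (k + 2) => ms c ρ p) (f := p) h1.continuousAt hpan.continuousAt).sub (by fun_prop)
    have hz : (fun t : ℂ => ms c ρ (p t) - (ms c ρ (p 0) + t • ν)) 0 ∈ ball (0 : Vd (k + 1)) δ := by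
      simp [hδ]
    filter_upwards [hcont.eventually (isOpen_ball.mem_nhds hz), hψdir.2, hpball] with t h1 h2 h3
    have h4 : ms c ρ (p t) - (ms c ρ (p 0) + t • ν) ∈ Λ := by
      have h5 : ms c ρ (p t) - (ms c ρ (p 0) + t • ν) =
          (u (χ.σ (p t)) - (u (χ.σ (p 0)) + t • ν)) - (u (χ.σ (p t)) - ms c ρ (p t)) + (u (χ.σ (p 0)) - ms c ρ (p 0)) := by
        abel
      rw [h5]
      exact Λ.add_mem (Λ.sub_mem h2.2 (hs.lift _ h3)) (hs.lift _ hp0)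
    exact sub_eq_zero.1 (hdisc _ h4 (mem_ball_zero_iff.1 h1))
  obtain ⟨s₀, z₀, hsz⟩ := hbas (ms c ρ (p 0) - b)
  have hsz' : ms c ρ (p 0) = b + s₀ • ν + z₀ • a := by
    rw [add_assoc, ← hsz]
    abel
  have hpcz : ∀ᶠ t in 𝓝 (0 : ℂ), p t = cz b ν a c ρ (p t 0) (s₀ + t) z₀ := by
    filter_upwards [hms] with t h1
    refine eq_cz hs.pos ?_
    rw [h1, hsz', add_smul]
    abel
  -- the jet
  have hgan : AnalyticAt ℂ (fun t => p t 0) 0 := analyticAt_pi_iff.1 hpan 0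
  obtain ⟨C, δ, hδ, hC⟩ := hol_taylor hgan m
  set v : Fin (m + 1) → ℂ := fun j => iteratedDeriv j (fun t => p t 0) 0 with hv
  have hv0 : v 0 = p 0 0 := by
    simp only [hv, Fin.val_zero, iteratedDeriv_zero]
  have hcz0 : cz b ν a c ρ (v 0) s₀ z₀ = p 0 := by
    have h1 := hpcz.self_of_nhds
    rw [add_zero] at h1
    rw [hv0]
    exact h1.symm
  have hqOD : (s₀, z₀, v) ∈ OD b ν a c ρ m := by
    change cz b ν a c ρ (v 0) s₀ z₀ ∈ ball (0 : Vd (k + 2)) 2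
    rw [hcz0]
    exact hp0
  refine ⟨(s₀, z₀, v), hqOD, ?_⟩
  have hjt : jt m (crv b ν a χ c ρ (s₀, z₀, v)) = jt m fun t => χ.σ (p t) := by
    obtain ⟨K, S, hS, hK⟩ := (χ.σ_an _ hp0).hasStrictFDerivAt.exists_lipschitzOnWith
    have hczan : AnalyticAt ℂ (fun t : ℂ => cz b ν a c ρ (pol v t) (s₀ + t) z₀) 0 :=
      cz_analytic (pol_analytic analyticAt_const analyticAt_id) (analyticAt_const.add analyticAt_id) analyticAt_const
    have hS1 : ∀ᶠ t in 𝓝 (0 : ℂ), cz b ν a c ρ (pol v t) (s₀ + t) z₀ ∈ S := by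
      refine hczan.continuousAt.eventually ?_
      have h1 : cz b ν a c ρ (pol v 0) (s₀ + 0) z₀ = p 0 := by rw [pol_zero, add_zero, hcz0]
      change S ∈ 𝓝 (cz b ν a c ρ (pol v 0) (s₀ + 0) z₀)
      rw [h1]
      exact hS
    have hS2 : ∀ᶠ t in 𝓝 (0 : ℂ), p t ∈ S := hpan.continuousAt.eventually hS
    obtain ⟨r, hr, hall⟩ := Metric.eventually_nhds_iff_ball.mp ((hS1.and hS2).and hpcz)
    refine jt_eq_of_bound (crv_dir hs hqOD).1 hψan (C := K * C) (δ := min δ r) (lt_min hδ hr) fun t ht => ?_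
    have htb : (t : ℂ) ∈ ball (0 : ℂ) r := by
      rw [mem_ball_zero_iff, Complex.norm_real, Real.norm_of_nonneg ht.1.le]
      exact ht.2.trans_le (min_le_right _ _)
    obtain ⟨⟨h1, h2⟩, h3⟩ := hall _ htb
    have h4 := hK.norm_sub_le h1 h2
    have h5 : ‖cz b ν a c ρ (pol v t) (s₀ + t) z₀ - p t‖ ≤ ‖pol v t - p t 0‖ := by
      conv_lhs => rw [h3]
      exact cz_sub_le _ _ _ _
    have h6 := hC t ⟨ht.1, ht.2.trans_le (min_le_left _ _)⟩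
    rw [norm_sub_rev] at h6
    calc ‖crv b ν a χ c ρ (s₀, z₀, v) t - χ.σ (p t)‖ ≤ K * ‖cz b ν a c ρ (pol v t) (s₀ + t) z₀ - p t‖ := h4
      _ ≤ K * (C * t ^ (m + 1)) := mul_le_mul_of_nonneg_left (h5.trans h6) K.2
      _ = K * C * t ^ (m + 1) := by ring
  unfold QF
  rw [hjt]
  exact hPψ

end Pool.Agent.G3.C
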