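import Pool.Agent.G3.C.PZ
import Pool.Agent.G3.C.QFt
import Pool.Agent.G3.C.GenB
import Pool.Agent.G3.C.GenC

/-!
# G3 C Leaf: on every leaf there is a point where the family extends to complex parameters

`near_EAt`: the box of `TDat.smo` at `(s₀, z₀)`, made smaller (radius `< δ`, no point over `D`: `dt_closed`); `gen_analytic m` with `O = OD`, `Q = QF P b a χ c ρ'`
(`QF_analytic`, `QF_ne`, `OD_open`, `OD_convex`, `OD_dep`), the relation is `QF_zero` (`Box.move`), then `Ext.joint`; `F p = χ.σ (cz b ν a c ρ' (W p) p.1 p.2)` on a smaller ball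
where `cz … ∈ ball 0 2`; `F p ∈ X`, so `F p ≠ 0` (`IsCone`).
`leaf_EAt`: `FF` is finite and the translation by `l ∈ LT` permutes it, so `(n!) • l` fixes every `Φ ∈ FF`, `n = |FF|`, and `{s | ∃ z, (s, z) ∈ LT, translation by (s, z) fixes Φ}` is dense
(`TDat.dns`, multiplication by `n!`).  Take `(s₁, z₁)`, `ε` from `near_EAt` at any good point, `l` in the stabiliser with `|s₀ - (s₁ - l.1)| < ε / 2` (sign!): `EAt Φ s₀ z' (ε / 2)` with
`z' = z₁ - l.2`; then change `z'` a little such that `(s₀, z') ∉ Dt` (`dt_iso`).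
-/

set_option autoImplicit false

open Topology Filter Metric

namespace Pool.Agent.G3.C

open Pool.Agent.H36.BP (EN fs wd)
open Pool.Agent.H14.PP (IsCone)
open Pool.Agent.H62.EF (MN pr)
open Pool.Agent.AD (Vd Chart Charts)
open Pool.Agent.TG (TMap Lat Str ms tl)

variable {N k : ℕ} {X : Set (EN N)} {Λ : AddSubgroup (Vd (k + 1))} {u : EN N → Vd (k + 1)} {ν a b c : Vd (k + 1)} {m : ℕ} {ρ : ℝ}
  {LT : AddSubgroup (ℝ × ℂ)} {Dt Bd : Set (ℂ × ℂ)} {FF : Set (ℝ → ℂ → MN N)}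

/-- no point over `D` in a small ball with a good centre -/
private theorem Leaf_good (D : TDat X Λ u a ν b LT Dt Bd ρ FF) {p : ℂ × ℂ} (hp : p ∉ Dt) : ∃ r : ℝ, 0 < r ∧ ∀ q ∈ ball p r, q ∉ Dt := by
  obtain ⟨r, hr, h⟩ := Metric.isOpen_iff.1 D.dt_closed.isOpen_compl p hp
  exact ⟨r, hr, fun q hq => h hq⟩

private theorem Leaf_ball {s s₀ r : ℝ} {z z₀ : ℂ} (hr : 0 < r) (hs : |s - s₀| < r) (hz : dist z z₀ < r) :
    ((s : ℂ), z) ∈ ball ((s₀ : ℂ), z₀) r := by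
  rw [mem_ball, Prod.dist_eq]
  refine max_lt ?_ hz
  rwa [dist_eq_norm, ← Complex.ofReal_sub, Complex.norm_real, Real.norm_eq_abs]

private theorem Leaf_cz {ρ' : ℝ} {W : ℂ × ℂ → ℂ} {p : ℂ × ℂ} (hW : DifferentiableAt ℂ W p) :
    DifferentiableAt ℂ (fun p : ℂ × ℂ => cz b ν a c ρ' (W p) p.1 p.2) p := by
  rw [differentiableAt_pi]
  intro i
  refine Fin.cases ?_ (fun j => ?_) i
  · simpa [cz] using hW
  · have h1 : DifferentiableAt ℂ (fun p : ℂ × ℂ => (ρ' : ℂ)⁻¹ * (b j + p.1 * ν j + p.2 * a j - c j)) p := by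
      fun_prop
    simpa [cz, tz] using h1

theorem near_EAt (D : TDat X Λ u a ν b LT Dt Bd ρ FF) {P : JForm X Λ u ν m} (hP : P.Thin) {Φ : ℝ → ℂ → MN N} (hΦ : Φ ∈ FF) {s₀ : ℝ} {z₀ : ℂ}
    (h : ((s₀ : ℂ), z₀) ∉ Dt) {δ : ℝ} (hδ : 0 < δ) : ∃ (s₁ : ℝ) (z₁ : ℂ) (ε : ℝ), |s₁ - s₀| < δ ∧ ‖z₁ - z₀‖ < δ ∧ 0 < ε ∧ EAt Φ s₁ z₁ ε := by
  obtain ⟨χ, c, ρ', w, r, B⟩ := D.smo Φ hΦ s₀ z₀ h
  obtain ⟨r₀, hr₀, hgood⟩ := Leaf_good D h
  obtain ⟨r', hr'⟩ : ∃ r' : ℝ, r' = min (min r δ) r₀ := ⟨_, rfl⟩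
  have hr'0 : 0 < r' := by
    rw [hr']
    exact lt_min (lt_min B.pos hδ) hr₀
  have hr'r : r' ≤ r := by
    rw [hr']
    exact (min_le_left _ _).trans (min_le_left _ _)
  have hr'δ : r' ≤ δ := by
    rw [hr']
    exact (min_le_left _ _).trans (min_le_right _ _)
  have hr'r₀ : r' ≤ r₀ := by
    rw [hr']
    exact min_le_right _ _
  have hI : ∀ s ∈ Set.Ioo (s₀ - r') (s₀ + r'), s ∈ Set.Ioo (s₀ - r) (s₀ + r) := fun s hs =>
    ⟨by linarith [hs.1], by linarith [hs.2]⟩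
  have hD : ball z₀ r' ⊆ ball z₀ r := ball_subset_ball hr'r
  have hJ : JetFam w (Set.Ioo (s₀ - r') (s₀ + r')) (ball z₀ r') :=
    ⟨fun j s hs z hz => B.jet.der j s (hI s hs) z (hD hz),
      fun j => (B.jet.cont j).mono (Set.prod_mono (fun s hs => hI s hs) hD),
      fun j s hs => (B.jet.hol j s (hI s hs)).mono hD⟩
  have hnot : ∀ s ∈ Set.Ioo (s₀ - r') (s₀ + r'), ∀ z ∈ ball z₀ r', ((s : ℂ), z) ∉ Dt := by
    intro s hs z hz
    apply hgood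
    refine ball_subset_ball hr'r₀ (Leaf_ball hr'0 ?_ (mem_ball.1 hz))
    rw [abs_lt]
    exact ⟨by linarith [hs.1], by linarith [hs.2]⟩
  obtain ⟨s₁, hs₁, z₁, hz₁, hE⟩ := gen_analytic m (O := OD b ν a c ρ' m) OD_open OD_convex OD_dep (Q := QF P b a χ c ρ')
    (QF_analytic P B.str) (QF_ne D.cone D.tor D.lat D.bas hP B.str) (w := w) (I := Set.Ioo (s₀ - r') (s₀ + r')) (D := ball z₀ r')
    isOpen_Ioo isOpen_ball ⟨s₀, by linarith, by linarith⟩ ⟨z₀, mem_ball_self hr'0⟩ hJ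
    (fun s hs z hz => B.mem s (hI s hs) z (hD hz))
    (fun s hs z hz => by
      obtain ⟨r'', B'⟩ := B.move (hI s hs) (hD hz)
      exact QF_zero D P hΦ B' (hnot s hs z hz))
  obtain ⟨ε, W, hε, hW, hsI, hzD, hWw⟩ := Ext.joint hJ hE
  have hself : ((s₁ : ℂ), z₁) ∈ ball ((s₁ : ℂ), z₁) ε := mem_ball_self hε
  have hWat : ∀ p ∈ ball ((s₁ : ℂ), z₁) ε, DifferentiableAt ℂ W p := fun p hp => hW.differentiableAt (isOpen_ball.mem_nhds hp)
  have hcz : ∀ p ∈ ball ((s₁ : ℂ), z₁) ε, DifferentiableAt ℂ (fun p : ℂ × ℂ => cz b ν a c ρ' (W p) p.1 p.2) p := fun p hp =>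
    Leaf_cz (hWat p hp)
  have hm : cz b ν a c ρ' (W ((s₁ : ℂ), z₁)) (s₁ : ℂ) z₁ ∈ ball (0 : Vd (k + 2)) 2 := by
    rw [hWw s₁ z₁ hself]
    exact B.mem s₁ (hI s₁ hs₁) z₁ (hD hz₁)
  have hev : ∀ᶠ p in 𝓝 ((s₁ : ℂ), z₁), cz b ν a c ρ' (W p) p.1 p.2 ∈ ball (0 : Vd (k + 2)) 2 :=
    (hcz _ hself).continuousAt.eventually_mem (isOpen_ball.mem_nhds hm)
  obtain ⟨ε₁, hε₁, hin⟩ := Metric.eventually_nhds_iff_ball.mp hev
  refine ⟨s₁, z₁, min ε ε₁, ?_, ?_, lt_min hε hε₁, fun p => χ.σ (cz b ν a c ρ' (W p) p.1 p.2), ?_, ?_, ?_⟩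
  · rw [abs_lt]
    exact ⟨by linarith [hs₁.1], by linarith [hs₁.2]⟩
  · rw [← dist_eq_norm]
    exact lt_of_lt_of_le (mem_ball.1 hz₁) hr'δ
  · intro p hp
    have h1 := χ.σ_an _ (hin p (ball_subset_ball (min_le_right _ _) hp))
    exact (h1.differentiableAt.comp p (hcz p (ball_subset_ball (min_le_left _ _) hp))).differentiableWithinAt
  · intro p hp h0
    have h1 := (χ.σ_mem _ (hin p (ball_subset_ball (min_le_right _ _) hp))).1
    have h0' : χ.σ (cz b ν a c ρ' (W p) p.1 p.2) = 0 := h0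
    rw [h0'] at h1
    exact D.cone.zero_notMem h1
  · intro s z hp
    have hp' := ball_subset_ball (min_le_left ε ε₁) hp
    have h1 : s ∈ Set.Ioo (s₀ - r') (s₀ + r') := by
      apply hsI
      rw [mem_ball, Prod.dist_eq] at hp'
      have h2 := (le_max_left _ _).trans_lt hp'
      simp only at h2
      rwa [dist_eq_norm, ← Complex.ofReal_sub, Complex.norm_real, Real.norm_eq_abs] at h2
    have h2 : z ∈ ball z₀ r' := by
      apply hzD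
      rw [mem_ball, Prod.dist_eq] at hp'
      exact (le_max_right _ _).trans_lt hp'
    rw [B.eq s (hI s h1) z (hD h2)]
    simp only
    rw [hWw s z hp']

/-! ### translations -/

/-- the translation by `l` as a permutation of `FF` -/
private noncomputable def Leaf_perm (D : TDat X Λ u a ν b LT Dt Bd ρ FF) {l : ℝ × ℂ} (hl : l ∈ LT) : Equiv.Perm FF where
  toFun Φ := ⟨fun s z => Φ.1 (s + l.1) (z + l.2), D.tr Φ.1 Φ.2 l hl⟩
  invFun Φ := ⟨fun s z => Φ.1 (s + (-l).1) (z + (-l).2), D.tr Φ.1 Φ.2 (-l) (LT.neg_mem hl)⟩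
  left_inv Φ := by
    apply Subtype.ext
    funext s z
    simp
  right_inv Φ := by
    apply Subtype.ext
    funext s z
    simp

private theorem Leaf_perm_pow (D : TDat X Λ u a ν b LT Dt Bd ρ FF) {l : ℝ × ℂ} (hl : l ∈ LT) (n : ℕ) :
    ∀ (Φ : FF) (s : ℝ) (z : ℂ), ((Leaf_perm D hl ^ n) Φ).1 s z = Φ.1 (s + n * l.1) (z + n * l.2) := by
  induction n with
  | zero =>
    intro Φ s z
    simp
  | succ n ih =>
    intro Φ s z
    rw [pow_succ, Equiv.Perm.mul_apply, ih]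
    change Φ.1 (s + n * l.1 + l.1) (z + n * l.2 + l.2) = _
    have e1 : s + n * l.1 + l.1 = s + ((n + 1 : ℕ) : ℝ) * l.1 := by
      push_cast
      ring
    have e2 : z + n * l.2 + l.2 = z + ((n + 1 : ℕ) : ℂ) * l.2 := by
      push_cast
      ring
    rw [e1, e2]

/-- a multiple of every translation fixes all families -/
private theorem Leaf_fix (D : TDat X Λ u a ν b LT Dt Bd ρ FF) : ∃ M : ℕ, 0 < M ∧ ∀ l ∈ LT, ∀ Φ ∈ FF, ∀ (s : ℝ) (z : ℂ),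
    Φ (s + M * l.1) (z + M * l.2) = Φ s z := by
  classical
  have : Fintype FF := D.fin.fintype
  refine ⟨Fintype.card (Equiv.Perm FF), Fintype.card_pos, fun l hl Φ hΦ s z => ?_⟩
  have h1 : (Leaf_perm D hl) ^ Fintype.card (Equiv.Perm FF) = 1 := pow_card_eq_one
  have h2 := Leaf_perm_pow D hl (Fintype.card (Equiv.Perm FF)) ⟨Φ, hΦ⟩ s z
  rw [h1] at h2
  exact h2.symm

/-- the translated extension -/
private theorem Leaf_tr {Φ : ℝ → ℂ → MN N} {s₁ : ℝ} {z₁ : ℂ} {ε : ℝ} (hE : EAt Φ s₁ z₁ ε) {x : ℝ} {y : ℂ}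
    (hfix : ∀ (s : ℝ) (z : ℂ), Φ (s + x) (z + y) = Φ s z) : EAt Φ (s₁ + x) (z₁ + y) ε := by
  obtain ⟨F, h1, h2, h3⟩ := hE
  have hmem : ∀ p ∈ ball (((s₁ + x : ℝ) : ℂ), z₁ + y) ε, ((p.1 - (x : ℂ), p.2 - y) : ℂ × ℂ) ∈ ball ((s₁ : ℂ), z₁) ε := by
    intro p hp
    rw [mem_ball, Prod.dist_eq] at hp ⊢
    simp only at hp ⊢
    rw [dist_eq_norm, dist_eq_norm] at hp ⊢
    have e1 : p.1 - (x : ℂ) - (s₁ : ℂ) = p.1 - ((s₁ + x : ℝ) : ℂ) := by
      push_cast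
      ring
    have e2 : p.2 - y - z₁ = p.2 - (z₁ + y) := by ring
    rw [e1, e2]
    exact hp
  refine ⟨fun p => F (p.1 - (x : ℂ), p.2 - y), ?_, fun p hp => h2 _ (hmem p hp), fun s z hz => ?_⟩
  · have hd : Differentiable ℂ (fun p : ℂ × ℂ => ((p.1 - (x : ℂ), p.2 - y) : ℂ × ℂ)) := by fun_prop
    exact h1.comp hd.differentiableOn hmem
  · have h4 := hmem _ hz
    simp only at h4
    have h5 : (((s - x : ℝ) : ℂ), z - y) ∈ ball ((s₁ : ℂ), z₁) ε := by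
      have e1 : ((s - x : ℝ) : ℂ) = (s : ℂ) - (x : ℂ) := by push_cast; ring
      rw [e1]
      exact h4
    have h6 := h3 (s - x) (z - y) h5
    have h7 := hfix (s - x) (z - y)
    rw [sub_add_cancel, sub_add_cancel] at h7
    rw [h7, h6]
    have e1 : ((s - x : ℝ) : ℂ) = (s : ℂ) - (x : ℂ) := by push_cast; ring
    rw [e1]

theorem leaf_EAt (D : TDat X Λ u a ν b LT Dt Bd ρ FF) {P : JForm X Λ u ν m} (hP : P.Thin) {Φ : ℝ → ℂ → MN N} (hΦ : Φ ∈ FF) (s₀ : ℝ) :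
    ∃ (z₁ : ℂ) (ε : ℝ), ((s₀ : ℂ), z₁) ∉ Dt ∧ 0 < ε ∧ EAt Φ s₀ z₁ ε := by
  obtain ⟨z₀, hz₀⟩ := (D.dt_iso s₀ 0).exists
  obtain ⟨s₁, z₁, ε, -, -, hε, hE⟩ := near_EAt D hP hΦ hz₀ one_pos
  obtain ⟨M, hM, hfix⟩ := Leaf_fix D
  have hM0 : (0 : ℝ) < M := by exact_mod_cast hM
  -- the translation
  obtain ⟨t, ht, ⟨ζ, hl⟩⟩ := Metric.dense_iff.1 D.dns ((s₀ - s₁) / M) (ε / (2 * M)) (by positivity)
  have ht' : |s₀ - (s₁ + M * t)| < ε / 2 := by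
    rw [mem_ball, Real.dist_eq, abs_sub_comm] at ht
    have e1 : s₀ - (s₁ + M * t) = M * ((s₀ - s₁) / M - t) := by
      field_simp
      ring
    rw [e1, abs_mul, abs_of_pos hM0]
    calc (M : ℝ) * |(s₀ - s₁) / M - t| < M * (ε / (2 * M)) := mul_lt_mul_of_pos_left ht hM0
      _ = ε / 2 := by field_simp
  have hE1 : EAt Φ (s₁ + M * t) (z₁ + M * ζ) ε := Leaf_tr hE fun s z => hfix _ hl Φ hΦ s z
  -- a good point of the leaf near `z₁ + M ζ`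
  have hnear : ∀ᶠ z in 𝓝[≠] (z₁ + M * ζ), z ∈ ball (z₁ + M * ζ) (ε / 2) :=
    mem_nhdsWithin_of_mem_nhds (ball_mem_nhds _ (by positivity))
  obtain ⟨z₂, hz₂', hz₂⟩ := ((D.dt_iso s₀ (z₁ + M * ζ)).and hnear).exists
  have hd : dist ((s₀ : ℂ), z₂) (((s₁ + M * t : ℝ) : ℂ), z₁ + M * ζ) < ε := by
    rw [Prod.dist_eq]
    refine max_lt ?_ ?_
    · simp only
      rw [dist_eq_norm, ← Complex.ofReal_sub, Complex.norm_real, Real.norm_eq_abs]
      linarith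
    · exact (mem_ball.1 hz₂).trans (by linarith)
  exact ⟨z₂, _, hz₂', by linarith, hE1.move⟩

end Pool.Agent.G3.C
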