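import Pool.Agent.G3.C.ULM
import Pool.Agent.G3.C.LM
import Pool.Agent.G3.C.Glue

/-!
# G3 C Main: the theorem of block (C)

The families `FF` of curves over the lines `b + s ν + ℂ a` of a real torus extend to complex values of the parameter `s`: for `|Im ζ| < ε` there is an entire curve over the
line `b + ζ ν + ℂ a`, and near every point there is a holomorphic lift which is not identically `0` on the leaf.
-/

set_option autoImplicit false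

open Topology Filter Metric

namespace Pool.Agent.G3.C

open Pool.Agent.H36.BP (EN fs wd)
open Pool.Agent.H14.PP (IsCone)
open Pool.Agent.H62.EF (MN pr)
open Pool.Agent.AD (Vd Chart Charts)
open Pool.Agent.TG (TMap Lat Str ms tl)

variable {N k : ℕ} {X : Set (EN N)} {Λ : AddSubgroup (Vd (k + 1))} {u : EN N → Vd (k + 1)} {ν a b c : Vd (k + 1)} {m : ℕ} {ρ : ℝ}
  {LT : AddSubgroup (ℝ × ℂ)} {Dt Bd : Set (ℂ × ℂ)} {FF : Set (ℝ → ℂ → MN N)}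

theorem TDat.lift0 (D : TDat X Λ u a ν b LT Dt Bd ρ FF) {Φ : ℝ → ℂ → MN N} (hΦ : Φ ∈ FF) (s : ℝ) :
    ∃ F : ℂ → EN N, Differentiable ℂ F ∧ (∀ z, F z ≠ 0) ∧ ∀ z, Φ s z = pr (F z) := by
  obtain ⟨F, ⟨hF1, hF2, _⟩, hF4⟩ := D.lift Φ hΦ s
  exact ⟨F, hF1, fun z h0 => D.cone.zero_notMem (h0 ▸ hF2 z), hF4⟩

/-- **block (C)** -/
theorem block_C {d : ℕ} (hch : Charts d X) (D : TDat X Λ u a ν b LT Dt Bd ρ FF) {P : JForm X Λ u ν m} (hP : P.Thin) :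
    ∃ ε : ℝ, 0 < ε ∧ ∀ Φ ∈ FF, ∃ Ψ : ℂ → ℂ → MN N, (∀ (s : ℝ) z, Ψ s z = Φ s z) ∧
      (∀ ζ : ℂ, |ζ.im| < ε → ∃ F ∈ Gc X Λ u a (b + ζ • ν), ∀ z, Ψ ζ z = pr (F z)) ∧
      ∀ ζ z : ℂ, |ζ.im| < ε → ∃ G : ℂ × ℂ → EN N, AnalyticAt ℂ G (ζ, z) ∧ (¬ ∀ᶠ w in 𝓝 z, G (ζ, w) = 0) ∧
        ∀ᶠ p in 𝓝 (ζ, z), G p ≠ 0 → Ψ p.1 p.2 = pr (G p) := by
  obtain ⟨ε, hε, hM⟩ := unif_LMer D hP fun Φ hΦ s₀ z₀ r hr hE => lmer_of_circle (fun s => D.lift0 hΦ s) hr hE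
  exact ⟨ε, hε, fun Φ hΦ => glue D.cone hch D.tor D.lat (D.lift Φ hΦ) hε (hM Φ hΦ)⟩

end Pool.Agent.G3.C
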