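import Pool.Agent.G3.C.QFa
import Pool.Agent.G3.C.Tay

/-!
# G3 C PVa: the value of the jet form on a smooth family does not depend on the chart
-/

set_option autoImplicit false

open Topology Filter Metric

namespace Pool.Agent.G3.C

open Pool.Agent.H36.BP (EN fs wd)
open Pool.Agent.H14.PP (IsCone)
open Pool.Agent.H62.EF (MN pr)
open Pool.Agent.AD (Vd Chart Charts)
open Pool.Agent.TG (TMap Lat Str ms tl)

variable {N k : ℕ} {X : Set (EN N)} {Λ : AddSubgroup (Vd (k + 1))} {u : EN N → Vd (k + 1)} {ν a b b' c c' : Vd (k + 1)} {m : ℕ} {ρ ρ' : ℝ}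

/-- the real curve of the family in the chart -/
noncomputable def psi (b ν a : Vd (k + 1)) (χ : Chart (k + 2) X) (c : Vd (k + 1)) (ρ : ℝ) (w : ℕ → ℝ → ℂ → ℂ) (s₀ : ℝ) (z₀ : ℂ) (t : ℝ) : EN N :=
  χ.σ (cz b ν a c ρ (w 0 (s₀ + t) z₀) ((s₀ + t : ℝ) : ℂ) z₀)

/-- the curve with the polynomial jet is close to the real curve -/
theorem crv_close {Φ : ℝ → ℂ → MN N} {χ : Chart (k + 2) X} {w : ℕ → ℝ → ℂ → ℂ} {s₀ : ℝ} {z₀ : ℂ} {r : ℝ} (B : Box X Λ u a ν b Φ χ c ρ w s₀ z₀ r) (m : ℕ) :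
    ∃ C δ M : ℝ, 0 < δ ∧ 0 ≤ C ∧ 0 ≤ M ∧ ∀ t ∈ Set.Ioo (0 : ℝ) δ, ‖crv b ν a χ c ρ (Jt m w s₀ z₀) (t : ℂ) - psi b ν a χ c ρ w s₀ z₀ t‖ ≤ C * t ^ (m + 1) ∧
      ‖crv b ν a χ c ρ (Jt m w s₀ z₀) (t : ℂ)‖ ≤ M ∧ ‖psi b ν a χ c ρ w s₀ z₀ t‖ ≤ M := by
  have hs₀ : s₀ ∈ Set.Ioo (s₀ - r) (s₀ + r) := ⟨by linarith [B.pos], by linarith [B.pos]⟩
  have hz₀ : z₀ ∈ ball z₀ r := mem_ball_self B.pos
  set x₀ := w 0 s₀ z₀ with hx₀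
  set G : ℂ × ℂ → EN N := fun p => χ.σ (cz b ν a c ρ p.1 (s₀ + p.2) z₀) with hG
  have hmem : cz b ν a c ρ x₀ s₀ z₀ ∈ ball (0 : Vd (k + 2)) 2 := B.mem s₀ hs₀ z₀ hz₀
  have hGa : AnalyticAt ℂ G (x₀, 0) := by
    have h1 : AnalyticAt ℂ (fun p : ℂ × ℂ => cz b ν a c ρ p.1 (s₀ + p.2) z₀) (x₀, 0) :=
      cz_analytic analyticAt_fst (analyticAt_const.add analyticAt_snd) analyticAt_const
    refine AnalyticAt.comp_of_eq (χ.σ_an _ hmem) h1 ?_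
    simp
  obtain ⟨K, U, hU, hK⟩ := hGa.hasStrictFDerivAt.exists_lipschitzOnWith
  -- the two points
  have hpolc : Tendsto (fun t : ℝ => ((pol (Jt m w s₀ z₀).2.2 (t : ℂ), (t : ℂ)) : ℂ × ℂ)) (𝓝 0) (𝓝 (x₀, 0)) := by
    have h1 : Continuous fun t : ℝ => ((pol (Jt m w s₀ z₀).2.2 (t : ℂ), (t : ℂ)) : ℂ × ℂ) := by
      unfold pol
      fun_prop
    have h2 := h1.tendsto 0
    simpa [pol_zero, Jt, hx₀] using h2
  have hwc : Tendsto (fun t : ℝ => ((w 0 (s₀ + t) z₀, (t : ℂ)) : ℂ × ℂ)) (𝓝 0) (𝓝 (x₀, 0)) := by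
    have h1 : ContinuousAt (fun t : ℝ => w 0 t z₀) (s₀ + 0) := by
      rw [add_zero]
      exact (B.jet.der 0 s₀ hs₀ z₀ hz₀).continuousAt
    have h2 : ContinuousAt (fun t : ℝ => w 0 (s₀ + t) z₀) 0 := ContinuousAt.comp (f := fun t : ℝ => s₀ + t) (g := fun t : ℝ => w 0 t z₀) h1 (by fun_prop)
    have h3 : Tendsto (fun t : ℝ => w 0 (s₀ + t) z₀) (𝓝 0) (𝓝 x₀) := by
      have := h2.tendsto
      simpa [hx₀] using this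
    have h4 : Tendsto (fun t : ℝ => (t : ℂ)) (𝓝 0) (𝓝 0) := by
      have := Complex.continuous_ofReal.tendsto 0
      simpa using this
    exact h3.prodMk_nhds h4
  have hbd : ∀ᶠ p in 𝓝 ((x₀, 0) : ℂ × ℂ), ‖G p‖ ≤ ‖G (x₀, 0)‖ + 1 := by
    filter_upwards [hGa.continuousAt.norm.eventually_le_const (show ‖G (x₀, 0)‖ < ‖G (x₀, 0)‖ + 1 by linarith)] with p hp using hp
  obtain ⟨C, δ, hδ, hT⟩ := taylor_bound (f := fun j t => w j t z₀) B.pos (fun j t ht => B.jet.der j t ht z₀ hz₀) m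
  have hev : ∀ᶠ t : ℝ in 𝓝 0, ((pol (Jt m w s₀ z₀).2.2 (t : ℂ), (t : ℂ)) : ℂ × ℂ) ∈ U ∧ ((w 0 (s₀ + t) z₀, (t : ℂ)) : ℂ × ℂ) ∈ U ∧
      ‖G (pol (Jt m w s₀ z₀).2.2 (t : ℂ), (t : ℂ))‖ ≤ ‖G (x₀, 0)‖ + 1 ∧ ‖G (w 0 (s₀ + t) z₀, (t : ℂ))‖ ≤ ‖G (x₀, 0)‖ + 1 :=
    (hpolc.eventually hU).and ((hwc.eventually hU).and ((hpolc.eventually hbd).and (hwc.eventually hbd)))
  obtain ⟨δ', hδ', hδ'b⟩ := Metric.eventually_nhds_iff_ball.mp hev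
  refine ⟨K * |C|, min δ δ', ‖G (x₀, 0)‖ + 1, lt_min hδ hδ', by positivity, by positivity, ?_⟩
  intro t ht
  have ht0 : 0 < t := ht.1
  have htb : t ∈ ball (0 : ℝ) δ' := by
    rw [mem_ball, Real.dist_eq, sub_zero, abs_of_pos ht0]
    exact lt_of_lt_of_le ht.2 (min_le_right _ _)
  obtain ⟨h1, h2, h3, h4⟩ := hδ'b t htb
  have e1 : crv b ν a χ c ρ (Jt m w s₀ z₀) (t : ℂ) = G (pol (Jt m w s₀ z₀).2.2 (t : ℂ), (t : ℂ)) := rfl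
  have e2 : psi b ν a χ c ρ w s₀ z₀ t = G (w 0 (s₀ + t) z₀, (t : ℂ)) := by
    simp only [psi, hG]
    push_cast
    rfl
  refine ⟨?_, by rw [e1]; exact h3, by rw [e2]; exact h4⟩
  rw [e1, e2, ← dist_eq_norm]
  refine (hK.dist_le_mul _ h1 _ h2).trans ?_
  rw [mul_assoc]
  apply mul_le_mul_of_nonneg_left _ K.coe_nonneg
  have h5 := hT t ⟨ht0, lt_of_lt_of_le ht.2 (min_le_left _ _)⟩
  rw [Prod.dist_eq, dist_self, max_eq_left dist_nonneg, dist_eq_norm, norm_sub_rev]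
  refine h5.trans ?_
  exact mul_le_mul_of_nonneg_right (le_abs_self C) (by positivity)

theorem QF_unique (hX : IsCone X) {Φ Φ' : ℝ → ℂ → MN N} {χ χ' : Chart (k + 2) X} {w w' : ℕ → ℝ → ℂ → ℂ} {s₀ s₀' : ℝ} {z₀ z₀' : ℂ} {r r' : ℝ}
    (B : Box X Λ u a ν b Φ χ c ρ w s₀ z₀ r) (B' : Box X Λ u a ν b' Φ' χ' c' ρ' w' s₀' z₀' r') (h : ∀ᶠ t : ℝ in 𝓝 0, Φ (s₀ + t) z₀ = Φ' (s₀' + t) z₀')
    (P : JForm X Λ u ν m) {x : EN N} {α α' : ℂ} (hα : χ.σ (cz b ν a c ρ (w 0 s₀ z₀) s₀ z₀) = α • x) (hα' : χ'.σ (cz b' ν a c' ρ' (w' 0 s₀' z₀') s₀' z₀') = α' • x)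
    (hα0 : α ≠ 0) (hα'0 : α' ≠ 0) : QF P b a χ c ρ (Jt m w s₀ z₀) * α = QF P b' a χ' c' ρ' (Jt m w' s₀' z₀') * α' := by
  have hs₀ : s₀ ∈ Set.Ioo (s₀ - r) (s₀ + r) := ⟨by linarith [B.pos], by linarith [B.pos]⟩
  have hz₀ : z₀ ∈ ball z₀ r := mem_ball_self B.pos
  have hs₀' : s₀' ∈ Set.Ioo (s₀' - r') (s₀' + r') := ⟨by linarith [B'.pos], by linarith [B'.pos]⟩
  have hz₀' : z₀' ∈ ball z₀' r' := mem_ball_self B'.pos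
  have hq : Jt m w s₀ z₀ ∈ OD b ν a c ρ m := B.mem s₀ hs₀ z₀ hz₀
  have hq' : Jt m w' s₀' z₀' ∈ OD b' ν a c' ρ' m := B'.mem s₀' hs₀' z₀' hz₀'
  have hd := crv_dir B.str hq
  have hd' := crv_dir B'.str hq'
  set φ := crv b ν a χ c ρ (Jt m w s₀ z₀) with hφ
  set φ' := crv b' ν a χ' c' ρ' (Jt m w' s₀' z₀') with hφ'
  have hφ0 : φ 0 = α • x := by
    rw [hφ, crv, pol_zero, add_zero]
    exact hα
  have hφ'0 : φ' 0 = α' • x := by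
    rw [hφ', crv, pol_zero, add_zero]
    exact hα'
  have hx : x ≠ 0 := by
    rintro rfl
    rw [smul_zero] at hα
    exact hX.zero_notMem (hα ▸ (χ.σ_mem _ (B.mem s₀ hs₀ z₀ hz₀)).1)
  set ℓ : EN N →L[ℂ] ℂ := innerSL ℂ x with hℓ
  have hℓx : ℓ x ≠ 0 := by
    rw [hℓ, innerSL_apply_apply]
    exact inner_self_ne_zero.mpr hx
  have hℓφ0 : ℓ (φ 0) ≠ 0 := by
    rw [hφ0, map_smul, smul_eq_mul]
    exact mul_ne_zero hα0 hℓx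
  set cc : ℂ → ℂ := fun t => ℓ (φ' t) / ℓ (φ t) with hcc
  have hcca : AnalyticAt ℂ cc 0 := by
    have h1 : AnalyticAt ℂ (fun t => ℓ (φ' t)) 0 := (ℓ.analyticAt _).comp hd'.1
    have h2 : AnalyticAt ℂ (fun t => ℓ (φ t)) 0 := (ℓ.analyticAt _).comp hd.1
    exact h1.div h2 hℓφ0
  have hcc0 : cc 0 = α' / α := by
    simp only [hcc]
    rw [hφ0, hφ'0, map_smul, map_smul, smul_eq_mul, smul_eq_mul, mul_div_mul_right _ _ hℓx]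
  have hcc0ne : cc 0 ≠ 0 := by
    rw [hcc0]
    exact div_ne_zero hα'0 hα0
  -- the jets agree
  have hjet : jt m φ' = jt m fun t => cc t • φ t := by
    obtain ⟨C₁, δ₁, M₁, hδ₁, hC₁, hM₁, h₁⟩ := crv_close B m
    obtain ⟨C₂, δ₂, M₂, hδ₂, hC₂, hM₂, h₂⟩ := crv_close B' m
    have hev1 : ∀ᶠ t : ℝ in 𝓝 0, ‖ℓ (φ 0)‖ / 2 ≤ ‖ℓ (φ (t : ℂ))‖ := by
      have h2 : ContinuousAt (fun t => ℓ (φ t)) 0 := ContinuousAt.comp ℓ.continuous.continuousAt hd.1.continuousAt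
      have h3 : Tendsto (fun t : ℝ => ℓ (φ (t : ℂ))) (𝓝 0) (𝓝 (ℓ (φ 0))) := by
        have h4 : Tendsto (fun t : ℝ => (t : ℂ)) (𝓝 0) (𝓝 0) := by
          have := Complex.continuous_ofReal.tendsto 0
          simpa using this
        exact h2.tendsto.comp h4
      have h5 : ‖ℓ (φ 0)‖ / 2 < ‖ℓ (φ 0)‖ := by
        have := norm_pos_iff.mpr hℓφ0
        linarith
      filter_upwards [h3.norm.eventually_const_lt h5] with t ht using ht.le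
    have hev2 : ∀ᶠ t : ℝ in 𝓝 0, s₀ + t ∈ Set.Ioo (s₀ - r) (s₀ + r) ∧ s₀' + t ∈ Set.Ioo (s₀' - r') (s₀' + r') := by
      have e1 : Tendsto (fun t : ℝ => s₀ + t) (𝓝 0) (𝓝 s₀) := by
        have : Continuous fun t : ℝ => s₀ + t := by fun_prop
        simpa using this.tendsto 0
      have e2 : Tendsto (fun t : ℝ => s₀' + t) (𝓝 0) (𝓝 s₀') := by
        have : Continuous fun t : ℝ => s₀' + t := by fun_prop
        simpa using this.tendsto 0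
      exact (e1.eventually (isOpen_Ioo.mem_nhds hs₀)).and (e2.eventually (isOpen_Ioo.mem_nhds hs₀'))
    obtain ⟨δ₃, hδ₃, h₃⟩ := Metric.eventually_nhds_iff_ball.mp (h.and (hev1.and hev2))
    set δ := min (min δ₁ δ₂) δ₃ with hδ
    have hδ0 : 0 < δ := by positivity
    set L := ‖ℓ‖ with hL
    set C := (L * C₁ * M₂ + L * M₁ * C₂ + L * C₂ * M₁ + L * M₂ * C₁) / (‖ℓ (φ 0)‖ / 2) with hC
    apply jt_eq_of_bound hd'.1 (hcca.smul hd.1) (C := C) hδ0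
    intro t ht
    have ht0 : 0 < t := ht.1
    obtain ⟨a1, a2, a3⟩ := h₁ t ⟨ht0, lt_of_lt_of_le ht.2 ((min_le_left _ _).trans (min_le_left _ _))⟩
    obtain ⟨b1, b2, b3⟩ := h₂ t ⟨ht0, lt_of_lt_of_le ht.2 ((min_le_left _ _).trans (min_le_right _ _))⟩
    have htb : t ∈ ball (0 : ℝ) δ₃ := by
      rw [mem_ball, Real.dist_eq, sub_zero, abs_of_pos ht0]
      exact lt_of_lt_of_le ht.2 (min_le_right _ _)
    obtain ⟨g1, g2, g3, g4⟩ := h₃ t htb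
    rw [← hφ] at a1 a2
    rw [← hφ'] at b1 b2
    set ψ := psi b ν a χ c ρ w s₀ z₀ t with hψ
    set ψ' := psi b' ν a χ' c' ρ' w' s₀' z₀' t with hψ'
    have hψm : ψ ∈ X := (χ.σ_mem _ (B.mem _ g3 z₀ hz₀)).1
    have hψ'm : ψ' ∈ X := (χ'.σ_mem _ (B'.mem _ g4 z₀' hz₀')).1
    have hψ0 : ψ ≠ 0 := fun h0 => hX.zero_notMem (h0 ▸ hψm)
    have hψ'0 : ψ' ≠ 0 := fun h0 => hX.zero_notMem (h0 ▸ hψ'm)
    have hpr : pr ψ' = pr ψ := by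
      have e1 := B.eq _ g3 z₀ hz₀
      have e2 := B'.eq _ g4 z₀' hz₀'
      rw [hψ, hψ', psi, psi, ← e1, ← e2, g1]
    obtain ⟨β, _, hβ⟩ := (Pool.Agent.H62.EF.pr_eq_iff hψ'0 hψ0).1 hpr
    have hcross : ℓ ψ • ψ' = ℓ ψ' • ψ := by
      rw [hβ, map_smul, smul_smul, smul_eq_mul, mul_comm]
    have hℓφt : ℓ (φ (t : ℂ)) ≠ 0 := by
      intro h0
      rw [h0, norm_zero] at g2
      have := norm_pos_iff.mpr hℓφ0
      linarith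
    have hdiff : φ' (t : ℂ) - cc (t : ℂ) • φ (t : ℂ) = (ℓ (φ (t : ℂ)))⁻¹ •
        (ℓ (φ (t : ℂ) - ψ) • φ' (t : ℂ) + ℓ ψ • (φ' (t : ℂ) - ψ') - ℓ (φ' (t : ℂ) - ψ') • φ (t : ℂ) - ℓ ψ' • (φ (t : ℂ) - ψ)) := by
      have e : ℓ (φ (t : ℂ) - ψ) • φ' (t : ℂ) + ℓ ψ • (φ' (t : ℂ) - ψ') - ℓ (φ' (t : ℂ) - ψ') • φ (t : ℂ) - ℓ ψ' • (φ (t : ℂ) - ψ) =
          ℓ (φ (t : ℂ)) • φ' (t : ℂ) - ℓ (φ' (t : ℂ)) • φ (t : ℂ) - (ℓ ψ • ψ' - ℓ ψ' • ψ) := by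
        rw [map_sub, map_sub, sub_smul, sub_smul, smul_sub, smul_sub]
        abel
      rw [e, hcross, sub_self, sub_zero, smul_sub, smul_smul, inv_mul_cancel₀ hℓφt, one_smul, smul_smul]
      congr 2
      simp only [hcc]
      rw [div_eq_mul_inv, mul_comm]
    show ‖φ' (t : ℂ) - cc (t : ℂ) • φ (t : ℂ)‖ ≤ C * t ^ (m + 1)
    rw [hdiff, norm_smul, norm_inv]
    have hn1 : ‖ℓ (φ (t : ℂ) - ψ) • φ' (t : ℂ) + ℓ ψ • (φ' (t : ℂ) - ψ') - ℓ (φ' (t : ℂ) - ψ') • φ (t : ℂ) - ℓ ψ' • (φ (t : ℂ) - ψ)‖ ≤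
        (L * C₁ * M₂ + L * M₁ * C₂ + L * C₂ * M₁ + L * M₂ * C₁) * t ^ (m + 1) := by
      have hL0 : 0 ≤ L := norm_nonneg _
      have htm : 0 ≤ t ^ (m + 1) := by positivity
      have n1 : ‖ℓ (φ (t : ℂ) - ψ) • φ' (t : ℂ)‖ ≤ L * C₁ * M₂ * t ^ (m + 1) := by
        rw [norm_smul]
        calc ‖ℓ (φ (t : ℂ) - ψ)‖ * ‖φ' (t : ℂ)‖ ≤ (L * (C₁ * t ^ (m + 1))) * M₂ :=
              mul_le_mul ((ℓ.le_opNorm _).trans (mul_le_mul_of_nonneg_left a1 hL0)) b2 (norm_nonneg _) (by positivity)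
          _ = _ := by ring
      have n2 : ‖ℓ ψ • (φ' (t : ℂ) - ψ')‖ ≤ L * M₁ * C₂ * t ^ (m + 1) := by
        rw [norm_smul]
        calc ‖ℓ ψ‖ * ‖φ' (t : ℂ) - ψ'‖ ≤ (L * M₁) * (C₂ * t ^ (m + 1)) :=
              mul_le_mul ((ℓ.le_opNorm _).trans (mul_le_mul_of_nonneg_left a3 hL0)) b1 (norm_nonneg _) (by positivity)
          _ = _ := by ring
      have n3 : ‖ℓ (φ' (t : ℂ) - ψ') • φ (t : ℂ)‖ ≤ L * C₂ * M₁ * t ^ (m + 1) := by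
        rw [norm_smul]
        calc ‖ℓ (φ' (t : ℂ) - ψ')‖ * ‖φ (t : ℂ)‖ ≤ (L * (C₂ * t ^ (m + 1))) * M₁ :=
              mul_le_mul ((ℓ.le_opNorm _).trans (mul_le_mul_of_nonneg_left b1 hL0)) a2 (norm_nonneg _) (by positivity)
          _ = _ := by ring
      have n4 : ‖ℓ ψ' • (φ (t : ℂ) - ψ)‖ ≤ L * M₂ * C₁ * t ^ (m + 1) := by
        rw [norm_smul]
        calc ‖ℓ ψ'‖ * ‖φ (t : ℂ) - ψ‖ ≤ (L * M₂) * (C₁ * t ^ (m + 1)) :=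
              mul_le_mul ((ℓ.le_opNorm _).trans (mul_le_mul_of_nonneg_left b3 hL0)) a1 (norm_nonneg _) (by positivity)
          _ = _ := by ring
      refine (norm_sub_le _ _).trans ?_
      refine (add_le_add_left (norm_sub_le _ _) _).trans ?_
      refine (add_le_add_left (add_le_add_left (norm_add_le _ _) _) _).trans ?_
      linarith
    have hpos : 0 < ‖ℓ (φ 0)‖ / 2 := by
      have := norm_pos_iff.mpr hℓφ0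
      positivity
    have hinv : ‖ℓ (φ (t : ℂ))‖⁻¹ ≤ (‖ℓ (φ 0)‖ / 2)⁻¹ := inv_anti₀ hpos g2
    calc ‖ℓ (φ (t : ℂ))‖⁻¹ * ‖ℓ (φ (t : ℂ) - ψ) • φ' (t : ℂ) + ℓ ψ • (φ' (t : ℂ) - ψ') - ℓ (φ' (t : ℂ) - ψ') • φ (t : ℂ) - ℓ ψ' • (φ (t : ℂ) - ψ)‖
        ≤ (‖ℓ (φ 0)‖ / 2)⁻¹ * ((L * C₁ * M₂ + L * M₁ * C₂ + L * C₂ * M₁ + L * M₂ * C₁) * t ^ (m + 1)) :=
          mul_le_mul hinv hn1 (norm_nonneg _) (by positivity)
      _ = C * t ^ (m + 1) := by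
          rw [hC]
          field_simp
  have hQ' : QF P b' a χ' c' ρ' (Jt m w' s₀' z₀') = (cc 0)⁻¹ * QF P b a χ c ρ (Jt m w s₀ z₀) := by
    rw [QF, QF, ← hφ, ← hφ', hjet]
    exact P.scale φ hd cc hcca hcc0ne
  rw [hQ', hcc0, inv_div]
  field_simp

end Pool.Agent.G3.C
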