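import Pool.Agent.G3.C.PVa

/-!
# G3 C PVb: the value of the jet form on a smooth family

`pval P a b Φ s z x`, for a representative `x` of the point `Φ s z`: in every straight chart it is `QF * α`, where `χ.σ = α • x` (`pval_eq`, from `QF_unique` with `Φ' = Φ`).
-/

set_option autoImplicit false

open Topology Filter Metric

namespace Pool.Agent.G3.C

open Pool.Agent.H36.BP (EN fs wd)
open Pool.Agent.H14.PP (IsCone)
open Pool.Agent.H62.EF (MN pr)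
open Pool.Agent.AD (Vd Chart Charts)
open Pool.Agent.TG (TMap Lat Str ms tl)

variable {N k : ℕ} {X : Set (EN N)} {Λ : AddSubgroup (Vd (k + 1))} {u : EN N → Vd (k + 1)} {ν a b c : Vd (k + 1)} {m : ℕ} {ρ : ℝ}

open Classical in
/-- the value of the jet form on the family, for the representative `x` of `Φ s z` -/
noncomputable def pval (P : JForm X Λ u ν m) (a b : Vd (k + 1)) (Φ : ℝ → ℂ → MN N) (s : ℝ) (z : ℂ) (x : EN N) : ℂ :=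
  if h : ∃ (t : ℂ) (χ : Chart (k + 2) X) (c : Vd (k + 1)) (ρ : ℝ) (w : ℕ → ℝ → ℂ → ℂ) (r : ℝ) (α : ℂ), Box X Λ u a ν b Φ χ c ρ w s z r ∧
      χ.σ (cz b ν a c ρ (w 0 s z) s z) = α • x ∧ α ≠ 0 ∧ t = QF P b a χ c ρ (Jt m w s z) * α then h.choose else 0

private theorem pvb_cz (l : ℝ × ℂ) (x s z : ℂ) :
    cz b ν a (c - ((l.1 : ℂ) • ν + l.2 • a)) ρ x s z = cz b ν a c ρ x (s + (l.1 : ℂ)) (z + l.2) := by
  unfold cz tz
  congr 2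
  rw [add_smul, add_smul]
  abel

private theorem pvb_ne (hX : IsCone X) {Φ : ℝ → ℂ → MN N} {χ : Chart (k + 2) X} {w : ℕ → ℝ → ℂ → ℂ} {s₀ : ℝ} {z₀ : ℂ} {r : ℝ}
    (B : Box X Λ u a ν b Φ χ c ρ w s₀ z₀ r) {s : ℝ} {z : ℂ} (hs : s ∈ Set.Ioo (s₀ - r) (s₀ + r)) (hz : z ∈ ball z₀ r) :
    χ.σ (cz b ν a c ρ (w 0 s z) s z) ≠ 0 := by
  intro h
  have h1 := (χ.σ_mem _ (B.mem s hs z hz)).1
  rw [h] at h1
  exact hX.zero_notMem h1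

private theorem pvb_self {s₀ r : ℝ} (hr : 0 < r) : s₀ ∈ Set.Ioo (s₀ - r) (s₀ + r) := ⟨by linarith, by linarith⟩

private theorem pvb_exists (hX : IsCone X) {Φ : ℝ → ℂ → MN N} {χ : Chart (k + 2) X} {w : ℕ → ℝ → ℂ → ℂ} {s₀ : ℝ} {z₀ : ℂ} {r : ℝ}
    (B : Box X Λ u a ν b Φ χ c ρ w s₀ z₀ r) {s : ℝ} {z : ℂ} (hs : s ∈ Set.Ioo (s₀ - r) (s₀ + r)) (hz : z ∈ ball z₀ r)
    {x : EN N} (hx : x ≠ 0) (hΦ : Φ s z = pr x) : ∃ α : ℂ, α ≠ 0 ∧ χ.σ (cz b ν a c ρ (w 0 s z) s z) = α • x := by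
  have h := B.eq s hs z hz
  rw [hΦ] at h
  exact (Pool.Agent.H62.EF.pr_eq_iff (pvb_ne hX B hs hz) hx).1 h.symm

theorem Box.move {Φ : ℝ → ℂ → MN N} {χ : Chart (k + 2) X} {w : ℕ → ℝ → ℂ → ℂ} {s₀ : ℝ} {z₀ : ℂ} {r : ℝ} (B : Box X Λ u a ν b Φ χ c ρ w s₀ z₀ r)
    {s : ℝ} {z : ℂ} (hs : s ∈ Set.Ioo (s₀ - r) (s₀ + r)) (hz : z ∈ ball z₀ r) : ∃ r' : ℝ, Box X Λ u a ν b Φ χ c ρ w s z r' := by
  have hr := B.pos
  rw [Set.mem_Ioo] at hs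
  rw [mem_ball] at hz
  obtain ⟨r', hr'def⟩ : ∃ r' : ℝ, r' = min (min (s - (s₀ - r)) ((s₀ + r) - s)) (r - dist z z₀) := ⟨_, rfl⟩
  have h1 : r' ≤ s - (s₀ - r) := by rw [hr'def]; exact (min_le_left _ _).trans (min_le_left _ _)
  have h2 : r' ≤ (s₀ + r) - s := by rw [hr'def]; exact (min_le_left _ _).trans (min_le_right _ _)
  have h3 : r' ≤ r - dist z z₀ := by rw [hr'def]; exact min_le_right _ _
  have h0 : 0 < r' := by
    rw [hr'def]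
    exact lt_min (lt_min (by linarith [hs.1]) (by linarith [hs.2])) (by linarith)
  have hI : Set.Ioo (s - r') (s + r') ⊆ Set.Ioo (s₀ - r) (s₀ + r) := Set.Ioo_subset_Ioo (by linarith) (by linarith)
  have hD : ball z r' ⊆ ball z₀ r := ball_subset_ball' (by linarith)
  exact ⟨r', h0, B.str, ⟨fun j s hs z hz => B.jet.der j s (hI hs) z (hD hz), fun j => (B.jet.cont j).mono (Set.prod_mono hI hD),
    fun j s hs => (B.jet.hol j s (hI hs)).mono hD⟩, fun s hs z hz => B.mem s (hI hs) z (hD hz), fun s hs z hz => B.eq s (hI hs) z (hD hz)⟩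

theorem pval_eq (hX : IsCone X) {Φ : ℝ → ℂ → MN N} {χ : Chart (k + 2) X} {w : ℕ → ℝ → ℂ → ℂ} {s : ℝ} {z : ℂ} {r : ℝ} (B : Box X Λ u a ν b Φ χ c ρ w s z r)
    (P : JForm X Λ u ν m) {x : EN N} {α : ℂ} (hα : χ.σ (cz b ν a c ρ (w 0 s z) s z) = α • x) (hα0 : α ≠ 0) :
    pval P a b Φ s z x = QF P b a χ c ρ (Jt m w s z) * α := by
  have h : ∃ (t : ℂ) (χ : Chart (k + 2) X) (c : Vd (k + 1)) (ρ : ℝ) (w : ℕ → ℝ → ℂ → ℂ) (r : ℝ) (α : ℂ), Box X Λ u a ν b Φ χ c ρ w s z r ∧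
      χ.σ (cz b ν a c ρ (w 0 s z) s z) = α • x ∧ α ≠ 0 ∧ t = QF P b a χ c ρ (Jt m w s z) * α :=
    ⟨_, χ, c, ρ, w, r, α, B, hα, hα0, rfl⟩
  unfold pval
  rw [dif_pos h]
  obtain ⟨χ', c', ρ', w', r', α', B', hα', hα'0, ht⟩ := h.choose_spec
  rw [ht]
  exact QF_unique hX B' B (Eventually.of_forall fun t => rfl) P hα' hα hα'0 hα0

theorem pval_smul (hX : IsCone X) {Φ : ℝ → ℂ → MN N} {s : ℝ} {z : ℂ} (hS : Smo X Λ u a ν b Φ s z) (P : JForm X Λ u ν m) {x : EN N} (hx : x ≠ 0)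
    (hΦ : Φ s z = pr x) {d : ℂ} (hd : d ≠ 0) : pval P a b Φ s z (d • x) = d⁻¹ * pval P a b Φ s z x := by
  obtain ⟨χ, c, ρ, w, r, B⟩ := hS
  obtain ⟨α, hα0, hα⟩ := pvb_exists hX B (pvb_self B.pos) (mem_ball_self B.pos) hx hΦ
  have hα' : χ.σ (cz b ν a c ρ (w 0 s z) s z) = (α * d⁻¹) • (d • x) := by
    rw [smul_smul, mul_assoc, inv_mul_cancel₀ hd, mul_one]
    exact hα
  rw [pval_eq hX B P hα hα0, pval_eq hX B P hα' (mul_ne_zero hα0 (inv_ne_zero hd))]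
  ring

/-- the translated family -/
theorem Box.tr {Φ : ℝ → ℂ → MN N} {χ : Chart (k + 2) X} {w : ℕ → ℝ → ℂ → ℂ} {s : ℝ} {z : ℂ} {r : ℝ} {l : ℝ × ℂ}
    (B : Box X Λ u a ν b Φ χ c ρ w (s + l.1) (z + l.2) r) (hl : (l.1 : ℂ) • ν + l.2 • a ∈ Λ) :
    Box X Λ u a ν b (fun s z => Φ (s + l.1) (z + l.2)) χ (c - ((l.1 : ℂ) • ν + l.2 • a)) ρ (fun j s z => w j (s + l.1) (z + l.2)) s z r := by
  have hI : ∀ t : ℝ, t ∈ Set.Ioo (s - r) (s + r) → t + l.1 ∈ Set.Ioo (s + l.1 - r) (s + l.1 + r) := by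
    intro t ht
    exact ⟨by linarith [ht.1], by linarith [ht.2]⟩
  have hD : ∀ y : ℂ, y ∈ ball z r → y + l.2 ∈ ball (z + l.2) r := by
    intro y hy
    rw [mem_ball, dist_eq_norm] at hy ⊢
    rwa [add_sub_add_right_eq_sub]
  refine ⟨B.pos, ⟨B.str.pos, fun p hp => ?_⟩, ⟨fun j t ht y hy => ?_, fun j => ?_, fun j t ht => ?_⟩, fun t ht y hy => ?_, fun t ht y hy => ?_⟩
  · have h1 := Λ.add_mem (B.str.lift p hp) hl
    have e : u (χ.σ p) - ms (c - ((l.1 : ℂ) • ν + l.2 • a)) ρ p = u (χ.σ p) - ms c ρ p + ((l.1 : ℂ) • ν + l.2 • a) := by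
      unfold ms
      abel
    rw [e]
    exact h1
  · exact (B.jet.der j (t + l.1) (hI t ht) (y + l.2) (hD y hy)).comp_add_const t l.1
  · have h1 : Continuous fun q : ℝ × ℂ => (q.1 + l.1, q.2 + l.2) := by fun_prop
    exact (B.jet.cont j).comp h1.continuousOn fun q hq => ⟨hI q.1 hq.1, hD q.2 hq.2⟩
  · exact (B.jet.hol j (t + l.1) (hI t ht)).comp (differentiableOn_id.add_const l.2) fun y hy => hD y hy
  · have h1 := B.mem (t + l.1) (hI t ht) (y + l.2) (hD y hy)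
    rw [pvb_cz]
    push_cast at h1
    exact h1
  · have h1 := B.eq (t + l.1) (hI t ht) (y + l.2) (hD y hy)
    rw [pvb_cz]
    push_cast at h1
    exact h1

theorem pval_tr (hX : IsCone X) {Φ : ℝ → ℂ → MN N} {s : ℝ} {z : ℂ} {l : ℝ × ℂ} (hl : (l.1 : ℂ) • ν + l.2 • a ∈ Λ) (hS : Smo X Λ u a ν b Φ (s + l.1) (z + l.2))
    (P : JForm X Λ u ν m) {x : EN N} (hx : x ≠ 0) (hΦ : Φ (s + l.1) (z + l.2) = pr x) :
    pval P a b (fun s z => Φ (s + l.1) (z + l.2)) s z x = pval P a b Φ (s + l.1) (z + l.2) x := by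
  obtain ⟨χ, c, ρ, w, r, B⟩ := hS
  obtain ⟨α, hα0, hα⟩ := pvb_exists hX B (pvb_self B.pos) (mem_ball_self B.pos) hx hΦ
  have hα' : χ.σ (cz b ν a (c - ((l.1 : ℂ) • ν + l.2 • a)) ρ ((fun j s z => w j (s + l.1) (z + l.2)) 0 s z) s z) = α • x := by
    rw [pvb_cz]
    push_cast at hα
    exact hα
  rw [pval_eq hX B P hα hα0, pval_eq hX (B.tr hl) P hα' hα0]
  congr 1
  unfold QF
  congr 2
  funext t
  unfold crv Jt
  dsimp only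
  rw [pvb_cz]
  congr 2
  push_cast
  ring

/-- on a leaf the value is a holomorphic function -/
theorem pval_hol (hX : IsCone X) {Φ : ℝ → ℂ → MN N} {s : ℝ} {F : ℂ → EN N} (hF : Differentiable ℂ F) (hF0 : ∀ z, F z ≠ 0) (hΦ : ∀ z, Φ s z = pr (F z))
    {z₀ : ℂ} (hS : Smo X Λ u a ν b Φ s z₀) (P : JForm X Λ u ν m) : AnalyticAt ℂ (fun z => pval P a b Φ s z (F z)) z₀ := by
  obtain ⟨χ, c, ρ, w, r, B⟩ := hS
  have hs : s ∈ Set.Ioo (s - r) (s + r) := pvb_self B.pos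
  have hz₀ : z₀ ∈ ball z₀ r := mem_ball_self B.pos
  obtain ⟨i, hi⟩ : ∃ i, F z₀ i ≠ 0 := by
    by_contra hcon
    push Not at hcon
    exact hF0 z₀ (PiLp.ext hcon)
  have hw : ∀ j, AnalyticAt ℂ (w j s) z₀ := fun j => (B.jet.hol j s hs).analyticAt (isOpen_ball.mem_nhds hz₀)
  have hJ : AnalyticAt ℂ (fun z => Jt m w s z) z₀ := analyticAt_const.prod (analyticAt_id.prod (AnalyticAt.pi fun j => hw j))
  have hQ : AnalyticAt ℂ (QF P b a χ c ρ) (Jt m w s z₀) := QF_analytic P B.str _ (B.mem s hs z₀ hz₀)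
  have hcz : AnalyticAt ℂ (fun z => cz b ν a c ρ (w 0 s z) s z) z₀ := cz_analytic (hw 0) analyticAt_const analyticAt_id
  have hσ : AnalyticAt ℂ (fun z => χ.σ (cz b ν a c ρ (w 0 s z) s z)) z₀ :=
    AnalyticAt.fun_comp (g := χ.σ) (f := fun z => cz b ν a c ρ (w 0 s z) s z) (χ.σ_an _ (B.mem s hs z₀ hz₀)) hcz
  have hcoord : ∀ x : EN N, AnalyticAt ℂ (fun y : EN N => y i) x := fun x => (EuclideanSpace.proj (𝕜 := ℂ) i : EN N →L[ℂ] ℂ).analyticAt x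
  have h1 : AnalyticAt ℂ (fun z => χ.σ (cz b ν a c ρ (w 0 s z) s z) i) z₀ := (hcoord _).fun_comp hσ
  have h2 : AnalyticAt ℂ (fun z => F z i) z₀ := (hcoord _).fun_comp (hF.analyticAt z₀)
  have h3 : AnalyticAt ℂ (fun z => QF P b a χ c ρ (Jt m w s z) * (χ.σ (cz b ν a c ρ (w 0 s z) s z) i / F z i)) z₀ :=
    (hQ.fun_comp hJ).mul (h1.div h2 hi)
  refine h3.congr ?_
  filter_upwards [isOpen_ball.mem_nhds hz₀, h2.continuousAt.eventually_ne hi] with z hz hzi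
  obtain ⟨r', B'⟩ := B.move hs hz
  obtain ⟨α, hα0, hα⟩ := pvb_exists hX B hs hz (hF0 z) (hΦ z)
  rw [pval_eq hX B' P hα hα0, hα, PiLp.smul_apply, smul_eq_mul, mul_div_assoc, div_self hzi, mul_one]

/-- the norm of the value is locally bounded -/
theorem pval_locBound (hX : IsCone X) {Φ : ℝ → ℂ → MN N} {s₀ : ℝ} {z₀ : ℂ} (hS : Smo X Λ u a ν b Φ s₀ z₀) (P : JForm X Λ u ν m) :
    ∃ C : ℝ, ∀ᶠ q in 𝓝 ((s₀, z₀) : ℝ × ℂ), ∀ x : EN N, x ≠ 0 → Φ q.1 q.2 = pr x → ‖pval P a b Φ q.1 q.2 x‖ * ‖x‖ ≤ C := by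
  obtain ⟨χ, c, ρ, w, r, B⟩ := hS
  have hs₀ : s₀ ∈ Set.Ioo (s₀ - r) (s₀ + r) := pvb_self B.pos
  have hz₀ : z₀ ∈ ball z₀ r := mem_ball_self B.pos
  have hnh : Set.Ioo (s₀ - r) (s₀ + r) ×ˢ ball z₀ r ∈ 𝓝 ((s₀, z₀) : ℝ × ℂ) := (isOpen_Ioo.prod isOpen_ball).mem_nhds ⟨hs₀, hz₀⟩
  have hw : ∀ j, ContinuousAt (fun q : ℝ × ℂ => w j q.1 q.2) (s₀, z₀) := fun j => (B.jet.cont j).continuousAt hnh
  have hre : ContinuousAt (fun q : ℝ × ℂ => (q.1 : ℂ)) (s₀, z₀) := by fun_prop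
  have hJ : ContinuousAt (fun q : ℝ × ℂ => Jt m w q.1 q.2) (s₀, z₀) :=
    hre.prodMk (continuousAt_snd.prodMk (continuousAt_pi.2 fun j => hw j))
  have hQ : ContinuousAt (fun q : ℝ × ℂ => QF P b a χ c ρ (Jt m w q.1 q.2)) (s₀, z₀) := by
    have h1 : ContinuousAt (QF P b a χ c ρ) (Jt m w s₀ z₀) := (QF_analytic P B.str _ (B.mem s₀ hs₀ z₀ hz₀)).continuousAt
    exact ContinuousAt.comp (g := QF P b a χ c ρ) (f := fun q : ℝ × ℂ => Jt m w q.1 q.2) h1 hJ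
  have hcz : ContinuousAt (fun q : ℝ × ℂ => cz b ν a c ρ (w 0 q.1 q.2) q.1 q.2) (s₀, z₀) := by
    have h1 : ContinuousAt (fun p : ℂ × ℂ × ℂ => cz b ν a c ρ p.1 p.2.1 p.2.2) (w 0 s₀ z₀, (s₀ : ℂ), z₀) :=
      (cz_analytic analyticAt_fst (analyticAt_fst.fun_comp analyticAt_snd) (analyticAt_snd.fun_comp analyticAt_snd)).continuousAt
    exact ContinuousAt.comp (g := fun p : ℂ × ℂ × ℂ => cz b ν a c ρ p.1 p.2.1 p.2.2) (f := fun q : ℝ × ℂ => (w 0 q.1 q.2, (q.1 : ℂ), q.2)) h1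
      ((hw 0).prodMk (hre.prodMk continuousAt_snd))
  have hσ : ContinuousAt (fun q : ℝ × ℂ => χ.σ (cz b ν a c ρ (w 0 q.1 q.2) q.1 q.2)) (s₀, z₀) := by
    have h1 : ContinuousAt χ.σ (cz b ν a c ρ (w 0 s₀ z₀) s₀ z₀) := (χ.σ_an _ (B.mem s₀ hs₀ z₀ hz₀)).continuousAt
    exact ContinuousAt.comp (g := χ.σ) (f := fun q : ℝ × ℂ => cz b ν a c ρ (w 0 q.1 q.2) q.1 q.2) h1 hcz
  have hG : ContinuousAt (fun q : ℝ × ℂ => ‖QF P b a χ c ρ (Jt m w q.1 q.2)‖ * ‖χ.σ (cz b ν a c ρ (w 0 q.1 q.2) q.1 q.2)‖) (s₀, z₀) :=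
    hQ.norm.mul hσ.norm
  obtain ⟨C, hC⟩ := exists_gt (‖QF P b a χ c ρ (Jt m w s₀ z₀)‖ * ‖χ.σ (cz b ν a c ρ (w 0 s₀ z₀) s₀ z₀)‖)
  refine ⟨C, ?_⟩
  filter_upwards [hnh, hG.eventually_lt_const hC] with q hq hqC x hx hΦx
  obtain ⟨r', B'⟩ := B.move hq.1 hq.2
  obtain ⟨α, hα0, hα⟩ := pvb_exists hX B hq.1 hq.2 hx hΦx
  rw [pval_eq hX B' P hα hα0, norm_mul, mul_assoc, ← norm_smul, ← hα]
  exact hqC.le

end Pool.Agent.G3.C
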