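import Pool.Agent.G3.C.GCb

/-!
# G3 C PVc: the bound for the jet form on the families, off the bad points

`Off Bd ρ` is closed and `LT`-invariant (`bd_inv` for `l` and `- l`), the part in the ball of radius `R` (`TDat.cpt`) is compact: `pval_locBound_bd` gives a bound there, for the
finitely many `Φ ∈ FF`.  For an arbitrary point `q` choose `l ∈ LT` with `‖q - l‖ ≤ R`; `q = (s + l.1, z + l.2)` with `(s, z) = q - l`; apply the bound to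
`fun s z => Φ (s + l.1) (z + l.2) ∈ FF` and `pval_tr`.
-/

set_option autoImplicit false

open Topology Filter Metric

namespace Pool.Agent.G3.C

open Pool.Agent.H36.BP (EN fs wd)
open Pool.Agent.H14.PP (IsCone)
open Pool.Agent.H62.EF (MN pr)
open Pool.Agent.AD (Vd Chart Charts)
open Pool.Agent.TG (TMap Lat Str ms tl)

variable {N k : ℕ} {X : Set (EN N)} {Λ : AddSubgroup (Vd (k + 1))} {u : EN N → Vd (k + 1)} {ν a b c : Vd (k + 1)} {m : ℕ} {ρ : ℝ}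
  {LT : AddSubgroup (ℝ × ℂ)} {Dt Bd : Set (ℂ × ℂ)} {FF : Set (ℝ → ℂ → MN N)}

theorem Off_closed (Bd : Set (ℂ × ℂ)) (ρ : ℝ) : IsClosed (Off Bd ρ) := by
  have h : Off Bd ρ = ⋂ β ∈ Bd, {p : ℝ × ℂ | ρ ≤ dist ((p.1 : ℂ), p.2) β} := by
    ext p
    simp only [Off, Set.mem_ofPred_eq, Set.mem_iInter]
  rw [h]
  refine isClosed_biInter fun β _ => ?_
  refine isClosed_le continuous_const ?_
  fun_prop

theorem Off_notMem (hρ : 0 < ρ) {q : ℝ × ℂ} (hq : q ∈ Off Bd ρ) : ((q.1 : ℂ), q.2) ∉ Bd := by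
  intro h
  have h1 := hq _ h
  rw [dist_self] at h1
  linarith

theorem TDat.off_sub (D : TDat X Λ u a ν b LT Dt Bd ρ FF) {q l : ℝ × ℂ} (hq : q ∈ Off Bd ρ) (hl : l ∈ LT) : q - l ∈ Off Bd ρ := by
  intro β hβ
  have h1 := hq _ (D.bd_inv β hβ l hl)
  refine h1.trans (le_of_eq ?_)
  rw [Prod.dist_eq, Prod.dist_eq, dist_eq_norm, dist_eq_norm, dist_eq_norm, dist_eq_norm]
  simp only [Prod.fst_sub, Prod.snd_sub]
  congr 2
  · push_cast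
    ring
  · ring

theorem TDat.dt_sub (D : TDat X Λ u a ν b LT Dt Bd ρ FF) {q l : ℝ × ℂ} (hq : ((q.1 : ℂ), q.2) ∉ Dt) (hl : l ∈ LT) : ((((q - l).1 : ℝ) : ℂ), (q - l).2) ∉ Dt := by
  intro h
  apply hq
  have h1 := D.dt_inv _ h l hl
  convert h1 using 2
  · simp only [Prod.fst_sub]
    push_cast
    ring
  · simp only [Prod.snd_sub]
    ring

theorem pval_bound (D : TDat X Λ u a ν b LT Dt Bd ρ FF) (P : JForm X Λ u ν m) :
    ∃ C : ℝ, ∀ Φ ∈ FF, ∀ q ∈ Off Bd ρ, ((q.1 : ℂ), q.2) ∉ Dt → ∀ x : EN N, x ≠ 0 → Φ q.1 q.2 = pr x → ‖pval P a b Φ q.1 q.2 x‖ * ‖x‖ ≤ C := by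
  obtain ⟨R, hR, hcov⟩ := D.cpt
  have hK : IsCompact (Off Bd ρ ∩ closedBall (0 : ℝ × ℂ) R) := (isCompact_closedBall (0 : ℝ × ℂ) R).inter_left (Off_closed Bd ρ)
  have h1 : ∀ Φ ∈ FF, ∃ C : ℝ, ∀ q ∈ Off Bd ρ ∩ closedBall (0 : ℝ × ℂ) R, ((q.1 : ℂ), q.2) ∉ Dt → ∀ x : EN N, x ≠ 0 → Φ q.1 q.2 = pr x → ‖pval P a b Φ q.1 q.2 x‖ * ‖x‖ ≤ C := by
    intro Φ hΦ
    refine hK.induction_on (p := fun S : Set (ℝ × ℂ) => ∃ C : ℝ, ∀ q ∈ S, ((q.1 : ℂ), q.2) ∉ Dt → ∀ x : EN N, x ≠ 0 → Φ q.1 q.2 = pr x → ‖pval P a b Φ q.1 q.2 x‖ * ‖x‖ ≤ C) ?_ ?_ ?_ ?_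
    · exact ⟨0, fun q hq => absurd hq (Set.notMem_empty q)⟩
    · rintro S T hST ⟨C, hC⟩
      exact ⟨C, fun q hq => hC q (hST hq)⟩
    · rintro S T ⟨C, hC⟩ ⟨C', hC'⟩
      refine ⟨max C C', fun q hq hqD x hx hx' => ?_⟩
      rcases hq with hq | hq
      · exact (hC q hq hqD x hx hx').trans (le_max_left _ _)
      · exact (hC' q hq hqD x hx hx').trans (le_max_right _ _)
    · intro q hq
      obtain ⟨C, hC⟩ := pval_locBound_bd D P hΦ (Off_notMem D.sep.pos hq.1)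
      refine ⟨{q' : ℝ × ℂ | ((q'.1 : ℂ), q'.2) ∉ Dt → ∀ x : EN N, x ≠ 0 → Φ q'.1 q'.2 = pr x → ‖pval P a b Φ q'.1 q'.2 x‖ * ‖x‖ ≤ C}, ?_, C, fun q' hq' => hq'⟩
      exact mem_nhdsWithin_of_mem_nhds hC
  choose! Cf hCf using h1
  obtain ⟨C, hC⟩ := (D.fin.image Cf).bddAbove
  refine ⟨C, fun Φ hΦ q hq hqD x hx hΦx => ?_⟩
  obtain ⟨l, hl, hlR⟩ := hcov q
  set Φ' : ℝ → ℂ → MN N := fun s z => Φ (s + l.1) (z + l.2) with hΦ'
  have hΦ'F : Φ' ∈ FF := D.tr Φ hΦ l hl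
  have hq' : q - l ∈ Off Bd ρ ∩ closedBall (0 : ℝ × ℂ) R := ⟨D.off_sub hq hl, by rw [mem_closedBall, dist_zero_right]; exact hlR⟩
  have e1 : (q - l).1 + l.1 = q.1 := by simp
  have e2 : (q - l).2 + l.2 = q.2 := by simp
  have hx' : Φ ((q - l).1 + l.1) ((q - l).2 + l.2) = pr x := by rw [e1, e2]; exact hΦx
  have hS : Smo X Λ u a ν b Φ ((q - l).1 + l.1) ((q - l).2 + l.2) := by
    rw [e1, e2]
    exact D.smo Φ hΦ q.1 q.2 hqD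
  have h2 := hCf Φ' hΦ'F (q - l) hq' (D.dt_sub hqD hl) x hx hx'
  have h3 := pval_tr D.cone (D.per l hl) hS P hx hx'
  rw [h3, e1, e2] at h2
  exact h2.trans (hC ⟨Φ', hΦ'F, rfl⟩)

end Pool.Agent.G3.C
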