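import Mathlib

/-!
# G3 C Rem: removable singularities at isolated points

`g z = f z` for `z ∉ S`, `g z = limUnder (𝓝[≠] z) f` for `z ∈ S`; near every point of `U` this is `Complex.differentiableOn_update_limUnder_of_bddAbove`.
-/

set_option autoImplicit false

open Topology Filter Metric

namespace Pool.Agent.G3.C

theorem removable_discrete {U S : Set ℂ} (hU : IsOpen U) (hS : ∀ z ∈ U, ∀ᶠ z' in 𝓝[≠] z, z' ∉ S) {f : ℂ → ℂ} (hf : ∀ z ∈ U, z ∉ S → AnalyticAt ℂ f z)
    (hb : ∀ z ∈ U, ∃ C : ℝ, ∀ᶠ z' in 𝓝[≠] z, ‖f z'‖ ≤ C) : ∃ g : ℂ → ℂ, DifferentiableOn ℂ g U ∧ ∀ z ∈ U, z ∉ S → g z = f z := by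
  classical
  refine ⟨fun z => if z ∈ S then limUnder (𝓝[≠] z) f else f z, ?_, fun z _ hz => by simp [hz]⟩
  intro z hz
  apply DifferentiableAt.differentiableWithinAt
  by_cases hzS : z ∈ S
  · obtain ⟨C, hC⟩ := hb z hz
    have h1 : ∀ᶠ z' in 𝓝[≠] z, z' ∉ S ∧ ‖f z'‖ ≤ C ∧ z' ∈ U :=
      (hS z hz).and (hC.and (mem_nhdsWithin_of_mem_nhds (hU.mem_nhds hz)))
    rw [eventually_nhdsWithin_iff, Metric.eventually_nhds_iff_ball] at h1
    obtain ⟨r, hr, h1⟩ := h1
    have hd : DifferentiableOn ℂ f (ball z r \ {z}) := by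
      intro w hw
      have h2 := h1 w hw.1 hw.2
      exact (hf w h2.2.2 h2.1).differentiableAt.differentiableWithinAt
    have hbd : BddAbove (norm ∘ f '' (ball z r \ {z})) := by
      refine ⟨C, ?_⟩
      rintro _ ⟨w, hw, rfl⟩
      exact (h1 w hw.1 hw.2).2.1
    have h3 := Complex.differentiableOn_update_limUnder_of_bddAbove (ball_mem_nhds z hr) hd hbd
    have h4 := h3.differentiableAt (ball_mem_nhds z hr)
    refine h4.congr_of_eventuallyEq ?_
    filter_upwards [ball_mem_nhds z hr] with w hw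
    by_cases hwz : w = z
    · subst hwz
      simp [hzS]
    · have h2 := h1 w hw hwz
      simp [h2.1, hwz]
  · refine (hf z hz hzS).differentiableAt.congr_of_eventuallyEq ?_
    have h1 := hS z hz
    rw [eventually_nhdsWithin_iff] at h1
    filter_upwards [h1] with w hw
    by_cases hwz : w = z
    · subst hwz
      simp [hzS]
    · simp [hw hwz]

end Pool.Agent.G3.C
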