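import Pool.Agent.G3.C.PVc
import Pool.Agent.G3.C.Rem

/-!
# G3 C PZ: the jet form vanishes on the families

Let `Φ ∈ FF`, `s` real, `F ∈ Gc` the lift of `Φ s`, `f z = pval P a b Φ s z (F z)`, analytic at all `z` off `Dt` (`pval_hol`) and locally bounded at all `z` with `(s, z) ∉ Bd`
(`pval_locBound_bd`, `F z ≠ 0`): `removable_discrete` with `U = {z | (s, z) ∉ Bd}`, `S = {z | (s, z) ∈ Dt}` (`dt_iso`) gives `g` holomorphic on `U`.
`‖g z‖ * ‖F z‖ ≤ C` if `(s, z) ∈ Off Bd ρ` (`pval_bound`; for `z` over `Dt` the points near `z` are in `Off Bd (ρ / 2)`: use `pval_bound` for the radius `ρ / 2`, i.e. for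
`D' : TDat … (ρ / 2) …`, from `D` by `Sep` with `ρ / 2`, on `Off Bd (ρ / 2)`, and continuity of `g`, `F`).
Let `HP ω h` be the half plane of `bd_half`, `z ∈ HP ω (h + 2 ρ)`, `(s, z) ∉ Off Bd ρ`: `β ∈ Bd` with `dist ((s, z), β) < ρ`; `closedBall β.2 ρ ⊆ HP ω h`, no point of it is
over a bad point (separation `8 ρ`, and `β` itself is not over the leaf), and its boundary is in `Off Bd ρ`: the maximum principle for the holomorphic vector `g z • F z`
(`Complex.norm_le_of_forall_mem_frontier_norm_le`) gives the bound `C` also there.  `hp_zero` on `HP ω (h + 2 ρ)` with `L z = log ‖F z‖`, `TDat.gr`: `g = 0` there.  The set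
`{z | ((s : ℂ), z) ∉ Bd}` is open and the complement of a countable set, so connected (`Set.Countable.isConnected_compl_of_one_lt_rank`): `g = 0` on it.
-/

set_option autoImplicit false

open Topology Filter Metric

namespace Pool.Agent.G3.C

open Pool.Agent.H36.BP (EN fs wd)
open Pool.Agent.H14.PP (IsCone)
open Pool.Agent.H62.EF (MN pr)
open Pool.Agent.AD (Vd Chart Charts)
open Pool.Agent.TG (TMap Lat Str ms tl)

variable {N k : ℕ} {X : Set (EN N)} {Λ : AddSubgroup (Vd (k + 1))} {u : EN N → Vd (k + 1)} {ν a b c : Vd (k + 1)} {m : ℕ} {ρ : ℝ}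
  {LT : AddSubgroup (ℝ × ℂ)} {Dt Bd : Set (ℂ × ℂ)} {FF : Set (ℝ → ℂ → MN N)}

/-- the bad points of a leaf are separated -/
private theorem pz_sep (hB : Sep Bd ρ) (σ : ℂ) : {z : ℂ | (σ, z) ∈ Bd}.Pairwise fun x y => 8 * ρ ≤ dist x y := by
  intro x hx y hy hxy
  have h1 := hB.sep _ hx _ hy (fun h => hxy (Prod.ext_iff.1 h).2)
  rwa [Prod.dist_eq, dist_self, max_eq_right dist_nonneg] at h1

/-- the good points of a leaf -/
theorem leaf_open (hB : Sep Bd ρ) (σ : ℂ) : IsOpen {z : ℂ | (σ, z) ∉ Bd} := by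
  have h := Metric.isClosed_of_pairwise_le_dist (s := {z : ℂ | (σ, z) ∈ Bd}) (ε := 8 * ρ) (by linarith [hB.pos]) (pz_sep hB σ)
  exact h.isOpen_compl

theorem leaf_countable (hB : Sep Bd ρ) (σ : ℂ) : {z : ℂ | (σ, z) ∈ Bd}.Countable := by
  have hρ := hB.pos
  refine Set.PairwiseDisjoint.countable_of_isOpen (s := fun z : ℂ => ball z (4 * ρ)) ?_ (fun _ _ => isOpen_ball)
    fun z _ => ⟨z, mem_ball_self (by linarith)⟩
  intro x hx y hy hxy
  refine ball_disjoint_ball ?_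
  have h1 := pz_sep hB σ hx hy hxy
  linarith

theorem leaf_connected (hB : Sep Bd ρ) (σ : ℂ) : IsConnected {z : ℂ | (σ, z) ∉ Bd} := by
  refine Set.Countable.isConnected_compl_of_one_lt_rank ?_ (leaf_countable hB σ)
  simp

private theorem pz_ne {X : Set (EN N)} (hX : IsCone X) {x : EN N} (h : x ∈ X) : x ≠ 0 := by
  rintro rfl
  exact hX.zero_notMem h

/-- the bound for the value on a half plane -/
private theorem pz_bound (hB : Sep Bd ρ) {s : ℝ} {F : ℂ → EN N} (hF : Differentiable ℂ F) {f : ℂ → ℂ} (hf : ∀ z, ((s : ℂ), z) ∉ Bd → AnalyticAt ℂ f z) {C : ℝ}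
    (hC : ∀ z, (s, z) ∈ Off Bd ρ → ‖f z‖ * ‖F z‖ ≤ C) {ω : ℂ} {h : ℝ} (hω : ‖ω‖ = 1) (hH : ∀ z ∈ HP ω h, ((s : ℂ), z) ∉ Bd) {z : ℂ}
    (hz : z ∈ HP ω (h + 2 * ρ)) : ‖f z‖ * ‖F z‖ ≤ C := by
  have hρ := hB.pos
  by_cases ho : (s, z) ∈ Off Bd ρ
  · exact hC z ho
  obtain ⟨β, hβ, hd⟩ : ∃ β ∈ Bd, dist ((s : ℂ), z) β < ρ := by
    simp only [Off, Set.mem_ofPred_eq] at ho
    push Not at ho
    exact ho
  rw [Prod.dist_eq, max_lt_iff] at hd
  have hsub : ∀ w ∈ closedBall β.2 ρ, ((s : ℂ), w) ∉ Bd := by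
    intro w hw
    refine hH w ?_
    have h1 : ‖(starRingEnd ℂ) ω * (z - w)‖ < 2 * ρ := by
      rw [norm_mul, RCLike.norm_conj, hω, one_mul, ← dist_eq_norm]
      have h2 := dist_triangle z β.2 w
      rw [mem_closedBall, dist_comm] at hw
      linarith [hd.2]
    have h3 := (Complex.abs_im_le_norm ((starRingEnd ℂ) ω * (z - w))).trans_lt h1
    rw [mul_sub, Complex.sub_im] at h3
    have h4 := (abs_lt.1 h3).2
    simp only [HP, Set.mem_ofPred_eq] at hz ⊢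
    linarith
  have hdiff : ∀ w ∈ closedBall β.2 ρ, DifferentiableAt ℂ (fun w => f w • F w) w :=
    fun w hw => (hf w (hsub w hw)).differentiableAt.smul (hF w)
  have hd1 : DiffContOnCl ℂ (fun w => f w • F w) (ball β.2 ρ) := by
    refine ⟨fun w hw => (hdiff w (ball_subset_closedBall hw)).differentiableWithinAt, ?_⟩
    rw [closure_ball _ hρ.ne']
    exact fun w hw => (hdiff w hw).continuousAt.continuousWithinAt
  have hfr : ∀ w ∈ frontier (ball β.2 ρ), ‖f w • F w‖ ≤ C := by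
    intro w hw
    rw [frontier_ball _ hρ.ne', mem_sphere] at hw
    rw [norm_smul]
    refine hC w fun β' hβ' => ?_
    by_cases hbb : β' = β
    · rw [hbb, Prod.dist_eq]
      exact hw.symm.le.trans (le_max_right _ _)
    · have h1 := hB.sep β hβ β' hβ' (fun h => hbb h.symm)
      have h2 := dist_triangle β ((s : ℂ), w) β'
      have h3 : dist β ((s : ℂ), w) ≤ ρ := by
        rw [dist_comm, Prod.dist_eq]
        exact max_le hd.1.le hw.le
      show ρ ≤ dist ((s : ℂ), w) β'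
      linarith
  have h5 := Complex.norm_le_of_forall_mem_frontier_norm_le isBounded_ball hd1 hfr (z := z) (by
    rw [closure_ball _ hρ.ne', mem_closedBall]
    exact hd.2.le)
  rwa [norm_smul] at h5

theorem pval_zero (D : TDat X Λ u a ν b LT Dt Bd ρ FF) (P : JForm X Λ u ν m) {Φ : ℝ → ℂ → MN N} (hΦ : Φ ∈ FF) {s : ℝ} {z : ℂ} (h : ((s : ℂ), z) ∉ Dt)
    {x : EN N} (hx : x ≠ 0) (hxΦ : Φ s z = pr x) : pval P a b Φ s z x = 0 := by
  have hρ := D.sep.pos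
  obtain ⟨F, hF, hΦF⟩ := D.lift Φ hΦ s
  have hF0 : ∀ z, F z ≠ 0 := fun z => pz_ne D.cone (hF.2.1 z)
  obtain ⟨f, hfdef⟩ : ∃ f : ℂ → ℂ, f = fun z => pval P a b Φ s z (F z) := ⟨_, rfl⟩
  have hfv : ∀ z, f z = pval P a b Φ s z (F z) := fun z => by rw [hfdef]
  have hfan : ∀ z, ((s : ℂ), z) ∉ Dt → AnalyticAt ℂ f z := by
    intro z hz
    rw [hfdef]
    exact pval_hol D.cone hF.1 hF0 hΦF (D.smo Φ hΦ s z hz) P
  have hUo : IsOpen {z : ℂ | ((s : ℂ), z) ∉ Bd} := leaf_open D.sep (s : ℂ)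
  have hlb : ∀ z ∈ {z : ℂ | ((s : ℂ), z) ∉ Bd}, ∃ C : ℝ, ∀ᶠ z' in 𝓝[≠] z, ‖f z'‖ ≤ C := by
    intro z hz
    obtain ⟨C, hC⟩ := pval_locBound_bd D P hΦ hz
    have h1 : Tendsto (fun z' : ℂ => ((s, z') : ℝ × ℂ)) (𝓝 z) (𝓝 (s, z)) := (Continuous.prodMk_right s).tendsto z
    have h2 : ∀ᶠ z' in 𝓝 z, ‖F z‖ / 2 < ‖F z'‖ := by
      have h3 : ‖F z‖ / 2 < ‖F z‖ := by
        have := norm_pos_iff.2 (hF0 z)
        linarith
      exact hF.1.continuous.norm.continuousAt.eventually_const_lt h3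
    refine ⟨C / (‖F z‖ / 2), ?_⟩
    filter_upwards [(h1.eventually hC).filter_mono nhdsWithin_le_nhds, h2.filter_mono nhdsWithin_le_nhds, D.dt_iso s z] with z' a1 a2 a3
    have h4 := a1 a3 (F z') (hF0 z') (hΦF z')
    rw [← hfv] at h4
    have h5 : 0 < ‖F z‖ / 2 := by
      have := norm_pos_iff.2 (hF0 z)
      linarith
    rw [le_div_iff₀ h5]
    exact (mul_le_mul_of_nonneg_left a2.le (norm_nonneg _)).trans h4
  obtain ⟨g, hgd, hgf⟩ := removable_discrete (S := {z : ℂ | ((s : ℂ), z) ∈ Dt}) hUo (fun z _ => D.dt_iso s z) (fun z _ hz => hfan z hz) hlb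
  have hgan : ∀ z, ((s : ℂ), z) ∉ Bd → AnalyticAt ℂ g z := fun z hz => hgd.analyticAt (hUo.mem_nhds hz)
  have hgv : ∀ z, ((s : ℂ), z) ∉ Dt → g z = f z := fun z hz => hgf z (fun h' => hz (D.bd_sub h')) hz
  have D' : TDat X Λ u a ν b LT Dt Bd (ρ / 2) FF :=
    { D with sep := ⟨by linarith, fun β hβ β' hβ' hne => le_trans (by linarith) (D.sep.sep β hβ β' hβ' hne)⟩ }
  obtain ⟨C, hC⟩ := pval_bound D' P
  have hC1 : ∀ z, (s, z) ∈ Off Bd ρ → ‖g z‖ * ‖F z‖ ≤ C := by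
    intro z hz
    have hzB : ((s : ℂ), z) ∉ Bd := Off_notMem hρ hz
    have h1 : Tendsto (fun z' => ‖g z'‖ * ‖F z'‖) (𝓝[≠] z) (𝓝 (‖g z‖ * ‖F z‖)) :=
      ((hgan z hzB).continuousAt.norm.mul hF.1.continuous.norm.continuousAt).tendsto.mono_left nhdsWithin_le_nhds
    refine le_of_tendsto h1 ?_
    have h2 : ∀ᶠ z' in 𝓝[≠] z, z' ∈ ball z (ρ / 2) := mem_nhdsWithin_of_mem_nhds (ball_mem_nhds z (by linarith))
    filter_upwards [h2, D.dt_iso s z] with z' a1 a2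
    rw [hgv z' a2, hfv]
    refine hC Φ hΦ (s, z') (fun β hβ => ?_) a2 (F z') (hF0 z') (hΦF z')
    have h3 := hz β hβ
    have h4 := dist_triangle ((s : ℂ), z) ((s : ℂ), z') β
    have h5 : dist ((s : ℂ), z) ((s : ℂ), z') = dist z z' := by
      rw [Prod.dist_eq, dist_self]
      exact max_eq_right dist_nonneg
    rw [mem_ball, dist_comm] at a1
    rw [h5] at h4
    show ρ / 2 ≤ dist ((s : ℂ), z') β
    change ρ ≤ dist ((s : ℂ), z) β at h3
    linarith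
  obtain ⟨ω, h₀, hω, hH⟩ := D.bd_half s
  obtain ⟨R₀, c₀, hR₀, hc₀, hgr⟩ := D.gr
  have hsub : HP ω (h₀ + 2 * ρ) ⊆ HP ω h₀ := by
    intro w hw
    simp only [HP, Set.mem_ofPred_eq] at hw ⊢
    linarith
  have hcont : Continuous fun z => Real.log ‖F z‖ := hF.1.continuous.norm.log fun z => norm_ne_zero_iff.2 (hF0 z)
  have hz0 : ∀ z ∈ HP ω (h₀ + 2 * ρ), g z = 0 := by
    refine hp_zero hω (C := C) (c := c₀) (R₀ := R₀) (L := fun z => Real.log ‖F z‖)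
      (fun w hw => (hgan w (hH w (hsub hw))).differentiableAt.differentiableWithinAt) hcont.continuousOn hc₀ hR₀ ?_ ?_
    · intro w hw
      rw [Real.exp_log (norm_pos_iff.2 (hF0 w))]
      exact pz_bound D.sep hF.1 hgan hC1 hω hH hw
    · intro w _
      exact hgr _ F hF w
  obtain ⟨z₁, hz₁⟩ : ∃ z₁, z₁ ∈ HP ω (h₀ + 2 * ρ) := by
    refine ⟨ω * (Complex.I * ((h₀ + 2 * ρ + 1 : ℝ) : ℂ)), ?_⟩
    have e1 : (starRingEnd ℂ) ω * (ω * (Complex.I * ((h₀ + 2 * ρ + 1 : ℝ) : ℂ))) = Complex.I * ((h₀ + 2 * ρ + 1 : ℝ) : ℂ) := by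
      rw [← mul_assoc, mul_comm ((starRingEnd ℂ) ω) ω, Complex.mul_conj, Complex.normSq_eq_norm_sq, hω]
      push_cast
      ring
    simp only [HP, Set.mem_ofPred_eq]
    rw [e1, Complex.I_mul_im, Complex.ofReal_re]
    linarith
  have hev : g =ᶠ[𝓝 z₁] 0 := by
    filter_upwards [(isOpen_HP ω (h₀ + 2 * ρ)).mem_nhds hz₁] with w hw
    exact hz0 w hw
  have hall := AnalyticOnNhd.eqOn_zero_of_preconnected_of_eventuallyEq_zero (𝕜 := ℂ) (f := g) (U := {z : ℂ | ((s : ℂ), z) ∉ Bd}) (fun w hw => hgan w hw)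
    (leaf_connected D.sep (s : ℂ)).isPreconnected (hH z₁ (hsub hz₁)) hev
  have hgz : g z = 0 := hall (show ((s : ℂ), z) ∉ Bd from fun h' => h (D.bd_sub h'))
  have hfz : pval P a b Φ s z (F z) = 0 := by rw [← hfv, ← hgv z h, hgz]
  have hpr : pr x = pr (F z) := by rw [← hxΦ, hΦF z]
  obtain ⟨α, hα, hxα⟩ := (Pool.Agent.H62.EF.pr_eq_iff hx (hF0 z)).1 hpr
  rw [hxα, pval_smul D.cone (D.smo Φ hΦ s z h) P (hF0 z) (hΦF z) hα, hfz, mul_zero]

theorem QF_zero (D : TDat X Λ u a ν b LT Dt Bd ρ FF) (P : JForm X Λ u ν m) {Φ : ℝ → ℂ → MN N} (hΦ : Φ ∈ FF) {χ : Chart (k + 2) X} {ρ' : ℝ}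
    {w : ℕ → ℝ → ℂ → ℂ} {s : ℝ} {z : ℂ} {r : ℝ} (B : Box X Λ u a ν b Φ χ c ρ' w s z r) (h : ((s : ℂ), z) ∉ Dt) : QF P b a χ c ρ' (Jt m w s z) = 0 := by
  have hs : s ∈ Set.Ioo (s - r) (s + r) := ⟨by linarith [B.pos], by linarith [B.pos]⟩
  have hz : z ∈ ball z r := mem_ball_self B.pos
  have h1 := pval_eq D.cone B P (x := χ.σ (cz b ν a c ρ' (w 0 s z) s z)) (α := 1) (one_smul _ _).symm one_ne_zero
  rw [mul_one] at h1
  rw [← h1]
  exact pval_zero D P hΦ h (pz_ne D.cone (χ.σ_mem _ (B.mem s hs z hz)).1) (B.eq s hs z hz)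

end Pool.Agent.G3.C
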