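import Pool.Agent.G3.C.EDefs
import Pool.Agent.G3.C.Cheb

/-!
# G3 C Spread: the extension to complex parameters spreads over connected sets of `z`
-/

set_option autoImplicit false

open Topology Filter Metric Set

namespace Pool.Agent.G3.C

open Pool.Agent.H36.BP (EN fs wd)
open Pool.Agent.H62.EF (MN pr pr_smul pr_eq_iff continuousAt_pr)
open Pool.Agent.AD (Vd)

variable {N k : ℕ}

private theorem pr_ne {x y : EN N} {v : EN N} (hx : x ≠ 0) (hy : y ≠ 0) (h : pr x = pr y) (hv : inner ℂ v y ≠ (0 : ℂ)) : inner ℂ v x ≠ (0 : ℂ) := by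
  obtain ⟨c, hc, rfl⟩ := (pr_eq_iff hx hy).1 h
  rw [inner_smul_right]
  exact mul_ne_zero hc hv

/-- the step: from a point to a ball -/
private theorem spread_step {Φ : ℝ → ℂ → MN N} (hl : ∀ s : ℝ, ∃ F : ℂ → EN N, Differentiable ℂ F ∧ (∀ z, F z ≠ 0) ∧ ∀ z, Φ s z = pr (F z))
    {s₀ δ : ℝ} (hδ : 0 < δ) {z₁ : ℂ} {R : ℝ} (v : EN N)
    (hc : ∀ s ∈ Icc (s₀ - δ) (s₀ + δ), ∀ z ∈ ball z₁ R, ContinuousAt (fun q : ℝ × ℂ => Φ q.1 q.2) (s, z) ∧ nd v (Φ s z) ≠ 0)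
    {ε : ℝ} (hε : 0 < ε) (hE : EAt Φ s₀ z₁ ε) {z : ℂ} (hz : z ∈ ball z₁ R) : ∃ ε' : ℝ, 0 < ε' ∧ EAt Φ s₀ z ε' := by
  have hR : 0 < R := dist_nonneg.trans_lt (mem_ball.1 hz)
  obtain ⟨R', hR'z, hR'⟩ : ∃ R', dist z z₁ < R' ∧ R' < R := exists_between (mem_ball.1 hz)
  -- the coordinates
  have hcont : ∀ i, ContinuousOn (fun p : ℝ × ℂ => nv v (Φ p.1 p.2) i) (Icc (s₀ - δ) (s₀ + δ) ×ˢ ball z₁ R) := by
    rintro i ⟨s, w⟩ ⟨hs, hw⟩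
    obtain ⟨h1, h2⟩ := hc s hs w hw
    have h3 : ContinuousAt (fun q : ℝ × ℂ => nv v (Φ q.1 q.2)) (s, w) := ContinuousAt.comp (g := nv v) (f := fun q : ℝ × ℂ => Φ q.1 q.2) (nv_continuousAt h2) h1
    exact ((PiLp.continuous_apply 2 _ i).continuousAt.comp h3).continuousWithinAt
  have hhol : ∀ i, ∀ s ∈ Icc (s₀ - δ) (s₀ + δ), DifferentiableOn ℂ (fun w => nv v (Φ s w) i) (ball z₁ R) := by
    intro i s hs
    obtain ⟨F, hF, hF0, hFΦ⟩ := hl s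
    have hin : ∀ w ∈ ball z₁ R, inner ℂ v (F w) ≠ (0 : ℂ) := fun w hw => by
      have h2 := (hc s hs w hw).2
      rw [hFΦ] at h2
      exact (nd_pr_ne (hF0 w)).1 h2
    have e : EqOn (fun w => nv v (Φ s w) i) (fun w => (inner ℂ v (F w) : ℂ)⁻¹ * F w i) (ball z₁ R) := by
      intro w hw
      simp only
      rw [hFΦ, nv_pr (hin w hw)]
      simp [PiLp.smul_apply, smul_eq_mul]
    refine DifferentiableOn.congr ?_ e
    have hd1 : Differentiable ℂ fun w => (inner ℂ v (F w) : ℂ) := (innerSL ℂ v).differentiable.comp hF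
    have hd2 : Differentiable ℂ fun w => F w i := (EuclideanSpace.proj (𝕜 := ℂ) i : EN N →L[ℂ] ℂ).differentiable.comp hF
    exact (hd1.differentiableOn.inv hin).mul hd2.differentiableOn
  -- the extension near `z₁`
  obtain ⟨F, hF, hF0, hFΦ⟩ := hE
  have hmem : ((s₀ : ℂ), z₁) ∈ ball ((s₀ : ℂ), z₁) ε := mem_ball_self hε
  have hc1 : ContinuousAt (fun p => (inner ℂ v (F p) : ℂ)) ((s₀ : ℂ), z₁) :=
    (innerSL ℂ v).continuous.continuousAt.comp (hF.differentiableAt (isOpen_ball.mem_nhds hmem)).continuousAt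
  have hne1 : (inner ℂ v (F ((s₀ : ℂ), z₁)) : ℂ) ≠ 0 := by
    have h2 := (hc s₀ ⟨by linarith, by linarith⟩ z₁ (mem_ball_self hR)).2
    rw [hFΦ s₀ z₁ hmem] at h2
    exact (nd_pr_ne (hF0 _ hmem)).1 h2
  obtain ⟨ε₁, hε₁, hε₁ne⟩ := Metric.eventually_nhds_iff_ball.1 (hc1.eventually_ne hne1)
  obtain ⟨ε₂, hε₂⟩ : ∃ ε₂, ε₂ = min ε ε₁ := ⟨_, rfl⟩
  have hε₂0 : 0 < ε₂ := by rw [hε₂]; exact lt_min hε hε₁
  have hb1 : ball ((s₀ : ℂ), z₁) ε₂ ⊆ ball ((s₀ : ℂ), z₁) ε := ball_subset_ball (by rw [hε₂]; exact min_le_left _ _)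
  have hb2 : ball ((s₀ : ℂ), z₁) ε₂ ⊆ ball ((s₀ : ℂ), z₁) ε₁ := ball_subset_ball (by rw [hε₂]; exact min_le_right _ _)
  have hg : ∀ i, DifferentiableOn ℂ (fun p => (inner ℂ v (F p) : ℂ)⁻¹ * F p i) (ball ((s₀ : ℂ), z₁) ε₂) := by
    intro i
    have hF' := hF.mono hb1
    have hd1 : DifferentiableOn ℂ (fun w => (inner ℂ v (F w) : ℂ)) (ball ((s₀ : ℂ), z₁) ε₂) := (innerSL ℂ v).differentiable.comp_differentiableOn hF'
    have hd2 : DifferentiableOn ℂ (fun w => F w i) (ball ((s₀ : ℂ), z₁) ε₂) :=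
      (EuclideanSpace.proj (𝕜 := ℂ) i : EN N →L[ℂ] ℂ).differentiable.comp_differentiableOn hF'
    exact (hd1.inv fun p hp => hε₁ne p (hb2 hp)).mul hd2
  have hgf : ∀ i, ∀ (s : ℝ) (w : ℂ), ((s : ℂ), w) ∈ ball ((s₀ : ℂ), z₁) ε₂ → (inner ℂ v (F ((s : ℂ), w)) : ℂ)⁻¹ * F ((s : ℂ), w) i = nv v (Φ s w) i := by
    intro i s w hw
    rw [hFΦ s w (hb1 hw), nv_pr (hε₁ne _ (hb2 hw))]
    simp [PiLp.smul_apply, smul_eq_mul]
  have key : ∀ i, ∃ ε' : ℝ, 0 < ε' ∧ ∃ G : ℂ × ℂ → ℂ, DifferentiableOn ℂ G (ball (s₀ : ℂ) ε' ×ˢ ball z₁ R') ∧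
      ∀ s : ℝ, (s : ℂ) ∈ ball (s₀ : ℂ) ε' → ∀ w ∈ ball z₁ R', G (s, w) = nv v (Φ s w) i := fun i =>
    cheb (f := fun s w => nv v (Φ s w) i) hδ (hcont i) (hhol i) hε₂0 (hg i) (hgf i) hR'
  choose e he G hG1 hG2 using key
  obtain ⟨e₀, he₀, hee⟩ : ∃ e₀ : ℝ, 0 < e₀ ∧ ∀ i, e₀ ≤ e i := by
    refine ⟨Finset.univ.inf' Finset.univ_nonempty e, ?_, fun i => Finset.inf'_le _ (Finset.mem_univ i)⟩
    rw [Finset.lt_inf'_iff]
    exact fun i _ => he i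
  obtain ⟨e₁, he₁⟩ : ∃ e₁, e₁ = min e₀ (min δ (R' - dist z z₁)) := ⟨_, rfl⟩
  have he₁0 : 0 < e₁ := by rw [he₁]; exact lt_min he₀ (lt_min hδ (by linarith))
  have he₁a : e₁ ≤ e₀ := by rw [he₁]; exact min_le_left _ _
  have he₁b : e₁ ≤ δ := by rw [he₁]; exact (min_le_right _ _).trans (min_le_left _ _)
  have he₁c : e₁ ≤ R' - dist z z₁ := by rw [he₁]; exact (min_le_right _ _).trans (min_le_right _ _)
  have hsub : ∀ p ∈ ball ((s₀ : ℂ), z) e₁, p.1 ∈ ball (s₀ : ℂ) e₁ ∧ p.2 ∈ ball z e₁ := by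
    intro p hp
    rw [← ball_prod_same] at hp
    exact hp
  have hzR : ball z e₁ ⊆ ball z₁ R' := ball_subset_ball' (by linarith)
  obtain ⟨H, hH⟩ : ∃ H : ℂ × ℂ → EN N, ∀ p i, H p i = G i p := ⟨fun p => WithLp.toLp 2 fun i => G i p, fun p i => rfl⟩
  have hHd : DifferentiableOn ℂ H (ball ((s₀ : ℂ), z) e₁) := by
    rw [differentiableOn_piLp]
    intro i
    simp only [hH]
    refine (hG1 i).mono fun p hp => ?_
    obtain ⟨h1, h2⟩ := hsub p hp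
    exact ⟨ball_subset_ball (he₁a.trans (hee i)) h1, hzR h2⟩
  have hHr : ∀ (s : ℝ) (w : ℂ), ((s : ℂ), w) ∈ ball ((s₀ : ℂ), z) e₁ → H (s, w) = nv v (Φ s w) := by
    intro s w hp
    obtain ⟨h1, h2⟩ := hsub _ hp
    ext i
    rw [hH]
    exact hG2 i s (ball_subset_ball (he₁a.trans (hee i)) h1) w (hzR h2)
  have hreal : ∀ (s : ℝ) (w : ℂ), ((s : ℂ), w) ∈ ball ((s₀ : ℂ), z) e₁ → Φ s w = pr (H (s, w)) ∧ H (s, w) ≠ 0 := by
    intro s w hp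
    obtain ⟨h1, h2⟩ := hsub _ hp
    have hs : s ∈ Icc (s₀ - δ) (s₀ + δ) := by
      simp only at h1
      rw [mem_ball, dist_eq_norm, ← Complex.ofReal_sub, Complex.norm_real, Real.norm_eq_abs] at h1
      have := abs_lt.1 (h1.trans_le he₁b)
      exact ⟨by linarith [this.1], by linarith [this.2]⟩
    obtain ⟨F, hF, hF0, hFΦ⟩ := hl s
    have h3 := (hc s hs w (ball_subset_ball hR'.le (hzR h2))).2
    rw [hFΦ] at h3
    have h4 := (nd_pr_ne (hF0 w)).1 h3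
    rw [hHr s w hp, hFΦ, pr_nv h4]
    refine ⟨rfl, ?_⟩
    rw [nv_pr h4]
    exact smul_ne_zero (inv_ne_zero h4) (hF0 w)
  have hz0 : ((s₀ : ℂ), z) ∈ ball ((s₀ : ℂ), z) e₁ := mem_ball_self he₁0
  have hcH : ContinuousAt H ((s₀ : ℂ), z) := (hHd.differentiableAt (isOpen_ball.mem_nhds hz0)).continuousAt
  obtain ⟨e₂, he₂, he₂ne⟩ := Metric.eventually_nhds_iff_ball.1 (hcH.eventually_ne (hreal s₀ z hz0).2)
  have hb3 : ball ((s₀ : ℂ), z) (min e₁ e₂) ⊆ ball ((s₀ : ℂ), z) e₁ := ball_subset_ball (min_le_left _ _)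
  exact ⟨min e₁ e₂, lt_min he₁0 he₂, H, hHd.mono hb3, fun p hp => he₂ne p (ball_subset_ball (min_le_right _ _) hp),
    fun s w hp => (hreal s w (hb3 hp)).1⟩

/-- the extension to complex parameters spreads -/
theorem spread {Φ : ℝ → ℂ → MN N} {s₀ : ℝ} {Ω : Set ℂ} (hΦ : CFam Φ s₀ Ω) (_hΩ : IsOpen Ω) (hΩc : IsPreconnected Ω) {z₁ : ℂ} (hz₁ : z₁ ∈ Ω) {ε : ℝ} (hε : 0 < ε)
    (hE : EAt Φ s₀ z₁ ε) : ∀ z ∈ Ω, ∃ ε' : ℝ, 0 < ε' ∧ EAt Φ s₀ z ε' := by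
  obtain ⟨A, hA⟩ : ∃ A : Set ℂ, ∀ z, z ∈ A ↔ ∃ ε' : ℝ, 0 < ε' ∧ EAt Φ s₀ z ε' := ⟨{z | ∃ ε' : ℝ, 0 < ε' ∧ EAt Φ s₀ z ε'}, fun _ => Iff.rfl⟩
  have hAo : IsOpen A := by
    rw [Metric.isOpen_iff]
    intro z hz
    obtain ⟨e, he, h⟩ := (hA z).1 hz
    refine ⟨e, he, fun w hw => (hA w).2 ⟨e - dist ((s₀ : ℂ), w) ((s₀ : ℂ), z), ?_, h.move⟩⟩
    have : dist ((s₀ : ℂ), w) ((s₀ : ℂ), z) = dist w z := by
      rw [Prod.dist_eq, dist_self, max_eq_right dist_nonneg]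
    rw [this]
    linarith [mem_ball.1 hw]
  have hcl : closure A ∩ Ω ⊆ A := by
    rintro z ⟨hz, hzΩ⟩
    obtain ⟨F, hF, hF0, hFΦ⟩ := hΦ.lift s₀
    have hv : nd (F z) (Φ s₀ z) ≠ 0 := by
      rw [hFΦ]
      exact (nd_pr_ne (hF0 z)).2 (inner_self_ne_zero.2 (hF0 z))
    have hcz := hΦ.cont z hzΩ
    have h1 : ∀ᶠ q : ℝ × ℂ in 𝓝 (s₀, z), nd (F z) (Φ q.1 q.2) ≠ 0 := by
      have h2 : ContinuousAt (fun q : ℝ × ℂ => nd (F z) (Φ q.1 q.2)) (s₀, z) :=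
        ContinuousAt.comp (g := nd (F z)) (f := fun q : ℝ × ℂ => Φ q.1 q.2) (nd_cont _).continuousAt hcz.self_of_nhds
      exact h2.eventually_ne hv
    obtain ⟨r, hr, hrb⟩ := Metric.eventually_nhds_iff_ball.1 (hcz.and h1)
    obtain ⟨w, hwA, hwz⟩ := Metric.mem_closure_iff.1 hz (r / 2) (by linarith)
    obtain ⟨e, he, hEw⟩ := (hA w).1 hwA
    refine (hA z).2 (spread_step hΦ.lift (δ := r / 2) (by linarith) (z₁ := w) (R := r / 2) (F z) ?_ he hEw (mem_ball.2 hwz))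
    intro s hs x hx
    refine hrb (s, x) ?_
    rw [mem_ball, Prod.dist_eq, max_lt_iff]
    constructor
    · simp only
      rw [Real.dist_eq, abs_lt]
      constructor <;> linarith [hs.1, hs.2]
    · simp only
      have := dist_triangle x w z
      have h5 := mem_ball.1 hx
      have h6 : dist w z < r / 2 := by rw [dist_comm]; exact hwz
      linarith
  intro z hz
  have h := hΩc.subset_of_closure_inter_subset hAo ⟨z₁, hz₁, (hA z₁).2 ⟨ε, hε, hE⟩⟩ hcl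
  exact (hA z).1 (h hz)

end Pool.Agent.G3.C
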