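import Pool.Agent.G3.C.Unif
import Pool.Agent.G3.C.LMD

/-!
# G3 C ULM: local lifts at every point, with a uniform radius

`exists_LMer`: `window`-type choice at the level `s₀`: by `dt_iso` there is a circle `|z - z₀| = r` off `Dt` on the leaf `s₀`; `all_EAt` on it; `lmer_of_circle` (LM.lean of helper82).
`unif_LMer`: `LMer.move`, compactness of the ball of radius `R` (`TDat.cpt`), finiteness of `FF`, translations (`LMer` of `fun s z => Φ (s + l.1) (z + l.2)` at `q - l` is `LMer` of `Φ` at `q`).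
-/

set_option autoImplicit false

open Topology Filter Metric

namespace Pool.Agent.G3.C

open Pool.Agent.H36.BP (EN fs wd)
open Pool.Agent.H14.PP (IsCone)
open Pool.Agent.H62.EF (MN pr)
open Pool.Agent.AD (Vd Chart Charts)
open Pool.Agent.TG (TMap Lat Str ms tl)

variable {N k : ℕ} {X : Set (EN N)} {Λ : AddSubgroup (Vd (k + 1))} {u : EN N → Vd (k + 1)} {ν a b c : Vd (k + 1)} {m : ℕ} {ρ : ℝ}
  {LT : AddSubgroup (ℝ × ℂ)} {Dt Bd : Set (ℂ × ℂ)} {FF : Set (ℝ → ℂ → MN N)}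

/-- this is `lmer_of_circle` of helper82, as a hypothesis until `LM.lean` is on main -/
theorem exists_LMer (D : TDat X Λ u a ν b LT Dt Bd ρ FF) {P : JForm X Λ u ν m} (hP : P.Thin)
    (hcirc : ∀ Φ ∈ FF, ∀ (s₀ : ℝ) (z₀ : ℂ) (r : ℝ), 0 < r → (∀ z, dist z z₀ = r → ∃ ε : ℝ, 0 < ε ∧ EAt Φ s₀ z ε) → ∃ ε : ℝ, 0 < ε ∧ LMer Φ s₀ z₀ ε)
    {Φ : ℝ → ℂ → MN N} (hΦ : Φ ∈ FF) (s₀ : ℝ) (z₀ : ℂ) : ∃ ε : ℝ, 0 < ε ∧ LMer Φ s₀ z₀ ε := by
  obtain ⟨δ, hδ, hδb⟩ := Metric.eventually_nhds_iff_ball.1 (eventually_nhdsWithin_iff.1 (D.dt_iso s₀ z₀))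
  refine hcirc Φ hΦ s₀ z₀ (δ / 2) (by linarith) fun z hz => all_EAt D hP hΦ (hδb z ?_ ?_)
  · rw [mem_ball, hz]
    linarith
  · intro h
    rw [h, dist_self] at hz
    linarith

private theorem LMer.tr {Φ : ℝ → ℂ → MN N} {s₀ l : ℝ} {z₀ t : ℂ} {ε : ℝ} (h : LMer (fun s z => Φ (s + l) (z + t)) (s₀ - l) (z₀ - t) ε) : LMer Φ s₀ z₀ ε := by
  obtain ⟨F, h1, h2, h3⟩ := h
  have hm : ∀ p ∈ ball ((s₀ : ℂ), z₀) ε, p - ((l : ℂ), t) ∈ ball (((s₀ - l : ℝ) : ℂ), z₀ - t) ε := by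
    intro p hp
    have he : ((((s₀ - l : ℝ) : ℂ), z₀ - t) : ℂ × ℂ) = ((s₀ : ℂ), z₀) - ((l : ℂ), t) := by
      simp
    rw [he, mem_ball, dist_sub_right]
    exact hp
  refine ⟨fun p => F (p - ((l : ℂ), t)), ?_, fun ζ hζ => ?_, fun s z hsz hne => ?_⟩
  · exact h1.comp ((differentiable_id.sub_const _).differentiableOn) hm
  · obtain ⟨z, hz, hne⟩ := h2 (ζ - l) (by
      rw [Complex.ofReal_sub, mem_ball, dist_sub_right]
      exact hζ)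
    refine ⟨z + t, ?_, ?_⟩
    · rw [mem_ball, dist_eq_norm] at hz ⊢
      have he : z + t - z₀ = z - (z₀ - t) := by ring
      rw [he]
      exact hz
    · have he : ((ζ, z + t) : ℂ × ℂ) - ((l : ℂ), t) = (ζ - l, z) := by
        simp
      simp only [he]
      exact hne
  · have h4 := hm _ hsz
    have he : (((s : ℂ), z) : ℂ × ℂ) - ((l : ℂ), t) = (((s - l : ℝ) : ℂ), z - t) := by
      simp
    rw [he] at h4
    simp only [he] at hne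
    have h5 := h3 (s - l) (z - t) h4 hne
    simp only [sub_add_cancel] at h5
    simp only [he]
    exact h5

theorem unif_LMer (D : TDat X Λ u a ν b LT Dt Bd ρ FF) {P : JForm X Λ u ν m} (hP : P.Thin)
    (hcirc : ∀ Φ ∈ FF, ∀ (s₀ : ℝ) (z₀ : ℂ) (r : ℝ), 0 < r → (∀ z, dist z z₀ = r → ∃ ε : ℝ, 0 < ε ∧ EAt Φ s₀ z ε) → ∃ ε : ℝ, 0 < ε ∧ LMer Φ s₀ z₀ ε) :
    ∃ ε : ℝ, 0 < ε ∧ ∀ Φ ∈ FF, ∀ (s : ℝ) (z : ℂ), LMer Φ s z ε := by
  obtain ⟨R, hR, hRl⟩ := D.cpt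
  have hK : IsCompact (closedBall (0 : ℝ × ℂ) R) := isCompact_closedBall 0 R
  -- one family
  have h1 : ∀ Φ ∈ FF, ∃ ε : ℝ, 0 < ε ∧ ∀ q ∈ closedBall (0 : ℝ × ℂ) R, LMer Φ q.1 q.2 ε := by
    intro Φ hΦ
    refine hK.induction_on (p := fun S => ∃ ε : ℝ, 0 < ε ∧ ∀ q ∈ S, LMer Φ q.1 q.2 ε) ⟨1, one_pos, fun q hq => absurd hq (Set.notMem_empty q)⟩ ?_ ?_ ?_
    · rintro S T hST ⟨ε, hε, h⟩
      exact ⟨ε, hε, fun q hq => h q (hST hq)⟩
    · rintro S T ⟨ε, hε, h⟩ ⟨ε', hε', h'⟩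
      refine ⟨min ε ε', lt_min hε hε', fun q hq => ?_⟩
      rcases hq with hq | hq
      · exact (h q hq).mono (lt_min hε hε') (min_le_left _ _)
      · exact (h' q hq).mono (lt_min hε hε') (min_le_right _ _)
    · intro q hq
      obtain ⟨ε, hε, hE⟩ := exists_LMer D hP hcirc hΦ q.1 q.2
      refine ⟨ball q (ε / 2), mem_nhdsWithin_of_mem_nhds (ball_mem_nhds q (by linarith)), ε / 2, by linarith, fun q' hq' => ?_⟩
      have hd : dist ((q'.1 : ℂ), q'.2) ((q.1 : ℂ), q.2) = dist q' q := by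
        rw [Prod.dist_eq, Prod.dist_eq]
        simp only [Complex.dist_eq, Real.dist_eq]
        rw [← Complex.ofReal_sub, Complex.norm_real, Real.norm_eq_abs]
      have h2 : dist q' q < ε / 2 := hq'
      refine (hE.move (s₁ := q'.1) (z₁ := q'.2) (by rw [hd]; linarith)).mono (by linarith) ?_
      rw [hd]
      linarith
  choose! e he hE using h1
  obtain ⟨ε, hε, hle⟩ : ∃ ε : ℝ, 0 < ε ∧ ∀ Φ ∈ FF, ε ≤ e Φ := by
    rcases FF.eq_empty_or_nonempty with h0 | hne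
    · exact ⟨1, one_pos, fun Φ hΦ => absurd hΦ (by rw [h0]; exact Set.notMem_empty Φ)⟩
    · obtain ⟨Φ₀, hΦ₀, hmin⟩ := Set.exists_min_image FF e D.fin hne
      exact ⟨e Φ₀, he Φ₀ hΦ₀, hmin⟩
  refine ⟨ε, hε, fun Φ hΦ s z => ?_⟩
  obtain ⟨l, hl, hlR⟩ := hRl (s, z)
  have h2 : (s, z) - l ∈ closedBall (0 : ℝ × ℂ) R := by
    rw [mem_closedBall, dist_zero_right]
    exact hlR
  have h3 := D.tr Φ hΦ l hl
  have h4 := (hE _ h3 ((s, z) - l) h2).mono hε (hle _ h3)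
  exact LMer.tr (l := l.1) (t := l.2) h4

end Pool.Agent.G3.C
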