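import Pool.Agent.G3.C.Leaf
import Pool.Agent.G3.C.Spread
import Pool.Agent.G3.C.Mero
import Pool.Agent.G3.C.GCs

/-!
# G3 C Unif: the families extend to complex parameters, off `Dt`

`dt_leaf`: the set of the points of the leaf off `Dt` is open (`dt_closed`) and the complement of a countable set (`dt_iso`: closed discrete in `ℂ`).
`all_EAt`: `spread` with `Ω = {z | ((s₀ : ℂ), z) ∉ Dt}`, `leaf_EAt`; `CFam.lift` from `TDat.lift` (`X` is a cone without `0`), `CFam.cont` from `smo`, `smo_cont`.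
-/

set_option autoImplicit false

open Topology Filter Metric

namespace Pool.Agent.G3.C

open Pool.Agent.H36.BP (EN fs wd)
open Pool.Agent.H14.PP (IsCone)
open Pool.Agent.H62.EF (MN pr)
open Pool.Agent.AD (Vd Chart Charts)
open Pool.Agent.TG (TMap Lat Str ms tl)

variable {N k : ℕ} {X : Set (EN N)} {Λ : AddSubgroup (Vd (k + 1))} {u : EN N → Vd (k + 1)} {ν a b c : Vd (k + 1)} {m : ℕ} {ρ : ℝ}
  {LT : AddSubgroup (ℝ × ℂ)} {Dt Bd : Set (ℂ × ℂ)} {FF : Set (ℝ → ℂ → MN N)}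

theorem dt_leaf (D : TDat X Λ u a ν b LT Dt Bd ρ FF) (s : ℝ) : IsOpen {z : ℂ | ((s : ℂ), z) ∉ Dt} ∧ IsConnected {z : ℂ | ((s : ℂ), z) ∉ Dt} := by
  have hc : Continuous fun z : ℂ => (((s : ℂ), z) : ℂ × ℂ) := continuous_const.prodMk continuous_id
  refine ⟨D.dt_closed.isOpen_compl.preimage hc, ?_⟩
  have hcount : {z : ℂ | ((s : ℂ), z) ∈ Dt}.Countable := by
    have h1 : {z : ℂ | ((s : ℂ), z) ∈ Dt} ⊆ ⋃ n : ℕ, {z ∈ closedBall (0 : ℂ) n | ((s : ℂ), z) ∈ Dt} := by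
      intro z hz
      obtain ⟨n, hn⟩ := exists_nat_ge ‖z‖
      exact Set.mem_iUnion.2 ⟨n, by rw [mem_closedBall, dist_zero_right]; exact hn, hz⟩
    refine (Set.countable_iUnion fun n => ?_).mono h1
    exact (finite_of_isolated (isCompact_closedBall (0 : ℂ) (n : ℝ)) (P := fun z => ((s : ℂ), z) ∈ Dt) fun z _ => D.dt_iso s z).countable
  have h2 := Set.Countable.isConnected_compl_of_one_lt_rank (E := ℂ) (by
    rw [Complex.rank_real_complex]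
    exact Cardinal.one_lt_two) hcount
  exact h2

theorem all_EAt (D : TDat X Λ u a ν b LT Dt Bd ρ FF) {P : JForm X Λ u ν m} (hP : P.Thin) {Φ : ℝ → ℂ → MN N} (hΦ : Φ ∈ FF) {s₀ : ℝ} {z₀ : ℂ}
    (h : ((s₀ : ℂ), z₀) ∉ Dt) : ∃ ε : ℝ, 0 < ε ∧ EAt Φ s₀ z₀ ε := by
  obtain ⟨z₁, ε, hz₁, hε, hE⟩ := leaf_EAt D hP hΦ s₀
  have hC : CFam Φ s₀ {z : ℂ | ((s₀ : ℂ), z) ∉ Dt} := by
    refine ⟨fun s => ?_, fun z hz => ?_⟩
    · obtain ⟨F, hF, hFΦ⟩ := D.lift Φ hΦ s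
      exact ⟨F, hF.1, fun z h0 => D.cone.zero_notMem (h0 ▸ hF.2.1 z), hFΦ⟩
    · have ho : IsOpen {q : ℝ × ℂ | ((q.1 : ℂ), q.2) ∉ Dt} := by
        have hc : Continuous fun q : ℝ × ℂ => (((q.1 : ℂ), q.2) : ℂ × ℂ) :=
          (Complex.continuous_ofReal.comp continuous_fst).prodMk continuous_snd
        exact D.dt_closed.isOpen_compl.preimage hc
      filter_upwards [ho.mem_nhds hz] with q hq
      exact smo_cont D.cone (D.smo Φ hΦ q.1 q.2 hq)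
  exact spread hC (dt_leaf D s₀).1 (dt_leaf D s₀).2.isPreconnected hz₁ hε hE z₀ h

end Pool.Agent.G3.C
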