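import Pool.Agent.G3.C.EDefs

/-!
# G3 C ZCount: the number of zeros of a linear form on a curve

Jensen's inequality: if the circle mean of `log ‖h‖` with centre `z₁` and radius `R` is at most `log ‖h z₁‖ + n log 2` then the entire function `h` has at most `n` zeros
in `closedBall z₁ (R / 2)`, in the form `h = q g` with a polynomial `q` of degree at most `n` and `g` without zeros there.
-/

set_option autoImplicit false

open Topology Filter Metric Set

namespace Pool.Agent.G3.C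

open Pool.Agent.H36.BP (EN fs wd)
open Pool.Agent.H62.EF (MN pr)

variable {N : ℕ}

private theorem zc_int {h : ℂ → ℂ} (hh : Differentiable ℂ h) (z₁ : ℂ) (R : ℝ) : CircleIntegrable (fun z => Real.log ‖h z‖) z₁ R :=
  MeromorphicOn.circleIntegrable_log_norm fun z _ => (hh.analyticAt z).meromorphicAt

/-- Jensen: the excess is nonnegative -/
private theorem zc_nonneg {h : ℂ → ℂ} (hh : Differentiable ℂ h) {z₁ : ℂ} (h0 : h z₁ ≠ 0) {R : ℝ} (hR : 0 < R) :
    Real.log ‖h z₁‖ ≤ Real.circleAverage (fun z => Real.log ‖h z‖) z₁ R := by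
  have hana : AnalyticOnNhd ℂ h (closedBall z₁ |R|) := fun z _ => hh.analyticAt z
  rw [AnalyticOnNhd.circleAverage_log_norm hR.ne' hana h0]
  have h1 : 0 ≤ ∑ᶠ u, (MeromorphicOn.divisor h (closedBall z₁ |R|) u : ℝ) * Real.log (R * ‖z₁ - u‖⁻¹) := by
    apply finsum_nonneg
    intro u
    by_cases hu : u ∈ closedBall z₁ |R|
    · apply mul_nonneg
      · have := MeromorphicOn.AnalyticOnNhd.divisor_nonneg hana u
        exact_mod_cast this
      · by_cases huc : u = z₁
        · simp [huc]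
        · apply Real.log_nonneg
          have h2 : 0 < ‖z₁ - u‖ := by
            rw [norm_pos_iff, sub_ne_zero]
            exact fun h => huc h.symm
          have h3 : ‖z₁ - u‖ ≤ R := by
            rw [abs_of_pos hR, mem_closedBall, dist_comm, dist_eq_norm] at hu
            exact hu
          rw [← div_eq_mul_inv, one_le_div h2]
          exact h3
    · simp [hu]
  linarith

/-- one zero -/
private theorem zc_step {h₁ : ℂ → ℂ} (hh : Differentiable ℂ h₁) {z₁ : ℂ} (h0 : h₁ z₁ ≠ 0) {R : ℝ} (hR : 0 < R) {a : ℂ} (ha : a ∈ closedBall z₁ (R / 2)) (haz : z₁ ≠ a) :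
    Real.circleAverage (fun z => Real.log ‖h₁ z‖) z₁ R - Real.log ‖h₁ z₁‖ + Real.log 2 ≤
      Real.circleAverage (fun z => Real.log ‖(z - a) * h₁ z‖) z₁ R - Real.log ‖(z₁ - a) * h₁ z₁‖ := by
  have hana : AnalyticOnNhd ℂ h₁ univ := fun z _ => hh.analyticAt z
  have hcod : ∀ᶠ z in codiscreteWithin (univ : Set ℂ), h₁ z ≠ 0 := by
    rcases hana.eqOn_zero_or_eventually_ne_zero_of_preconnected isPreconnected_univ with h | h
    · exact absurd (h (mem_univ z₁)) h0
    · exact h
  have hcod' : ∀ᶠ z in codiscreteWithin (univ : Set ℂ), z - a ≠ 0 := by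
    have h2 : AnalyticOnNhd ℂ (fun z : ℂ => z - a) univ := fun z _ => analyticAt_id.sub analyticAt_const
    rcases h2.eqOn_zero_or_eventually_ne_zero_of_preconnected isPreconnected_univ with h | h
    · exact absurd (h (mem_univ z₁)) (sub_ne_zero.2 haz)
    · exact h
  have e : Real.circleAverage (fun z => Real.log ‖(z - a) * h₁ z‖) z₁ R = Real.circleAverage (fun z => Real.log ‖z - a‖ + Real.log ‖h₁ z‖) z₁ R := by
    refine Real.circleAverage_congr_codiscreteWithin ?_ hR.ne'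
    have h3 := (hcod.and hcod').filter_mono (codiscreteWithin_mono (subset_univ (sphere z₁ |R|)))
    filter_upwards [h3] with z hz
    rw [norm_mul, Real.log_mul (norm_ne_zero_iff.2 hz.2) (norm_ne_zero_iff.2 hz.1)]
  have ha' : a ∈ closedBall z₁ |R| := by
    rw [abs_of_pos hR]
    exact closedBall_subset_closedBall (by linarith) ha
  rw [e, Real.circleAverage_fun_add (zc_int (by fun_prop) z₁ R) (zc_int hh z₁ R), circleAverage_log_norm_sub_const_of_mem_closedBall ha', norm_mul,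
    Real.log_mul (norm_ne_zero_iff.2 (sub_ne_zero.2 haz)) (norm_ne_zero_iff.2 h0)]
  have h4 : Real.log ‖z₁ - a‖ ≤ Real.log (R / 2) := by
    refine Real.log_le_log (norm_pos_iff.2 (sub_ne_zero.2 haz)) ?_
    rw [mem_closedBall, dist_comm, dist_eq_norm] at ha
    exact ha
  rw [Real.log_div hR.ne' two_ne_zero] at h4
  linarith

/-- **the zero count** -/
theorem zcount {z₁ zc : ℂ} {R r : ℝ} (hR : 0 < R) (hsub : closedBall zc r ⊆ closedBall z₁ (R / 2)) (n : ℕ) : ∀ {h : ℂ → ℂ}, Differentiable ℂ h → h z₁ ≠ 0 →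
    Real.circleAverage (fun z => Real.log ‖h z‖) z₁ R < Real.log ‖h z₁‖ + (n + 1) * Real.log 2 →
    ∃ q : Polynomial ℂ, q ≠ 0 ∧ q.natDegree ≤ n ∧ ∃ g : ℂ → ℂ, Differentiable ℂ g ∧ (∀ z ∈ closedBall zc r, g z ≠ 0) ∧ ∀ z, h z = q.eval z * g z := by
  -- dividing by a zero
  have hdiv : ∀ {h : ℂ → ℂ}, Differentiable ℂ h → h z₁ ≠ 0 → ∀ a ∈ closedBall zc r, h a = 0 → ∃ h₁ : ℂ → ℂ, Differentiable ℂ h₁ ∧ h₁ z₁ ≠ 0 ∧
      (∀ z, h z = (z - a) * h₁ z) ∧ Real.circleAverage (fun z => Real.log ‖h₁ z‖) z₁ R - Real.log ‖h₁ z₁‖ + Real.log 2 ≤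
        Real.circleAverage (fun z => Real.log ‖h z‖) z₁ R - Real.log ‖h z₁‖ := by
    intro h hh h0 a ha h1
    have hd : Differentiable ℂ (dslope h a) := by
      rw [← differentiableOn_univ, Complex.differentiableOn_dslope Filter.univ_mem]
      exact hh.differentiableOn
    have he : ∀ z, h z = (z - a) * dslope h a z := by
      intro z
      have h2 := sub_smul_dslope h a z
      rw [smul_eq_mul, h1, sub_zero] at h2
      exact h2.symm
    have haz : z₁ ≠ a := by
      rintro rfl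
      exact h0 h1
    have h3 : dslope h a z₁ ≠ 0 := by
      intro h4
      apply h0
      rw [he z₁, h4, mul_zero]
    refine ⟨dslope h a, hd, h3, he, ?_⟩
    have h5 := zc_step hd h3 hR (hsub ha) haz
    have e1 : (fun z => Real.log ‖h z‖) = fun z => Real.log ‖(z - a) * dslope h a z‖ := by
      funext z
      rw [← he z]
    rw [e1, he z₁]
    exact h5
  induction n with
  | zero =>
    intro h hh h0 hE
    refine ⟨1, one_ne_zero, by simp, h, hh, ?_, fun z => by simp⟩
    intro a ha h1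
    obtain ⟨h₁, hd, h3, -, h4⟩ := hdiv hh h0 a ha h1
    have h5 := zc_nonneg hd h3 hR
    push_cast at hE
    linarith
  | succ n ih =>
    intro h hh h0 hE
    by_cases hz : ∀ z ∈ closedBall zc r, h z ≠ 0
    · exact ⟨1, one_ne_zero, by simp, h, hh, hz, fun z => by simp⟩
    push Not at hz
    obtain ⟨a, ha, h1⟩ := hz
    obtain ⟨h₁, hd, h3, he, h4⟩ := hdiv hh h0 a ha h1
    obtain ⟨q, hq0, hqn, g, hg, hg0, hqg⟩ := ih hd h3 (by
      push_cast at hE
      linarith)
    refine ⟨(Polynomial.X - Polynomial.C a) * q, mul_ne_zero (Polynomial.X_sub_C_ne_zero a) hq0, ?_, g, hg, hg0, fun z => ?_⟩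
    · refine Polynomial.natDegree_mul_le.trans ?_
      rw [Polynomial.natDegree_X_sub_C]
      omega
    · rw [he z, hqg z]
      simp only [Polynomial.eval_mul, Polynomial.eval_sub, Polynomial.eval_X, Polynomial.eval_C]
      ring

/-- the zero count for a linear form on a curve, from the bound of the mean of `log ‖F‖` -/
theorem vcount {z₁ zc : ℂ} {R r C c : ℝ} (hR : 0 < R) (hsub : closedBall zc r ⊆ closedBall z₁ (R / 2)) (hc : 0 < c) :
    ∃ M : ℕ, ∀ (F : ℂ → EN N) (v : EN N), Differentiable ℂ F → (∀ z, F z ≠ 0) → ‖v‖ ≤ 1 →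
      Real.circleAverage (fun z => Real.log ‖F z‖) z₁ R ≤ Real.log ‖F z₁‖ + C → c * ‖F z₁‖ ≤ ‖(inner ℂ v (F z₁) : ℂ)‖ →
      ∃ q : Polynomial ℂ, q ≠ 0 ∧ q.natDegree ≤ M ∧ ∃ g : ℂ → ℂ, Differentiable ℂ g ∧ (∀ z ∈ closedBall zc r, g z ≠ 0) ∧
        ∀ z, inner ℂ v (F z) = q.eval z * g z := by
  have hl2 : 0 < Real.log 2 := Real.log_pos one_lt_two
  refine ⟨⌈(C - Real.log c) / Real.log 2⌉₊, fun F v hF hF0 hv hT hvF => ?_⟩
  have hF1 : 0 < ‖F z₁‖ := norm_pos_iff.2 (hF0 z₁)
  have hh : Differentiable ℂ fun z => (inner ℂ v (F z) : ℂ) := (innerSL ℂ v).differentiable.comp hF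
  have h0 : (inner ℂ v (F z₁) : ℂ) ≠ 0 := by
    rw [← norm_pos_iff]
    exact lt_of_lt_of_le (by positivity) hvF
  refine zcount hR hsub _ (h := fun z => (inner ℂ v (F z) : ℂ)) hh h0 ?_
  have hFi : CircleIntegrable (fun z => Real.log ‖F z‖) z₁ R := by
    refine ContinuousOn.circleIntegrable hR.le ?_
    exact (Real.continuousOn_log.comp hF.continuous.norm.continuousOn fun z _ => (norm_pos_iff.2 (hF0 z)).ne')
  have h1 : Real.circleAverage (fun z => Real.log ‖(inner ℂ v (F z) : ℂ)‖) z₁ R ≤ Real.circleAverage (fun z => Real.log ‖F z‖) z₁ R := by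
    classical
    have hcod : ∀ᶠ z in codiscreteWithin (sphere z₁ |R|), (inner ℂ v (F z) : ℂ) ≠ 0 := by
      have h2 : AnalyticOnNhd ℂ (fun z => (inner ℂ v (F z) : ℂ)) univ := fun z _ => hh.analyticAt z
      rcases h2.eqOn_zero_or_eventually_ne_zero_of_preconnected isPreconnected_univ with h | h
      · exact absurd (h (mem_univ z₁)) h0
      · exact h.filter_mono (codiscreteWithin_mono (subset_univ _))
    obtain ⟨f₁, hf₁⟩ : ∃ f₁ : ℂ → ℝ, ∀ z, f₁ z = if (inner ℂ v (F z) : ℂ) = 0 then Real.log ‖F z‖ else Real.log ‖(inner ℂ v (F z) : ℂ)‖ :=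
      ⟨fun z => if (inner ℂ v (F z) : ℂ) = 0 then Real.log ‖F z‖ else Real.log ‖(inner ℂ v (F z) : ℂ)‖, fun _ => rfl⟩
    have he : (fun z => Real.log ‖(inner ℂ v (F z) : ℂ)‖) =ᶠ[codiscreteWithin (sphere z₁ |R|)] f₁ := by
      filter_upwards [hcod] with z hz
      rw [hf₁, if_neg hz]
    rw [Real.circleAverage_congr_codiscreteWithin he hR.ne']
    refine Real.circleAverage_mono ((zc_int hh z₁ R).congr_codiscreteWithin he) hFi fun z _ => ?_
    rw [hf₁]
    split_ifs with h
    · exact le_rfl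
    · refine Real.log_le_log (norm_pos_iff.2 h) ((norm_inner_le_norm v (F z)).trans ?_)
      calc ‖v‖ * ‖F z‖ ≤ 1 * ‖F z‖ := by gcongr
        _ = ‖F z‖ := one_mul _
  have h2 : Real.log c + Real.log ‖F z₁‖ ≤ Real.log ‖(inner ℂ v (F z₁) : ℂ)‖ := by
    rw [← Real.log_mul hc.ne' hF1.ne']
    exact Real.log_le_log (by positivity) hvF
  have h3 : (C - Real.log c) / Real.log 2 ≤ ⌈(C - Real.log c) / Real.log 2⌉₊ := Nat.le_ceil _
  rw [div_le_iff₀ hl2] at h3
  nlinarith

end Pool.Agent.G3.C
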